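import Pool.Agent.TOR.C9a

namespace Pool.Agent.TOR

open Set

universe u

/-- Conversion (`th m x = if h : x ∈ H m then D.th m ⟨x, h⟩ else 0`; separatedness of the finitely generated modules `H m`: Krull, `Ideal.iInf_pow_smul_eq_bot_of_isLocalRing`; `poly` is `PP M univ`, `rspan` is `mR`, definitionally up to unfolding). -/
theorem exists_FD {R K κ : Type u} [CommRing R] [IsDomain R] [IsDiscreteValuationRing R]
    [IsAdicComplete (IsLocalRing.maximalIdeal R) R] [Field K] [Algebra R K]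
    (hRK : Function.Surjective (algebraMap R K)) [Field κ] [Algebra R κ]
    (hinj : Function.Injective (algebraMap R κ)) {t : R} (ht : Irreducible t) (D : TOD.TData R K κ t) :
    Nonempty (FD R K κ t D.M D.a) := by
  classical
  have hB : BaseR R K t := baseR_of_dvr hRK ht
  have key : ∀ (m : ℕ) (x : κ) (h : x ∈ D.H m), (if h : x ∈ D.H m then D.th m ⟨x, h⟩ else 0) = D.th m ⟨x, h⟩ :=
    fun m x h => dif_pos h
  refine ⟨{
    H := D.H
    th := fun m x => if h : x ∈ D.H m then D.th m ⟨x, h⟩ else 0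
    base := hB
    inj := hinj
    one_mem := D.one_mem
    mul_mem := fun m m' f g hf hg => D.mul_mem hf hg
    sep := ?_
    frac := D.frac
    th_one := ?_
    th_add := ?_
    th_smul := ?_
    th_mul := ?_
    th_zero := ?_
    th_supp := ?_
    th_surj := ?_
    ne := D.poly_nonempty.mono ?_
    bdd := D.poly_bdd.subset ?_
    zero := ?_
    delzant := ?_ }⟩
  · intro m f hf h
    have hfg : (D.H m).FG := D.H_fg m
    have : Module.Finite R (D.H m) := Module.Finite.iff_fg.2 hfg
    have hK : (⨅ i : ℕ, (IsLocalRing.maximalIdeal R) ^ i • (⊤ : Submodule R (D.H m))) = ⊥ :=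
      Ideal.iInf_pow_smul_eq_bot_of_isLocalRing _ (Ideal.IsPrime.ne_top')
    have hmem : (⟨f, hf⟩ : D.H m) ∈ (⨅ i : ℕ, (IsLocalRing.maximalIdeal R) ^ i • (⊤ : Submodule R (D.H m))) := by
      rw [Submodule.mem_iInf]
      intro N
      obtain ⟨g, hg, hfg⟩ := h N
      have h1 : (⟨f, hf⟩ : D.H m) = t ^ N • (⟨g, hg⟩ : D.H m) := Subtype.ext hfg
      rw [h1]
      refine Submodule.smul_mem_smul (Ideal.pow_mem_pow ?_ N) trivial
      exact (IsLocalRing.mem_maximalIdeal t).2 ht.not_isUnit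
    rw [hK, Submodule.mem_bot] at hmem
    exact congrArg Subtype.val hmem
  · rw [key 0 1 D.one_mem]
    exact D.th_one
  · intro m f g hf hg
    rw [key m f hf, key m g hg, key m (f + g) (Submodule.add_mem _ hf hg)]
    exact (D.th m).map_add ⟨f, hf⟩ ⟨g, hg⟩
  · intro m r f hf
    rw [key m f hf, key m (r • f) (Submodule.smul_mem _ r hf)]
    have h1 := (D.th m).map_smul r ⟨f, hf⟩
    rw [← algebraMap_smul K r (D.th m ⟨f, hf⟩)] at h1
    exact h1
  · intro m m' f g hf hg
    rw [key m f hf, key m' g hg, key (m + m') (f * g) (D.mul_mem hf hg)]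
    exact D.th_mul m m' ⟨f, hf⟩ ⟨g, hg⟩
  · intro m f hf h
    rw [key m f hf] at h
    obtain ⟨g, hg⟩ := D.th_ker m ⟨f, hf⟩ h
    exact ⟨g, g.2, congrArg Subtype.val hg⟩
  · intro m f hf u hu
    rw [key m f hf] at hu
    exact D.th_supp m ⟨f, hf⟩ u hu
  · intro m u hu hu'
    obtain ⟨f, hf⟩ := D.th_surj m u hu hu'
    refine ⟨f, f.2, ?_⟩
    rw [key m f f.2]
    exact hf
  · intro p hp
    exact ⟨hp.1, fun l _ => hp.2 l⟩
  · intro p hp
    exact ⟨hp.1, fun l => hp.2 l (Finset.mem_univ l)⟩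
  · intro l
    obtain ⟨p, hp, hp'⟩ := D.poly_zero l
    exact ⟨p, ⟨hp.1, fun l _ => hp.2 l⟩, hp'⟩
  · intro p hp x
    exact D.delzant p ⟨hp.1, fun l => hp.2 l (Finset.mem_univ l)⟩ x

/-- the statement `core` of `Pool.Agent.TD.Main` (in the form of `IsPurelyTranscendental`) -/
theorem core_TD {R K κ : Type u} [CommRing R] [IsDomain R] [IsDiscreteValuationRing R]
    [IsAdicComplete (IsLocalRing.maximalIdeal R) R] [Field K] [Algebra R K]
    (hRK : Function.Surjective (algebraMap R K)) [Field κ] [Algebra R κ]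
    (hinj : Function.Injective (algebraMap R κ)) {t : R} (ht : Irreducible t) (D : TOD.TData R K κ t) :
    ∃ (d : ℕ) (y : Fin d → κ), AlgebraicIndependent R y ∧
      ∀ x : κ, ∃ p q : MvPolynomial (Fin d) R, MvPolynomial.aeval y q ≠ 0 ∧
        x = MvPolynomial.aeval y p / MvPolynomial.aeval y q := by
  obtain ⟨F⟩ := exists_FD hRK hinj ht D
  exact F.purely_transcendental

end Pool.Agent.TOR
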