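import Mathlib

/-!
[TOR] block A, definitions. `M` a subgroup of `ℤ^ι`, `E` a finite set of indices.
-/

namespace Pool.Agent.TOR

open Set

/-- the real span of a subgroup of `ℤ^ι` -/
def mR {ι : Type} (M : AddSubgroup (ι → ℤ)) : Submodule ℝ (ι → ℝ) :=
  Submodule.span ℝ ((fun (m : ι → ℤ) (i : ι) => (m i : ℝ)) '' (M : Set (ι → ℤ)))

/-- the polyhedron of all `p ∈ a + M_ℝ` with `0 ≤ p l` for `l ∈ E` -/
def PP {ι : Type} (M : AddSubgroup (ι → ℤ)) (E : Finset ι) (a : ι → ℝ) : Set (ι → ℝ) :=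
  {p | p - a ∈ mR M ∧ ∀ l ∈ E, 0 ≤ p l}

open Classical in
/-- the indices in `E` at which `p` vanishes -/
noncomputable def tight {ι : Type} (E : Finset ι) (p : ι → ℝ) : Finset ι := E.filter (fun l => p l = 0)

open Classical in
/-- the indices in `τ` at which `p` attains its minimum over `τ` -/
noncomputable def amin {ι : Type} (τ : Finset ι) (p : ι → ℝ) : Finset ι :=
  τ.filter (fun l => ∀ j ∈ τ, p l ≤ p j)

/-- the tight sets of the points of the polyhedron -/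
def TS {ι : Type} (M : AddSubgroup (ι → ℤ)) (E : Finset ι) (a : ι → ℝ) : Set (Finset ι) :=
  {τ | ∃ p ∈ PP M E a, tight E p = τ}

/-- simple polyhedron: the coordinates in a tight set are linearly independent on `M` -/
def Simp {ι : Type} [Fintype ι] (M : AddSubgroup (ι → ℤ)) (E : Finset ι) (a : ι → ℝ) : Prop :=
  ∀ τ ∈ TS M E a, ∀ c : ι → ℝ, (∀ l, l ∉ τ → c l = 0) →
    (∀ m ∈ M, ∑ l, c l * (m l : ℝ) = 0) → c = 0

/-- general position of the hyperplanes `p l = s` in `(a + M_ℝ) × ℝ` -/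
def Gen {ι : Type} [Fintype ι] (M : AddSubgroup (ι → ℤ)) (E : Finset ι) (a : ι → ℝ) : Prop :=
  ∀ (p : ι → ℝ) (s : ℝ), p - a ∈ mR M → ∀ c : ι → ℝ, (∀ l, ¬ (l ∈ E ∧ p l = s) → c l = 0) →
    (∀ m ∈ M, ∑ l, c l * (m l : ℝ) = 0) → ∑ l, c l = 0 → c = 0

/-- two members of `U` meeting inside `L` -/
def Lk {ι : Type} [DecidableEq ι] (U : Set (Finset ι)) (L : Finset ι) (τ τ' : Finset ι) : Prop :=
  τ ∈ U ∧ τ' ∈ U ∧ (τ ∩ τ' ∩ L).Nonempty

/-- the members of `U` meeting `L` are connected through `L` -/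
def Conn {ι : Type} [DecidableEq ι] (U : Set (Finset ι)) (L : Finset ι) : Prop :=
  ∀ τ ∈ U, ∀ τ' ∈ U, (τ ∩ L).Nonempty → (τ' ∩ L).Nonempty → Relation.ReflTransGen (Lk U L) τ τ'

/-- the elements of `M` vanishing on `I` -/
def sub0 {ι : Type} (M : AddSubgroup (ι → ℤ)) (I : Finset ι) : AddSubgroup (ι → ℤ) where
  carrier := {m | m ∈ M ∧ ∀ i ∈ I, m i = 0}
  zero_mem' := ⟨M.zero_mem, fun _ _ => rfl⟩
  add_mem' := by
    rintro a b ⟨ha, ha'⟩ ⟨hb, hb'⟩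
    exact ⟨M.add_mem ha hb, fun i hi => by simp [ha' i hi, hb' i hi]⟩
  neg_mem' := by
    rintro a ⟨ha, ha'⟩
    exact ⟨M.neg_mem ha, fun i hi => by simp [ha' i hi]⟩

theorem mem_amin {ι : Type} {τ : Finset ι} {p : ι → ℝ} {l : ι} :
    l ∈ amin τ p ↔ l ∈ τ ∧ ∀ j ∈ τ, p l ≤ p j := by
  classical
  simp [amin]

theorem mem_tight {ι : Type} {E : Finset ι} {p : ι → ℝ} {l : ι} :
    l ∈ tight E p ↔ l ∈ E ∧ p l = 0 := by
  classical
  simp [tight]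

theorem mem_sub0 {ι : Type} {M : AddSubgroup (ι → ℤ)} {I : Finset ι} {m : ι → ℤ} :
    m ∈ sub0 M I ↔ m ∈ M ∧ ∀ i ∈ I, m i = 0 := Iff.rfl

theorem int_mem_mR {ι : Type} {M : AddSubgroup (ι → ℤ)} {m : ι → ℤ} (hm : m ∈ M) :
    (fun i => (m i : ℝ)) ∈ mR M := Submodule.subset_span ⟨m, hm, rfl⟩

end Pool.Agent.TOR
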