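import Pool.Agent.TOR.A0

namespace Pool.Agent.TOR

open Set

/-- Chain lemma (connectedness of `[0,1]`). Proof: let `S` be the set of all `l ∈ s` reachable from `l0` by the relation.
`A = ⋃_{l ∈ S} Z l ∩ [0,1]` and `B = ⋃_{l ∈ s \ S} Z l ∩ [0,1]` are closed, cover `[0,1]` and are disjoint (a common point of
`Z l`, `l ∈ S`, and `Z l'` makes `l'` reachable). `A` contains `0`; by connectedness (`isPreconnected_Icc`) `B` is empty, so `l1 ∈ S`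
(it contributes the point `1`). -/
theorem chain_interval {α : Type} (Z : α → Set ℝ) (s : Finset α) (hc : ∀ l ∈ s, IsClosed (Z l))
    (hcov : Icc (0 : ℝ) 1 ⊆ ⋃ l ∈ s, Z l) (l0 l1 : α) (h0 : l0 ∈ s) (h0' : (0 : ℝ) ∈ Z l0)
    (h1 : l1 ∈ s) (h1' : (1 : ℝ) ∈ Z l1) :
    Relation.ReflTransGen (fun a b => a ∈ s ∧ b ∈ s ∧ (Z a ∩ Z b ∩ Icc (0 : ℝ) 1).Nonempty) l0 l1 := by
  classical
  by_contra hn
  set R : α → α → Prop := fun a b => a ∈ s ∧ b ∈ s ∧ (Z a ∩ Z b ∩ Icc (0 : ℝ) 1).Nonempty with hR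
  have hA : IsClosed (⋃ l ∈ s.filter (fun l => Relation.ReflTransGen R l0 l), Z l) :=
    isClosed_biUnion_finset fun l hl => hc l (Finset.mem_filter.1 hl).1
  have hB : IsClosed (⋃ l ∈ s.filter (fun l => ¬ Relation.ReflTransGen R l0 l), Z l) :=
    isClosed_biUnion_finset fun l hl => hc l (Finset.mem_filter.1 hl).1
  have hcov' : Icc (0 : ℝ) 1 ⊆ (⋃ l ∈ s.filter (fun l => Relation.ReflTransGen R l0 l), Z l) ∪
      ⋃ l ∈ s.filter (fun l => ¬ Relation.ReflTransGen R l0 l), Z l := by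
    intro t ht
    obtain ⟨l, hl, htl⟩ := mem_iUnion₂.1 (hcov ht)
    by_cases h : Relation.ReflTransGen R l0 l
    · exact Or.inl (mem_iUnion₂.2 ⟨l, Finset.mem_filter.2 ⟨hl, h⟩, htl⟩)
    · exact Or.inr (mem_iUnion₂.2 ⟨l, Finset.mem_filter.2 ⟨hl, h⟩, htl⟩)
  have hpre := isPreconnected_closed_iff.1 (isPreconnected_Icc (a := (0 : ℝ)) (b := 1)) _ _ hA hB hcov'
    ⟨0, left_mem_Icc.2 zero_le_one, mem_iUnion₂.2 ⟨l0, Finset.mem_filter.2 ⟨h0, Relation.ReflTransGen.refl⟩, h0'⟩⟩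
    ⟨1, right_mem_Icc.2 zero_le_one, mem_iUnion₂.2 ⟨l1, Finset.mem_filter.2 ⟨h1, hn⟩, h1'⟩⟩
  obtain ⟨t, ht, hta, htb⟩ := hpre
  obtain ⟨l, hl, htl⟩ := mem_iUnion₂.1 hta
  obtain ⟨m, hm, htm⟩ := mem_iUnion₂.1 htb
  rw [Finset.mem_filter] at hl hm
  exact hm.2 (hl.2.tail ⟨hl.1, hm.1, t, ⟨htl, htm⟩, ht⟩)

end Pool.Agent.TOR
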