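import Pool.Agent.TOR.A6

namespace Pool.Agent.TOR

open Set

/-- The recession cone of a nonempty bounded `PP` is zero: for `p ∈ PP` the points `p + λ δ`, `λ ≥ 0`, lie in `PP`. -/
theorem recession {ι : Type} [Fintype ι] (M : AddSubgroup (ι → ℤ)) (E : Finset ι) (a : ι → ℝ)
    (hne : (PP M E a).Nonempty) (hb : Bornology.IsBounded (PP M E a)) (δ : ι → ℝ) (hδ : δ ∈ mR M)
    (h : ∀ l ∈ E, 0 ≤ δ l) : δ = 0 := by
  obtain ⟨p0, hp0⟩ := hne
  obtain ⟨C, hC⟩ := isBounded_iff_forall_norm_le.1 hb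
  by_contra hne
  have hpos : 0 < ‖δ‖ := norm_pos_iff.2 hne
  have hmem : ∀ t : ℝ, 0 ≤ t → p0 + t • δ ∈ PP M E a := by
    intro t ht
    refine ⟨?_, fun l hl => ?_⟩
    · have h1 : p0 + t • δ - a = (p0 - a) + t • δ := by abel
      rw [h1]
      exact Submodule.add_mem _ hp0.1 (Submodule.smul_mem _ _ hδ)
    · have h1 := hp0.2 l hl
      have h2 := mul_nonneg ht (h l hl)
      simp only [Pi.add_apply, Pi.smul_apply, smul_eq_mul]
      linarith
  have hC0 : 0 ≤ C := (norm_nonneg p0).trans (hC p0 hp0)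
  have ht : 0 ≤ (2 * C + 1) / ‖δ‖ := by positivity
  have h1 := hC _ (hmem _ ht)
  have h2 := hC p0 hp0
  have h3 : ‖((2 * C + 1) / ‖δ‖) • δ‖ = 2 * C + 1 := by
    rw [norm_smul, Real.norm_of_nonneg ht]
    field_simp
  have h4 : ‖((2 * C + 1) / ‖δ‖) • δ‖ ≤ ‖p0 + ((2 * C + 1) / ‖δ‖) • δ‖ + ‖p0‖ := by
    have h5 : ((2 * C + 1) / ‖δ‖) • δ = (p0 + ((2 * C + 1) / ‖δ‖) • δ) - p0 := by abel
    conv_lhs => rw [h5]
    exact norm_sub_le _ _
  linarith

/-- Uniform boundedness. Proof: by `recession` and compactness of the unit sphere of `mR M` (a closed subspace of `ι → ℝ`) there is `κ > 0` such that every `δ ∈ mR M`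
has `‖δ‖ * κ ≤ -δ l` for some `l ∈ E`, unless `δ = 0` (if not, take unit vectors `δ_n` with `δ_n l ≥ -1/n` for all `l ∈ E` and a limit). For `p ∈ PP M E a'` and `δ = p - a'`:
`-δ l = a' l - p l ≤ a' l ≤ |a l| + B`. -/
theorem bdd_unif {ι : Type} [Fintype ι] (M : AddSubgroup (ι → ℤ)) (E : Finset ι) (a : ι → ℝ)
    (hne : (PP M E a).Nonempty) (hb : Bornology.IsBounded (PP M E a)) (B : ℝ) :
    ∃ C : ℝ, ∀ a' : ι → ℝ, (∀ l, |a' l - a l| ≤ B) → ∀ p ∈ PP M E a', ∀ l, |p l| ≤ C := by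
  classical
  set g : (ι → ℝ) → ℝ := fun δ => ∑ l ∈ E, max (-δ l) 0 with hg
  have hgc : Continuous g := by
    refine continuous_finsetSum _ fun l _ => ?_
    exact ((continuous_apply l).neg).max continuous_const
  have hgpos : ∀ δ ∈ mR M, δ ≠ 0 → 0 < g δ := by
    intro δ hδ hne0
    have h1 : 0 ≤ g δ := Finset.sum_nonneg fun l _ => le_max_right _ _
    refine lt_of_le_of_ne h1 fun h2 => ?_
    apply hne0
    refine recession M E a hne hb δ hδ fun l hl => ?_
    have h3 := (Finset.sum_eq_zero_iff_of_nonneg (fun l _ => le_max_right (-δ l) 0)).1 h2.symm l hl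
    have h4 := le_max_left (-δ l) 0
    rw [h3] at h4
    linarith
  have hghom : ∀ (t : ℝ) (δ : ι → ℝ), 0 ≤ t → g (t • δ) = t * g δ := by
    intro t δ ht
    simp only [hg, Finset.mul_sum]
    refine Finset.sum_congr rfl fun l _ => ?_
    rw [mul_max_of_nonneg _ _ ht, mul_zero, Pi.smul_apply, smul_eq_mul, mul_neg]
  obtain ⟨κ, hκ, hκ'⟩ : ∃ κ : ℝ, 0 < κ ∧ ∀ δ ∈ mR M, κ * ‖δ‖ ≤ g δ := by
    have hcl : IsClosed ((mR M : Submodule ℝ (ι → ℝ)) : Set (ι → ℝ)) :=
      Submodule.closed_of_finiteDimensional _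
    have hcomp : IsCompact (Metric.sphere (0 : ι → ℝ) 1 ∩ ((mR M : Submodule ℝ (ι → ℝ)) : Set (ι → ℝ))) :=
      (isCompact_sphere 0 1).inter_right hcl
    by_cases hK : (Metric.sphere (0 : ι → ℝ) 1 ∩ ((mR M : Submodule ℝ (ι → ℝ)) : Set (ι → ℝ))).Nonempty
    · obtain ⟨δ0, hδ0, hmin⟩ := hcomp.exists_isMinOn hK hgc.continuousOn
      have hn0 : ‖δ0‖ = 1 := by simpa using hδ0.1
      have hne0 : δ0 ≠ 0 := by
        intro h
        rw [h, norm_zero] at hn0
        exact zero_ne_one hn0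
      refine ⟨g δ0, hgpos δ0 hδ0.2 hne0, fun δ hδ => ?_⟩
      by_cases h0 : δ = 0
      · subst h0
        rw [norm_zero, mul_zero]
        exact Finset.sum_nonneg fun l _ => le_max_right _ _
      · have hpos : 0 < ‖δ‖ := norm_pos_iff.2 h0
        have h1 : ‖δ‖⁻¹ • δ ∈ Metric.sphere (0 : ι → ℝ) 1 ∩ ((mR M : Submodule ℝ (ι → ℝ)) : Set (ι → ℝ)) := by
          refine ⟨?_, Submodule.smul_mem _ _ hδ⟩
          rw [mem_sphere_zero_iff_norm, norm_smul, norm_inv, norm_norm, inv_mul_cancel₀ hpos.ne']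
        have h2 : g δ0 ≤ g (‖δ‖⁻¹ • δ) := hmin h1
        rw [hghom _ _ (by positivity)] at h2
        have h3 := mul_le_mul_of_nonneg_right h2 hpos.le
        have h4 : ‖δ‖⁻¹ * g δ * ‖δ‖ = g δ := by field_simp
        rw [h4] at h3
        exact h3
    · refine ⟨1, one_pos, fun δ hδ => ?_⟩
      by_cases h0 : δ = 0
      · subst h0
        rw [norm_zero, mul_zero]
        exact Finset.sum_nonneg fun l _ => le_max_right _ _
      · exfalso
        apply hK
        have hpos : 0 < ‖δ‖ := norm_pos_iff.2 h0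
        refine ⟨‖δ‖⁻¹ • δ, ?_, Submodule.smul_mem _ _ hδ⟩
        rw [mem_sphere_zero_iff_norm, norm_smul, norm_inv, norm_norm, inv_mul_cancel₀ hpos.ne']
  refine ⟨(∑ l ∈ E, (|a l| + B)) / κ + ‖a‖ + B, fun a' ha' p hp l => ?_⟩
  have hδ := hp.1
  have h1 := hκ' (p - a') hδ
  have h2 : g (p - a') ≤ ∑ l ∈ E, (|a l| + B) := by
    refine Finset.sum_le_sum fun j hj => ?_
    have h3 := hp.2 j hj
    have h4 := abs_le.1 (ha' j)
    have h5 := le_abs_self (a j)
    have h6 := abs_nonneg (a j)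
    have h7 : 0 ≤ B := (abs_nonneg _).trans (ha' j)
    rw [Pi.sub_apply]
    exact max_le (by linarith [h4.2]) (by linarith)
  have h3 : ‖p - a'‖ ≤ (∑ l ∈ E, (|a l| + B)) / κ := by
    rw [le_div_iff₀ hκ]
    linarith
  have h4 : |p l - a' l| ≤ ‖p - a'‖ := by
    have := norm_le_pi_norm (p - a') l
    simpa using this
  have h5 : |a l| ≤ ‖a‖ := by
    have := norm_le_pi_norm a l
    simpa using this
  have h6 := ha' l
  have h7 : |p l| ≤ |p l - a' l| + |a' l - a l| + |a l| := by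
    have h8 : p l = (p l - a' l) + (a' l - a l) + a l := by ring
    conv_lhs => rw [h8]
    exact abs_add_three _ _ _
  linarith

theorem bdd_all {ι : Type} [Fintype ι] (M : AddSubgroup (ι → ℤ)) (E : Finset ι) (a : ι → ℝ)
    (hne : (PP M E a).Nonempty) (hb : Bornology.IsBounded (PP M E a)) (a' : ι → ℝ) :
    Bornology.IsBounded (PP M E a') := by
  classical
  obtain ⟨C, hC⟩ := bdd_unif M E a hne hb (‖a' - a‖)
  have h1 : ∀ l, |a' l - a l| ≤ ‖a' - a‖ := by
    intro l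
    have := norm_le_pi_norm (a' - a) l
    simpa using this
  rw [isBounded_iff_forall_norm_le]
  refine ⟨|C|, fun p hp => ?_⟩
  rw [pi_norm_le_iff_of_nonneg (abs_nonneg C)]
  intro l
  rw [Real.norm_eq_abs]
  exact (hC a' h1 p hp l).trans (le_abs_self C)

end Pool.Agent.TOR
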