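import Pool.Agent.TOR.A8
import Pool.Agent.TOR.A9

namespace Pool.Agent.TOR

open Set

theorem a10_unif {α : Type} (S : Set α) (hS : S.Finite) (P : α → ℝ → Prop)
    (hmono : ∀ x ε ε', ε ≤ ε' → P x ε' → P x ε) (h : ∀ x ∈ S, ∃ ε > 0, P x ε) :
    ∃ ε > 0, ∀ x ∈ S, P x ε := by
  induction S, hS using Set.Finite.induction_on with
  | empty => exact ⟨1, one_pos, fun x hx => hx.elim⟩
  | insert _ _ ih =>
    obtain ⟨e1, h1, H1⟩ := ih fun x hx => h x (Set.mem_insert_of_mem _ hx)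
    obtain ⟨e2, h2, H2⟩ := h _ (Set.mem_insert _ _)
    refine ⟨min e1 e2, lt_min h1 h2, fun x hx => ?_⟩
    rcases hx with rfl | hx
    · exact hmono _ _ _ (min_le_right _ _) H2
    · exact hmono _ _ _ (min_le_left _ _) (H1 x hx)

theorem a10_lower {α : Type} (s : Finset α) (p : α → ℝ) (h : ∀ j ∈ s, 0 < p j) :
    ∃ μ > 0, ∀ j ∈ s, μ ≤ p j := by
  rcases s.eq_empty_or_nonempty with rfl | hs
  · exact ⟨1, one_pos, fun j hj => absurd hj (by simp)⟩
  · obtain ⟨j0, hj0, hmin⟩ := s.exists_min_image p hs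
    exact ⟨p j0, h j0 hj0, hmin⟩

/-- bounded section -/
theorem a10_section {ι : Type} [Fintype ι] (M : AddSubgroup (ι → ℤ)) (τ : Finset ι)
    (hind : ∀ c : ι → ℝ, (∀ l, l ∉ τ → c l = 0) → (∀ m ∈ M, ∑ l, c l * (m l : ℝ) = 0) → c = 0) :
    ∃ C : ℝ, 0 ≤ C ∧ ∀ (x : ι → ℝ) (B : ℝ), (∀ l, |x l| ≤ B) →
      ∃ δ ∈ mR M, (∀ l ∈ τ, δ l = x l) ∧ ∀ j, |δ j| ≤ C * B := by
  classical
  choose d hd hd' using fun l : ι => exists_delta M τ hind (Pi.single l 1)
  refine ⟨∑ l ∈ τ, ‖d l‖, Finset.sum_nonneg fun l _ => norm_nonneg _, fun x B hx => ?_⟩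
  refine ⟨∑ l ∈ τ, x l • d l, Submodule.sum_mem _ fun l _ => Submodule.smul_mem _ _ (hd l), ?_, ?_⟩
  · intro j hj
    rw [Finset.sum_apply, Finset.sum_eq_single j]
    · rw [Pi.smul_apply, smul_eq_mul, hd' j j hj, Pi.single_eq_same, mul_one]
    · intro l _ hlj
      rw [Pi.smul_apply, smul_eq_mul, hd' l j hj, Pi.single_eq_of_ne hlj.symm, mul_zero]
    · intro h
      exact absurd hj h
  · intro j
    rw [Finset.sum_apply]
    refine (Finset.abs_sum_le_sum_abs _ _).trans ?_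
    rw [Finset.sum_mul]
    refine Finset.sum_le_sum fun l _ => ?_
    rw [Pi.smul_apply, smul_eq_mul, abs_mul, mul_comm]
    have h1 : |d l j| ≤ ‖d l‖ := by
      have := norm_le_pi_norm (d l) j
      simpa using this
    exact mul_le_mul h1 (hx l) (abs_nonneg _) (norm_nonneg _)

/-- (G5) first half: every tight set of `PP M E a` is a tight set of `PP M E a'` for `a'` near `a`. Proof: for each of the finitely many `τ ∈ TS M E a` choose `p` with
`tight E p = τ`. By `exists_delta` (linear algebra: the surjection `mR M → ℝ^τ` has a bounded linear section) there is a constant `C` and for every `x` a `δ ∈ mR M` with `δ l = x l` (`l ∈ τ`),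
`|δ j| ≤ C max |x|`. Put `p' = p + (a' - a) + δ` with `δ l = -(a' l - a l)` for `l ∈ τ`. -/
theorem perturb1 {ι : Type} [Fintype ι] (M : AddSubgroup (ι → ℤ)) (E : Finset ι) (a : ι → ℝ)
    (hs : Simp M E a) :
    ∃ ε > 0, ∀ a' : ι → ℝ, (∀ l, |a' l - a l| < ε) → TS M E a ⊆ TS M E a' := by
  classical
  refine (a10_unif (TS M E a) (Set.toFinite _)
    (fun τ ε => ∀ a' : ι → ℝ, (∀ l, |a' l - a l| < ε) → τ ∈ TS M E a') ?_ ?_).imp fun ε h =>
      ⟨h.1, fun a' ha' τ hτ => h.2 τ hτ a' ha'⟩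
  · intro τ ε ε' hle h a' ha'
    exact h a' fun l => (ha' l).trans_le hle
  · intro τ hτ
    obtain ⟨C, hC, hsec⟩ := a10_section M τ (hs τ hτ)
    obtain ⟨p, hp, hpτ⟩ := hτ
    obtain ⟨μ, hμ, hμ'⟩ := a10_lower (E.filter (fun j => j ∉ τ)) p (by
      intro j hj
      rw [Finset.mem_filter] at hj
      refine lt_of_le_of_ne (hp.2 j hj.1) fun h => hj.2 ?_
      rw [← hpτ]
      exact mem_tight.2 ⟨hj.1, h.symm⟩)
    refine ⟨μ / (2 * (1 + C)), by positivity, fun a' ha' => ?_⟩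
    set ε := μ / (2 * (1 + C)) with hε
    have hεμ : ε + C * ε = μ / 2 := by
      rw [hε]
      field_simp
    obtain ⟨δ, hδ, hδτ, hδb⟩ := hsec (fun l => -(a' l - a l)) ε (fun l => by
      rw [abs_neg]
      exact (ha' l).le)
    refine ⟨p + (a' - a) + δ, ⟨?_, fun j hj => ?_⟩, ?_⟩
    · have h1 : p + (a' - a) + δ - a' = (p - a) + δ := by abel
      rw [h1]
      exact Submodule.add_mem _ hp.1 hδ
    · by_cases hjτ : j ∈ τ
      · have h1 : p j = 0 := by
          have h2 : j ∈ tight E p := by rw [hpτ]; exact hjτ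
          exact (mem_tight.1 h2).2
        have h2 := hδτ j hjτ
        simp only [Pi.add_apply, Pi.sub_apply]
        rw [h1, h2]
        linarith
      · have h1 := hμ' j (Finset.mem_filter.2 ⟨hj, hjτ⟩)
        have h2 := abs_lt.1 (ha' j)
        have h3 := abs_le.1 (hδb j)
        simp only [Pi.add_apply, Pi.sub_apply]
        linarith [h2.1, h3.1]
    · ext j
      rw [mem_tight]
      constructor
      · rintro ⟨hj, h0⟩
        by_contra hjτ
        have h1 := hμ' j (Finset.mem_filter.2 ⟨hj, hjτ⟩)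
        have h2 := abs_lt.1 (ha' j)
        have h3 := abs_le.1 (hδb j)
        simp only [Pi.add_apply, Pi.sub_apply] at h0
        linarith [h2.1, h3.1]
      · intro hjτ
        have h2 : j ∈ tight E p := by rw [hpτ]; exact hjτ
        have h1 := mem_tight.1 h2
        refine ⟨h1.1, ?_⟩
        simp only [Pi.add_apply, Pi.sub_apply]
        rw [h1.2, hδτ j hjτ]
        ring

end Pool.Agent.TOR
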