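import Pool.Agent.TOR.A10

namespace Pool.Agent.TOR

open Set

/-- (G5) second half. Proof: otherwise there are `a_n → a` and `p_n ∈ PP M E a_n` with `tight E p_n ∉ TS M E a`; passing to a subsequence the finite sets are one `τ`, and `p_n → p`
(`bdd_unif`), `p ∈ PP M E a` (`p_n - a_n ∈ mR M` closed), `τ ⊆ tight E p`, so `τ ∈ TS M E a` by `TS_sub`. Contradiction. -/
theorem perturb2 {ι : Type} [Fintype ι] (M : AddSubgroup (ι → ℤ)) (E : Finset ι) (a : ι → ℝ)
    (hne : (PP M E a).Nonempty) (hb : Bornology.IsBounded (PP M E a)) (hs : Simp M E a) :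
    ∃ ε > 0, ∀ a' : ι → ℝ, (∀ l, |a' l - a l| < ε) → TS M E a' ⊆ TS M E a := by
  classical
  by_contra hcon
  push Not at hcon
  have hex : ∀ n : ℕ, ∃ (a' p : ι → ℝ), (∀ l, |a' l - a l| < 1 / ((n : ℝ) + 1)) ∧ p ∈ PP M E a' ∧
      tight E p ∉ TS M E a := by
    intro n
    obtain ⟨a', ha', hT⟩ := hcon (1 / ((n : ℝ) + 1)) (by positivity)
    obtain ⟨τ, hτ, hτ'⟩ := Set.not_subset.1 hT
    obtain ⟨p, hp, hpτ⟩ := hτ
    exact ⟨a', p, ha', hp, by rw [hpτ]; exact hτ'⟩
  choose A P hA hP hPt using hex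
  obtain ⟨C, hC⟩ := bdd_unif M E a hne hb 1
  have hA1 : ∀ n l, |A n l - a l| ≤ 1 := by
    intro n l
    refine (hA n l).le.trans ?_
    rw [div_le_one (by positivity)]
    have : (0 : ℝ) ≤ n := Nat.cast_nonneg n
    linarith
  have hball : ∀ n, P n ∈ Metric.closedBall (0 : ι → ℝ) (max C 0) := by
    intro n
    rw [mem_closedBall_zero_iff, pi_norm_le_iff_of_nonneg (le_max_right _ _)]
    intro l
    rw [Real.norm_eq_abs]
    exact (hC (A n) (hA1 n) (P n) (hP n) l).trans (le_max_left _ _)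
  obtain ⟨p, -, φ, hφ, hlim⟩ := (isCompact_closedBall (0 : ι → ℝ) (max C 0)).tendsto_subseq hball
  have hAlim : Filter.Tendsto (fun n => A (φ n)) Filter.atTop (nhds a) := by
    rw [tendsto_pi_nhds]
    intro l
    rw [Metric.tendsto_atTop]
    intro ε hε
    obtain ⟨N, hN⟩ := exists_nat_one_div_lt hε
    refine ⟨N, fun n hn => ?_⟩
    rw [Real.dist_eq]
    refine (hA (φ n) l).trans (lt_of_le_of_lt ?_ hN)
    apply one_div_le_one_div_of_le (by positivity)
    have h1 : N ≤ φ n := hn.trans (hφ.id_le n)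
    have h2 : (N : ℝ) ≤ φ n := by exact_mod_cast h1
    linarith
  have hcl : IsClosed ((mR M : Submodule ℝ (ι → ℝ)) : Set (ι → ℝ)) :=
    Submodule.closed_of_finiteDimensional _
  have hpj : ∀ j, Filter.Tendsto (fun n => P (φ n) j) Filter.atTop (nhds (p j)) := by
    intro j
    exact (tendsto_pi_nhds.1 hlim) j
  have hpPP : p ∈ PP M E a := by
    refine ⟨?_, fun j hj => ?_⟩
    · have h1 : Filter.Tendsto (fun n => P (φ n) - A (φ n)) Filter.atTop (nhds (p - a)) :=
        hlim.sub hAlim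
      exact hcl.mem_of_tendsto h1 (Filter.Eventually.of_forall fun n => (hP (φ n)).1)
    · exact ge_of_tendsto (hpj j) (Filter.Eventually.of_forall fun n => (hP (φ n)).2 j hj)
  have hev : ∀ᶠ n in Filter.atTop, ∀ j ∈ E, 0 < p j → 0 < P (φ n) j := by
    rw [Filter.eventually_all_finset]
    intro j _
    by_cases h : 0 < p j
    · filter_upwards [(hpj j).eventually (lt_mem_nhds h)] with n hn _
      exact hn
    · exact Filter.Eventually.of_forall fun n h' => absurd h' h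
  obtain ⟨n, hn⟩ := hev.exists
  apply hPt (φ n)
  refine TS_sub M E a hs _ (tight E p) ?_ ⟨p, hpPP, rfl⟩
  intro j hj
  rw [mem_tight] at hj ⊢
  refine ⟨hj.1, ?_⟩
  by_contra h0
  have h1 : 0 < p j := lt_of_le_of_ne (hpPP.2 j hj.1) (Ne.symm h0)
  have h2 := hn j hj.1 h1
  rw [hj.2] at h2
  exact lt_irrefl _ h2

theorem perturb {ι : Type} [Fintype ι] (M : AddSubgroup (ι → ℤ)) (E : Finset ι) (a : ι → ℝ)
    (hne : (PP M E a).Nonempty) (hb : Bornology.IsBounded (PP M E a)) (hs : Simp M E a) :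
    ∃ ε > 0, ∀ a' : ι → ℝ, (∀ l, |a' l - a l| < ε) → TS M E a' = TS M E a := by
  obtain ⟨e1, h1, H1⟩ := perturb1 M E a hs
  obtain ⟨e2, h2, H2⟩ := perturb2 M E a hne hb hs
  refine ⟨min e1 e2, lt_min h1 h2, fun a' ha => Subset.antisymm (H2 a' fun l => ?_) (H1 a' fun l => ?_)⟩
  · exact lt_of_lt_of_le (ha l) (min_le_right _ _)
  · exact lt_of_lt_of_le (ha l) (min_le_left _ _)

end Pool.Agent.TOR
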