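import Pool.Agent.TOR.A8

namespace Pool.Agent.TOR

open Set

/-- A real solution of a homogeneous linear system with integer coefficients, supported in `B`, forces an integral solution supported in `B`.
(the relations on `M` supported in `B` with `∑ c = 0` when `z = true`.) Proof: the space of rational solutions tensored with `ℝ` is the space of real solutions; e.g. write the coordinates of
the real solution in a basis over `ℚ` of the `ℚ`-span of its finitely many values: `c l = ∑_k b_k c_k l` with `c_k l ∈ ℚ`, `b_k` linearly independent over `ℚ`; each `c_k` is a solution, some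
`c_k ≠ 0`, all supported where `c` is; clear denominators. -/
theorem rat_rel {ι : Type} [Fintype ι] (M : AddSubgroup (ι → ℤ)) (c : ι → ℝ) (hc : c ≠ 0)
    (h : ∀ m ∈ M, ∑ l, c l * (m l : ℝ) = 0) :
    ∃ d : ι → ℤ, d ≠ 0 ∧ (∀ l, c l = 0 → d l = 0) ∧ (∀ m ∈ M, ∑ l, d l * m l = 0) ∧
      (∑ l, c l = 0 → ∑ l, d l = 0) := by
  classical
  obtain ⟨l0, hl0⟩ : ∃ l0, c l0 ≠ 0 := by
    by_contra hcon
    push Not at hcon
    exact hc (funext hcon)
  obtain ⟨φ, hφ⟩ : ∃ φ : Module.Dual ℚ ℝ, φ (c l0) ≠ 0 := by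
    by_contra hcon
    push Not at hcon
    exact hl0 ((Module.forall_dual_apply_eq_zero_iff ℚ (c l0)).1 hcon)
  let N : ℕ := ∏ l, (φ (c l)).den
  have hN : N ≠ 0 := Finset.prod_ne_zero_iff.2 fun l _ => (φ (c l)).den_nz
  have hint : ∀ l, ∃ z : ℤ, (z : ℚ) = (N : ℚ) * φ (c l) := by
    intro l
    have h1 : N = (φ (c l)).den * ∏ j ∈ Finset.univ.erase l, (φ (c j)).den :=
      (Finset.mul_prod_erase Finset.univ (fun j => (φ (c j)).den) (Finset.mem_univ l)).symm
    refine ⟨(φ (c l)).num * (∏ j ∈ Finset.univ.erase l, (φ (c j)).den : ℕ), ?_⟩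
    rw [h1]
    push_cast
    have h2 := Rat.mul_den_eq_num (φ (c l))
    rw [← h2]
    ring
  choose d hd using hint
  refine ⟨d, ?_, ?_, ?_, ?_⟩
  · intro h0
    have h1 := hd l0
    rw [h0] at h1
    simp only [Pi.zero_apply, Int.cast_zero] at h1
    rcases mul_eq_zero.1 h1.symm with h2 | h2
    · exact hN (by exact_mod_cast h2)
    · exact hφ h2
  · intro l hl
    have h1 := hd l
    rw [hl, map_zero, mul_zero] at h1
    exact_mod_cast h1
  · intro m hm
    have h1 := congrArg φ (h m hm)
    rw [map_zero, map_sum] at h1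
    have h2 : ((∑ l, d l * m l : ℤ) : ℚ) = (N : ℚ) * ∑ l, φ (c l * (m l : ℝ)) := by
      push_cast
      rw [Finset.mul_sum]
      refine Finset.sum_congr rfl fun l _ => ?_
      have h3 : c l * (m l : ℝ) = (m l : ℚ) • c l := by
        rw [Rat.smul_def]
        push_cast
        ring
      rw [hd l, h3, map_smul, smul_eq_mul]
      ring
    rw [h1, mul_zero] at h2
    exact_mod_cast h2
  · intro hs
    have h1 := congrArg φ hs
    rw [map_zero, map_sum] at h1
    have h2 : ((∑ l, d l : ℤ) : ℚ) = (N : ℚ) * ∑ l, φ (c l) := by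
      push_cast
      rw [Finset.mul_sum]
      exact Finset.sum_congr rfl fun l _ => hd l
    rw [h1, mul_zero] at h2
    exact_mod_cast h2

end Pool.Agent.TOR
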