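import Pool.Agent.TOR.A11

namespace Pool.Agent.TOR

open Set

/-- integral relations supported in `B` -/
def a11b_Rel {ι : Type} [Fintype ι] (M : AddSubgroup (ι → ℤ)) (B : Finset ι) (d : ι → ℤ) : Prop :=
  d ≠ 0 ∧ (∀ l, l ∉ B → d l = 0) ∧ (∀ m ∈ M, ∑ l, d l * m l = 0) ∧ ∑ l, d l = 0

/-- a small rational `x` with `∑ d l (a l + x ^ (k l + 1)) ≠ 0` for finitely many `d` -/
theorem a11b_choose {ι : Type} [Fintype ι] (E : Finset ι) (a : ι → ℚ) (D : Set (ι → ℤ)) (hD : D.Finite)
    (h0 : ∀ d ∈ D, d ≠ 0) (hE : ∀ d ∈ D, ∀ l, l ∉ E → d l = 0) (k : ι → ℕ) (hk : Function.Injective k)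
    (δ : ℚ) (hδ : 0 < δ) :
    ∃ x : ℚ, 0 < x ∧ x < δ ∧ ∀ d ∈ D, ∑ l, (d l : ℚ) * a l + ∑ l, (d l : ℚ) * x ^ (k l + 1) ≠ 0 := by
  classical
  set P : (ι → ℤ) → Polynomial ℚ := fun d =>
    Polynomial.C (∑ l, (d l : ℚ) * a l) + ∑ l, Polynomial.C (d l : ℚ) * Polynomial.X ^ (k l + 1) with hP
  have hP0 : ∀ d ∈ D, P d ≠ 0 := by
    intro d hd h
    obtain ⟨l0, hl0⟩ := Function.ne_iff.1 (h0 d hd)
    have h1 : (P d).coeff (k l0 + 1) = 0 := by rw [h]; simp
    simp only [hP, Polynomial.coeff_add, Polynomial.finsetSum_coeff, Polynomial.coeff_C_mul,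
      Polynomial.coeff_X_pow] at h1
    rw [Polynomial.coeff_C, if_neg (by omega), zero_add, Finset.sum_eq_single l0] at h1
    · rw [if_pos rfl, mul_one] at h1
      exact hl0 (by exact_mod_cast h1)
    · intro b _ hb
      rw [if_neg, mul_zero]
      intro h2
      apply hb
      apply hk
      omega
    · intro h2
      exact absurd (Finset.mem_univ _) h2
  have hbad : (⋃ d ∈ D, {x : ℚ | (P d).eval x = 0}).Finite := by
    refine hD.biUnion fun d hd => ?_
    have h1 : {x : ℚ | (P d).eval x = 0} ⊆ ((P d).roots.toFinset : Set ℚ) := by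
      intro x hx
      rw [Finset.mem_coe, Multiset.mem_toFinset, Polynomial.mem_roots (hP0 d hd)]
      exact hx
    exact (Finset.finite_toSet _).subset h1
  obtain ⟨x, hx1, hx2⟩ := ((Set.Ioo_infinite hδ).sdiff hbad).nonempty
  refine ⟨x, hx1.1, hx1.2, fun d hd h => ?_⟩
  apply hx2
  simp only [Set.mem_iUnion, Set.mem_ofPred_eq, exists_prop]
  refine ⟨d, hd, ?_⟩
  simp only [hP, Polynomial.eval_add, Polynomial.eval_C, Polynomial.eval_finsetSum,
    Polynomial.eval_mul, Polynomial.eval_pow, Polynomial.eval_X]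
  exact h

/-- (G5) GENERIC CHOICE. Proof: for each `B ⊆ E` carrying a nonzero integral relation (`d ≠ 0` supported in `B`, `∑ d l m l = 0` on `M`, `∑ d l = 0`) choose one, `d_B`.
Choose `b : ι → ℚ` supported in `E` with `∑ d_B l b l ≠ 0` for all these (finitely many) `B` (a `ℚ`-vector space is not a finite union of proper subspaces; or `b l = x ^ k(l)` with `x` avoiding the roots of
finitely many nonzero polynomials), then `a' = a + x b` with a small rational `x > 0` avoiding the finitely many zeros of the affine functions `x ↦ ∑ d_B a + x ∑ d_B b`. `Gen M E a'`: given `p, s, c ≠ 0`,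
let `B = {l ∈ E | p l = s}`; by `rat_rel` there is an integral relation supported in `B`, so `d_B` exists and `∑ d_B l a' l = ∑ d_B l p l = s ∑ d_B l = 0` (`rel_mR`): contradiction. -/
theorem exists_generic {ι : Type} [Fintype ι] (M : AddSubgroup (ι → ℤ)) (E : Finset ι) (a : ι → ℚ) (ε : ℝ) (hε : 0 < ε) :
    ∃ a' : ι → ℚ, (∀ l, |(a' l : ℝ) - (a l : ℝ)| < ε) ∧ (∀ l, l ∉ E → a' l = a l) ∧ Gen M E (fun l => (a' l : ℝ)) := by
  classical
  obtain ⟨δ, hδ0, hδ1⟩ := exists_rat_btwn (lt_min hε one_pos)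
  have hδ0' : 0 < δ := by exact_mod_cast hδ0
  have hδε : (δ : ℝ) < ε := hδ1.trans_le (min_le_left _ _)
  have hδ1' : (δ : ℝ) < 1 := hδ1.trans_le (min_le_right _ _)
  set dd : Finset ι → (ι → ℤ) := fun B =>
    if h : ∃ d, a11b_Rel M B d then h.choose else 0 with hdd
  set D : Set (ι → ℤ) := (dd '' ((E.powerset.filter (fun B => ∃ d, a11b_Rel M B d) : Finset (Finset ι)) :
    Set (Finset ι))) with hD
  have hDfin : D.Finite := (Finset.finite_toSet _).image _
  have hspec : ∀ B, (∃ d, a11b_Rel M B d) → a11b_Rel M B (dd B) := by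
    intro B hB
    simp only [hdd]
    rw [dif_pos hB]
    exact hB.choose_spec
  set k : ι → ℕ := fun l => (Fintype.equivFin ι l : ℕ) with hk
  have hkinj : Function.Injective k := by
    intro l l' h
    exact (Fintype.equivFin ι).injective (Fin.ext h)
  obtain ⟨x, hx0, hx1, hx2⟩ := a11b_choose E a D hDfin (by
    rintro d ⟨B, hB, rfl⟩
    exact (hspec B (Finset.mem_filter.1 hB).2).1) (by
    rintro d ⟨B, hB, rfl⟩ l hl
    have h1 := Finset.mem_filter.1 hB
    exact (hspec B h1.2).2.1 l fun h2 => hl (Finset.mem_powerset.1 h1.1 h2)) k hkinj δ hδ0'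
  have hxR : (0 : ℝ) < x := by exact_mod_cast hx0
  have hxδ : (x : ℝ) < δ := by exact_mod_cast hx1
  set a' : ι → ℚ := fun l => if l ∈ E then a l + x ^ (k l + 1) else a l with ha'
  refine ⟨a', fun l => ?_, fun l hl => by simp only [ha']; rw [if_neg hl], ?_⟩
  · simp only [ha']
    split_ifs with h
    · push_cast
      rw [add_sub_cancel_left, abs_of_pos (pow_pos hxR _)]
      have h1 : (x : ℝ) ^ (k l + 1) ≤ (x : ℝ) ^ 1 :=
        pow_le_pow_of_le_one hxR.le (hxδ.trans hδ1').le (by omega)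
      rw [pow_one] at h1
      linarith
    · rw [sub_self, abs_zero]
      exact hε
  · intro p s hp c hc hrel hsum
    by_contra hc0
    obtain ⟨d, hd0, hdc, hdM, hds⟩ := rat_rel M c hc0 hrel
    set B : Finset ι := E.filter (fun l => p l = s) with hB
    have hBR : ∃ d, a11b_Rel M B d := by
      refine ⟨d, hd0, fun l hl => hdc l (hc l fun h => hl ?_), hdM, hds hsum⟩
      exact Finset.mem_filter.2 h
    obtain ⟨e1, e2, e3, e4⟩ := hspec B hBR
    have hmem : dd B ∈ D := by
      refine ⟨B, ?_, rfl⟩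
      rw [Finset.mem_coe, Finset.mem_filter, Finset.mem_powerset]
      exact ⟨Finset.filter_subset _ _, hBR⟩
    apply hx2 (dd B) hmem
    -- the relation on mR M
    have h1 := rel_mR M (fun l => (dd B l : ℝ)) (by
      intro m hm
      have := e3 m hm
      exact_mod_cast this) _ hp
    have h2 : ∑ l, (dd B l : ℝ) * p l = 0 := by
      have h3 : ∀ l, (dd B l : ℝ) * p l = (dd B l : ℝ) * s := by
        intro l
        by_cases hl : l ∈ B
        · rw [(Finset.mem_filter.1 hl).2]
        · rw [e2 l hl]; simp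
      simp only [h3]
      rw [← Finset.sum_mul]
      have h4 : ∑ l, (dd B l : ℝ) = 0 := by exact_mod_cast e4
      rw [h4, zero_mul]
    have h3 : ∑ l, (dd B l : ℝ) * (a' l : ℝ) = 0 := by
      have h4 : ∑ l, (dd B l : ℝ) * ((p - fun l => (a' l : ℝ)) l) =
          ∑ l, (dd B l : ℝ) * p l - ∑ l, (dd B l : ℝ) * (a' l : ℝ) := by
        rw [← Finset.sum_sub_distrib]
        refine Finset.sum_congr rfl fun l _ => ?_
        rw [Pi.sub_apply]; ring
      rw [h4, h2] at h1
      linarith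
    have h5 : ∑ l, (dd B l : ℚ) * a' l = 0 := by exact_mod_cast h3
    rw [← h5, ← Finset.sum_add_distrib]
    refine Finset.sum_congr rfl fun l _ => ?_
    simp only [ha']
    split_ifs with hl
    · ring
    · have h6 : dd B l = 0 := e2 l fun h => hl (Finset.mem_filter.1 h).1
      rw [h6]
      simp

end Pool.Agent.TOR
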