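import Mathlib

namespace Pool.Agent.TOR

/-- (G6) GROWTH. From `(N+1) c m ≤ N c (m + m1)` for `m ≥ m2` (`N ≥ 1`) one gets `c (m2 + j m1) ≥ (1 + 1/N)^j`, exponential growth, against the polynomial bound. (`m1 = 0` gives `(N+1) c ≤ N c`, impossible as `c ≥ 1`.) -/
theorem growth (c : ℕ → ℕ) (C n N m1 m2 : ℕ) (hN : 1 ≤ N) (h1 : ∀ m, m2 ≤ m → 1 ≤ c m) (h2 : ∀ m, c m ≤ C * (m + 1) ^ n)
    (h3 : ∀ m, m2 ≤ m → (N + 1) * c m ≤ N * c (m + m1)) : False := by
  have key : ∀ j : ℕ, (N + 1) ^ j ≤ N ^ j * c (m2 + j * m1) := by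
    intro j
    induction j with
    | zero => simpa using h1 m2 le_rfl
    | succ j ih =>
      have h := h3 (m2 + j * m1) (Nat.le_add_right _ _)
      have e : m2 + (j + 1) * m1 = m2 + j * m1 + m1 := by ring
      rw [e]
      calc (N + 1) ^ (j + 1) = (N + 1) * (N + 1) ^ j := by ring
        _ ≤ (N + 1) * (N ^ j * c (m2 + j * m1)) := Nat.mul_le_mul_left _ ih
        _ = N ^ j * ((N + 1) * c (m2 + j * m1)) := by ring
        _ ≤ N ^ j * (N * c (m2 + j * m1 + m1)) := Nat.mul_le_mul_left _ h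
        _ = N ^ (j + 1) * c (m2 + j * m1 + m1) := by ring
  have key2 : ∀ j : ℕ, (N + 1) ^ j ≤ N ^ j * (C * ((m2 + m1 + 1) * (j + 1)) ^ n) := by
    intro j
    refine (key j).trans (Nat.mul_le_mul_left _ ((h2 _).trans (Nat.mul_le_mul_left _ (Nat.pow_le_pow_left ?_ _))))
    nlinarith
  set r : ℝ := ((N : ℝ) + 1) / N with hr
  have hN0 : (0 : ℝ) < N := by exact_mod_cast hN
  have hr1 : 1 < r := by
    rw [hr, one_lt_div hN0]
    linarith
  have hr0 : 0 < r := by linarith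
  set K : ℝ := C * (m2 + m1 + 1 : ℝ) ^ n * r with hK
  have key3 : ∀ j : ℕ, 1 ≤ K * (((j + 1 : ℕ) : ℝ) ^ n / r ^ (j + 1)) := by
    intro j
    have h4 : ((N : ℝ) + 1) ^ j ≤ (N : ℝ) ^ j * (C * ((m2 + m1 + 1) * (j + 1)) ^ n) := by
      exact_mod_cast key2 j
    have h5 : r ^ j ≤ C * (m2 + m1 + 1 : ℝ) ^ n * ((j + 1 : ℕ) : ℝ) ^ n := by
      rw [hr, div_pow, div_le_iff₀ (by positivity)]
      rw [mul_pow] at h4
      push_cast
      linarith
    rw [hK, pow_succ, mul_assoc, ← mul_div_assoc, ← mul_div_assoc, one_le_div (by positivity)]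
    calc r ^ j * r ≤ (C * (m2 + m1 + 1 : ℝ) ^ n * ((j + 1 : ℕ) : ℝ) ^ n) * r :=
          mul_le_mul_of_nonneg_right h5 hr0.le
      _ = C * (m2 + m1 + 1 : ℝ) ^ n * (r * ((j + 1 : ℕ) : ℝ) ^ n) := by ring
  have hlim := tendsto_pow_const_div_const_pow_of_one_lt n hr1
  have hlim2 : Filter.Tendsto (fun j : ℕ => K * (((j + 1 : ℕ) : ℝ) ^ n / r ^ (j + 1))) Filter.atTop (nhds (K * 0)) :=
    ((Filter.tendsto_add_atTop_iff_nat 1).2 hlim).const_mul K
  rw [mul_zero] at hlim2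
  have := ge_of_tendsto' hlim2 key3
  linarith

/-- Lattice points in a dilated box: if all elements of `s m` have coordinates bounded by `C * (m+1)` in absolute value then `#s m` is at most polynomial in `m`. -/
theorem card_box {ι : Type} [Fintype ι] (s : ℕ → Finset (ι → ℤ)) (C : ℕ) (h : ∀ m, ∀ u ∈ s m, ∀ l, |u l| ≤ C * (m + 1)) :
    ∃ C' n : ℕ, ∀ m, (s m).card ≤ C' * (m + 1) ^ n := by
  classical
  refine ⟨(2 * C + 1) ^ Fintype.card ι, Fintype.card ι, fun m => ?_⟩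
  have hsub : s m ⊆ Fintype.piFinset fun _ : ι => Finset.Icc (-((C : ℤ) * (m + 1))) (C * (m + 1)) := by
    intro u hu
    rw [Fintype.mem_piFinset]
    intro l
    rw [Finset.mem_Icc, ← abs_le]
    exact h m u hu l
  refine (Finset.card_le_card hsub).trans ?_
  rw [Fintype.card_piFinset, Finset.prod_const, Finset.card_univ, ← mul_pow]
  refine Nat.pow_le_pow_left ?_ _
  rw [Int.card_Icc]
  have : ((C : ℤ) * (m + 1) + 1 - -((C : ℤ) * (m + 1))) = ((2 * C * (m + 1) + 1 : ℕ) : ℤ) := by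
    push_cast
    ring
  rw [this, Int.toNat_natCast]
  nlinarith

end Pool.Agent.TOR
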