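import Pool.Agent.TOR.A8
import Pool.Agent.TOR.A9

namespace Pool.Agent.TOR

open Set

/-- the points of the polyhedron at which all coordinates in `E` are at least `s` -/
def Pst {ι : Type} (M : AddSubgroup (ι → ℤ)) (E : Finset ι) (a : ι → ℝ) (s : ℝ) : Set (ι → ℝ) :=
  {p | p ∈ PP M E a ∧ ∀ l ∈ E, s ≤ p l}

/-- the top of the roof (real version): `s` the maximal height, `I` the coordinates constant equal to `s` on the top face, `E'` the other coordinates which take the value `s` on the top face -/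
structure TopPre {ι : Type} [Fintype ι] (M : AddSubgroup (ι → ℤ)) (E : Finset ι) (a : ι → ℝ) (s : ℝ)
    (I E' : Finset ι) (pr : ι → ℝ) : Prop where
  spos : 0 < s
  hI : ∀ l, l ∈ I ↔ l ∈ E ∧ ∀ p ∈ Pst M E a s, p l = s
  hIne : I.Nonempty
  hE' : ∀ l, l ∈ E' ↔ l ∈ E ∧ l ∉ I ∧ ∃ p ∈ Pst M E a s, p l = s
  hmax : ∀ p ∈ PP M E a, ∃ l ∈ E, p l ≤ s
  pr_mem : pr ∈ Pst M E a s
  pr_I : ∀ i ∈ I, pr i = s
  pr_gt : ∀ l ∈ E, l ∉ I → s < pr l

/-- convexity of `Pst` -/
theorem a13_convex {ι : Type} [Fintype ι] (M : AddSubgroup (ι → ℤ)) (E : Finset ι) (a : ι → ℝ) (s : ℝ) :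
    Convex ℝ (Pst M E a s) := by
  rintro x ⟨hx, hx'⟩ y ⟨hy, hy'⟩ u v hu hv huv
  refine ⟨convex_PP M E a hx hy hu hv huv, fun l hl => ?_⟩
  have h1 := hx' l hl
  have h2 := hy' l hl
  simp only [Pi.add_apply, Pi.smul_apply, smul_eq_mul]
  have h3 : s = u * s + v * s := by rw [← add_mul, huv, one_mul]
  nlinarith [mul_le_mul_of_nonneg_left h1 hu, mul_le_mul_of_nonneg_left h2 hv]

/-- a point of `Pst` which is `> s` at all coordinates in `B` -/
theorem a13_avg {ι : Type} [Fintype ι] (M : AddSubgroup (ι → ℤ)) (E : Finset ι) (a : ι → ℝ) (s : ℝ)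
    (hne : (Pst M E a s).Nonempty) (B : Finset ι) (hBE : B ⊆ E) (hB : ∀ l ∈ B, ∃ p ∈ Pst M E a s, s < p l) :
    ∃ p ∈ Pst M E a s, ∀ l ∈ B, s < p l := by
  classical
  induction B using Finset.induction_on with
  | empty => exact ⟨hne.some, hne.some_mem, by simp⟩
  | insert j B hj ih =>
    obtain ⟨p, hp, hp'⟩ := ih (fun l hl => hBE (Finset.mem_insert_of_mem hl))
      (fun l hl => hB l (Finset.mem_insert_of_mem hl))
    obtain ⟨q, hq, hq'⟩ := hB j (Finset.mem_insert_self _ _)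
    refine ⟨(1/2 : ℝ) • p + (1/2 : ℝ) • q, a13_convex M E a s hp hq (by norm_num) (by norm_num) (by norm_num), ?_⟩
    intro l hl
    have hlE := hBE hl
    have h1 := hp.2 l hlE
    have h2 := hq.2 l hlE
    simp only [Pi.add_apply, Pi.smul_apply, smul_eq_mul]
    rcases Finset.mem_insert.1 hl with rfl | hl'
    · linarith
    · have := hp' l hl'
      linarith

/-- Maximal height. `h p = E.inf' _ p` is continuous on the compact set `PP M E a`; let `s` be its maximum. `s > 0` by `exists_pos`. `I`, `E'` by the formulas of the structure;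
`pr` = average over `l ∈ E \ I` of points of `Pst` with `l`-coordinate `> s` (and one more point of `Pst`, in case `E \ I` is empty): all coordinates in `E` are `≥ s`, those in `I` are `= s`.
`I` nonempty: otherwise `pr` would have height `> s`. -/
theorem exists_topPre {ι : Type} [Fintype ι] (M : AddSubgroup (ι → ℤ)) (E : Finset ι) (a : ι → ℝ) (hE : E.Nonempty)
    (hne : (PP M E a).Nonempty) (hb : Bornology.IsBounded (PP M E a)) (hs : Simp M E a) :
    ∃ (s : ℝ) (I E' : Finset ι) (pr : ι → ℝ), TopPre M E a s I E' pr := by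
  classical
  have hcont : Continuous fun p : ι → ℝ => E.inf' hE p :=
    Continuous.finset_inf'_apply hE fun i _ => continuous_apply i
  obtain ⟨p0, hp0, hmax⟩ := (isCompact_PP M E a hb).exists_isMaxOn hne hcont.continuousOn
  set s : ℝ := E.inf' hE p0 with hsdef
  have hp0s : ∀ l ∈ E, s ≤ p0 l := fun l hl => Finset.inf'_le _ hl
  have hspos : 0 < s := by
    obtain ⟨q, hq, hq'⟩ := exists_pos M E a hs hne
    have h1 : 0 < E.inf' hE q := by
      rw [Finset.lt_inf'_iff]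
      exact hq'
    exact h1.trans_le (hmax hq)
  have hP0 : p0 ∈ Pst M E a s := ⟨hp0, hp0s⟩
  have hmax' : ∀ p ∈ PP M E a, ∃ l ∈ E, p l ≤ s := by
    intro p hp
    obtain ⟨l, hl, hl'⟩ := E.exists_mem_eq_inf' hE p
    refine ⟨l, hl, ?_⟩
    rw [← hl']
    exact hmax hp
  let I : Finset ι := E.filter fun l => ∀ p ∈ Pst M E a s, p l = s
  let E' : Finset ι := E.filter fun l => l ∉ I ∧ ∃ p ∈ Pst M E a s, p l = s
  have hI : ∀ l, l ∈ I ↔ l ∈ E ∧ ∀ p ∈ Pst M E a s, p l = s := fun l => Finset.mem_filter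
  have hE' : ∀ l, l ∈ E' ↔ l ∈ E ∧ l ∉ I ∧ ∃ p ∈ Pst M E a s, p l = s := fun l => Finset.mem_filter
  obtain ⟨pr, hpr, hpr'⟩ := a13_avg M E a s ⟨p0, hP0⟩ (E \ I) Finset.sdiff_subset (by
    intro l hl
    rw [Finset.mem_sdiff, hI] at hl
    obtain ⟨hlE, hl'⟩ := hl
    by_contra hcon
    push Not at hcon
    exact hl' ⟨hlE, fun p hp => le_antisymm (hcon p hp) (hp.2 l hlE)⟩)
  refine ⟨s, I, E', pr, ⟨hspos, hI, ?_, hE', hmax', hpr, fun i hi => ((hI i).1 hi).2 pr hpr, ?_⟩⟩
  · by_contra hcon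
    rw [Finset.not_nonempty_iff_eq_empty] at hcon
    obtain ⟨l, hl, hl'⟩ := hmax' pr hpr.1
    have := hpr' l (by rw [hcon, Finset.sdiff_empty]; exact hl)
    linarith
  · intro l hl hlI
    exact hpr' l (Finset.mem_sdiff.2 ⟨hl, hlI⟩)

end Pool.Agent.TOR
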