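import Pool.Agent.TOR.A13

namespace Pool.Agent.TOR

open Set

/-- GORDAN. Proof: consider the image of `W` in `I → ℝ` (restriction), a subspace disjoint from the open convex cone `{x | ∀ i, 0 < x i}`; geometric Hahn-Banach
(`geometric_hahn_banach_open`, or `exists_mem_dualAnnihilator` style) gives a nonzero linear functional `β` on `I → ℝ`, `≥ 0` on the cone (hence `β i ≥ 0`) and `≤ 0` on the subspace, hence `= 0` on it.
`I` is nonempty (take `δ = 0`). -/
theorem gordan {ι : Type} [Fintype ι] (W : Submodule ℝ (ι → ℝ)) (I : Finset ι) (h : ∀ δ ∈ W, ∃ i ∈ I, δ i ≤ 0) :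
    ∃ β : ι → ℝ, (∀ i ∈ I, 0 ≤ β i) ∧ (∀ i, i ∉ I → β i = 0) ∧ β ≠ 0 ∧ ∀ δ ∈ W, ∑ i, β i * δ i = 0 := by
  classical
  let C : Set (ι → ℝ) := {x | ∀ i ∈ I, 0 < x i}
  have hC1 : Convex ℝ C := by
    intro x hx y hy u v hu hv huv i hi
    have h1 := hx i hi
    have h2 := hy i hi
    simp only [Pi.add_apply, Pi.smul_apply, smul_eq_mul]
    rcases hu.eq_or_lt with h0 | h0
    · have hv1 : v = 1 := by linarith
      rw [← h0, hv1]
      linarith
    · have := mul_pos h0 h1
      have := mul_nonneg hv h2.le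
      linarith
  have hC2 : IsOpen C := by
    have : C = ⋂ i ∈ I, {x : ι → ℝ | 0 < x i} := by
      ext x
      simp [C]
    rw [this]
    exact isOpen_biInter_finset fun i _ => isOpen_lt continuous_const (continuous_apply i)
  have hdisj : Disjoint C (W : Set (ι → ℝ)) := by
    rw [Set.disjoint_left]
    intro x hx hxW
    obtain ⟨i, hi, hi'⟩ := h x hxW
    exact absurd (hx i hi) (not_lt.2 hi')
  obtain ⟨f, u, hf1, hf2⟩ := geometric_hahn_banach_open hC1 hC2 W.convex hdisj
  have hu : u ≤ 0 := by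
    have := hf2 0 W.zero_mem
    rwa [map_zero] at this
  have hfW : ∀ δ ∈ W, f δ = 0 := by
    intro δ hδ
    by_contra hne
    have h1 := hf2 (((u - 1) / f δ) • δ) (W.smul_mem _ hδ)
    rw [map_smul, smul_eq_mul, div_mul_cancel₀ _ hne] at h1
    linarith
  have hone : (fun _ => (1 : ℝ)) ∈ C := fun i _ => one_pos
  have hx : ∀ x : ι → ℝ, f x = ∑ i, x i * f (Pi.single i 1) := by
    intro x
    conv_lhs => rw [← Finset.univ_sum_single x, map_sum]
    refine Finset.sum_congr rfl fun i _ => ?_
    have : (Pi.single i (x i) : ι → ℝ) = x i • Pi.single i 1 := by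
      rw [← Pi.single_smul, smul_eq_mul, mul_one]
    rw [this, map_smul, smul_eq_mul]
  refine ⟨fun i => - f (Pi.single i 1), ?_, ?_, ?_, ?_⟩
  · intro i _
    by_contra hcon
    have hpos : 0 < f (Pi.single i 1) := by
      have : ¬ (0 ≤ - f (Pi.single i 1)) := hcon
      linarith [not_le.1 this]
    set t : ℝ := |u - f (fun _ => (1 : ℝ))| / f (Pi.single i 1) with ht
    have ht0 : 0 ≤ t := div_nonneg (abs_nonneg _) hpos.le
    have h1 : (fun _ => (1 : ℝ)) + t • (Pi.single i 1 : ι → ℝ) ∈ C := by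
      intro k _
      simp only [Pi.add_apply, Pi.smul_apply, smul_eq_mul]
      have : 0 ≤ (Pi.single i 1 : ι → ℝ) k := by
        by_cases hk : k = i
        · subst hk; simp
        · simp [Pi.single_apply, hk]
      nlinarith [mul_nonneg ht0 this]
    have h2 := hf1 _ h1
    rw [map_add, map_smul, smul_eq_mul, ht, div_mul_cancel₀ _ hpos.ne'] at h2
    have := le_abs_self (u - f (fun _ => (1 : ℝ)))
    linarith
  · intro i hi
    show - f (Pi.single i 1) = 0
    rw [neg_eq_zero]
    by_contra hne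
    set t : ℝ := (u - f (fun _ => (1 : ℝ))) / f (Pi.single i 1) with ht
    have h1 : (fun _ => (1 : ℝ)) + t • (Pi.single i 1 : ι → ℝ) ∈ C := by
      intro k hk
      have hki : k ≠ i := fun h => hi (h ▸ hk)
      simp [Pi.single_apply, hki]
    have h2 := hf1 _ h1
    rw [map_add, map_smul, smul_eq_mul, ht, div_mul_cancel₀ _ hne] at h2
    linarith
  · intro h0
    have h1 := hf1 _ hone
    rw [hx] at h1
    have h2 : ∀ i, f (Pi.single i 1) = 0 := fun i => by
      have := congrFun h0 i
      simpa using this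
    simp only [h2, mul_zero, Finset.sum_const_zero] at h1
    linarith
  · intro δ hδ
    have h1 := hfW δ hδ
    rw [hx] at h1
    calc ∑ i, - f (Pi.single i 1) * δ i = - ∑ i, δ i * f (Pi.single i 1) := by
          rw [← Finset.sum_neg_distrib]
          exact Finset.sum_congr rfl fun i _ => by ring
      _ = 0 := by rw [h1, neg_zero]

end Pool.Agent.TOR
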