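import Pool.Agent.TOR.A14

namespace Pool.Agent.TOR

open Set

/-- No direction goes up from the top: otherwise `pr + ε δ` with small `ε > 0` has all coordinates in `I` `> s` and those in `E \ I` still `> s`, against `hmax`. -/
theorem no_up {ι : Type} [Fintype ι] (M : AddSubgroup (ι → ℤ)) (E : Finset ι) (a : ι → ℝ) (s : ℝ)
    (I E' : Finset ι) (pr : ι → ℝ) (T : TopPre M E a s I E' pr) : ∀ δ ∈ mR M, ∃ i ∈ I, δ i ≤ 0 := by
  intro δ hδ
  by_contra hcon
  push Not at hcon
  have hev : ∀ᶠ ε : ℝ in nhdsWithin 0 (Ioi 0), ∀ l ∈ E, s < pr l + ε * δ l := by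
    rw [Finset.eventually_all]
    intro l hl
    by_cases hlI : l ∈ I
    · have h1 : ∀ᶠ ε : ℝ in nhdsWithin 0 (Ioi 0), ε ∈ Ioi (0 : ℝ) := self_mem_nhdsWithin
      filter_upwards [h1] with ε hε
      rw [T.pr_I l hlI]
      have := mul_pos (mem_Ioi.1 hε) (hcon l hlI)
      linarith
    · have h1 : Filter.Tendsto (fun ε : ℝ => pr l + ε * δ l) (nhdsWithin 0 (Ioi 0)) (nhds (pr l + 0 * δ l)) :=
        ((continuous_const.add (continuous_id.mul continuous_const)).tendsto 0).mono_left nhdsWithin_le_nhds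
      rw [zero_mul, add_zero] at h1
      exact h1.eventually_const_lt (T.pr_gt l hl hlI)
  obtain ⟨ε, hε⟩ := hev.exists
  have hp : pr + ε • δ ∈ PP M E a := by
    refine ⟨?_, ?_⟩
    · have h1 : pr + ε • δ - a = (pr - a) + ε • δ := by abel
      rw [h1]
      exact (mR M).add_mem T.pr_mem.1.1 ((mR M).smul_mem ε hδ)
    · intro l hl
      have h2 := hε l hl
      have h3 := T.spos
      simp only [Pi.add_apply, Pi.smul_apply, smul_eq_mul]
      linarith
  obtain ⟨l, hl, hls⟩ := T.hmax _ hp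
  have h4 := hε l hl
  simp only [Pi.add_apply, Pi.smul_apply, smul_eq_mul] at hls
  linarith

end Pool.Agent.TOR
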