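import Pool.Agent.TOR.A11
import Pool.Agent.TOR.A14b

namespace Pool.Agent.TOR

open Set

/-- The relations on `I` form a line spanned by an integral vector with nonnegative entries. Proof: `gordan` and `no_up` give a real relation `β0 ≥ 0`, `β0 ≠ 0`, supported in `I`.
`Gen M E a` at `(pr, s)`: a real relation supported in `I` (`pr = s` on `I`) with sum zero is zero. So if `c` is a real relation supported in `I`, then `(∑ β0) c - (∑ c) β0 = 0`: every relation is a multiple of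
`β0`. `rat_rel` applied to `β0` gives an integral `d ≠ 0`, `d = x β0` with `x ≠ 0` real; take `β = ± d`. -/
theorem exists_beta {ι : Type} [Fintype ι] (M : AddSubgroup (ι → ℤ)) (E : Finset ι) (a : ι → ℝ) (s : ℝ)
    (I E' : Finset ι) (pr : ι → ℝ) (T : TopPre M E a s I E' pr) (hG : Gen M E a) :
    ∃ β : ι → ℤ, (∀ i, 0 ≤ β i) ∧ (∀ i, i ∉ I → β i = 0) ∧ 0 < ∑ i, β i ∧ (∀ m ∈ M, ∑ i, β i * m i = 0) ∧
      ∀ c : ι → ℝ, (∀ l, l ∉ I → c l = 0) → (∀ m ∈ M, ∑ l, c l * (m l : ℝ) = 0) → ∃ x : ℝ, ∀ l, c l = x * β l := by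
  classical
  obtain ⟨β0, hb1, hb2, hb3, hb4⟩ := gordan (mR M) I (no_up M E a s I E' pr T)
  have hb0 : ∀ i, 0 ≤ β0 i := fun i => by
    by_cases hi : i ∈ I
    · exact hb1 i hi
    · exact (hb2 i hi).ge
  have hS : 0 < ∑ i, β0 i := by
    obtain ⟨i, hi⟩ := Function.ne_iff.1 hb3
    exact Finset.sum_pos' (fun i _ => hb0 i) ⟨i, Finset.mem_univ _, lt_of_le_of_ne (hb0 i) (Ne.symm hi)⟩
  have hrel : ∀ m ∈ M, ∑ l, β0 l * (m l : ℝ) = 0 := fun m hm => hb4 _ (int_mem_mR hm)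
  have hline : ∀ c : ι → ℝ, (∀ l, l ∉ I → c l = 0) → (∀ m ∈ M, ∑ l, c l * (m l : ℝ) = 0) →
      ∀ l, c l = ((∑ l, c l) / ∑ i, β0 i) * β0 l := by
    intro c hc1 hc2
    have h := hG pr s T.pr_mem.1.1 (fun l => (∑ i, β0 i) * c l - (∑ i, c i) * β0 l) ?_ ?_ ?_
    · intro l
      have h1 := congrFun h l
      simp only [Pi.zero_apply] at h1
      rw [div_mul_eq_mul_div, eq_div_iff hS.ne']
      linarith
    · intro l hl
      have hlI : l ∉ I := fun hI => hl ⟨((T.hI l).1 hI).1, T.pr_I l hI⟩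
      simp only [hc1 l hlI, hb2 l hlI, mul_zero, sub_zero]
    · intro m hm
      have : ∑ l, ((∑ i, β0 i) * c l - (∑ i, c i) * β0 l) * (m l : ℝ) =
          (∑ i, β0 i) * ∑ l, c l * (m l : ℝ) - (∑ i, c i) * ∑ l, β0 l * (m l : ℝ) := by
        rw [Finset.mul_sum, Finset.mul_sum, ← Finset.sum_sub_distrib]
        exact Finset.sum_congr rfl fun l _ => by ring
      rw [this, hc2 m hm, hrel m hm]
      ring
    · rw [Finset.sum_sub_distrib, ← Finset.mul_sum, ← Finset.mul_sum]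
      ring
  obtain ⟨d, hd0, hd1, hd2, -⟩ := rat_rel M β0 hb3 hrel
  have hdI : ∀ l, l ∉ I → d l = 0 := fun l hl => hd1 l (hb2 l hl)
  have hdl := hline (fun l => (d l : ℝ)) (fun l hl => by simp [hdI l hl]) (fun m hm => by
    exact_mod_cast hd2 m hm)
  set x : ℝ := (∑ l, (d l : ℝ)) / ∑ i, β0 i with hx
  have hx0 : x ≠ 0 := by
    intro h0
    apply hd0
    funext l
    have := hdl l
    rw [h0, zero_mul] at this
    exact_mod_cast this
  obtain ⟨β, y, hy, hβ, hβI, hβrel⟩ : ∃ (β : ι → ℤ) (y : ℝ), 0 < y ∧ (∀ l, (β l : ℝ) = y * β0 l) ∧ (∀ l, l ∉ I → β l = 0) ∧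
      ∀ m ∈ M, ∑ i, β i * m i = 0 := by
    rcases lt_or_gt_of_ne hx0 with h | h
    · refine ⟨-d, -x, by linarith, fun l => ?_, fun l hl => by simp [hdI l hl], fun m hm => ?_⟩
      · simp only [Pi.neg_apply]
        push_cast
        rw [hdl l]
        ring
      · simp only [Pi.neg_apply, neg_mul, Finset.sum_neg_distrib, hd2 m hm, neg_zero]
    · exact ⟨d, x, h, hdl, hdI, hd2⟩
  refine ⟨β, fun i => ?_, hβI, ?_, hβrel, ?_⟩
  · have : (0 : ℝ) ≤ β i := by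
      rw [hβ]
      exact mul_nonneg hy.le (hb0 i)
    exact_mod_cast this
  · have : (0 : ℝ) < ∑ i, (β i : ℝ) := by
      simp only [hβ, ← Finset.mul_sum]
      exact mul_pos hy hS
    exact_mod_cast this
  · intro c hc1 hc2
    refine ⟨((∑ l, c l) / ∑ i, β0 i) / y, fun l => ?_⟩
    rw [hβ l, hline c hc1 hc2 l, ← mul_assoc, div_mul_cancel₀ _ hy.ne']

/-- The maximal height is rational when `a` is: `∑ β i pr i = ∑ β i a i` (`rel_mR` for `pr - a`) and `pr i = s` on `I`. -/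
theorem height_rat {ι : Type} [Fintype ι] (M : AddSubgroup (ι → ℤ)) (E : Finset ι) (a : ι → ℚ) (s : ℝ)
    (I E' : Finset ι) (pr : ι → ℝ) (T : TopPre M E (fun l => (a l : ℝ)) s I E' pr) (β : ι → ℤ)
    (h1 : ∀ i, i ∉ I → β i = 0) (h2 : 0 < ∑ i, β i) (h3 : ∀ m ∈ M, ∑ i, β i * m i = 0) :
    ∃ s' : ℚ, s = s' := by
  classical
  have h4 := rel_mR M (fun l => (β l : ℝ)) (fun m hm => by exact_mod_cast h3 m hm) _ T.pr_mem.1.1
  have h5 : ∑ l, (β l : ℝ) * (pr - fun l => (a l : ℝ)) l = s * ∑ l, (β l : ℝ) - ∑ l, (β l : ℝ) * a l := by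
    rw [Finset.mul_sum, ← Finset.sum_sub_distrib]
    refine Finset.sum_congr rfl fun l _ => ?_
    simp only [Pi.sub_apply]
    by_cases hl : l ∈ I
    · rw [T.pr_I l hl]
      ring
    · rw [h1 l hl]
      simp
  rw [h5] at h4
  have h6 : (0 : ℝ) < ∑ l, (β l : ℝ) := by exact_mod_cast h2
  refine ⟨(∑ l, (β l : ℚ) * a l) / ∑ l, (β l : ℚ), ?_⟩
  push_cast
  rw [eq_div_iff h6.ne']
  linarith

end Pool.Agent.TOR
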