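import Pool.Agent.TOR.A15

namespace Pool.Agent.TOR

open Set

/-- a small perturbation keeps finitely many strict inequalities -/
theorem a15b_small {ι : Type} (B : Finset ι) (f g : ι → ℝ) (h : ∀ l ∈ B, 0 < f l) :
    ∃ ε : ℝ, 0 < ε ∧ ∀ l ∈ B, 0 < f l + ε * g l := by
  classical
  induction B using Finset.induction_on with
  | empty => exact ⟨1, one_pos, by simp⟩
  | insert j B hj ih =>
    obtain ⟨ε, hε, hε'⟩ := ih fun l hl => h l (Finset.mem_insert_of_mem hl)
    have hj0 := h j (Finset.mem_insert_self _ _)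
    have hd : 0 < |g j| + 1 := by positivity
    refine ⟨min ε (f j / (|g j| + 1)), lt_min hε (div_pos hj0 hd), fun l hl => ?_⟩
    have hm0 : 0 < min ε (f j / (|g j| + 1)) := lt_min hε (div_pos hj0 hd)
    rcases Finset.mem_insert.1 hl with rfl | hl'
    · have h1 : min ε (f l / (|g l| + 1)) * (|g l| + 1) ≤ f l := by
        calc min ε (f l / (|g l| + 1)) * (|g l| + 1) ≤ (f l / (|g l| + 1)) * (|g l| + 1) :=
              mul_le_mul_of_nonneg_right (min_le_right _ _) hd.le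
          _ = f l := div_mul_cancel₀ _ hd.ne'
      have h2 := neg_abs_le (g l)
      nlinarith
    · have h1 := h l hl
      have h2 := hε' l hl'
      have h3 : min ε (f j / (|g j| + 1)) ≤ ε := min_le_left _ _
      rcases le_or_gt 0 (g l) with hg | hg
      · have := mul_nonneg hm0.le hg
        linarith
      · nlinarith

/-- All entries of `β` on `I` are positive. Proof: suppose `β i0 = 0`, `i0 ∈ I`; choose `j0` with `β j0 > 0`. The coordinates in `I \ {j0}` are independent on `M` (a relation supported there is `x β`, and its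
`j0`-entry `x β j0` vanishes). `exists_delta` with `τ = I \ {j0}` gives `δ ∈ mR M` with `δ l = 0` if `β l > 0`, `δ l = 1` if `β l = 0` (`l ∈ I \ {j0}`); then `∑ β l δ l = 0` (`rel_mR`) gives `δ j0 = 0`.
For small `ε > 0` the point `pr + ε δ` is in `Pst` and has `i0`-coordinate `> s`: against `hI`. -/
theorem beta_pos {ι : Type} [Fintype ι] (M : AddSubgroup (ι → ℤ)) (E : Finset ι) (a : ι → ℝ) (s : ℝ)
    (I E' : Finset ι) (pr : ι → ℝ) (T : TopPre M E a s I E' pr) (β : ι → ℤ) (h0 : ∀ i, 0 ≤ β i)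
    (h1 : ∀ i, i ∉ I → β i = 0) (h2 : 0 < ∑ i, β i) (h3 : ∀ m ∈ M, ∑ i, β i * m i = 0)
    (h4 : ∀ c : ι → ℝ, (∀ l, l ∉ I → c l = 0) → (∀ m ∈ M, ∑ l, c l * (m l : ℝ) = 0) → ∃ x : ℝ, ∀ l, c l = x * β l) :
    ∀ i ∈ I, 0 < β i := by
  classical
  by_contra hcon
  push Not at hcon
  obtain ⟨i0, hi0, hi0'⟩ := hcon
  have hβi0 : β i0 = 0 := le_antisymm hi0' (h0 i0)
  obtain ⟨j0, -, hj0⟩ : ∃ j ∈ Finset.univ, β j ≠ 0 := Finset.exists_ne_zero_of_sum_ne_zero h2.ne'
  obtain ⟨δ, hδ, hδ'⟩ := exists_delta M (I.erase j0) (by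
    intro c hc hc'
    obtain ⟨x, hx⟩ := h4 c (fun l hl => hc l fun h => hl (Finset.mem_of_mem_erase h)) hc'
    have h5 : c j0 = 0 := hc j0 (Finset.notMem_erase _ _)
    rw [hx j0] at h5
    have h6 : (β j0 : ℝ) ≠ 0 := by exact_mod_cast hj0
    have h7 : x = 0 := (mul_eq_zero.1 h5).resolve_right h6
    funext l
    rw [hx l, h7, zero_mul]
    rfl) (fun l => if β l = 0 then 1 else 0)
  have h5 := rel_mR M (fun l => (β l : ℝ)) (fun m hm => by exact_mod_cast h3 m hm) δ hδ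
  have h6 : ∑ l, (β l : ℝ) * δ l = (β j0 : ℝ) * δ j0 := by
    refine Finset.sum_eq_single j0 (fun l _ hl => ?_) (by simp)
    by_cases hlI : l ∈ I
    · have h7 := hδ' l (Finset.mem_erase.2 ⟨hl, hlI⟩)
      rw [h7]
      by_cases hb : β l = 0
      · simp [hb]
      · simp [hb]
    · simp [h1 l hlI]
  have hδj0 : δ j0 = 0 := by
    rw [h6] at h5
    exact (mul_eq_zero.1 h5).resolve_left (by exact_mod_cast hj0)
  have hδI : ∀ l ∈ I, 0 ≤ δ l := by
    intro l hl
    by_cases hlj : l = j0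
    · rw [hlj, hδj0]
    · rw [hδ' l (Finset.mem_erase.2 ⟨hlj, hl⟩)]
      split_ifs <;> norm_num
  have hij : i0 ≠ j0 := fun h => hj0 (h ▸ hβi0)
  have hδi0 : δ i0 = 1 := by
    rw [hδ' i0 (Finset.mem_erase.2 ⟨hij, hi0⟩), if_pos hβi0]
  obtain ⟨ε, hε, hε'⟩ := a15b_small (E \ I) (fun l => pr l - s) δ (fun l hl => by
    have := T.pr_gt l (Finset.mem_sdiff.1 hl).1 (Finset.mem_sdiff.1 hl).2
    linarith)
  have hP : pr + ε • δ ∈ Pst M E a s := by
    have hs : ∀ l ∈ E, s ≤ (pr + ε • δ) l := by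
      intro l hl
      simp only [Pi.add_apply, Pi.smul_apply, smul_eq_mul]
      by_cases hlI : l ∈ I
      · have := mul_nonneg hε.le (hδI l hlI)
        rw [T.pr_I l hlI]
        linarith
      · have := hε' l (Finset.mem_sdiff.2 ⟨hl, hlI⟩)
        linarith
    refine ⟨⟨?_, fun l hl => T.spos.le.trans (hs l hl)⟩, hs⟩
    have : pr + ε • δ - a = (pr - a) + ε • δ := by abel
    rw [this]
    exact Submodule.add_mem _ T.pr_mem.1.1 (Submodule.smul_mem _ _ hδ)
  have h8 := ((T.hI i0).1 hi0).2 _ hP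
  simp only [Pi.add_apply, Pi.smul_apply, smul_eq_mul, hδi0, mul_one, T.pr_I i0 hi0] at h8
  linarith

end Pool.Agent.TOR
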