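import Pool.Agent.TOR.A0

namespace Pool.Agent.TOR

open Set

/-- a `ℚ`-linear functional maps `mR M` to the `ℚ`-span of `M`; some multiple is in `M` -/
theorem a16_key {ι : Type} [Fintype ι] (M : AddSubgroup (ι → ℤ)) (φ : ℝ →ₗ[ℚ] ℚ) (δ : ι → ℝ) (h : δ ∈ mR M) :
    ∃ N : ℕ, 0 < N ∧ ∃ m ∈ M, ∀ l, (m l : ℚ) = N * φ (δ l) := by
  have hr : ∀ x : ℝ, ∀ m ∈ M, ∃ N : ℕ, 0 < N ∧ ∃ m' ∈ M, ∀ l, (m' l : ℚ) = N * φ (x * (m l : ℝ)) := by
    intro x m hm
    refine ⟨(φ x).den, (φ x).den_pos, (φ x).num • m, M.zsmul_mem hm _, fun l => ?_⟩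
    have h1 : φ (x * (m l : ℝ)) = φ x * (m l : ℚ) := by
      have h2 : x * (m l : ℝ) = (m l : ℚ) • x := by
        rw [Rat.smul_def]
        push_cast
        ring
      rw [h2, map_smul, smul_eq_mul, mul_comm]
    rw [h1]
    simp only [Pi.smul_apply, smul_eq_mul]
    push_cast
    rw [← mul_assoc, Rat.den_mul_eq_num]
  unfold mR at h
  rw [Submodule.mem_span_iff_exists_finset_subset] at h
  obtain ⟨f, t, ht, -, rfl⟩ := h
  classical
  have : ∀ t : Finset (ι → ℝ), (↑t : Set (ι → ℝ)) ⊆ (fun (m : ι → ℤ) (i : ι) => (m i : ℝ)) '' (M : Set (ι → ℤ)) →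
      ∃ N : ℕ, 0 < N ∧ ∃ m ∈ M, ∀ l, (m l : ℚ) = N * φ ((∑ a ∈ t, f a • a) l) := by
    intro t
    induction t using Finset.induction_on with
    | empty =>
      intro _
      exact ⟨1, one_pos, 0, M.zero_mem, fun l => by simp⟩
    | insert a t ha ih =>
      intro hs
      rw [Finset.coe_insert, Set.insert_subset_iff] at hs
      obtain ⟨⟨m, hm, rfl⟩, hs⟩ := hs
      obtain ⟨N, hN, m1, hm1, h1⟩ := ih hs
      obtain ⟨N', hN', m2, hm2, h2⟩ := hr (f fun i => (m i : ℝ)) m hm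
      refine ⟨N * N', Nat.mul_pos hN hN', (N' : ℤ) • m1 + (N : ℤ) • m2,
        M.add_mem (M.zsmul_mem hm1 _) (M.zsmul_mem hm2 _), fun l => ?_⟩
      rw [Finset.sum_insert ha]
      simp only [Pi.add_apply, Pi.smul_apply, smul_eq_mul, map_add]
      push_cast
      rw [h1, h2]
      ring
  exact this t ht

/-- `mR` of the subgroup of elements vanishing on `I`. Proof of the nontrivial inclusion: `δ = ∑_j x_j m_j` (`m_j ∈ M`, `x_j ∈ ℝ`) with `δ i = 0` for `i ∈ I`. Take a basis `b_k` over `ℚ` of the span of the `x_j`,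
`x_j = ∑_k b_k x_{jk}`, `x_{jk} ∈ ℚ`. For every `k` the rational vector `∑_j x_{jk} m_j` vanishes on `I` (linear independence of the `b_k`), a positive integral multiple of it is in `sub0 M I`, and
`δ = ∑_k b_k ∑_j x_{jk} m_j`. -/
theorem mem_mR_sub0 {ι : Type} [Fintype ι] (M : AddSubgroup (ι → ℤ)) (I : Finset ι) (δ : ι → ℝ) :
    δ ∈ mR (sub0 M I) ↔ δ ∈ mR M ∧ ∀ i ∈ I, δ i = 0 := by
  classical
  constructor
  · intro h
    unfold mR at h
    induction h using Submodule.span_induction with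
    | mem x hx =>
      obtain ⟨m, hm, rfl⟩ := hx
      exact ⟨int_mem_mR hm.1, fun i hi => by simp [hm.2 i hi]⟩
    | zero => exact ⟨Submodule.zero_mem _, fun i _ => rfl⟩
    | add x y _ _ hx hy =>
      exact ⟨Submodule.add_mem _ hx.1 hy.1, fun i hi => by simp [hx.2 i hi, hy.2 i hi]⟩
    | smul c x _ hx =>
      exact ⟨Submodule.smul_mem _ _ hx.1, fun i hi => by simp [hx.2 i hi]⟩
  · rintro ⟨h, h0⟩
    let b := Module.Basis.ofVectorSpace ℚ ℝ
    have hk : ∀ k, (fun l => ((b.repr (δ l) k : ℚ) : ℝ)) ∈ mR (sub0 M I) := by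
      intro k
      obtain ⟨N, hN, m, hm, hm'⟩ := a16_key M (b.coord k) δ h
      have hN' : (N : ℝ) ≠ 0 := by exact_mod_cast hN.ne'
      have hm0 : m ∈ sub0 M I := by
        refine ⟨hm, fun i hi => ?_⟩
        have h1 := hm' i
        rw [h0 i hi, map_zero, mul_zero] at h1
        exact_mod_cast h1
      have h2 : (fun l => ((b.repr (δ l) k : ℚ) : ℝ)) = (N : ℝ)⁻¹ • fun l => (m l : ℝ) := by
        funext l
        have h3 : (m l : ℚ) = N * b.repr (δ l) k := hm' l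
        have h4 : (m l : ℝ) = N * ((b.repr (δ l) k : ℚ) : ℝ) := by exact_mod_cast congrArg (fun q : ℚ => (q : ℝ)) h3
        simp only [Pi.smul_apply, smul_eq_mul]
        rw [h4, ← mul_assoc, inv_mul_cancel₀ hN', one_mul]
      rw [h2]
      exact Submodule.smul_mem _ _ (int_mem_mR hm0)
    let S : Finset _ := Finset.univ.biUnion fun l : ι => (b.repr (δ l)).support
    have hδ : δ = ∑ k ∈ S, (b k : ℝ) • fun l => ((b.repr (δ l) k : ℚ) : ℝ) := by
      funext l
      rw [Finset.sum_apply]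
      simp only [Pi.smul_apply, smul_eq_mul]
      have h1 : (b.repr (δ l)).sum (fun k c => c • b k) = δ l := b.linearCombination_repr (δ l)
      conv_lhs => rw [← h1]
      rw [Finsupp.sum_of_support_subset _ (s := S) ?_ _ (by simp)]
      · refine Finset.sum_congr rfl fun k _ => ?_
        rw [Rat.smul_def, mul_comm]
      · intro k hk
        exact Finset.mem_biUnion.2 ⟨l, Finset.mem_univ _, hk⟩
    rw [hδ]
    exact Submodule.sum_mem _ fun k _ => Submodule.smul_mem _ _ (hk k)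

/-- A rational vector in `mR M` has a positive integral multiple in `M`. (Same basis argument, with `b_0 = 1`: `δ = ∑_k b_k v_k`, `v_k` rational, so `δ = v_0`, and `v_0` is a rational combination of elements of `M`.) -/
theorem rat_mem {ι : Type} [Fintype ι] (M : AddSubgroup (ι → ℤ)) (δ : ι → ℚ) (h : (fun l => (δ l : ℝ)) ∈ mR M) :
    ∃ N : ℕ, 0 < N ∧ ∃ m ∈ M, ∀ l, (m l : ℚ) = N * δ l := by
  let j : ℚ →ₗ[ℚ] ℝ := Algebra.linearMap ℚ ℝ
  have hj : LinearMap.ker j = ⊥ := LinearMap.ker_eq_bot.2 (algebraMap ℚ ℝ).injective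
  obtain ⟨φ, hφ⟩ := LinearMap.exists_leftInverse_of_injective j hj
  have h1 : ∀ q : ℚ, φ (q : ℝ) = q := fun q => LinearMap.congr_fun hφ q
  obtain ⟨N, hN, m, hm, h2⟩ := a16_key M φ _ h
  exact ⟨N, hN, m, hm, fun l => by rw [h2, h1]⟩

end Pool.Agent.TOR
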