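import Pool.Agent.TOR.A16

namespace Pool.Agent.TOR

open Set

/-- a `ℚ`-linear retraction `ℝ → ℚ` -/
theorem a16b_phi : ∃ φ : ℝ →ₗ[ℚ] ℚ, ∀ x : ℚ, φ (x : ℝ) = x := by
  obtain ⟨φ, hφ⟩ := LinearMap.exists_leftInverse_of_injective (Algebra.linearMap ℚ ℝ)
    (LinearMap.ker_eq_bot.2 (algebraMap ℚ ℝ).injective)
  refine ⟨φ, fun x => ?_⟩
  have h := LinearMap.congr_fun hφ x
  simpa using h

/-- `φ` applied to the coordinates preserves `mR M` -/
theorem a16b_map {ι : Type} (M : AddSubgroup (ι → ℤ)) (φ : ℝ →ₗ[ℚ] ℚ) (δ : ι → ℝ)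
    (hδ : δ ∈ mR M) : ∀ t : ℝ, (fun l => ((φ (t * δ l) : ℚ) : ℝ)) ∈ mR M := by
  unfold mR at hδ
  induction hδ using Submodule.span_induction with
  | mem x hx =>
    intro t
    obtain ⟨m, hm, rfl⟩ := hx
    have h1 : (fun l => ((φ (t * (m l : ℝ)) : ℚ) : ℝ)) = ((φ t : ℚ) : ℝ) • (fun l => (m l : ℝ)) := by
      funext l
      have h2 : t * (m l : ℝ) = ((m l : ℚ)) • t := by
        rw [Rat.smul_def]
        push_cast
        ring
      rw [h2, map_smul, Pi.smul_apply, smul_eq_mul, smul_eq_mul]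
      push_cast
      ring
    rw [h1]
    exact Submodule.smul_mem _ _ (int_mem_mR hm)
  | zero =>
    intro t
    have h1 : (fun l : ι => ((φ (t * (0 : ι → ℝ) l) : ℚ) : ℝ)) = 0 := by
      funext l
      simp
    rw [h1]
    exact Submodule.zero_mem _
  | add x y _ _ hx hy =>
    intro t
    have h1 : (fun l => ((φ (t * (x + y) l) : ℚ) : ℝ)) =
        (fun l => ((φ (t * x l) : ℚ) : ℝ)) + (fun l => ((φ (t * y l) : ℚ) : ℝ)) := by
      funext l
      rw [Pi.add_apply, Pi.add_apply, mul_add, map_add]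
      push_cast
      rfl
    rw [h1]
    exact Submodule.add_mem _ (hx t) (hy t)
  | smul s x _ hx =>
    intro t
    have h1 : (fun l => ((φ (t * (s • x) l) : ℚ) : ℝ)) = (fun l => ((φ ((t * s) * x l) : ℚ) : ℝ)) := by
      funext l
      rw [Pi.smul_apply, smul_eq_mul, mul_assoc]
    rw [h1]
    exact hx (t * s)

/-- rational points are dense in `mR N` -/
theorem a16b_dense {ι : Type} [Fintype ι] (N : AddSubgroup (ι → ℤ)) (δ : ι → ℝ) (hδ : δ ∈ mR N) :
    ∀ ε : ℝ, 0 < ε → ∃ q : ι → ℚ, (fun l => (q l : ℝ)) ∈ mR N ∧ ∀ l, |(q l : ℝ) - δ l| < ε := by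
  unfold mR at hδ
  induction hδ using Submodule.span_induction with
  | mem x hx =>
    intro ε hε
    obtain ⟨m, hm, rfl⟩ := hx
    refine ⟨fun l => (m l : ℚ), ?_, fun l => ?_⟩
    · have h := int_mem_mR hm
      simpa using h
    · simpa using hε
  | zero =>
    intro ε hε
    refine ⟨fun _ => 0, ?_, fun l => by simpa using hε⟩
    have h1 : (fun _ : ι => ((0 : ℚ) : ℝ)) = 0 := by
      funext l
      simp
    rw [h1]
    exact Submodule.zero_mem _
  | add x y _ _ hx hy =>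
    intro ε hε
    obtain ⟨q1, h1, h1'⟩ := hx (ε / 2) (by positivity)
    obtain ⟨q2, h2, h2'⟩ := hy (ε / 2) (by positivity)
    refine ⟨fun l => q1 l + q2 l, ?_, fun l => ?_⟩
    · have h3 : (fun l => ((q1 l + q2 l : ℚ) : ℝ)) = (fun l => (q1 l : ℝ)) + (fun l => (q2 l : ℝ)) := by
        funext l
        push_cast
        rfl
      rw [h3]
      exact Submodule.add_mem _ h1 h2
    · have h3 := h1' l
      have h4 := h2' l
      rw [abs_lt] at h3 h4 ⊢
      rw [Pi.add_apply]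
      push_cast
      constructor <;> linarith [h3.1, h3.2, h4.1, h4.2]
  | smul t x _ hx =>
    intro ε hε
    have hn : 0 < ‖x‖ + 1 := by positivity
    have ht : 0 < |t| + 1 := by positivity
    obtain ⟨t', ht1, ht2⟩ := exists_rat_btwn (show t < t + min 1 (ε / (2 * (‖x‖ + 1))) by
      have : 0 < min 1 (ε / (2 * (‖x‖ + 1))) := lt_min one_pos (by positivity)
      linarith)
    obtain ⟨q, hq, hq'⟩ := hx (ε / (2 * (|t| + 1))) (by positivity)
    have ht3 : (t' : ℝ) - t < 1 := by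
      have := min_le_left 1 (ε / (2 * (‖x‖ + 1)))
      linarith
    have ht4 : (t' : ℝ) - t < ε / (2 * (‖x‖ + 1)) := by
      have := min_le_right 1 (ε / (2 * (‖x‖ + 1)))
      linarith
    have ht5 : |(t' : ℝ)| ≤ |t| + 1 := by
      have h1 : |(t' : ℝ)| ≤ |t| + |(t' : ℝ) - t| := by
        have h2 : (t' : ℝ) = t + (t' - t) := by ring
        conv_lhs => rw [h2]
        exact abs_add_le _ _
      have h2 : |(t' : ℝ) - t| = (t' : ℝ) - t := abs_of_pos (by linarith)
      linarith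
    refine ⟨fun l => t' * q l, ?_, fun l => ?_⟩
    · have h3 : (fun l => ((t' * q l : ℚ) : ℝ)) = (t' : ℝ) • (fun l => (q l : ℝ)) := by
        funext l
        push_cast
        rfl
      rw [h3]
      exact Submodule.smul_mem _ _ hq
    · have h3 := hq' l
      have h4 : |x l| ≤ ‖x‖ := by
        have := norm_le_pi_norm x l
        simpa using this
      have h5 : ((t' * q l : ℚ) : ℝ) - (t • x) l = t' * (q l - x l) + (t' - t) * x l := by
        rw [Pi.smul_apply, smul_eq_mul]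
        push_cast
        ring
      rw [h5]
      have h6 : |(t' : ℝ) * (q l - x l)| < ε / 2 := by
        rw [abs_mul]
        have h7 : |(t' : ℝ)| * |(q l : ℝ) - x l| ≤ (|t| + 1) * |(q l : ℝ) - x l| :=
          mul_le_mul_of_nonneg_right ht5 (abs_nonneg _)
        have h8 : (|t| + 1) * |(q l : ℝ) - x l| < (|t| + 1) * (ε / (2 * (|t| + 1))) :=
          mul_lt_mul_of_pos_left h3 ht
        have h9 : (|t| + 1) * (ε / (2 * (|t| + 1))) = ε / 2 := by field_simp
        linarith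
      have h7 : |((t' : ℝ) - t) * x l| ≤ ε / 2 := by
        rw [abs_mul, abs_of_pos (show 0 < (t' : ℝ) - t by linarith)]
        have h8 : ((t' : ℝ) - t) * |x l| ≤ (ε / (2 * (‖x‖ + 1))) * (‖x‖ + 1) := by
          refine mul_le_mul ht4.le (by linarith) (abs_nonneg _) (by positivity)
        have h9 : (ε / (2 * (‖x‖ + 1))) * (‖x‖ + 1) = ε / 2 := by field_simp
        linarith
      have h8 := abs_add_le ((t' : ℝ) * (q l - x l)) (((t' : ℝ) - t) * x l)
      linarith

/-- RATIONAL APPROXIMATION. Proof: `p = a + ∑_j x_j m_j`. Take a `ℚ`-basis `b_0 = 1, b_1, …` of the span of `1` and the `x_j`; `x_j = ∑_k b_k x_{jk}`. For real numbers `b' = (b'_1, …)` near `b` put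
`p(b') = a + ∑_j (x_{j0} + ∑_{k ≥ 1} b'_k x_{jk}) m_j`. For `i ∈ I` the `i`-th coordinate of `p(b)` is rational, so (independence) it does not depend on `b'`. Choose the `b'_k` rational and close to `b_k`. -/
theorem rat_approx {ι : Type} [Fintype ι] (M : AddSubgroup (ι → ℤ)) (a : ι → ℚ) (I : Finset ι) (p : ι → ℝ)
    (hp : (fun l => p l - (a l : ℝ)) ∈ mR M) (hI : ∀ i ∈ I, ∃ x : ℚ, p i = x) (ε : ℝ) (hε : 0 < ε) :
    ∃ q : ι → ℚ, (fun l => (q l : ℝ) - (a l : ℝ)) ∈ mR M ∧ (∀ i ∈ I, (q i : ℝ) = p i) ∧ ∀ l, |(q l : ℝ) - p l| < ε := by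
  classical
  obtain ⟨φ, hφ⟩ := a16b_phi
  set q0 : ι → ℚ := fun l => a l + φ (p l - a l) with hq0
  have h1 : (fun l => (q0 l : ℝ) - (a l : ℝ)) ∈ mR M := by
    have h2 := a16b_map M φ _ hp 1
    have h3 : (fun l => (q0 l : ℝ) - (a l : ℝ)) = (fun l => ((φ (1 * (p l - (a l : ℝ))) : ℚ) : ℝ)) := by
      funext l
      simp only [hq0, one_mul]
      push_cast
      ring
    rw [h3]
    exact h2
  have h2 : ∀ i ∈ I, (q0 i : ℝ) = p i := by
    intro i hi
    obtain ⟨x, hx⟩ := hI i hi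
    simp only [hq0]
    have h3 : p i - (a i : ℝ) = ((x - a i : ℚ) : ℝ) := by
      rw [hx]
      push_cast
      ring
    rw [h3, hφ, hx]
    push_cast
    ring
  have h3 : (fun l => p l - (q0 l : ℝ)) ∈ mR (sub0 M I) := by
    rw [mem_mR_sub0]
    constructor
    · have h4 := Submodule.sub_mem _ hp h1
      have h5 : (fun l => p l - (q0 l : ℝ)) =
          (fun l => p l - (a l : ℝ)) - (fun l => (q0 l : ℝ) - (a l : ℝ)) := by
        funext l
        rw [Pi.sub_apply]
        ring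
      rw [h5]
      exact h4
    · intro i hi
      rw [h2 i hi, sub_self]
  obtain ⟨d, hd, hd'⟩ := a16b_dense _ _ h3 ε hε
  have hd2 := (mem_mR_sub0 M I _).1 hd
  refine ⟨fun l => q0 l + d l, ?_, fun i hi => ?_, fun l => ?_⟩
  · have h4 := Submodule.add_mem _ h1 hd2.1
    have h5 : (fun l => ((q0 l + d l : ℚ) : ℝ) - (a l : ℝ)) =
        (fun l => (q0 l : ℝ) - (a l : ℝ)) + (fun l => (d l : ℝ)) := by
      funext l
      rw [Pi.add_apply]
      push_cast
      ring
    rw [h5]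
    exact h4
  · push_cast
    rw [hd2.2 i hi, add_zero, h2 i hi]
  · have h4 := hd' l
    have h5 : ((q0 l + d l : ℚ) : ℝ) - p l = (d l : ℝ) - (p l - (q0 l : ℝ)) := by
      push_cast
      ring
    rw [h5]
    exact h4

end Pool.Agent.TOR
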