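import Pool.Agent.TOR.A13

namespace Pool.Agent.TOR

open Set

/-- On the level `s` itself: the constraints in `I ∪ E'` imply those in `E`. Proof: let `p` violate some `j ∈ E`. On the segment from `pr` to `p` let `r` be the largest parameter such that all coordinates in `E` are `≥ s` up to `r`
(coordinates in `I ∪ E'` are `≥ s` all along); at `r < 1` some coordinate `j ∈ E \ (I ∪ E')` equals `s`, and the point is in `Pst` (note `s > 0`): so `j ∈ E'` by definition (`j ∉ I`). Contradiction. -/
theorem near_top {ι : Type} [Fintype ι] (M : AddSubgroup (ι → ℤ)) (E : Finset ι) (a : ι → ℝ) (s : ℝ)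
    (I E' : Finset ι) (pr : ι → ℝ) (T : TopPre M E a s I E' pr) (p : ι → ℝ) (hp : p - a ∈ mR M)
    (h : ∀ l, l ∈ I ∨ l ∈ E' → s ≤ p l) : ∀ l ∈ E, s ≤ p l := by
  classical
  by_contra hcon
  push Not at hcon
  obtain ⟨j0, hj0, hj0'⟩ := hcon
  let B : Finset ι := E.filter fun l => p l < s
  have hB : B.Nonempty := ⟨j0, Finset.mem_filter.2 ⟨hj0, hj0'⟩⟩
  obtain ⟨j, hj, hmin⟩ := B.exists_min_image (fun l => (pr l - s) / (pr l - p l)) hB
  have hjE : j ∈ E := (Finset.mem_filter.1 hj).1
  have hjs : p j < s := (Finset.mem_filter.1 hj).2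
  have hjI : j ∉ I := fun hI => absurd (h j (Or.inl hI)) (not_le.2 hjs)
  have hjg : s < pr j := T.pr_gt j hjE hjI
  set r : ℝ := (pr j - s) / (pr j - p j) with hr
  have hd : 0 < pr j - p j := by linarith
  have hr0 : 0 < r := div_pos (by linarith) hd
  have hr1 : r ≤ 1 := by
    rw [hr, div_le_one hd]
    linarith
  have hrj : r * (pr j - p j) = pr j - s := by
    rw [hr, div_mul_cancel₀ _ hd.ne']
  let q : ι → ℝ := pr + r • (p - pr)
  have hq : ∀ l, q l = pr l + r * (p l - pr l) := fun l => rfl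
  have hqj : q j = s := by
    rw [hq]
    linarith
  have hqs : ∀ l ∈ E, s ≤ q l := by
    intro l hl
    rw [hq]
    have hprl : s ≤ pr l := T.pr_mem.2 l hl
    by_cases hls : s ≤ p l
    · nlinarith
    · push Not at hls
      have hlB : l ∈ B := Finset.mem_filter.2 ⟨hl, hls⟩
      have h1 := hmin l hlB
      have hd' : 0 < pr l - p l := by linarith
      have h2 : r * (pr l - p l) ≤ pr l - s := by
        have h3 : r ≤ (pr l - s) / (pr l - p l) := h1
        rwa [le_div_iff₀ hd'] at h3
      linarith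
  have hqm : q - a ∈ mR M := by
    have h1 : q - a = (pr - a) + r • ((p - a) - (pr - a)) := by
      funext l
      simp only [Pi.sub_apply, Pi.add_apply, Pi.smul_apply, smul_eq_mul, hq]
      ring
    rw [h1]
    exact Submodule.add_mem _ T.pr_mem.1.1 (Submodule.smul_mem _ _ (Submodule.sub_mem _ hp T.pr_mem.1.1))
  have hqP : q ∈ Pst M E a s := ⟨⟨hqm, fun l hl => T.spos.le.trans (hqs l hl)⟩, hqs⟩
  have : j ∈ E' := (T.hE' j).2 ⟨hjE, hjI, q, hqP, hqj⟩
  exact absurd (h j (Or.inr this)) (not_le.2 hjs)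

end Pool.Agent.TOR
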