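import Pool.Agent.TOR.A17

namespace Pool.Agent.TOR

open Set

theorem a17b_one {ι : Type} [Fintype ι] [DecidableEq ι] (M : AddSubgroup (ι → ℤ)) (E : Finset ι) (a : ι → ℝ) (s : ℝ)
    (I E' : Finset ι) (pr : ι → ℝ) (T : TopPre M E a s I E' pr) (C : ℝ)
    (hC : ∀ s' : ℝ, 0 ≤ s' → s' ≤ s → ∀ p : ι → ℝ, p - a ∈ mR M →
      (∀ l, l ∈ I ∨ l ∈ E' → s' ≤ p l) → ∀ l, |p l| ≤ C) (j : ι) (hj : j ∈ E) :
    ∃ t : ℝ, t < s ∧ ∀ s' : ℝ, t < s' → 0 ≤ s' → s' ≤ s → ∀ p : ι → ℝ, p - a ∈ mR M →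
      (∀ l, l ∈ I ∨ l ∈ E' → s' ≤ p l) → s' ≤ p j := by
  classical
  by_cases hjI : j ∈ I ∨ j ∈ E'
  · exact ⟨s - 1, by linarith, fun s' _ _ _ p _ h => h j hjI⟩
  let K : Set (ℝ × (ι → ℝ)) := {x | (0 ≤ x.1 ∧ x.1 ≤ s) ∧ x.2 - a ∈ mR M ∧
    (∀ l, l ∈ I ∨ l ∈ E' → x.1 ≤ x.2 l) ∧ (∀ l, |x.2 l| ≤ C) ∧ x.2 j ≤ x.1}
  have hcl : IsClosed K := by
    have hm : IsClosed ((mR M : Submodule ℝ (ι → ℝ)) : Set (ι → ℝ)) := Submodule.closed_of_finiteDimensional _
    have c1 : IsClosed {x : ℝ × (ι → ℝ) | 0 ≤ x.1} := isClosed_le continuous_const continuous_fst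
    have c2 : IsClosed {x : ℝ × (ι → ℝ) | x.1 ≤ s} := isClosed_le continuous_fst continuous_const
    have c3 : IsClosed {x : ℝ × (ι → ℝ) | x.2 - a ∈ mR M} :=
      hm.preimage (continuous_snd.sub continuous_const)
    have c4 : IsClosed {x : ℝ × (ι → ℝ) | ∀ l, l ∈ I ∨ l ∈ E' → x.1 ≤ x.2 l} := by
      simp only [Set.ofPred_forall]
      exact isClosed_iInter fun l => isClosed_iInter fun _ =>
        isClosed_le continuous_fst ((continuous_apply l).comp continuous_snd)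
    have c5 : IsClosed {x : ℝ × (ι → ℝ) | ∀ l, |x.2 l| ≤ C} := by
      simp only [Set.ofPred_forall]
      exact isClosed_iInter fun l =>
        isClosed_le ((continuous_apply l).comp continuous_snd).abs continuous_const
    have c6 : IsClosed {x : ℝ × (ι → ℝ) | x.2 j ≤ x.1} :=
      isClosed_le ((continuous_apply j).comp continuous_snd) continuous_fst
    exact (c1.inter c2).inter (c3.inter (c4.inter (c5.inter c6)))
  have hK : IsCompact K := by
    have : IsCompact (Icc (0 : ℝ) s ×ˢ (Set.univ.pi fun _ : ι => Icc (-C) C)) :=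
      isCompact_Icc.prod (isCompact_univ_pi fun _ => isCompact_Icc)
    refine this.of_isClosed_subset hcl ?_
    rintro x ⟨h1, _, _, h4, _⟩
    exact ⟨h1, fun l _ => abs_le.1 (h4 l)⟩
  by_cases hne : K.Nonempty
  · obtain ⟨x, hx, hmax⟩ := hK.exists_isMaxOn hne continuous_fst.continuousOn
    refine ⟨x.1, ?_, ?_⟩
    · refine lt_of_le_of_ne hx.1.2 fun hs => ?_
      obtain ⟨⟨h0, _⟩, h2, h3, _, h5⟩ := hx
      rw [hs] at h3 h5
      have h6 := near_top M E a s I E' pr T x.2 h2 h3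
      have h7 : x.2 ∈ Pst M E a s := ⟨⟨h2, fun l hl => T.spos.le.trans (h6 l hl)⟩, h6⟩
      have h8 : x.2 j = s := le_antisymm h5 (h6 j hj)
      push Not at hjI
      exact hjI.2 ((T.hE' j).2 ⟨hj, hjI.1, x.2, h7, h8⟩)
    · intro s' h1 h2 h3 p hp hl
      by_contra hcon
      push Not at hcon
      have : (s', p) ∈ K := ⟨⟨h2, h3⟩, hp, hl, hC s' h2 h3 p hp hl, hcon.le⟩
      have h4 : s' ≤ x.1 := hmax this
      linarith
  · refine ⟨s - 1, by linarith, fun s' _ h2 h3 p hp hl => ?_⟩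
    by_contra hcon
    push Not at hcon
    exact hne ⟨(s', p), ⟨h2, h3⟩, hp, hl, hC s' h2 h3 p hp hl, hcon.le⟩

/-- (G4') just below the top. Proof: otherwise there are `s_n → s` (`s_n ≤ s`), `p_n ∈ a + mR M` with coordinates `≥ s_n` on `I ∪ E'` and `p_n j < s_n` for some `j ∈ E`, the same `j` along a subsequence. The `p_n` are bounded: `p_n - s_n 1` lies in
`PP M (I ∪ E') (a - s_n 1)`, and `PP M (I ∪ E') (a - s 1)` is nonempty and bounded (by `near_top` it is `Pst - s 1`), use `bdd_unif`. A limit `p` has coordinates `≥ s` on `I ∪ E'`, so on `E` (`near_top`), so `p ∈ Pst`, and `p j ≤ s`, so `p j = s` and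
`j ∈ I ∪ E'`: contradiction with `p_n j < s_n`. -/
theorem near_top' {ι : Type} [Fintype ι] [DecidableEq ι] (M : AddSubgroup (ι → ℤ)) (E : Finset ι) (a : ι → ℝ) (s : ℝ)
    (I E' : Finset ι) (pr : ι → ℝ) (T : TopPre M E a s I E' pr) (hb : Bornology.IsBounded (PP M E a)) :
    ∃ s1 : ℚ, 0 < s1 ∧ (s1 : ℝ) < s ∧ ∀ s' : ℝ, (s1 : ℝ) ≤ s' → s' ≤ s → ∀ p : ι → ℝ, p - a ∈ mR M →
      (∀ l, l ∈ I ∨ l ∈ E' → s' ≤ p l) → ∀ l ∈ E, s' ≤ p l := by
  classical
  -- the polyhedron at level `s`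
  have hne : (PP M (I ∪ E') (a - fun _ => s)).Nonempty := by
    refine ⟨pr - fun _ => s, ?_, ?_⟩
    · have h : (pr - fun _ => s) - (a - fun _ => s) = pr - a := by
        funext l
        simp only [Pi.sub_apply]
        ring
      rw [h]
      exact T.pr_mem.1.1
    · intro l hl
      have hlE : l ∈ E := by
        rcases Finset.mem_union.1 hl with h | h
        · exact ((T.hI l).1 h).1
        · exact ((T.hE' l).1 h).1
      have := T.pr_mem.2 l hlE
      simp only [Pi.sub_apply]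
      linarith
  have hbd : Bornology.IsBounded (PP M (I ∪ E') (a - fun _ => s)) := by
    have hsub : PP M (I ∪ E') (a - fun _ => s) ⊆ (fun p : ι → ℝ => p - fun _ => s) '' (PP M E a) := by
      rintro q ⟨hq, hq'⟩
      refine ⟨q + fun _ => s, ?_, by simp⟩
      have h : q - (a - fun _ => s) = (q + fun _ => s) - a := by
        funext l
        simp only [Pi.sub_apply, Pi.add_apply]
        ring
      rw [h] at hq
      have h6 := near_top M E a s I E' pr T _ hq (fun l hl => by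
        have := hq' l (Finset.mem_union.2 hl)
        simp only [Pi.add_apply]
        linarith)
      exact ⟨hq, fun l hl => T.spos.le.trans (h6 l hl)⟩
    refine Bornology.IsBounded.subset ?_ hsub
    obtain ⟨R, hR⟩ := hb.exists_norm_le
    rw [isBounded_iff_forall_norm_le]
    refine ⟨R + ‖(fun _ => s : ι → ℝ)‖, ?_⟩
    rintro _ ⟨p, hp, rfl⟩
    exact (norm_sub_le _ _).trans (add_le_add_left (hR p hp) _)
  obtain ⟨C, hC⟩ := bdd_unif M (I ∪ E') (a - fun _ => s) hne hbd s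
  have hC' : ∀ s' : ℝ, 0 ≤ s' → s' ≤ s → ∀ p : ι → ℝ, p - a ∈ mR M →
      (∀ l, l ∈ I ∨ l ∈ E' → s' ≤ p l) → ∀ l, |p l| ≤ C + s := by
    intro s' h0 h1 p hp hl l
    have h2 := hC (a - fun _ => s') (fun l => by
      simp only [Pi.sub_apply]
      rw [abs_le]
      constructor <;> linarith) (p - fun _ => s') ⟨by
        have h : (p - fun _ => s') - (a - fun _ => s') = p - a := by
          funext l
          simp only [Pi.sub_apply]
          ring
        rw [h]
        exact hp, fun l hl' => by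
          have := hl l (Finset.mem_union.1 hl')
          simp only [Pi.sub_apply]
          linarith⟩ l
    simp only [Pi.sub_apply] at h2
    rw [abs_le] at h2 ⊢
    constructor <;> linarith [h2.1, h2.2]
  choose! t ht1 ht2 using a17b_one M E a s I E' pr T (C + s) hC'
  have hev : ∀ᶠ r in nhdsWithin s (Iio s), 0 < r ∧ ∀ j ∈ E, t j < r := by
    refine Filter.Eventually.and ?_ ?_
    · exact Filter.mem_of_superset (Ioo_mem_nhdsLT T.spos) fun x hx => hx.1
    · rw [Filter.eventually_all_finset]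
      intro j hj
      exact Filter.mem_of_superset (Ioo_mem_nhdsLT (ht1 j hj)) fun x hx => hx.1
  obtain ⟨r, ⟨hr0, hrt⟩, hrs⟩ := (hev.and self_mem_nhdsWithin).exists
  obtain ⟨q, hq1, hq2⟩ := exists_rat_btwn (show r < s from hrs)
  refine ⟨q, by exact_mod_cast hr0.trans hq1, hq2, ?_⟩
  intro s' h1 h2 p hp hl l hlE
  exact ht2 l hlE s' ((hrt l hlE).trans (hq1.trans_le h1)) ((hr0.trans hq1).le.trans h1) h2 p hp hl

end Pool.Agent.TOR
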