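import Pool.Agent.TOR.A16
import Pool.Agent.TOR.A17

namespace Pool.Agent.TOR

open Set

/-- the indicator of `E` times `s` -/
noncomputable def ind {ι : Type} [DecidableEq ι] (E : Finset ι) (s : ℝ) : ι → ℝ := fun l => if l ∈ E then s else 0

/-- The top face of the roof is the polyhedron of the base. Proof: `p = p' + s 1_E`; `p - a = (p' - (pt - s 1_E)) + (pt - a) ∈ mR M` (`mR (sub0 M I) ≤ mR M`, `mem_mR_sub0`),
`p i = pt i = s` for `i ∈ I` (`mem_mR_sub0`: elements of `mR (sub0 M I)` vanish on `I`), `p l ≥ s` for `l ∈ E'`; `near_top` gives `p l ≥ s` on `E`. So `p ∈ Pst`, the minimum of `p` over `E` is `s` (attained on `I`, nonempty),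
`amin E p = {l ∈ E | p l = s}`, and for `l ∈ E`, `l ∉ I`: `p l = s` iff `l ∈ E'` and `p' l = 0` (by `hE'`). -/
theorem top_face {ι : Type} [Fintype ι] [DecidableEq ι] (M : AddSubgroup (ι → ℤ)) (E : Finset ι) (a : ι → ℝ) (s : ℝ)
    (I E' : Finset ι) (pr : ι → ℝ) (T : TopPre M E a s I E' pr) (pt : ι → ℝ) (hpt : pt - a ∈ mR M)
    (hI : ∀ i ∈ I, pt i = s) (hgt : ∀ l ∈ E, l ∉ I → s < pt l) (p' : ι → ℝ)
    (hp' : p' - (pt - ind E s) ∈ mR (sub0 M I)) (hpos : ∀ l ∈ E', 0 ≤ p' l) :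
    p' + ind E s ∈ Pst M E a s ∧ amin E (p' + ind E s) = I ∪ tight E' p' := by
  have hsub := (mem_mR_sub0 M I _).1 hp'
  have hindE : ∀ l ∈ E, ind E s l = s := fun l hl => by simp only [ind]; rw [if_pos hl]
  set p : ι → ℝ := p' + ind E s with hp
  have hpa : p - a ∈ mR M := by
    have h1 : p - a = (p' - (pt - ind E s)) + (pt - a) := by
      rw [hp]; abel
    rw [h1]
    exact Submodule.add_mem _ hsub.1 hpt
  have hIE : ∀ i ∈ I, i ∈ E := fun i hi => ((T.hI i).1 hi).1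
  have hE'E : ∀ l ∈ E', l ∈ E := fun l hl => ((T.hE' l).1 hl).1
  have hpI : ∀ i ∈ I, p i = s := by
    intro i hi
    have h1 := hsub.2 i hi
    simp only [Pi.sub_apply] at h1
    rw [hp, Pi.add_apply]
    have h2 := hI i hi
    linarith
  have hpE' : ∀ l ∈ E', p l = p' l + s := by
    intro l hl
    rw [hp, Pi.add_apply, hindE l (hE'E l hl)]
  have hge : ∀ l ∈ E, s ≤ p l := by
    refine near_top M E a s I E' pr T p hpa fun l hl => ?_
    rcases hl with hl | hl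
    · exact (hpI l hl).ge
    · rw [hpE' l hl]
      linarith [hpos l hl]
  have hPst : p ∈ Pst M E a s := ⟨⟨hpa, fun l hl => T.spos.le.trans (hge l hl)⟩, hge⟩
  refine ⟨hPst, ?_⟩
  obtain ⟨i0, hi0⟩ := T.hIne
  ext l
  rw [mem_amin, Finset.mem_union, mem_tight]
  constructor
  · rintro ⟨hl, hmin⟩
    have h1 : p l = s := le_antisymm ((hmin i0 (hIE i0 hi0)).trans (hpI i0 hi0).le) (hge l hl)
    by_cases hlI : l ∈ I
    · exact Or.inl hlI
    · have hlE' : l ∈ E' := (T.hE' l).2 ⟨hl, hlI, p, hPst, h1⟩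
      refine Or.inr ⟨hlE', ?_⟩
      have := hpE' l hlE'
      linarith
  · rintro (hl | ⟨hl, h0⟩)
    · refine ⟨hIE l hl, fun j hj => ?_⟩
      rw [hpI l hl]
      exact hge j hj
    · refine ⟨hE'E l hl, fun j hj => ?_⟩
      rw [hpE' l hl, h0, zero_add]
      exact hge j hj

/-- Bounded. Proof: `PP (sub0 M I) E' (pt - s 1_E)` translated by `s 1_E` is contained in `PP M E a` (`top_face`). -/
theorem bdd_face {ι : Type} [Fintype ι] [DecidableEq ι] (M : AddSubgroup (ι → ℤ)) (E : Finset ι) (a : ι → ℝ) (s : ℝ)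
    (hb : Bornology.IsBounded (PP M E a))
    (I E' : Finset ι) (pr : ι → ℝ) (T : TopPre M E a s I E' pr) (pt : ι → ℝ) (hpt : pt - a ∈ mR M)
    (hI : ∀ i ∈ I, pt i = s) (hgt : ∀ l ∈ E, l ∉ I → s < pt l) :
    Bornology.IsBounded (PP (sub0 M I) E' (pt - ind E s)) := by
  obtain ⟨C, hC⟩ := isBounded_iff_forall_norm_le.1 hb
  rw [isBounded_iff_forall_norm_le]
  refine ⟨C + ‖ind E s‖, fun p' hp' => ?_⟩
  have h1 := (top_face M E a s I E' pr T pt hpt hI hgt p' hp'.1 hp'.2).1.1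
  have h2 := hC _ h1
  have h3 : ‖p'‖ ≤ ‖p' + ind E s‖ + ‖ind E s‖ := by
    have h4 : p' = (p' + ind E s) - ind E s := by abel
    conv_lhs => rw [h4]
    exact norm_sub_le _ _
  linarith

/-- Zeros. Proof: `l ∈ E'` gives `p ∈ Pst` with `p l = s` (`hE'`); `p' = p - s 1_E`: `p' - (pt - s 1_E) = (p - a) - (pt - a) ∈ mR M` vanishes on `I` (`p i = s` by `hI` of `T`, `pt i = s`), so it is in
`mR (sub0 M I)` by `mem_mR_sub0`. -/
theorem zero_face {ι : Type} [Fintype ι] [DecidableEq ι] (M : AddSubgroup (ι → ℤ)) (E : Finset ι) (a : ι → ℝ) (s : ℝ)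
    (I E' : Finset ι) (pr : ι → ℝ) (T : TopPre M E a s I E' pr) (pt : ι → ℝ) (hpt : pt - a ∈ mR M)
    (hI : ∀ i ∈ I, pt i = s) (hgt : ∀ l ∈ E, l ∉ I → s < pt l) :
    ∀ l ∈ E', ∃ p ∈ PP (sub0 M I) E' (pt - ind E s), p l = 0 := by
  intro l hl
  obtain ⟨hlE, hlI, p, hp, hpl⟩ := (T.hE' l).1 hl
  have hindE : ∀ l ∈ E, ind E s l = s := fun l hl => by simp only [ind]; rw [if_pos hl]
  refine ⟨p - ind E s, ⟨?_, fun j hj => ?_⟩, ?_⟩
  · rw [mem_mR_sub0]
    have h1 : p - ind E s - (pt - ind E s) = (p - a) - (pt - a) := by abel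
    rw [h1]
    refine ⟨Submodule.sub_mem _ hp.1.1 hpt, fun i hi => ?_⟩
    simp only [Pi.sub_apply]
    rw [((T.hI i).1 hi).2 p hp, hI i hi]
    ring
  · have hjE := ((T.hE' j).1 hj).1
    rw [Pi.sub_apply, hindE j hjE]
    linarith [hp.2 j hjE]
  · rw [Pi.sub_apply, hindE l hlE, hpl, sub_self]

end Pool.Agent.TOR
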