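import Pool.Agent.TOR.A8
import Pool.Agent.TOR.A18

namespace Pool.Agent.TOR

open Set

/-- A relation on `sub0 M I` extends to a relation on `M` by coordinates in `I`. Proof: the linear functional `δ ↦ ∑ c l δ l` on `mR M` vanishes on `{δ ∈ mR M | δ i = 0 for i ∈ I} = mR (sub0 M I)` (`mem_mR_sub0`, `rel_mR`),
i.e. on the kernel of the restriction map `mR M → ℝ^I`; so it is a linear functional of the restriction (`LinearMap` factorisation; extend from the range to `ℝ^I`), `∑ c l δ l = - ∑_{i ∈ I} e i δ i`. -/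
theorem extend_rel {ι : Type} [Fintype ι] (M : AddSubgroup (ι → ℤ)) (I : Finset ι) (c : ι → ℝ)
    (h : ∀ m ∈ sub0 M I, ∑ l, c l * (m l : ℝ) = 0) :
    ∃ e : ι → ℝ, (∀ l, l ∉ I → e l = 0) ∧ ∀ m ∈ M, ∑ l, (c l + e l) * (m l : ℝ) = 0 := by
  classical
  set f : (mR M) →ₗ[ℝ] ℝ :=
    { toFun := fun δ => ∑ l, c l * (δ : ι → ℝ) l
      map_add' := fun x y => by
        rw [← Finset.sum_add_distrib]
        refine Finset.sum_congr rfl fun l _ => ?_
        rw [Submodule.coe_add, Pi.add_apply]
        ring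
      map_smul' := fun t x => by
        rw [RingHom.id_apply, smul_eq_mul, Finset.mul_sum]
        refine Finset.sum_congr rfl fun l _ => ?_
        rw [Submodule.coe_smul, Pi.smul_apply, smul_eq_mul]
        ring } with hf
  set R : (mR M) →ₗ[ℝ] (ι → ℝ) :=
    { toFun := fun δ l => if l ∈ I then (δ : ι → ℝ) l else 0
      map_add' := fun x y => by
        funext l
        simp only [Pi.add_apply]
        split_ifs
        · rfl
        · simp
      map_smul' := fun t x => by
        funext l
        simp only [Pi.smul_apply, RingHom.id_apply]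
        split_ifs
        · rfl
        · simp } with hR
  have hmem : f ∈ (LinearMap.ker R).dualAnnihilator := by
    rw [Submodule.mem_dualAnnihilator]
    intro δ hδ
    have h1 : ((δ : ι → ℝ)) ∈ mR (sub0 M I) := by
      rw [mem_mR_sub0]
      refine ⟨δ.2, fun i hi => ?_⟩
      have h2 := congrFun (LinearMap.mem_ker.1 hδ) i
      simp only [hR, LinearMap.coe_mk, AddHom.coe_mk, Pi.zero_apply] at h2
      rwa [if_pos hi] at h2
    exact rel_mR (sub0 M I) c h _ h1
  rw [← LinearMap.range_dualMap_eq_dualAnnihilator_ker] at hmem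
  obtain ⟨g, hg⟩ := hmem
  refine ⟨fun l => if l ∈ I then -(g (fun j => if l = j then 1 else 0)) else 0, fun l hl => by
    simp only; rw [if_neg hl], fun m hm => ?_⟩
  have h1 : f ⟨fun l => (m l : ℝ), int_mem_mR hm⟩ = g (R ⟨fun l => (m l : ℝ), int_mem_mR hm⟩) := by
    rw [← hg]
    rfl
  rw [LinearMap.pi_apply_eq_sum_univ g] at h1
  have h2 : f ⟨fun l => (m l : ℝ), int_mem_mR hm⟩ = ∑ l, c l * (m l : ℝ) := rfl
  rw [h2] at h1
  have h3 : ∀ l, (c l + (if l ∈ I then -(g (fun j => if l = j then 1 else 0)) else 0)) * (m l : ℝ) =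
      c l * (m l : ℝ) - (R ⟨fun l => (m l : ℝ), int_mem_mR hm⟩ l) • g (fun j => if l = j then 1 else 0) := by
    intro l
    have h4 : R ⟨fun l => (m l : ℝ), int_mem_mR hm⟩ l = if l ∈ I then (m l : ℝ) else 0 := rfl
    rw [h4, smul_eq_mul]
    split_ifs <;> ring
  simp only [h3]
  rw [Finset.sum_sub_distrib, ← h1, sub_self]

/-- The rank drops. Proof: take `i ∈ I` and `q ∈ PP M E a` with `q i = 0`; `q - pr ∈ mR M` has `i`-coordinate `-s ≠ 0`, so some `m ∈ M` has `m i ≠ 0`. The quotient `M / sub0 M I` embeds in `ι → ℤ` (restriction to `I`), it is torsion free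
and nonzero. (`Module.finrank` over `ℤ`; e.g. via `rank_quotient_add_rank_of_isDomain`/`Submodule.finrank_quotient_add_finrank`, or: if the ranks were equal, `sub0 M I` would have finite index in `M`-span and `k m ∈ sub0 M I` for some `k > 0`.) -/
theorem rank_face {ι : Type} [Fintype ι] (M : AddSubgroup (ι → ℤ)) (E : Finset ι) (a : ι → ℝ) (s : ℝ)
    (hz : ∀ l ∈ E, ∃ p ∈ PP M E a, p l = 0)
    (I E' : Finset ι) (pr : ι → ℝ) (T : TopPre M E a s I E' pr) :
    Module.finrank ℤ (sub0 M I) < Module.finrank ℤ M := by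
  classical
  obtain ⟨i, hi⟩ := T.hIne
  obtain ⟨q, hq, hq0⟩ := hz i ((T.hI i).1 hi).1
  -- some element of `M` with a nonzero coordinate at `i`
  obtain ⟨m0, hm0, hm0i⟩ : ∃ m ∈ M, m i ≠ 0 := by
    by_contra hcon
    push Not at hcon
    have h1 := rel_mR M (Pi.single i 1) (by
      intro m hm
      rw [Finset.sum_eq_single i]
      · rw [hcon m hm]; simp
      · intro j _ hj
        rw [Pi.single_eq_of_ne hj, zero_mul]
      · intro h
        exact absurd (Finset.mem_univ _) h) (q - pr) (by
      have h2 : q - pr = (q - a) - (pr - a) := by abel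
      rw [h2]
      exact Submodule.sub_mem _ hq.1 T.pr_mem.1.1)
    rw [Finset.sum_eq_single i] at h1
    · rw [Pi.single_eq_same, one_mul, Pi.sub_apply, hq0, T.pr_I i hi] at h1
      have := T.spos
      linarith
    · intro j _ hj
      rw [Pi.single_eq_of_ne hj, zero_mul]
    · intro h
      exact absurd (Finset.mem_univ _) h
  set φ : ↥M →ₗ[ℤ] ℤ := ((Pi.evalAddMonoidHom (fun _ : ι => ℤ) i).comp M.subtype).toIntLinearMap with hφ
  have hφv : ∀ m : ↥M, φ m = (m : ι → ℤ) i := fun _ => rfl
  have hnoeth : IsNoetherian ℤ ↥M :=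
    isNoetherian_of_injective (M.subtype.toIntLinearMap) (by
      intro x y hxy
      exact Subtype.ext hxy)
  have h1 : Module.finrank ℤ (LinearMap.range φ) + Module.finrank ℤ (LinearMap.ker φ) =
      Module.finrank ℤ ↥M := by
    have h0 := Submodule.finrank_quotient_add_finrank (LinearMap.ker φ)
    rw [(LinearMap.quotKerEquivRange φ).finrank_eq] at h0
    exact h0
  have h2 : 0 < Module.finrank ℤ (LinearMap.range φ) := by
    have hnt : Nontrivial (LinearMap.range φ) := by
      rw [Submodule.nontrivial_iff_ne_bot]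
      intro h
      have h3 : φ ⟨m0, hm0⟩ ∈ LinearMap.range φ := LinearMap.mem_range_self φ _
      rw [h, Submodule.mem_bot] at h3
      exact hm0i h3
    exact Module.finrank_pos
  set j : ↥(sub0 M I) →ₗ[ℤ] ↥(LinearMap.ker φ) :=
    { toFun := fun m => ⟨⟨(m : ι → ℤ), m.2.1⟩, by
        rw [LinearMap.mem_ker]
        exact m.2.2 i hi⟩
      map_add' := fun x y => rfl
      map_smul' := fun t x => rfl } with hj
  have h3 : Module.finrank ℤ ↥(sub0 M I) ≤ Module.finrank ℤ ↥(LinearMap.ker φ) := by
    refine LinearMap.finrank_le_finrank_of_injective (f := j) ?_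
    intro x y hxy
    apply Subtype.ext
    have h4 := congrArg (fun z : ↥(LinearMap.ker φ) => ((z : ↥M) : ι → ℤ)) hxy
    exact h4
  omega

end Pool.Agent.TOR
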