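import Pool.Agent.TOR.A19

namespace Pool.Agent.TOR

open Set

/-- The base polyhedron is simple. Proof: `τ = tight E' p'`, `c` supported in `τ`, a relation on `sub0 M I`; `extend_rel` gives `e` supported in `I`; add a multiple `x β` such that the sum of all
entries of `c + e + x β` is zero. `Gen M E a` at `(p, s)`, `p = p' + s 1_E` (`top_face`: `p ∈ Pst`, `amin E p = I ∪ τ`; all of `I ∪ τ` is in `{l ∈ E | p l = s}`) gives `c + e + x β = 0`; `c` is supported in `E'`, disjoint from `I`, so `c = 0`. -/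
theorem simp_face {ι : Type} [Fintype ι] [DecidableEq ι] (M : AddSubgroup (ι → ℤ)) (E : Finset ι) (a : ι → ℝ) (s : ℝ) (hG : Gen M E a)
    (I E' : Finset ι) (pr : ι → ℝ) (T : TopPre M E a s I E' pr) (pt : ι → ℝ) (hpt : pt - a ∈ mR M)
    (hI : ∀ i ∈ I, pt i = s) (hgt : ∀ l ∈ E, l ∉ I → s < pt l)
    (β : ι → ℤ) (h1 : ∀ i, i ∉ I → β i = 0) (h2 : 0 < ∑ i, β i) (h3 : ∀ m ∈ M, ∑ i, β i * m i = 0) :
    Simp (sub0 M I) E' (pt - ind E s) := by
  rintro τ ⟨p', ⟨hp', hpos⟩, rfl⟩ c hc1 hc2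
  obtain ⟨e, he1, he2⟩ := extend_rel M I c hc2
  obtain ⟨hP, -⟩ := top_face M E a s I E' pr T pt hpt hI hgt p' hp' hpos
  have hS : (0 : ℝ) < ∑ i, (β i : ℝ) := by exact_mod_cast h2
  set x : ℝ := -(∑ l, (c l + e l)) / ∑ i, (β i : ℝ) with hx
  have hE'E : ∀ l ∈ E', l ∈ E ∧ l ∉ I := fun l hl => ⟨((T.hE' l).1 hl).1, ((T.hE' l).1 hl).2.1⟩
  have h := hG (p' + ind E s) s hP.1.1 (fun l => c l + e l + x * β l) ?_ ?_ ?_
  · funext l
    by_cases hl : l ∈ tight E' p'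
    · have hlI := (hE'E l (mem_tight.1 hl).1).2
      have h5 := congrFun h l
      simp only [he1 l hlI, h1 l hlI, Int.cast_zero, mul_zero, add_zero] at h5
      exact h5
    · exact hc1 l hl
  · intro l hl
    have hlI : l ∉ I := fun hI' => hl ⟨((T.hI l).1 hI').1, ((T.hI l).1 hI').2 _ hP⟩
    have hlt : l ∉ tight E' p' := fun ht => by
      obtain ⟨h5, h6⟩ := mem_tight.1 ht
      refine hl ⟨(hE'E l h5).1, ?_⟩
      simp only [Pi.add_apply, ind, h6, if_pos (hE'E l h5).1, zero_add]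
    simp only [hc1 l hlt, he1 l hlI, h1 l hlI, Int.cast_zero, mul_zero, add_zero]
  · intro m hm
    have h5 : ∑ l, (c l + e l + x * β l) * (m l : ℝ) =
        ∑ l, (c l + e l) * (m l : ℝ) + x * ∑ l, (β l : ℝ) * (m l : ℝ) := by
      rw [Finset.mul_sum, ← Finset.sum_add_distrib]
      exact Finset.sum_congr rfl fun l _ => by ring
    have h6 : ∑ l, (β l : ℝ) * (m l : ℝ) = 0 := by exact_mod_cast h3 m hm
    rw [h5, he2 m hm, h6, mul_zero, add_zero]
  · rw [Finset.sum_add_distrib, ← Finset.mul_sum, hx, div_mul_cancel₀ _ hS.ne']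
    ring

end Pool.Agent.TOR
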