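import Pool.Agent.TOR.A1

namespace Pool.Agent.TOR

open Set

/-- A path of members of `U` all meeting `L` gives a chain. Proof: apply `chain_interval` with `α = ι`, `s = L`,
`Z l = {r ∈ [0,1] | l ∈ T r}`; choose `l0 ∈ T 0 ∩ L`, `l1 ∈ T 1 ∩ L`. For a chain `l0 = k_0, …, k_n = l1` with
`r_i ∈ Z k_i ∩ Z k_{i+1}`: `T 0, T r_0, …, T r_{n-1}, T 1` is a chain for `Lk U L`: `k_i ∈ T r_{i-1} ∩ T r_i ∩ L`, `l0 ∈ T 0 ∩ T r_0 ∩ L`,
`l1 ∈ T r_{n-1} ∩ T 1 ∩ L`. (Formally: prove by induction on the chain from `l0` to `k`: for every `r ∈ Z k` one has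
`ReflTransGen (Lk U L) (T 0) (T r)`.) -/
theorem conn_of_path {ι : Type} [DecidableEq ι] (U : Set (Finset ι)) (L : Finset ι) (T : ℝ → Finset ι)
    (hU : ∀ r ∈ Icc (0 : ℝ) 1, T r ∈ U)
    (hcl : ∀ l ∈ L, IsClosed {r : ℝ | r ∈ Icc (0 : ℝ) 1 ∧ l ∈ T r})
    (hcov : ∀ r ∈ Icc (0 : ℝ) 1, (T r ∩ L).Nonempty) :
    Relation.ReflTransGen (Lk U L) (T 0) (T 1) := by
  have m0 : (0 : ℝ) ∈ Icc (0 : ℝ) 1 := ⟨le_refl _, zero_le_one⟩
  have m1 : (1 : ℝ) ∈ Icc (0 : ℝ) 1 := ⟨zero_le_one, le_refl _⟩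
  obtain ⟨l0, hl0⟩ := hcov 0 m0
  obtain ⟨l1, hl1⟩ := hcov 1 m1
  rw [Finset.mem_inter] at hl0 hl1
  have hch := chain_interval (fun l => {r : ℝ | r ∈ Icc (0 : ℝ) 1 ∧ l ∈ T r}) L hcl (by
    intro r hr
    obtain ⟨l, hl⟩ := hcov r hr
    rw [Finset.mem_inter] at hl
    rw [mem_iUnion₂]
    exact ⟨l, hl.2, hr, hl.1⟩) l0 l1 hl0.2 ⟨m0, hl0.1⟩ hl1.2 ⟨m1, hl1.1⟩
  have key : ∀ k, Relation.ReflTransGen (fun a b => a ∈ L ∧ b ∈ L ∧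
      ((fun l => {r : ℝ | r ∈ Icc (0 : ℝ) 1 ∧ l ∈ T r}) a ∩
        (fun l => {r : ℝ | r ∈ Icc (0 : ℝ) 1 ∧ l ∈ T r}) b ∩ Icc (0 : ℝ) 1).Nonempty) l0 k →
      ∀ r ∈ Icc (0 : ℝ) 1, k ∈ T r → Relation.ReflTransGen (Lk U L) (T 0) (T r) := by
    intro k hk
    induction hk with
    | refl =>
      intro r hr hk
      refine Relation.ReflTransGen.single ⟨hU 0 m0, hU r hr, l0, ?_⟩
      rw [Finset.mem_inter, Finset.mem_inter]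
      exact ⟨⟨hl0.1, hk⟩, hl0.2⟩
    | tail _ hstep ih =>
      intro r hr hk
      obtain ⟨ha, hb, r', ⟨⟨h1, h2⟩, h3, h4⟩, -⟩ := hstep
      refine (ih r' h1 h2).tail ⟨hU r' h1, hU r hr, ?_⟩
      exact ⟨_, Finset.mem_inter.2 ⟨Finset.mem_inter.2 ⟨h4, hk⟩, hb⟩⟩
  exact key l1 hch 1 m1 hl1.1

/-- `Lk` is symmetric, so the reachability relation is symmetric. -/
theorem reach_symm {ι : Type} [DecidableEq ι] (U : Set (Finset ι)) (L : Finset ι) (τ τ' : Finset ι)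
    (h : Relation.ReflTransGen (Lk U L) τ τ') : Relation.ReflTransGen (Lk U L) τ' τ := by
  induction h with
  | refl => exact Relation.ReflTransGen.refl
  | tail _ hstep ih =>
    obtain ⟨h1, h2, h3⟩ := hstep
    refine Relation.ReflTransGen.head ⟨h2, h1, ?_⟩ ih
    rw [Finset.inter_comm] at h3 ⊢
    obtain ⟨l, hl⟩ := h3
    refine ⟨l, ?_⟩
    simp only [Finset.mem_inter] at hl ⊢
    tauto

end Pool.Agent.TOR
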