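import Pool.Agent.TOR.A15b
import Pool.Agent.TOR.A16b
import Pool.Agent.TOR.A17b
import Pool.Agent.TOR.A19b

namespace Pool.Agent.TOR

open Set

/-- The combinatorial output of block A for the core theorem: the top of the roof, all data rational. `s` = height, `I` = coordinates constant on the top face, `E'` = the other coordinates which are equal to `s`
somewhere on the top face, `pt` = a rational point of the top face, `a' = pt - s 1_E`. -/
structure TopData {ι : Type} [Fintype ι] [DecidableEq ι] (M : AddSubgroup (ι → ℤ)) (E : Finset ι) (a : ι → ℚ) where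
  I : Finset ι
  E' : Finset ι
  s : ℚ
  s1 : ℚ
  pt : ι → ℚ
  β : ι → ℤ
  IE : I ⊆ E
  E'E : E' ⊆ E
  disj : ∀ l ∈ E', l ∉ I
  Ine : I.Nonempty
  spos : 0 < s
  pt_mem : (fun l => (pt l : ℝ)) - (fun l => (a l : ℝ)) ∈ mR M
  pt_I : ∀ i ∈ I, pt i = s
  pt_gt : ∀ l ∈ E, l ∉ I → s < pt l
  β_pos : ∀ i ∈ I, 0 < β i
  β_zero : ∀ i, i ∉ I → β i = 0
  β_rel : ∀ m ∈ M, ∑ i, β i * m i = 0
  s1_pos : 0 < s1
  s1_lt : s1 < s
  near : ∀ p : ι → ℝ, p - (fun l => (a l : ℝ)) ∈ mR M → (∀ l, l ∈ I ∨ l ∈ E' → (s1 : ℝ) ≤ p l) → ∀ l ∈ E, (s1 : ℝ) ≤ p l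
  top : ∀ p' : ι → ℝ, p' ∈ PP (sub0 M I) E' ((fun l => (pt l : ℝ)) - ind E (s : ℝ)) →
    p' + ind E (s : ℝ) ∈ PP M E (fun l => (a l : ℝ)) ∧ amin E (p' + ind E (s : ℝ)) = I ∪ tight E' p'
  bdd' : Bornology.IsBounded (PP (sub0 M I) E' ((fun l => (pt l : ℝ)) - ind E (s : ℝ)))
  simp' : Simp (sub0 M I) E' ((fun l => (pt l : ℝ)) - ind E (s : ℝ))
  zero' : ∀ l ∈ E', ∃ p ∈ PP (sub0 M I) E' ((fun l => (pt l : ℝ)) - ind E (s : ℝ)), p l = 0
  rank_lt : Module.finrank ℤ (sub0 M I) < Module.finrank ℤ M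

/-- Assembly: `E` is nonempty because otherwise `PP M ∅ a = a + mR M` is unbounded (`recession`; `M ≠ ⊥`); `exists_topPre`, `exists_beta`, `beta_pos`, `height_rat`; `rat_approx` applied to `p = pr` and `I` with `ε` smaller than all
`pr l - s` (`l ∈ E \ I`) gives `pt`; `near_top'` gives `s1` (use `s' = s1`); `top_face`, `bdd_face`, `zero_face`, `simp_face`, `rank_face`. -/
theorem exists_top {ι : Type} [Fintype ι] [DecidableEq ι] (M : AddSubgroup (ι → ℤ)) (hM : M ≠ ⊥) (E : Finset ι) (a : ι → ℚ)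
    (hne : (PP M E (fun l => (a l : ℝ))).Nonempty) (hb : Bornology.IsBounded (PP M E (fun l => (a l : ℝ))))
    (hs : Simp M E (fun l => (a l : ℝ))) (hG : Gen M E (fun l => (a l : ℝ)))
    (hz : ∀ l ∈ E, ∃ p ∈ PP M E (fun l => (a l : ℝ)), p l = 0) :
    Nonempty (TopData M E a) := by
  classical
  have hE : E.Nonempty := by
    rw [Finset.nonempty_iff_ne_empty]
    rintro rfl
    apply hM
    rw [eq_bot_iff]
    intro m hm
    have h := recession M ∅ _ hne hb _ (int_mem_mR hm) (by simp)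
    rw [AddSubgroup.mem_bot]
    funext l
    have h5 : (m l : ℝ) = 0 := congrFun h l
    show m l = 0
    exact_mod_cast h5
  obtain ⟨s, I, E', pr, T⟩ := exists_topPre M E _ hE hne hb hs
  obtain ⟨β, hβ0, hβI, hβS, hβr, hβl⟩ := exists_beta M E _ s I E' pr T hG
  have hβpos := beta_pos M E _ s I E' pr T β hβ0 hβI hβS hβr hβl
  obtain ⟨s', rfl⟩ := height_rat M E a s I E' pr T β hβI hβS hβr
  obtain ⟨ε, hε, hε'⟩ := a15b_small (E \ I) (fun l => pr l - s') (fun _ => -1) (fun l hl => by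
    have := T.pr_gt l (Finset.mem_sdiff.1 hl).1 (Finset.mem_sdiff.1 hl).2
    linarith)
  obtain ⟨pt, hpt, hptI, hptε⟩ := rat_approx M a I pr T.pr_mem.1.1 (fun i hi => ⟨s', T.pr_I i hi⟩) ε hε
  have hpt' : (fun l => (pt l : ℝ)) - (fun l => (a l : ℝ)) ∈ mR M := hpt
  have hI : ∀ i ∈ I, (fun l => (pt l : ℝ)) i = (s' : ℝ) := fun i hi => (hptI i hi).trans (T.pr_I i hi)
  have hgt : ∀ l ∈ E, l ∉ I → (s' : ℝ) < (fun l => (pt l : ℝ)) l := by
    intro l hl hlI
    have h1 := hε' l (Finset.mem_sdiff.2 ⟨hl, hlI⟩)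
    have h2 := (abs_lt.1 (hptε l)).1
    show (s' : ℝ) < (pt l : ℝ)
    linarith
  obtain ⟨s1, hs1, hs1', hnear⟩ := near_top' M E _ _ I E' pr T hb
  exact ⟨{
    I := I
    E' := E'
    s := s'
    s1 := s1
    pt := pt
    β := β
    IE := fun i hi => ((T.hI i).1 hi).1
    E'E := fun i hi => ((T.hE' i).1 hi).1
    disj := fun i hi => ((T.hE' i).1 hi).2.1
    Ine := T.hIne
    spos := by exact_mod_cast T.spos
    pt_mem := hpt'
    pt_I := fun i hi => by
      have h5 : (pt i : ℝ) = s' := hI i hi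
      exact_mod_cast h5
    pt_gt := fun l hl hlI => by
      have h5 : (s' : ℝ) < pt l := hgt l hl hlI
      exact_mod_cast h5
    β_pos := hβpos
    β_zero := hβI
    β_rel := hβr
    s1_pos := hs1
    s1_lt := by exact_mod_cast hs1'
    near := fun p hp h => hnear s1 le_rfl hs1'.le p hp h
    top := fun p' hp' => by
      obtain ⟨h1, h2⟩ := top_face M E _ _ I E' pr T _ hpt' hI hgt p' hp'.1 hp'.2
      exact ⟨h1.1, h2⟩
    bdd' := bdd_face M E _ _ hb I E' pr T _ hpt' hI hgt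
    simp' := simp_face M E _ _ hG I E' pr T _ hpt' hI hgt β hβI hβS hβr
    zero' := zero_face M E _ _ I E' pr T _ hpt' hI hgt
    rank_lt := rank_face M E _ _ hz I E' pr T }⟩

end Pool.Agent.TOR
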