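import Pool.Agent.TOR.A2

namespace Pool.Agent.TOR

open Set

theorem a3_closed {ι : Type} (τ : Finset ι) (x : ℝ → ι → ℝ)
    (hx : ∀ l, Continuous (fun r => x r l)) (l : ι) :
    IsClosed {r : ℝ | r ∈ Icc (0 : ℝ) 1 ∧ l ∈ amin τ (x r)} := by
  have h1 : {r : ℝ | r ∈ Icc (0 : ℝ) 1 ∧ l ∈ amin τ (x r)} =
      Icc (0 : ℝ) 1 ∩ {r : ℝ | l ∈ amin τ (x r)} := rfl
  rw [h1]
  refine isClosed_Icc.inter ?_
  by_cases hl : l ∈ τ
  · have h2 : {r : ℝ | l ∈ amin τ (x r)} = ⋂ j ∈ τ, {r : ℝ | x r l ≤ x r j} := by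
      ext r
      simp only [mem_iInter]
      constructor
      · intro h j hj
        exact (mem_amin.1 h).2 j hj
      · intro h
        exact mem_amin.2 ⟨hl, h⟩
    rw [h2]
    exact isClosed_biInter fun j _ => isClosed_le (hx l) (hx j)
  · have h2 : {r : ℝ | l ∈ amin τ (x r)} = ∅ := by
      ext r
      constructor
      · intro h
        exact (hl (mem_amin.1 h).1).elim
      · intro h
        exact h.elim
    rw [h2]
    exact isClosed_empty

theorem a3_key {ι : Type} [Fintype ι] [DecidableEq ι] (M : AddSubgroup (ι → ℤ)) (τ : Finset ι)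
    (m0 : ι → ℤ) (hm : m0 ∈ M) (i : ι) (δ : ι → ℝ) (hδ : δ ∈ mR M) (hneg : ∃ l ∈ τ, δ l < 0)
    (hne : (amin τ δ ∩ (Finset.univ.filter (fun l => m0 l + (if l = i then 1 else 0) < 0))).Nonempty) :
    Relation.ReflTransGen (Lk {σ | ∃ δ ∈ mR M, (∃ l ∈ τ, δ l < 0) ∧ σ = amin τ δ}
      (Finset.univ.filter (fun l => m0 l + (if l = i then 1 else 0) < 0)))
      (amin τ δ) (amin τ (fun l => (m0 l : ℝ))) := by
  obtain ⟨l0, hl0⟩ := hne
  rw [Finset.mem_inter, mem_amin, Finset.mem_filter] at hl0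
  obtain ⟨⟨hl0τ, hl0min⟩, -, hl0L⟩ := hl0
  obtain ⟨l', hl'τ, hl'⟩ := hneg
  have hδl0 : δ l0 < 0 := (hl0min l' hl'τ).trans_lt hl'
  have hm0 : m0 l0 ≤ -1 := by
    split_ifs at hl0L <;> omega
  have hm0R : (m0 l0 : ℝ) ≤ -1 := by exact_mod_cast hm0
  set x : ℝ → ι → ℝ := fun r => (1 - r) • δ + r • (fun l => (m0 l : ℝ)) with hx
  have hxv : ∀ r l, x r l = (1 - r) * δ l + r * (m0 l : ℝ) := fun r l => rfl
  have hxc : ∀ l, Continuous (fun r => x r l) := by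
    intro l
    simp only [hxv]
    fun_prop
  have hneg' : ∀ r ∈ Icc (0 : ℝ) 1, x r l0 < 0 := by
    intro r hr
    rw [hxv]
    rcases eq_or_lt_of_le hr.2 with h | h
    · subst h
      linarith
    · have h1 : (1 - r) * δ l0 < 0 := mul_neg_of_pos_of_neg (by linarith) hδl0
      have h2 : r * (m0 l0 : ℝ) ≤ 0 := mul_nonpos_of_nonneg_of_nonpos hr.1 (by linarith)
      linarith
  have hout : ∀ r ∈ Icc (0 : ℝ) 1, ∀ j ∈ τ,
      j ∉ Finset.univ.filter (fun l => m0 l + (if l = i then 1 else 0) < 0) → x r l0 ≤ x r j := by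
    intro r hr j hj hjL
    have h1 : -1 ≤ m0 j := by
      have h2 : ¬ (m0 j + (if j = i then 1 else 0) < 0) := fun h => hjL
        (Finset.mem_filter.2 ⟨Finset.mem_univ _, h⟩)
      split_ifs at h2 <;> omega
    have h1R : (-1 : ℝ) ≤ m0 j := by exact_mod_cast h1
    rw [hxv, hxv]
    have h3 : (1 - r) * δ l0 ≤ (1 - r) * δ j :=
      mul_le_mul_of_nonneg_left (hl0min j hj) (by linarith [hr.2])
    have h4 : r * (m0 l0 : ℝ) ≤ r * (m0 j : ℝ) := mul_le_mul_of_nonneg_left (by linarith) hr.1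
    linarith
  have hpath := conn_of_path {σ | ∃ δ ∈ mR M, (∃ l ∈ τ, δ l < 0) ∧ σ = amin τ δ}
    (Finset.univ.filter (fun l => m0 l + (if l = i then 1 else 0) < 0))
    (fun r => amin τ (x r)) (by
      intro r hr
      refine ⟨x r, ?_, ⟨l0, hl0τ, hneg' r hr⟩, rfl⟩
      exact Submodule.add_mem _ (Submodule.smul_mem _ _ hδ) (Submodule.smul_mem _ _ (int_mem_mR hm)))
    (fun l _ => a3_closed τ x hxc l) (by
      intro r hr
      obtain ⟨j0, hj0, hj0min⟩ := Finset.exists_min_image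
        (τ ∩ (Finset.univ.filter (fun l => m0 l + (if l = i then 1 else 0) < 0))) (x r)
        ⟨l0, Finset.mem_inter.2 ⟨hl0τ, Finset.mem_filter.2 ⟨Finset.mem_univ _, hl0L⟩⟩⟩
      rw [Finset.mem_inter] at hj0
      refine ⟨j0, Finset.mem_inter.2 ⟨mem_amin.2 ⟨hj0.1, fun j hj => ?_⟩, hj0.2⟩⟩
      by_cases hjL : j ∈ Finset.univ.filter (fun l => m0 l + (if l = i then 1 else 0) < 0)
      · exact hj0min j (Finset.mem_inter.2 ⟨hj, hjL⟩)
      · exact (hj0min l0 (Finset.mem_inter.2 ⟨hl0τ,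
          Finset.mem_filter.2 ⟨Finset.mem_univ _, hl0L⟩⟩)).trans (hout r hr j hj hjL))
  have e0 : x 0 = δ := by
    funext l
    rw [hxv]
    ring
  have e1 : x 1 = fun l => (m0 l : ℝ) := by
    funext l
    rw [hxv]
    ring
  simp only [e0, e1] at hpath
  exact hpath

/-- (G1) EXTENSION CONNECTIVITY. Let `u = m0 + e_i` with `m0 ∈ M` integral and `L = {l | u l < 0}`; `U` = the sets `amin τ δ`,
`δ ∈ M_ℝ`, `min_τ δ < 0`. Proof: it is enough (symmetry `reach_symm`, transitivity) to join every `amin τ δ ∈ U` meeting `L` to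
`amin τ m0` (real version of `m0`). Let `l ∈ amin τ δ ∩ L`; `δ l < 0` because `δ l ≤ δ l'` for the given `l' ∈ τ` with `δ l' < 0`.
For `j ∈ τ`, `j ∉ L`: `0 ≤ m0 j + [j = i]`, so `m0 j ≥ -1`; for `l ∈ L`: `m0 l + [l = i] ≤ -1`, so `m0 l ≤ -1` (integers!).
Put `δ_r = (1 - r) δ + r m0`. For `j ∈ τ \ L` and `l` as above: `δ_r l ≤ δ_r j`, and `δ_r l < 0`; so the minimum of `δ_r` over `τ` is
attained at some element of `τ ∩ L` (minimise over `τ ∩ L`) and is negative. Apply `conn_of_path` with `T r = amin τ δ_r`;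
closedness: `l ∈ amin τ δ_r` is a finite conjunction of closed conditions in `r`. -/
theorem ext_conn {ι : Type} [Fintype ι] [DecidableEq ι] (M : AddSubgroup (ι → ℤ)) (τ : Finset ι)
    (m0 : ι → ℤ) (hm : m0 ∈ M) (i : ι) :
    Conn {σ | ∃ δ ∈ mR M, (∃ l ∈ τ, δ l < 0) ∧ σ = amin τ δ}
      (Finset.univ.filter (fun l => m0 l + (if l = i then 1 else 0) < 0)) := by
  rintro σ ⟨δ, hδ, hneg, rfl⟩ σ' ⟨δ', hδ', hneg', rfl⟩ h1 h2
  exact (a3_key M τ m0 hm i δ hδ hneg h1).trans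
    (reach_symm _ _ _ _ (a3_key M τ m0 hm i δ' hδ' hneg' h2))

end Pool.Agent.TOR
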