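import Pool.Agent.TOR.A0

namespace Pool.Agent.TOR

open Set

/-- (G2) VISIBILITY. `g j`, `j ∈ s`, affine continuous functions, `z z'` in the polyhedron `{g ≥ 0}`, both on a facet visible from `q`
(`g l q < 0`). Then there is a path from `z` to `z'` of points on segments from `q`, inside the polyhedron, always on a visible facet.
Proof: `S = {l ∈ s | g l q < 0}` (nonempty), `z_r = (1 - r) z + r z'`, so `g j z_r ≥ 0` for `r ∈ [0,1]`. For `l ∈ S` put
`θ_l r = - g l q / (g l z_r - g l q)` (denominator `> 0` on `[0,1]`; to get a function continuous on ℝ replace `r` by its projection to `[0,1]`),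
which lies in `(0,1]`, and `θ r = max_{l ∈ S} θ_l r` (`Finset.sup'`). `c r = q + θ r • (z_r - q)`. For `l ∈ S`: `g l (c r) = g l q + θ r (g l z_r - g l q) ≥ 0`
with equality for the maximising `l`; for `j ∈ s \ S` both `g j q ≥ 0` and `g j z_r ≥ 0`. At `r = 0`: `g l0 z = 0` gives `θ_{l0} = 1`, so `θ = 1` and `c 0 = z`;
likewise `c 1 = z'`. -/
theorem visible_path {E' G : Type} [NormedAddCommGroup E'] [NormedSpace ℝ E'] (s : Finset G) (g : G → E' → ℝ)
    (hg : ∀ j ∈ s, ∀ (x y : E') (r : ℝ), g j ((1 - r) • x + r • y) = (1 - r) * g j x + r * g j y)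
    (hgc : ∀ j ∈ s, Continuous (g j)) (q z z' : E') (hz : ∀ j ∈ s, 0 ≤ g j z) (hz' : ∀ j ∈ s, 0 ≤ g j z')
    (l0 l1 : G) (h0 : l0 ∈ s) (h0q : g l0 q < 0) (h0z : g l0 z = 0)
    (h1 : l1 ∈ s) (h1q : g l1 q < 0) (h1z : g l1 z' = 0) :
    ∃ c : ℝ → E', Continuous c ∧ c 0 = z ∧ c 1 = z' ∧ ∀ r ∈ Icc (0 : ℝ) 1,
      (∃ θ : ℝ, c r = (1 - θ) • q + θ • ((1 - r) • z + r • z')) ∧ (∀ j ∈ s, 0 ≤ g j (c r)) ∧
        ∃ l ∈ s, g l q < 0 ∧ g l (c r) = 0 := by
  classical
  set ρ : ℝ → ℝ := fun r => max 0 (min r 1) with hρ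
  have hρc : Continuous ρ := by
    simp only [hρ]
    fun_prop
  have hρ0 : ∀ r, 0 ≤ ρ r := fun r => le_max_left _ _
  have hρ1 : ∀ r, ρ r ≤ 1 := fun r => max_le zero_le_one (min_le_right _ _)
  have hρr : ∀ r ∈ Icc (0 : ℝ) 1, ρ r = r := by
    intro r hr
    simp only [hρ]
    rw [min_eq_left hr.2, max_eq_right hr.1]
  set w : ℝ → E' := fun r => (1 - ρ r) • z + ρ r • z' with hw
  have hwc : Continuous w := by
    simp only [hw]
    exact ((continuous_const.sub hρc).smul continuous_const).add (hρc.smul continuous_const)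
  have hgw : ∀ j ∈ s, ∀ r, 0 ≤ g j (w r) := by
    intro j hj r
    simp only [hw]
    rw [hg j hj]
    have h3 := mul_nonneg (show 0 ≤ 1 - ρ r by linarith [hρ1 r]) (hz j hj)
    have h4 := mul_nonneg (hρ0 r) (hz' j hj)
    linarith
  set S : Finset G := s.filter (fun l => g l q < 0) with hS
  have hSs : ∀ l ∈ S, l ∈ s ∧ g l q < 0 := fun l hl => Finset.mem_filter.1 hl
  have hl0S : l0 ∈ S := Finset.mem_filter.2 ⟨h0, h0q⟩
  have hl1S : l1 ∈ S := Finset.mem_filter.2 ⟨h1, h1q⟩
  have hSn : S.Nonempty := ⟨l0, hl0S⟩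
  set t : G → ℝ → ℝ := fun l r => -g l q / (g l (w r) - g l q) with ht
  have hden : ∀ l ∈ S, ∀ r, 0 < g l (w r) - g l q := by
    intro l hl r
    have h3 := hgw l (hSs l hl).1 r
    have h4 := (hSs l hl).2
    linarith
  have htpos : ∀ l ∈ S, ∀ r, 0 < t l r := by
    intro l hl r
    exact div_pos (by linarith [(hSs l hl).2]) (hden l hl r)
  have htle : ∀ l ∈ S, ∀ r, t l r ≤ 1 := by
    intro l hl r
    simp only [ht]
    rw [div_le_one (hden l hl r)]
    linarith [hgw l (hSs l hl).1 r]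
  have htc : ∀ l ∈ S, Continuous (t l) := by
    intro l hl
    simp only [ht]
    exact continuous_const.div (((hgc l (hSs l hl).1).comp hwc).sub continuous_const)
      (fun r => (hden l hl r).ne')
  have hteq : ∀ l ∈ S, ∀ r, g l q + t l r * (g l (w r) - g l q) = 0 := by
    intro l hl r
    simp only [ht]
    rw [div_mul_cancel₀ _ (hden l hl r).ne']
    ring
  set θ : ℝ → ℝ := fun r => S.sup' hSn (fun l => t l r) with hθ
  have hθc : Continuous θ := Continuous.finset_sup'_apply hSn htc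
  have hθle : ∀ r, θ r ≤ 1 := fun r => Finset.sup'_le hSn _ fun l hl => htle l hl r
  have hθge : ∀ l ∈ S, ∀ r, t l r ≤ θ r := fun l hl r => Finset.le_sup' (fun l => t l r) hl
  have hθ0 : ∀ r, 0 ≤ θ r := fun r => (htpos l0 hl0S r).le.trans (hθge l0 hl0S r)
  have hθ1 : ∀ r, ∀ l ∈ S, g l (w r) = 0 → θ r = 1 := by
    intro r l hl h3
    apply le_antisymm (hθle r)
    have h4 : t l r = 1 := by
      simp only [ht]
      rw [h3, zero_sub, div_self]
      have := (hSs l hl).2
      linarith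
    rw [← h4]
    exact hθge l hl r
  have hw0 : w 0 = z := by
    simp only [hw]
    rw [hρr 0 ⟨le_refl _, zero_le_one⟩]
    simp
  have hw1 : w 1 = z' := by
    simp only [hw]
    rw [hρr 1 ⟨zero_le_one, le_refl _⟩]
    simp
  refine ⟨fun r => (1 - θ r) • q + θ r • w r, ?_, ?_, ?_, ?_⟩
  · exact ((continuous_const.sub hθc).smul continuous_const).add (hθc.smul hwc)
  · show (1 - θ 0) • q + θ 0 • w 0 = z
    rw [hθ1 0 l0 hl0S (by rw [hw0]; exact h0z), hw0]
    simp
  · show (1 - θ 1) • q + θ 1 • w 1 = z'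
    rw [hθ1 1 l1 hl1S (by rw [hw1]; exact h1z), hw1]
    simp
  · intro r hr
    refine ⟨⟨θ r, ?_⟩, fun j hj => ?_, ?_⟩
    · simp only [hw]
      rw [hρr r hr]
    · show 0 ≤ g j ((1 - θ r) • q + θ r • w r)
      rw [hg j hj]
      by_cases h3 : g j q < 0
      · have hjS : j ∈ S := Finset.mem_filter.2 ⟨hj, h3⟩
        have h4 := hteq j hjS r
        have h5 := mul_le_mul_of_nonneg_right (hθge j hjS r) (hden j hjS r).le
        have h6 : (1 - θ r) * g j q + θ r * g j (w r) = g j q + θ r * (g j (w r) - g j q) := by ring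
        rw [h6]
        linarith
      · have h4 := mul_nonneg (show 0 ≤ 1 - θ r by linarith [hθle r]) (not_lt.1 h3)
        have h5 := mul_nonneg (hθ0 r) (hgw j hj r)
        linarith
    · obtain ⟨l, hl, hl2⟩ := Finset.exists_mem_eq_sup' hSn (fun l => t l r)
      refine ⟨l, (hSs l hl).1, (hSs l hl).2, ?_⟩
      show g l ((1 - θ r) • q + θ r • w r) = 0
      rw [hg l (hSs l hl).1]
      have h4 := hteq l hl r
      have h5 : θ r = t l r := hl2
      have h6 : (1 - θ r) * g l q + θ r * g l (w r) = g l q + θ r * (g l (w r) - g l q) := by ring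
      rw [h6, h5]
      exact h4

end Pool.Agent.TOR
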