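import Pool.Agent.TOR.A2
import Pool.Agent.TOR.A4

namespace Pool.Agent.TOR

open Set

theorem a5_closed {ι : Type} (τ : Finset ι) (x : ℝ → ι → ℝ)
    (hx : ∀ l, Continuous (fun r => x r l)) (l : ι) :
    IsClosed {r : ℝ | r ∈ Icc (0 : ℝ) 1 ∧ l ∈ amin τ (x r)} := by
  have h1 : {r : ℝ | r ∈ Icc (0 : ℝ) 1 ∧ l ∈ amin τ (x r)} =
      Icc (0 : ℝ) 1 ∩ {r : ℝ | l ∈ amin τ (x r)} := rfl
  rw [h1]
  refine isClosed_Icc.inter ?_
  by_cases hl : l ∈ τ
  · have h2 : {r : ℝ | l ∈ amin τ (x r)} = ⋂ j ∈ τ, {r : ℝ | x r l ≤ x r j} := by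
      ext r
      simp only [mem_iInter]
      constructor
      · intro h j hj
        exact (mem_amin.1 h).2 j hj
      · intro h
        exact mem_amin.2 ⟨hl, h⟩
    rw [h2]
    exact isClosed_biInter fun j _ => isClosed_le (hx l) (hx j)
  · have h2 : {r : ℝ | l ∈ amin τ (x r)} = ∅ := by
      ext r
      constructor
      · intro h
        exact (hl (mem_amin.1 h).1).elim
      · intro h
        exact h.elim
    rw [h2]
    exact isClosed_empty

/-- the affine functions of the roof -/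
def a5_g {ι : Type} : Option ι → (ι → ℝ) × ℝ → ℝ
  | none, x => x.2
  | some l, x => x.1 l - x.2

/-- (G2a) ROOF. `visible_path` in `(ι → ℝ) × ℝ` with `g (some l) (p, s') = p l - s'` (`l ∈ E`) and `g none (p, s') = s'`, at the point `(q, s)`.
Given `p, p' ∈ PP M E a` with `l0 ∈ amin E p ∩ L`, `l1 ∈ amin E p' ∩ L` use `z = (p, p l0)`, `z' = (p', p' l1)`. (`g none (q,s) = s ≥ 0`, so the visible facets are
those of `l ∈ E` with `q l < s`, i.e. `l ∈ L`.) A point `(p_r, s_r)` of the path has `0 ≤ s_r ≤ p_r j` for all `j ∈ E` and `p_r l = s_r` for some `l ∈ L`,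
so `p_r ∈ PP M E a` (`p_r - a` is an affine combination of elements of `mR M`) and `l ∈ amin E p_r`. Apply `conn_of_path` with `T r = amin E p_r`.
Note `T 0 = amin E p`, `T 1 = amin E p'`. -/
theorem roof_conn {ι : Type} [Fintype ι] [DecidableEq ι] (M : AddSubgroup (ι → ℤ)) (E : Finset ι) (a q : ι → ℝ) (s : ℝ)
    (hs : 0 ≤ s) (hq : q - a ∈ mR M) (L : Finset ι) (hL : ∀ l, l ∈ L ↔ l ∈ E ∧ q l < s) :
    Conn {τ | ∃ p ∈ PP M E a, τ = amin E p} L := by
  classical
  rintro τ ⟨p, hp, rfl⟩ τ' ⟨p', hp', rfl⟩ ⟨l0, hl0⟩ ⟨l1, hl1⟩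
  rw [Finset.mem_inter, mem_amin] at hl0 hl1
  obtain ⟨⟨hl0E, hl0m⟩, hl0L⟩ := hl0
  obtain ⟨⟨hl1E, hl1m⟩, hl1L⟩ := hl1
  obtain ⟨c, hc, hc0, hc1, hcr⟩ := visible_path (Finset.insertNone E) (a5_g (ι := ι)) (by
      rintro (_ | j) _ x y r
      · simp [a5_g]
      · simp only [a5_g, Prod.fst_add, Prod.snd_add, Prod.smul_fst, Prod.smul_snd, Pi.add_apply,
          Pi.smul_apply, smul_eq_mul]
        ring) (by
      rintro (_ | j) _
      · exact continuous_snd
      · exact ((continuous_apply j).comp continuous_fst).sub continuous_snd)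
    (q, s) (p, p l0) (p', p' l1) (by
      rintro (_ | j) hj
      · exact hp.2 l0 hl0E
      · have hjE : j ∈ E := by simpa using hj
        have := hl0m j hjE
        simp only [a5_g]
        linarith) (by
      rintro (_ | j) hj
      · exact hp'.2 l1 hl1E
      · have hjE : j ∈ E := by simpa using hj
        have := hl1m j hjE
        simp only [a5_g]
        linarith) (some l0) (some l1) (by simpa using hl0E) (by
      have := ((hL l0).1 hl0L).2
      simp only [a5_g]
      linarith) (by simp [a5_g]) (by simpa using hl1E) (by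
      have := ((hL l1).1 hl1L).2
      simp only [a5_g]
      linarith) (by simp [a5_g])
  have hmem : ∀ r ∈ Icc (0 : ℝ) 1, (c r).1 ∈ PP M E a ∧ (amin E (c r).1 ∩ L).Nonempty := by
    intro r hr
    obtain ⟨⟨θ, hθ⟩, hpos, l, hl, hlq, hl0'⟩ := hcr r hr
    have h0 : 0 ≤ (c r).2 := hpos none (by simp)
    have h1 : ∀ j ∈ E, (c r).2 ≤ (c r).1 j := by
      intro j hj
      have := hpos (some j) (by simpa using hj)
      simp only [a5_g] at this
      linarith
    refine ⟨⟨?_, fun j hj => h0.trans (h1 j hj)⟩, ?_⟩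
    · have h2 : (c r).1 - a = (1 - θ) • (q - a) + θ • ((1 - r) • (p - a) + r • (p' - a)) := by
        rw [hθ]
        funext j
        simp only [Prod.fst_add, Prod.smul_fst, Pi.add_apply, Pi.sub_apply, Pi.smul_apply, smul_eq_mul]
        ring
      rw [h2]
      exact Submodule.add_mem _ (Submodule.smul_mem _ _ hq) (Submodule.smul_mem _ _
        (Submodule.add_mem _ (Submodule.smul_mem _ _ hp.1) (Submodule.smul_mem _ _ hp'.1)))
    · rcases l with _ | l
      · simp only [a5_g] at hlq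
        linarith
      · have hlE : l ∈ E := by simpa using hl
        simp only [a5_g] at hlq hl0'
        refine ⟨l, Finset.mem_inter.2 ⟨mem_amin.2 ⟨hlE, fun j hj => ?_⟩, (hL l).2 ⟨hlE, by linarith⟩⟩⟩
        have := h1 j hj
        linarith
  have hpath := conn_of_path {τ | ∃ p ∈ PP M E a, τ = amin E p} L (fun r => amin E (c r).1)
    (fun r hr => ⟨(c r).1, (hmem r hr).1, rfl⟩)
    (fun l _ => a5_closed E (fun r => (c r).1) (fun j =>
      (continuous_apply j).comp (continuous_fst.comp hc)) l)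
    (fun r hr => (hmem r hr).2)
  simp only [hc0, hc1] at hpath
  exact hpath

end Pool.Agent.TOR
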