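import Pool.Agent.TOR.A5

namespace Pool.Agent.TOR

open Set

/-- (G2b) BOUNDARY. `visible_path` in `ι → ℝ` with `g l p = p l` (`l ∈ E`). As in `roof_conn`, with `T r = tight E (c r)`. -/
theorem tight_conn {ι : Type} [Fintype ι] [DecidableEq ι] (M : AddSubgroup (ι → ℤ)) (E : Finset ι) (a q : ι → ℝ)
    (hq : q - a ∈ mR M) (L : Finset ι) (hL : ∀ l, l ∈ L ↔ l ∈ E ∧ q l < 0) :
    Conn (TS M E a) L := by
  classical
  rintro τ ⟨p, hp, rfl⟩ τ' ⟨p', hp', rfl⟩ ⟨l0, h0⟩ ⟨l1, h1⟩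
  rw [Finset.mem_inter, mem_tight, hL] at h0 h1
  obtain ⟨⟨h0E, h0z⟩, -, h0q⟩ := h0
  obtain ⟨⟨h1E, h1z⟩, -, h1q⟩ := h1
  obtain ⟨c, hc, hc0, hc1, hcr⟩ := visible_path E (fun (l : ι) (p : ι → ℝ) => p l)
    (fun j _ x y r => by simp only [Pi.add_apply, Pi.smul_apply, smul_eq_mul])
    (fun j _ => continuous_apply j) q p p' hp.2 hp'.2 l0 l1 h0E h0q h0z h1E h1q h1z
  have key := conn_of_path (TS M E a) L (fun r => tight E (c r)) ?_ ?_ ?_
  · simp only [hc0, hc1] at key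
    exact key
  · intro r hr
    obtain ⟨⟨θ, hθ⟩, hpos, -⟩ := hcr r hr
    refine ⟨c r, ⟨?_, hpos⟩, rfl⟩
    have e : c r - a = (1 - θ) • (q - a) + θ • ((1 - r) • (p - a) + r • (p' - a)) := by
      rw [hθ]
      module
    rw [e]
    exact (mR M).add_mem ((mR M).smul_mem _ hq) ((mR M).smul_mem _
      ((mR M).add_mem ((mR M).smul_mem _ hp.1) ((mR M).smul_mem _ hp'.1)))
  · intro l hl
    have e : {r : ℝ | r ∈ Icc (0 : ℝ) 1 ∧ l ∈ tight E (c r)} = Icc 0 1 ∩ {r | c r l = 0} := by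
      ext r
      simp only [mem_setOf_eq, mem_inter_iff, mem_tight]
      constructor
      · rintro ⟨h2, h3⟩
        exact ⟨h2, h3.2⟩
      · rintro ⟨h2, h3⟩
        exact ⟨h2, ((hL l).1 hl).1, h3⟩
    rw [e]
    exact isClosed_Icc.inter (isClosed_eq ((continuous_apply l).comp hc) continuous_const)
  · intro r hr
    obtain ⟨-, -, l, hlE, hlq, hlz⟩ := hcr r hr
    exact ⟨l, Finset.mem_inter.2 ⟨mem_tight.2 ⟨hlE, hlz⟩, (hL l).2 ⟨hlE, hlq⟩⟩⟩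

end Pool.Agent.TOR
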