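import Pool.Agent.TOR.A0

namespace Pool.Agent.TOR

open Set

theorem a6_min {α : Type} (s : Finset α) (f : α → ℝ) (h : ∀ a ∈ s, 0 < f a) : ∃ ε > 0, ∀ a ∈ s, ε ≤ f a := by
  classical
  induction s using Finset.induction_on with
  | empty => exact ⟨1, one_pos, fun a ha => absurd ha (Finset.notMem_empty a)⟩
  | insert b s hb ih =>
    obtain ⟨ε, hε, h1⟩ := ih fun a ha => h a (Finset.mem_insert_of_mem ha)
    refine ⟨min ε (f b), lt_min hε (h b (Finset.mem_insert_self b s)), fun a ha => ?_⟩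
    rcases Finset.mem_insert.1 ha with rfl | ha
    · exact min_le_right _ _
    · exact (min_le_left _ _).trans (h1 a ha)

theorem a6_bd {ι : Type} [Fintype ι] (δ : ι → ℝ) {η : ℝ} (hη : 0 < η) :
    ∃ ε0 > 0, ∀ ε : ℝ, 0 < ε → ε < ε0 → ∀ l, |ε * δ l| < η := by
  have hs : 0 ≤ ∑ l, |δ l| := Finset.sum_nonneg fun l _ => abs_nonneg _
  refine ⟨η / (1 + ∑ l, |δ l|), div_pos hη (by linarith), fun ε h0 h1 l => ?_⟩
  rw [lt_div_iff₀ (by linarith)] at h1
  rw [abs_mul, abs_of_pos h0]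
  have h2 : |δ l| ≤ ∑ l, |δ l| := Finset.single_le_sum (f := fun l => |δ l|) (fun l _ => abs_nonneg _) (Finset.mem_univ l)
  calc ε * |δ l| ≤ ε * (1 + ∑ l, |δ l|) := mul_le_mul_of_nonneg_left (by linarith) h0.le
    _ < η := h1

/-- `amin` is upper semicontinuous: strict inequalities persist. -/
theorem amin_usc {ι : Type} [Fintype ι] (E : Finset ι) (p : ι → ℝ) :
    ∃ ε > 0, ∀ p' : ι → ℝ, (∀ l, |p' l - p l| < ε) → amin E p' ⊆ amin E p := by
  classical
  obtain ⟨ε, hε, h1⟩ := a6_min ((E ×ˢ E).filter (fun x : ι × ι => p x.2 < p x.1)) (fun x => (p x.1 - p x.2) / 2)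
    (by
      intro x hx
      have := (Finset.mem_filter.1 hx).2
      linarith)
  refine ⟨ε, hε, fun p' hp' l hl => ?_⟩
  rw [mem_amin] at hl ⊢
  refine ⟨hl.1, fun j hj => ?_⟩
  by_contra hc
  rw [not_le] at hc
  have h2 := h1 (l, j) (Finset.mem_filter.2 ⟨Finset.mem_product.2 ⟨hl.1, hj⟩, hc⟩)
  have h3 := abs_lt.1 (hp' l)
  have h4 := abs_lt.1 (hp' j)
  have h5 := hl.2 j hj
  simp only at h2
  linarith [h3.1, h3.2, h4.1, h4.2]

/-- Going in the direction `δ` from `p`: the new argmin is the argmin of `δ` over the old argmin. -/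
theorem amin_dir {ι : Type} [Fintype ι] (E : Finset ι) (p δ : ι → ℝ) :
    ∃ ε0 > 0, ∀ ε : ℝ, 0 < ε → ε < ε0 → amin E (p + ε • δ) = amin (amin E p) δ := by
  obtain ⟨η, hη, h1⟩ := amin_usc E p
  obtain ⟨ε0, hε0, h2⟩ := a6_bd δ hη
  refine ⟨ε0, hε0, fun ε h3 h4 => ?_⟩
  have hsub : amin E (p + ε • δ) ⊆ amin E p := by
    apply h1
    intro l
    rw [Pi.add_apply, Pi.smul_apply, smul_eq_mul, add_sub_cancel_left]
    exact h2 ε h3 h4 l
  have hval : ∀ l, (p + ε • δ) l = p l + ε * δ l := fun l => by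
    rw [Pi.add_apply, Pi.smul_apply, smul_eq_mul]
  ext l
  constructor
  · intro hl
    have hl' := mem_amin.1 (hsub hl)
    rw [mem_amin]
    refine ⟨hsub hl, fun j hj => ?_⟩
    have hj' := mem_amin.1 hj
    have h5 := (mem_amin.1 hl).2 j hj'.1
    rw [hval, hval] at h5
    have h6 := hl'.2 j hj'.1
    have h7 := hj'.2 l hl'.1
    have h8 : ε * δ l ≤ ε * δ j := by linarith
    exact le_of_mul_le_mul_left h8 h3
  · intro hl
    obtain ⟨hlE, hlm⟩ := mem_amin.1 hl
    have hl' := mem_amin.1 hlE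
    obtain ⟨k, hk, hkm⟩ := Finset.exists_min_image E (fun l => (p + ε • δ) l) ⟨l, hl'.1⟩
    have hka : k ∈ amin E (p + ε • δ) := mem_amin.2 ⟨hk, hkm⟩
    have hka' := hsub hka
    rw [mem_amin]
    refine ⟨hl'.1, fun j hj => ?_⟩
    refine le_trans ?_ (hkm j hj)
    show (p + ε • δ) l ≤ (p + ε • δ) k
    rw [hval, hval]
    have h5 := hl'.2 k hk
    have h6 := mul_le_mul_of_nonneg_left (hlm k hka') h3.le
    linarith

/-- `PP` is closed, convex, and compact when bounded (finite dimension; `mR M` is closed: `Submodule.closed_of_finiteDimensional`). -/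
theorem isClosed_PP {ι : Type} [Fintype ι] (M : AddSubgroup (ι → ℤ)) (E : Finset ι) (a : ι → ℝ) :
    IsClosed (PP M E a) := by
  have e : PP M E a = {p | p - a ∈ mR M} ∩ ⋂ l ∈ E, {p | 0 ≤ p l} := by
    ext p
    simp only [PP, mem_setOf_eq, mem_inter_iff, mem_iInter]
  rw [e]
  refine IsClosed.inter ?_ (isClosed_biInter fun l _ => isClosed_le continuous_const (continuous_apply l))
  have h1 : IsClosed ((mR M : Submodule ℝ (ι → ℝ)) : Set (ι → ℝ)) := Submodule.closed_of_finiteDimensional _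
  exact h1.preimage (continuous_id.sub continuous_const)

theorem isCompact_PP {ι : Type} [Fintype ι] (M : AddSubgroup (ι → ℤ)) (E : Finset ι) (a : ι → ℝ)
    (hb : Bornology.IsBounded (PP M E a)) : IsCompact (PP M E a) := by
  exact Metric.isCompact_of_isClosed_isBounded (isClosed_PP M E a) hb

theorem convex_PP {ι : Type} [Fintype ι] (M : AddSubgroup (ι → ℤ)) (E : Finset ι) (a : ι → ℝ) :
    Convex ℝ (PP M E a) := by
  rintro p ⟨hp, hp'⟩ p' ⟨hq, hq'⟩ x y hx hy hxy
  refine ⟨?_, fun l hl => ?_⟩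
  · have e : x • p + y • p' - a = x • (p - a) + y • (p' - a) := by
      have h1 : a = (x + y) • a := by rw [hxy, one_smul]
      calc x • p + y • p' - a = x • p + y • p' - (x + y) • a := by rw [← h1]
        _ = _ := by module
    rw [e]
    exact (mR M).add_mem ((mR M).smul_mem _ hp) ((mR M).smul_mem _ hq)
  · rw [Pi.add_apply, Pi.smul_apply, Pi.smul_apply, smul_eq_mul, smul_eq_mul]
    exact add_nonneg (mul_nonneg hx (hp' l hl)) (mul_nonneg hy (hq' l hl))

end Pool.Agent.TOR
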