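import Pool.Agent.TOR.A6

namespace Pool.Agent.TOR

open Set

theorem a7_isOpen {ι : Type} [Fintype ι] (E : Finset ι) (Good : Finset ι → Prop)
    (hsub : ∀ σ τ : Finset ι, σ ⊆ τ → Good τ → Good σ) : IsOpen {p : ι → ℝ | Good (amin E p)} := by
  rw [Metric.isOpen_iff]
  intro p hp
  obtain ⟨ε, hε, h⟩ := amin_usc E p
  refine ⟨ε, hε, ?_⟩
  intro p' hp'
  refine hsub _ _ (h p' ?_) hp
  intro l
  have h1 : dist (p' l) (p l) ≤ dist p' p := dist_le_pi_dist p' p l
  rw [Real.dist_eq] at h1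
  exact h1.trans_lt (Metric.mem_ball.1 hp')

/-- a small step keeps all coordinates above `0` -/
theorem a7_step {ι : Type} [Fintype ι] (E : Finset ι) (p δ : ι → ℝ) (c : ℝ) (hc : 0 < c)
    (h : ∀ l ∈ E, c ≤ p l) (ε0 : ℝ) (hε0 : 0 < ε0) :
    ∃ ε : ℝ, 0 < ε ∧ ε < ε0 ∧ ∀ l ∈ E, 0 ≤ (p + ε • δ) l := by
  have hM : 0 < ∑ l, |δ l| + 1 := by
    have := Finset.sum_nonneg (s := Finset.univ) (f := fun l => |δ l|) (fun l _ => abs_nonneg _)
    linarith
  refine ⟨min (ε0 / 2) (c / (∑ l, |δ l| + 1)), lt_min (by linarith) (div_pos hc hM),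
    (min_le_left _ _).trans_lt (by linarith), ?_⟩
  intro l hl
  set ε := min (ε0 / 2) (c / (∑ l, |δ l| + 1)) with hε
  have hεpos : 0 < ε := lt_min (by linarith) (div_pos hc hM)
  have h1 : |δ l| ≤ ∑ l, |δ l| + 1 := by
    have := Finset.single_le_sum (f := fun l => |δ l|) (fun l _ => abs_nonneg _) (Finset.mem_univ l)
    linarith
  have h2 : ε * |δ l| ≤ c := by
    calc ε * |δ l| ≤ (c / (∑ l, |δ l| + 1)) * (∑ l, |δ l| + 1) :=
          mul_le_mul (min_le_right _ _) h1 (abs_nonneg _) (div_pos hc hM).le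
      _ = c := div_mul_cancel₀ c hM.ne'
  have h3 : - (ε * |δ l|) ≤ ε * δ l := by
    have := mul_le_mul_of_nonneg_left (neg_abs_le (δ l)) hεpos.le
    linarith
  have h4 := h l hl
  simp only [Pi.add_apply, Pi.smul_apply, smul_eq_mul]
  linarith

/-- (G3) MINIMAL HEIGHT. Proof: if `E` is empty, `amin ∅ p = ∅ = tight ∅ p` is in `TS`. Otherwise let `h p = min_{l ∈ E} p l`
(`E.inf' _ p`, continuous). Suppose the set `B` of all `p ∈ PP M E a` with `¬ Good (amin E p)` is nonempty. `B` is closed: its complement in `PP` is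
relatively open by `amin_usc` and `hsub`. So `B` is compact (`isCompact_PP`) and has a point `p` of minimal `h`. `h p ≥ 0`.
If `h p = 0` then `amin E p = tight E p ∈ TS`: contradiction with `hT`. If `h p > 0`, put `τ = amin E p` and apply `hext`: for `δ ∈ mR M` with `δ l < 0` for some `l ∈ τ`
take small `ε > 0` (`amin_dir`): `p' = p + ε δ ∈ PP M E a` (`p' ≥ 0` since `p l ≥ h p > 0` on `E`), `h p' < h p`, so `p' ∉ B`, i.e. `Good (amin τ δ)`.
For `l ∈ τ` take `q ∈ PP` with `q l = 0` (`hz`) and `δ = q - p`: for `j ∈ τ`, `δ j = q j - h p ≥ - h p = δ l`, and `δ l < 0`. -/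
theorem min_height {ι : Type} [Fintype ι] (M : AddSubgroup (ι → ℤ)) (E : Finset ι) (a : ι → ℝ)
    (hb : Bornology.IsBounded (PP M E a)) (hz : ∀ l ∈ E, ∃ p ∈ PP M E a, p l = 0)
    (Good : Finset ι → Prop) (hsub : ∀ σ τ : Finset ι, σ ⊆ τ → Good τ → Good σ)
    (hT : ∀ τ ∈ TS M E a, Good τ)
    (hext : ∀ τ ⊆ E, (∀ δ ∈ mR M, (∃ l ∈ τ, δ l < 0) → Good (amin τ δ)) →
      (∀ l ∈ τ, ∃ δ ∈ mR M, l ∈ amin τ δ ∧ δ l < 0) → Good τ) :
    ∀ p ∈ PP M E a, Good (amin E p) := by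
  classical
  rcases E.eq_empty_or_nonempty with rfl | hE
  · intro p hp
    have h1 : amin ∅ p = tight ∅ p := by
      ext l
      rw [mem_amin, mem_tight]
      simp
    rw [h1]
    exact hT _ ⟨p, hp, rfl⟩
  by_contra hcon
  push Not at hcon
  have hBc : IsCompact (PP M E a ∩ {p : ι → ℝ | Good (amin E p)}ᶜ) :=
    (isCompact_PP M E a hb).inter_right (a7_isOpen E Good hsub).isClosed_compl
  have hBne : (PP M E a ∩ {p : ι → ℝ | Good (amin E p)}ᶜ).Nonempty := by
    obtain ⟨p, hp, hg⟩ := hcon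
    exact ⟨p, hp, hg⟩
  have hcont : Continuous (fun p : ι → ℝ => E.inf' hE (fun l => p l)) := by
    rw [continuous_iff_continuousAt]
    intro p
    exact ContinuousAt.finset_inf'_apply hE (fun l _ => (continuous_apply l).continuousAt)
  obtain ⟨p, hpB, hmin⟩ := hBc.exists_isMinOn hBne hcont.continuousOn
  obtain ⟨hp, hng⟩ := hpB
  have hng' : ¬ Good (amin E p) := hng
  obtain ⟨l0, hl0, hl0'⟩ := E.exists_mem_eq_inf' hE (fun l => p l)
  have hle : ∀ l ∈ E, p l0 ≤ p l := fun l hl => by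
    have h1 : E.inf' hE (fun l => p l) ≤ p l := Finset.inf'_le (fun l => p l) hl
    have h2 : E.inf' hE (fun l => p l) = p l0 := hl0'
    rw [h2] at h1
    exact h1
  have hmemτ : ∀ l, l ∈ amin E p ↔ l ∈ E ∧ p l = p l0 := by
    intro l
    rw [mem_amin]
    constructor
    · rintro ⟨h1, h2⟩
      exact ⟨h1, le_antisymm (h2 l0 hl0) (hle l h1)⟩
    · rintro ⟨h1, h2⟩
      exact ⟨h1, fun j hj => by rw [h2]; exact hle j hj⟩
  have h0 : 0 ≤ p l0 := hp.2 l0 hl0
  rcases h0.eq_or_lt with h00 | hpos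
  · apply hng'
    have h1 : amin E p = tight E p := by
      ext l
      rw [hmemτ, mem_tight, ← h00]
    rw [h1]
    exact hT _ ⟨p, hp, rfl⟩
  apply hng'
  apply hext (amin E p)
  · intro l hl
    exact ((hmemτ l).1 hl).1
  · intro δ hδ hneg
    obtain ⟨l1, hl1, hl1n⟩ := hneg
    obtain ⟨ε0, hε0, hdir⟩ := amin_dir E p δ
    obtain ⟨ε, hε, hεlt, hnn⟩ := a7_step E p δ (p l0) hpos hle ε0 hε0
    have hp' : p + ε • δ ∈ PP M E a := by
      refine ⟨?_, hnn⟩
      have h1 : p + ε • δ - a = (p - a) + ε • δ := by abel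
      rw [h1]
      exact (mR M).add_mem hp.1 ((mR M).smul_mem ε hδ)
    by_contra hng2
    have h2 : p + ε • δ ∈ PP M E a ∩ {p : ι → ℝ | Good (amin E p)}ᶜ := by
      refine ⟨hp', ?_⟩
      intro h3
      apply hng2
      have h4 : Good (amin E (p + ε • δ)) := h3
      rw [hdir ε hε hεlt] at h4
      exact h4
    have h5 : E.inf' hE (fun l => p l) ≤ E.inf' hE (fun l => (p + ε • δ) l) := hmin h2
    have h6 : E.inf' hE (fun l => (p + ε • δ) l) ≤ (p + ε • δ) l1 :=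
      Finset.inf'_le (fun l => (p + ε • δ) l) ((hmemτ l1).1 hl1).1
    have h7 : E.inf' hE (fun l => p l) = p l0 := hl0'
    rw [h7] at h5
    have h8 : (p + ε • δ) l1 = p l0 + ε * δ l1 := by
      simp only [Pi.add_apply, Pi.smul_apply, smul_eq_mul]
      rw [((hmemτ l1).1 hl1).2]
    have h9 : ε * δ l1 < 0 := mul_neg_of_pos_of_neg hε hl1n
    rw [h8] at h6
    linarith
  · intro l hl
    obtain ⟨hlE, hlp⟩ := (hmemτ l).1 hl
    obtain ⟨q, hq, hql⟩ := hz l hlE
    refine ⟨q - p, ?_, ?_, ?_⟩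
    · have h1 : q - p = (q - a) - (p - a) := by abel
      rw [h1]
      exact (mR M).sub_mem hq.1 hp.1
    · rw [mem_amin]
      refine ⟨hl, ?_⟩
      intro j hj
      obtain ⟨hjE, hjp⟩ := (hmemτ j).1 hj
      simp only [Pi.sub_apply]
      rw [hql, hlp, hjp]
      have := hq.2 j hjE
      linarith
    · simp only [Pi.sub_apply]
      rw [hql, hlp]
      linarith

end Pool.Agent.TOR
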