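import Pool.Agent.TOR.A6

namespace Pool.Agent.TOR

open Set

/-- the functions vanishing on `τ` -/
def a8_van {ι : Type} (τ : Finset ι) : Submodule ℝ (ι → ℝ) where
  carrier := {y | ∀ l ∈ τ, y l = 0}
  zero_mem' := fun _ _ => rfl
  add_mem' := by
    intro x y hx hy l hl
    rw [Pi.add_apply, hx l hl, hy l hl, add_zero]
  smul_mem' := by
    intro c x hx l hl
    rw [Pi.smul_apply, hx l hl, smul_zero]

/-- Linear independence of the coordinates in `τ` on `M` gives surjectivity of `M_ℝ → ℝ^τ`.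
Proof: the image of `mR M` under restriction to `τ` is a subspace of `τ → ℝ`; if it is proper there is a nonzero linear functional vanishing on it
(`Submodule.exists_le_ker_of_lt_top` or dual annihilator), i.e. `c ≠ 0` supported in `τ` with `∑ c l δ l = 0` on `mR M`, in particular on `M`. -/
theorem exists_delta {ι : Type} [Fintype ι] (M : AddSubgroup (ι → ℤ)) (τ : Finset ι)
    (hind : ∀ c : ι → ℝ, (∀ l, l ∉ τ → c l = 0) → (∀ m ∈ M, ∑ l, c l * (m l : ℝ) = 0) → c = 0) (x : ι → ℝ) :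
    ∃ δ ∈ mR M, ∀ l ∈ τ, δ l = x l := by
  classical
  by_cases hW : mR M ⊔ a8_van τ = ⊤
  · have hx : x ∈ mR M ⊔ a8_van τ := by
      rw [hW]
      exact Submodule.mem_top
    obtain ⟨δ, hδ, y, hy, hxy⟩ := Submodule.mem_sup.1 hx
    refine ⟨δ, hδ, fun l hl => ?_⟩
    rw [← hxy, Pi.add_apply, hy l hl, add_zero]
  · exfalso
    obtain ⟨f, hf, hker⟩ := Submodule.exists_le_ker_of_lt_top _ (lt_top_iff_ne_top.2 hW)
    have hfx : ∀ x : ι → ℝ, f x = ∑ l, f (fun j => if l = j then 1 else 0) * x l := by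
      intro x
      rw [LinearMap.pi_apply_eq_sum_univ f x]
      exact Finset.sum_congr rfl fun l _ => by rw [smul_eq_mul, mul_comm]
    have hc := hind (fun l => f (fun j => if l = j then 1 else 0)) ?_ ?_
    · apply hf
      ext x
      rw [LinearMap.comp_apply, hfx]
      simp only [funext_iff] at hc
      simp [hc]
    · intro l hl
      have h1 : (fun j => if l = j then (1 : ℝ) else 0) ∈ mR M ⊔ a8_van τ := by
        refine Submodule.mem_sup_right ?_
        intro j hj
        refine if_neg ?_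
        rintro rfl
        exact hl hj
      exact LinearMap.mem_ker.1 (hker h1)
    · intro m hm
      rw [← hfx]
      exact LinearMap.mem_ker.1 (hker (Submodule.mem_sup_left (int_mem_mR hm)))

/-- A linear relation on `M` is a linear relation on `mR M` (span induction). -/
theorem rel_mR {ι : Type} [Fintype ι] (M : AddSubgroup (ι → ℤ)) (c : ι → ℝ)
    (h : ∀ m ∈ M, ∑ l, c l * (m l : ℝ) = 0) : ∀ δ ∈ mR M, ∑ l, c l * δ l = 0 := by
  intro δ hδ
  induction hδ using Submodule.span_induction with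
  | mem x hx =>
    obtain ⟨m, hm, rfl⟩ := hx
    exact h m hm
  | zero => simp
  | add x y _ _ hx hy =>
    simp only [Pi.add_apply, mul_add, Finset.sum_add_distrib, hx, hy, add_zero]
  | smul r x _ hx =>
    have e : ∑ l, c l * (r • x) l = r * ∑ l, c l * x l := by
      rw [Finset.mul_sum]
      exact Finset.sum_congr rfl fun l _ => by rw [Pi.smul_apply, smul_eq_mul]; ring
    rw [e, hx, mul_zero]

/-- For a simple polyhedron the set of tight sets is closed under subsets. Proof: `τ = tight E p`, `σ ⊆ τ`; `exists_delta` gives `δ ∈ mR M` with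
`δ l = 0` (`l ∈ σ`), `δ l = 1` (`l ∈ τ \ σ`); `p + ε δ` for small `ε > 0`. -/
theorem TS_sub {ι : Type} [Fintype ι] (M : AddSubgroup (ι → ℤ)) (E : Finset ι) (a : ι → ℝ) (hs : Simp M E a)
    (σ τ : Finset ι) (h : σ ⊆ τ) (hτ : τ ∈ TS M E a) : σ ∈ TS M E a := by
  classical
  obtain ⟨p, hp, rfl⟩ := hτ
  obtain ⟨δ, hδ, hδ'⟩ := exists_delta M (tight E p) (hs _ ⟨p, hp, rfl⟩) (fun l => if l ∈ σ then 0 else 1)
  obtain ⟨η, hη, h1⟩ := a6_min (E.filter (fun l => p l ≠ 0)) p (by
    intro l hl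
    obtain ⟨h2, h3⟩ := Finset.mem_filter.1 hl
    exact lt_of_le_of_ne (hp.2 l h2) (Ne.symm h3))
  obtain ⟨ε0, hε0, h2⟩ := a6_bd δ hη
  have hε : 0 < ε0 / 2 := by linarith
  have h3 := h2 (ε0 / 2) hε (by linarith)
  set ε := ε0 / 2 with hεdef
  have hval : ∀ l, (p + ε • δ) l = p l + ε * δ l := fun l => by
    rw [Pi.add_apply, Pi.smul_apply, smul_eq_mul]
  have hpos : ∀ l ∈ E, p l ≠ 0 → 0 < (p + ε • δ) l := by
    intro l hl hl0
    rw [hval]
    have h4 := h1 l (Finset.mem_filter.2 ⟨hl, hl0⟩)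
    have h5 := (abs_lt.1 (h3 l)).1
    linarith
  refine ⟨p + ε • δ, ⟨?_, fun l hl => ?_⟩, ?_⟩
  · have e : p + ε • δ - a = (p - a) + ε • δ := by abel
    rw [e]
    exact (mR M).add_mem hp.1 ((mR M).smul_mem _ hδ)
  · by_cases hl0 : p l = 0
    · rw [hval, hl0, zero_add, hδ' l (mem_tight.2 ⟨hl, hl0⟩)]
      split_ifs
      · rw [mul_zero]
      · rw [mul_one]
        exact hε.le
    · exact (hpos l hl hl0).le
  · ext l
    rw [mem_tight]
    constructor
    · rintro ⟨hl, h4⟩
      by_cases hl0 : p l = 0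
      · rw [hval, hl0, zero_add, hδ' l (mem_tight.2 ⟨hl, hl0⟩)] at h4
        by_contra hσ
        rw [if_neg hσ, mul_one] at h4
        exact hε.ne' h4
      · exact absurd h4 (hpos l hl hl0).ne'
    · intro hl
      have h4 := mem_tight.1 (h hl)
      refine ⟨h4.1, ?_⟩
      rw [hval, h4.2, zero_add, hδ' l (h hl), if_pos hl, mul_zero]

/-- A nonempty simple polyhedron has a point with all coordinates in `E` positive (`TS_sub` with `σ = ∅`). -/
theorem exists_pos {ι : Type} [Fintype ι] (M : AddSubgroup (ι → ℤ)) (E : Finset ι) (a : ι → ℝ) (hs : Simp M E a)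
    (hne : (PP M E a).Nonempty) : ∃ p ∈ PP M E a, ∀ l ∈ E, 0 < p l := by
  obtain ⟨p, hp⟩ := hne
  obtain ⟨p', hp', ht⟩ := TS_sub M E a hs ∅ (tight E p) (Finset.empty_subset _) ⟨p, hp, rfl⟩
  refine ⟨p', hp', fun l hl => lt_of_le_of_ne (hp'.2 l hl) fun h0 => ?_⟩
  have h1 : l ∈ tight E p' := mem_tight.2 ⟨hl, h0.symm⟩
  rw [ht] at h1
  exact absurd h1 (Finset.notMem_empty l)

end Pool.Agent.TOR
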