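import Pool.Agent.TOR.A0

/-!
[TOR] block B, definitions: the algebraic data `Dat` (graded subrings of a field over a complete discrete valuation ring).
-/

namespace Pool.Agent.TOR

open Set

universe u

/-- the Laurent polynomial algebra with exponents in `ℤ^ι` -/
abbrev KZ (K : Type u) [Field K] (ι : Type) : Type u := AddMonoidAlgebra K (ι → ℤ)

/-- the monomial with exponent `u` -/
noncomputable abbrev mono (K : Type u) [Field K] {ι : Type} (u : ι → ℤ) : KZ K ι := AddMonoidAlgebra.single u 1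

/-- `u` is supported in `V` -/
def SupIn {ι : Type} (V : Finset ι) (u : ι → ℤ) : Prop := ∀ i, i ∉ V → u i = 0

/-- the vectors of degree zero supported in `V` -/
def MV {ι Γ : Type} [AddCommGroup Γ] (deg : (ι → ℤ) →+ Γ) (V : Finset ι) : AddSubgroup (ι → ℤ) where
  carrier := {m | SupIn V m ∧ deg m = 0}
  zero_mem' := ⟨fun _ _ => rfl, map_zero deg⟩
  add_mem' := by
    rintro a b ⟨ha, ha'⟩ ⟨hb, hb'⟩
    exact ⟨fun i hi => by simp [ha i hi, hb i hi], by rw [map_add, ha', hb', add_zero]⟩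
  neg_mem' := by
    rintro a ⟨ha, ha'⟩
    exact ⟨fun i hi => by simp [ha i hi], by rw [map_neg, ha', neg_zero]⟩

theorem mem_MV {ι Γ : Type} [AddCommGroup Γ] {deg : (ι → ℤ) →+ Γ} {V : Finset ι} {m : ι → ℤ} :
    m ∈ MV deg V ↔ SupIn V m ∧ deg m = 0 := Iff.rfl

/-- `R` is a complete discrete valuation ring with uniformiser `t` and residue field `K` (elementary form) -/
structure BaseR (R K : Type u) [CommRing R] [Field K] [Algebra R K] (t : R) : Prop where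
  surj : Function.Surjective (algebraMap R K)
  ker : ∀ r : R, algebraMap R K r = 0 → ∃ s, r = t * s
  t_zero : algebraMap R K t = 0
  t_ne : t ≠ 0
  fact : ∀ r : R, r ≠ 0 → ∃ (n : ℕ) (s : R), r = t ^ n * s ∧ algebraMap R K s ≠ 0
  complete : ∀ r : ℕ → R, ∃ s : R, ∀ N : ℕ, ∃ q : R, s - ∑ n ∈ Finset.range N, t ^ n * r n = t ^ N * q

/-- The algebraic data: graded `R`-submodules `T γ` of a field `𝔽` and, for `l ∈ E`, graded subrings `Rl l γ`, with a reduction map to Laurent polynomials. -/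
structure Dat (R K 𝔽 : Type u) [CommRing R] [Field K] [Algebra R K] [Field 𝔽] [Algebra R 𝔽] (t : R)
    {ι Γ : Type} [AddCommGroup Γ] (deg : (ι → ℤ) →+ Γ) (V E : Finset ι) where
  T : Γ → Submodule R 𝔽
  Rl : ι → Γ → Submodule R 𝔽
  red : Γ → 𝔽 → KZ K ι
  base : BaseR R K t
  inj : Function.Injective (algebraMap R 𝔽)
  EV : E ⊆ V
  one_mem : (1 : 𝔽) ∈ T 0
  mul_mem : ∀ γ γ' f g, f ∈ T γ → g ∈ T γ' → f * g ∈ T (γ + γ')
  red_one : red 0 1 = 1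
  red_add : ∀ γ f g, f ∈ T γ → g ∈ T γ → red γ (f + g) = red γ f + red γ g
  red_smul : ∀ γ (r : R) f, f ∈ T γ → red γ (r • f) = algebraMap R K r • red γ f
  red_mul : ∀ γ γ' f g, f ∈ T γ → g ∈ T γ' → red (γ + γ') (f * g) = red γ f * red γ' g
  red_supp : ∀ γ f, f ∈ T γ → ∀ u, (red γ f).coeff u ≠ 0 → SupIn V u ∧ deg u = γ
  red_surj : ∀ u, SupIn V u → ∃ f ∈ T (deg u), red (deg u) f = mono K u
  red_zero : ∀ γ f, f ∈ T γ → red γ f = 0 → ∃ g ∈ T γ, f = t • g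
  complete : ∀ γ (g : ℕ → 𝔽), (∀ n, g n ∈ T γ) → ∃ f ∈ T γ, ∀ N : ℕ, ∃ h ∈ T γ,
    f - ∑ n ∈ Finset.range N, t ^ n • g n = t ^ N • h
  sep : ∀ γ f, f ∈ T γ → (∀ N : ℕ, ∃ g ∈ T γ, f = t ^ N • g) → f = 0
  Rl_le : ∀ l ∈ E, ∀ γ f, f ∈ Rl l γ → f ∈ T γ
  Rl_one : ∀ l ∈ E, (1 : 𝔽) ∈ Rl l 0
  Rl_mul : ∀ l ∈ E, ∀ γ γ' f g, f ∈ Rl l γ → g ∈ Rl l γ' → f * g ∈ Rl l (γ + γ')
  Rl_sat : ∀ l ∈ E, ∀ γ f, f ∈ T γ → t • f ∈ Rl l γ → f ∈ Rl l γ
  Rl_closed : ∀ l ∈ E, ∀ γ f, f ∈ T γ → (∀ N : ℕ, ∃ g ∈ Rl l γ, ∃ h ∈ T γ, f - g = t ^ N • h) → f ∈ Rl l γ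
  Rl_supp : ∀ l ∈ E, ∀ γ f, f ∈ Rl l γ → ∀ u, (red γ f).coeff u ≠ 0 → 0 ≤ u l
  Rl_surj : ∀ l ∈ E, ∀ u, SupIn V u → 0 ≤ u l → ∃ f ∈ Rl l (deg u), red (deg u) f = mono K u

section

variable {R K 𝔽 : Type u} [CommRing R] [Field K] [Algebra R K] [Field 𝔽] [Algebra R 𝔽] {t : R}
  {ι Γ : Type} [AddCommGroup Γ] {deg : (ι → ℤ) →+ Γ} {V E : Finset ι}

/-- the elements of degree `γ` lying in `T` and in all `Rl l`, `l ∈ τ` -/
def Dat.RR (D : Dat R K 𝔽 t deg V E) (τ : Finset ι) (γ : Γ) : Submodule R 𝔽 := D.T γ ⊓ ⨅ l ∈ τ, D.Rl l γ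

theorem Dat.mem_RR (D : Dat R K 𝔽 t deg V E) {τ : Finset ι} {γ : Γ} {f : 𝔽} :
    f ∈ D.RR τ γ ↔ f ∈ D.T γ ∧ ∀ l ∈ τ, f ∈ D.Rl l γ := by
  simp [Dat.RR, Submodule.mem_iInf]

/-- `τ` is good: every monomial with nonnegative exponents on `τ` lifts to `RR τ` -/
def Dat.Good (D : Dat R K 𝔽 t deg V E) (τ : Finset ι) : Prop :=
  ∀ u, SupIn V u → (∀ l ∈ τ, 0 ≤ u l) → ∃ f ∈ D.RR τ (deg u), D.red (deg u) f = mono K u

end

/-- the indices with negative entry -/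
def neg {ι : Type} [Fintype ι] (u : ι → ℤ) : Finset ι := Finset.univ.filter (fun l => u l < 0)

theorem mem_neg {ι : Type} [Fintype ι] {u : ι → ℤ} {l : ι} : l ∈ neg u ↔ u l < 0 := by
  simp [neg]

end Pool.Agent.TOR
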