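import Pool.Agent.TOR.B0

namespace Pool.Agent.TOR

open Set

universe u

variable {R K 𝔽 : Type u} [CommRing R] [Field K] [Algebra R K] [Field 𝔽] [Algebra R 𝔽] {t : R}
  {ι Γ : Type} [AddCommGroup Γ] {deg : (ι → ℤ) →+ Γ} {V E : Finset ι} (D : Dat R K 𝔽 t deg V E)

namespace Dat

/-- `red` of `0` (from `red_smul` with `r = 0`, or from `red_add`). -/
theorem red_z (γ : Γ) : D.red γ 0 = 0 := by
  have h := D.red_smul γ 0 0 (zero_mem _)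
  rwa [zero_smul, map_zero, zero_smul] at h

theorem red_sub (γ : Γ) (f g : 𝔽) (hf : f ∈ D.T γ) (hg : g ∈ D.T γ) : D.red γ (f - g) = D.red γ f - D.red γ g := by
  have h1 : f - g = f + (-1 : R) • g := by rw [neg_smul, one_smul, sub_eq_add_neg]
  rw [h1, D.red_add γ f _ hf ((D.T γ).smul_mem _ hg), D.red_smul γ _ g hg, map_neg, map_one, neg_smul, one_smul,
    sub_eq_add_neg]

/-- multiples of `t` reduce to zero (`base.t_zero`) -/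
theorem red_tpow (γ : Γ) (f : 𝔽) (hf : f ∈ D.T γ) (N : ℕ) (hN : 1 ≤ N) : D.red γ (t ^ N • f) = 0 := by
  rw [D.red_smul γ _ f hf, map_pow, D.base.t_zero, zero_pow (by omega), zero_smul]

/-- `red` of a finite sum -/
theorem red_sum (γ : Γ) {J : Type*} (s : Finset J) (f : J → 𝔽) (hf : ∀ j ∈ s, f j ∈ D.T γ) :
    D.red γ (∑ j ∈ s, f j) = ∑ j ∈ s, D.red γ (f j) := by
  classical
  induction s using Finset.induction_on with
  | empty => simp only [Finset.sum_empty]; exact D.red_z γ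
  | insert j s hj ih =>
    rw [Finset.sum_insert hj, Finset.sum_insert hj, D.red_add γ _ _ (hf j (Finset.mem_insert_self _ _))
      (Submodule.sum_mem _ fun i hi => hf i (Finset.mem_insert_of_mem hi)),
      ih fun i hi => hf i (Finset.mem_insert_of_mem hi)]

include D in
/-- `t ^ N •` is injective (`inj`, `base.t_ne`; `Algebra.smul_def`; `R` is a domain because it embeds in `𝔽`). -/
theorem tpow_inj (N : ℕ) (f g : 𝔽) (h : t ^ N • f = t ^ N • g) : f = g := by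
  have h1 : algebraMap R 𝔽 t ≠ 0 := fun h0 => D.base.t_ne (D.inj (h0.trans (map_zero _).symm))
  rw [Algebra.smul_def, Algebra.smul_def, map_pow] at h
  exact mul_left_cancel₀ (pow_ne_zero N h1) h

include D in
theorem smul_ne (r : R) (hr : r ≠ 0) (f : 𝔽) (hf : f ≠ 0) : r • f ≠ 0 := by
  rw [Algebra.smul_def]
  exact mul_ne_zero (fun h0 => hr (D.inj (h0.trans (map_zero _).symm))) hf

/-- saturation of `RR` (iterate `Rl_sat`) -/
theorem RR_sat (τ : Finset ι) (hτ : τ ⊆ E) (γ : Γ) (f : 𝔽) (hf : f ∈ D.T γ) (N : ℕ) (h : t ^ N • f ∈ D.RR τ γ) :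
    f ∈ D.RR τ γ := by
  rw [D.mem_RR]
  refine ⟨hf, fun l hl => ?_⟩
  have h1 : t ^ N • f ∈ D.Rl l γ := (D.mem_RR.1 h).2 l hl
  clear h
  induction N with
  | zero => rwa [pow_zero, one_smul] at h1
  | succ N ih =>
    rw [pow_succ', mul_smul] at h1
    exact ih (D.Rl_sat l (hτ hl) γ _ ((D.T γ).smul_mem _ hf) h1)

theorem RR_mul (τ : Finset ι) (hτ : τ ⊆ E) (γ γ' : Γ) (f g : 𝔽) (hf : f ∈ D.RR τ γ) (hg : g ∈ D.RR τ γ') :
    f * g ∈ D.RR τ (γ + γ') := by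
  rw [D.mem_RR] at hf hg ⊢
  exact ⟨D.mul_mem _ _ _ _ hf.1 hg.1, fun l hl => D.Rl_mul l (hτ hl) _ _ _ _ (hf.2 l hl) (hg.2 l hl)⟩

theorem RR_one (τ : Finset ι) (hτ : τ ⊆ E) : (1 : 𝔽) ∈ D.RR τ 0 := by
  rw [D.mem_RR]
  exact ⟨D.one_mem, fun l hl => D.Rl_one l (hτ hl)⟩

theorem RR_anti (σ τ : Finset ι) (h : σ ⊆ τ) (γ : Γ) (f : 𝔽) (hf : f ∈ D.RR τ γ) : f ∈ D.RR σ γ := by
  rw [D.mem_RR] at hf ⊢
  exact ⟨hf.1, fun l hl => hf.2 l (h hl)⟩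

theorem RR_supp (τ : Finset ι) (hτ : τ ⊆ E) (γ : Γ) (f : 𝔽) (hf : f ∈ D.RR τ γ) (u : ι → ℤ)
    (hu : (D.red γ f).coeff u ≠ 0) : SupIn V u ∧ deg u = γ ∧ ∀ l ∈ τ, 0 ≤ u l := by
  rw [D.mem_RR] at hf
  obtain ⟨h1, h2⟩ := D.red_supp γ f hf.1 u hu
  exact ⟨h1, h2, fun l hl => D.Rl_supp l (hτ hl) γ f (hf.2 l hl) u hu⟩

/-- an element of `RR` reducing to zero is `t` times an element of `RR` (`red_zero`, `RR_sat` with `N = 1`) -/
theorem RR_zero (τ : Finset ι) (hτ : τ ⊆ E) (γ : Γ) (f : 𝔽) (hf : f ∈ D.RR τ γ) (h : D.red γ f = 0) :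
    ∃ g ∈ D.RR τ γ, f = t • g := by
  obtain ⟨g, hg, hfg⟩ := D.red_zero γ f (D.mem_RR.1 hf).1 h
  refine ⟨g, D.RR_sat τ hτ γ g hg 1 ?_, hfg⟩
  rwa [pow_one, ← hfg]

/-- every nonzero element is `t ^ N` times an element with nonzero reduction (if not, it is divisible by all powers of `t` inside `T`, by `red_zero`; use `sep`) -/
theorem RR_div (τ : Finset ι) (hτ : τ ⊆ E) (γ : Γ) (f : 𝔽) (hf : f ∈ D.RR τ γ) (h : f ≠ 0) :
    ∃ (N : ℕ) (g : 𝔽), g ∈ D.RR τ γ ∧ f = t ^ N • g ∧ D.red γ g ≠ 0 := by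
  by_contra hcon
  push Not at hcon
  apply h
  have key : ∀ N : ℕ, ∃ g ∈ D.RR τ γ, f = t ^ N • g := by
    intro N
    induction N with
    | zero => exact ⟨f, hf, by rw [pow_zero, one_smul]⟩
    | succ N ih =>
      obtain ⟨g, hg, hfg⟩ := ih
      obtain ⟨g', hg', hgg⟩ := D.RR_zero τ hτ γ g hg (hcon N g hg hfg)
      exact ⟨g', hg', by rw [hfg, hgg, smul_smul, pow_succ]⟩
  refine D.sep γ f (D.mem_RR.1 hf).1 fun N => ?_
  obtain ⟨g, hg, hfg⟩ := key N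
  exact ⟨g, (D.mem_RR.1 hg).1, hfg⟩

theorem RR_closed (τ : Finset ι) (hτ : τ ⊆ E) (γ : Γ) (f : 𝔽) (hf : f ∈ D.T γ)
    (h : ∀ N : ℕ, ∃ g ∈ D.RR τ γ, ∃ h ∈ D.T γ, f - g = t ^ N • h) : f ∈ D.RR τ γ := by
  rw [D.mem_RR]
  refine ⟨hf, fun l hl => D.Rl_closed l (hτ hl) γ f hf fun N => ?_⟩
  obtain ⟨g, hg, k, hk, he⟩ := h N
  exact ⟨g, (D.mem_RR.1 hg).2 l hl, k, hk, he⟩

/-- `RR` is complete (`complete`, `RR_closed`, `RR_sat`) -/
theorem RR_complete (τ : Finset ι) (hτ : τ ⊆ E) (γ : Γ) (g : ℕ → 𝔽) (hg : ∀ n, g n ∈ D.RR τ γ) :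
    ∃ f ∈ D.RR τ γ, ∀ N : ℕ, ∃ h ∈ D.RR τ γ, f - ∑ n ∈ Finset.range N, t ^ n • g n = t ^ N • h := by
  obtain ⟨f, hf, hfN⟩ := D.complete γ g fun n => (D.mem_RR.1 (hg n)).1
  have hsum : ∀ N : ℕ, ∑ n ∈ Finset.range N, t ^ n • g n ∈ D.RR τ γ := fun N =>
    Submodule.sum_mem _ fun n _ => (D.RR τ γ).smul_mem _ (hg n)
  have hfR : f ∈ D.RR τ γ := D.RR_closed τ hτ γ f hf fun N => by
    obtain ⟨k, hk, he⟩ := hfN N
    exact ⟨_, hsum N, k, hk, he⟩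
  refine ⟨f, hfR, fun N => ?_⟩
  obtain ⟨k, hk, he⟩ := hfN N
  refine ⟨k, D.RR_sat τ hτ γ k hk N ?_, he⟩
  rw [← he]
  exact Submodule.sub_mem _ hfR (hsum N)

end Dat

end Pool.Agent.TOR
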