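import Pool.Agent.TOR.B1

namespace Pool.Agent.TOR

open Set

universe u

variable {R K 𝔽 : Type u} [CommRing R] [Field K] [Algebra R K] [Field 𝔽] [Algebra R 𝔽] {t : R}
  {ι Γ : Type} [AddCommGroup Γ] {deg : (ι → ℤ) →+ Γ} {V E : Finset ι} (D : Dat R K 𝔽 t deg V E)

namespace Dat

/-- GEOMETRIC SERIES. `s` = the sum of `t ^ n • h ^ n` (`RR_complete` with `g n = h ^ n`, in degree `n • 0 = 0`; `RR_one`, `RR_mul`); `(1 - t h) s - 1` is in `t ^ N • T 0` for all `N`, so zero (`sep`). The reduction: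
`red ((1 - t h) s) = red s` since `red (t • _) = 0`. -/
theorem geom (τ : Finset ι) (hτ : τ ⊆ E) (h : 𝔽) (hh : h ∈ D.RR τ 0) :
    ∃ s ∈ D.RR τ 0, (1 - t • h) * s = 1 ∧ D.red 0 s = 1 := by
  have hpow : ∀ n : ℕ, h ^ n ∈ D.RR τ 0 := by
    intro n
    induction n with
    | zero => rw [pow_zero]; exact D.RR_one τ hτ
    | succ n ih =>
      rw [pow_succ]
      have := D.RR_mul τ hτ 0 0 _ _ ih hh
      rwa [add_zero] at this
  obtain ⟨s, hs, hsN⟩ := D.RR_complete τ hτ 0 (fun n => h ^ n) hpow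
  have h1T : (1 - t • h) ∈ D.T 0 :=
    Submodule.sub_mem _ D.one_mem ((D.T 0).smul_mem _ (D.mem_RR.1 hh).1)
  refine ⟨s, hs, ?_, ?_⟩
  · rw [← sub_eq_zero]
    refine D.sep 0 _ (Submodule.sub_mem _ ?_ D.one_mem) fun N => ?_
    · have := D.mul_mem 0 0 _ _ h1T (D.mem_RR.1 hs).1
      rwa [add_zero] at this
    · obtain ⟨k, hk, he⟩ := hsN N
      refine ⟨(1 - t • h) * k - h ^ N, Submodule.sub_mem _ ?_ (D.mem_RR.1 (hpow N)).1, ?_⟩
      · have := D.mul_mem 0 0 _ _ h1T (D.mem_RR.1 hk).1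
        rwa [add_zero] at this
      · have hs' : s = ∑ n ∈ Finset.range N, t ^ n • h ^ n + t ^ N • k := by
          rw [← he, add_sub_cancel]
        have hg : (∑ n ∈ Finset.range N, t ^ n • h ^ n) = ∑ n ∈ Finset.range N, (t • h) ^ n :=
          Finset.sum_congr rfl fun n _ => (smul_pow t h n).symm
        have hgeo := mul_neg_geom_sum (t • h) N
        rw [hs', hg, mul_add, hgeo, smul_pow, smul_sub, mul_smul_comm]
        ring
  · obtain ⟨k, hk, he⟩ := hsN 1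
    rw [Finset.sum_range_one, pow_zero, pow_zero, one_smul] at he
    have hs' : s = 1 + t ^ 1 • k := by rw [← he, add_sub_cancel]
    rw [hs', D.red_add 0 _ _ D.one_mem ((D.T 0).smul_mem _ (D.mem_RR.1 hk).1), D.red_one,
      D.red_tpow 0 k (D.mem_RR.1 hk).1 1 le_rfl, add_zero]

/-- one divisor at a time -/
theorem b2_core (τ : Finset ι) (hτ : τ ⊆ E) (γ : Γ) (u : ι → ℤ)
    (f : 𝔽) (hf : f ∈ D.RR τ γ) (hr : D.red γ f = mono K u) (g0 : 𝔽) (hg0 : g0 ∈ D.RR τ (-γ))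
    (hr0 : D.red (-γ) g0 = mono K (-u)) : f⁻¹ ∈ D.RR τ (-γ) := by
  have h1 : f * g0 ∈ D.RR τ 0 := by
    have := D.RR_mul τ hτ _ _ _ _ hf hg0
    rwa [add_neg_cancel] at this
  have h2 : D.red 0 (f * g0) = 1 := by
    have := D.red_mul γ (-γ) f g0 (D.mem_RR.1 hf).1 (D.mem_RR.1 hg0).1
    rw [add_neg_cancel] at this
    rw [this, hr, hr0, AddMonoidAlgebra.single_mul_single, add_neg_cancel, one_mul]
    rfl
  have h3 : D.red 0 (1 - f * g0) = 0 := by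
    rw [D.red_sub 0 _ _ D.one_mem (D.mem_RR.1 h1).1, D.red_one, h2, sub_self]
  obtain ⟨h, hh, he⟩ := D.RR_zero τ hτ 0 _ (Submodule.sub_mem _ (D.RR_one τ hτ) h1) h3
  obtain ⟨s, hs, hs1, -⟩ := D.geom τ hτ h hh
  rw [← he, sub_sub_cancel] at hs1
  have h4 : f * (g0 * s) = 1 := by rw [← mul_assoc, hs1]
  rw [← eq_inv_of_mul_eq_one_right h4]
  have := D.RR_mul τ hτ _ _ _ _ hg0 hs
  rwa [add_zero] at this

/-- (B1) INVERSE. Proof: `f ≠ 0` since its reduction is nonzero. It is enough to show `f⁻¹ ∈ T (-γ)` and `f⁻¹ ∈ Rl l (-γ)` for each `l ∈ τ`. Choose `g0` in `T (-γ)` (resp. `Rl l (-γ)`) with reduction `mono (-u)` (`red_surj`,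
`Rl_surj`: `(-u) l = 0`). Then `f * g0 ∈ T 0` (resp. `RR {l} 0`) has reduction `1`, so `1 - f g0 = t h`, `h ∈ RR {l} 0` (`RR_zero`), and with `s` from `geom`: `f g0 s = 1`, `f⁻¹ = g0 s`. Its reduction: `red (f * f⁻¹) = 1 = mono u * red f⁻¹`. -/
theorem inv_mem (τ : Finset ι) (hτ : τ ⊆ E) (γ : Γ) (u : ι → ℤ) (hu : SupIn V u) (hγ : deg u = γ) (hl : ∀ l ∈ τ, u l = 0)
    (f : 𝔽) (hf : f ∈ D.RR τ γ) (hr : D.red γ f = mono K u) :
    f ≠ 0 ∧ f⁻¹ ∈ D.RR τ (-γ) ∧ D.red (-γ) f⁻¹ = mono K (-u) := by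
  have hf0 : f ≠ 0 := by
    rintro rfl
    rw [D.red_z] at hr
    have h1 : (0 : KZ K ι).coeff u = (mono K u).coeff u := by rw [hr]
    simp at h1
  have hVn : SupIn V (-u) := fun i hi => by
    rw [Pi.neg_apply, hu i hi, neg_zero]
  have hdn : deg (-u) = -γ := by rw [map_neg, hγ]
  have hT : f⁻¹ ∈ D.T (-γ) := by
    obtain ⟨g0, hg0, hr0⟩ := D.red_surj (-u) hVn
    rw [hdn] at hg0 hr0
    have h1 : f ∈ D.RR ∅ γ := D.mem_RR.2 ⟨(D.mem_RR.1 hf).1, by simp⟩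
    have h2 : g0 ∈ D.RR ∅ (-γ) := D.mem_RR.2 ⟨hg0, by simp⟩
    exact (D.mem_RR.1 (D.b2_core ∅ (Finset.empty_subset _) γ u f h1 hr g0 h2 hr0)).1
  have hR : f⁻¹ ∈ D.RR τ (-γ) := by
    rw [D.mem_RR]
    refine ⟨hT, fun l hlτ => ?_⟩
    have hlE := hτ hlτ
    obtain ⟨g0, hg0, hr0⟩ := D.Rl_surj l hlE (-u) hVn (by rw [Pi.neg_apply, hl l hlτ, neg_zero])
    rw [hdn] at hg0 hr0
    have h1 : f ∈ D.RR {l} γ := D.mem_RR.2 ⟨(D.mem_RR.1 hf).1, fun k hk => by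
      rw [Finset.mem_singleton.1 hk]
      exact (D.mem_RR.1 hf).2 l hlτ⟩
    have h2 : g0 ∈ D.RR {l} (-γ) := D.mem_RR.2 ⟨D.Rl_le l hlE _ _ hg0, fun k hk => by
      rw [Finset.mem_singleton.1 hk]
      exact hg0⟩
    have h3 := D.b2_core {l} (Finset.singleton_subset_iff.2 hlE) γ u f h1 hr g0 h2 hr0
    exact (D.mem_RR.1 h3).2 l (Finset.mem_singleton_self l)
  refine ⟨hf0, hR, ?_⟩
  have h1 := D.red_mul γ (-γ) f f⁻¹ (D.mem_RR.1 hf).1 hT
  rw [add_neg_cancel, mul_inv_cancel₀ hf0, D.red_one, hr] at h1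
  have h2 : mono K (-u) * mono K u = (1 : KZ K ι) := by
    rw [AddMonoidAlgebra.single_mul_single, neg_add_cancel, one_mul]
    rfl
  calc D.red (-γ) f⁻¹ = (mono K (-u) * mono K u) * D.red (-γ) f⁻¹ := by rw [h2, one_mul]
    _ = mono K (-u) * (mono K u * D.red (-γ) f⁻¹) := by rw [mul_assoc]
    _ = mono K (-u) := by rw [← h1, mul_one]

end Dat

end Pool.Agent.TOR
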