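import Pool.Agent.TOR.B3a

namespace Pool.Agent.TOR

open Set

universe u

variable {R K 𝔽 : Type u} [CommRing R] [Field K] [Algebra R K] [Field 𝔽] [Algebra R 𝔽] {t : R}
  {ι Γ : Type} [Fintype ι] [DecidableEq ι] [AddCommGroup Γ] {deg : (ι → ℤ) →+ Γ} {V E : Finset ι} (D : Dat R K 𝔽 t deg V E)

namespace Dat

/-- Subsets of good sets are good: `RR τ ≤ RR σ` (`RR_anti`), so all `e_i` lift; use `good_of_e`. -/
theorem good_sub (σ τ : Finset ι) (h : σ ⊆ τ) (hτ : τ ⊆ E) (hg : D.Good τ) : D.Good σ := by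
  refine D.good_of_e σ (h.trans hτ) fun i hi => ?_
  obtain ⟨f, hf, hf'⟩ := hg (Pi.single i 1) (fun j hj => by
    have : j ≠ i := fun h => hj (h ▸ hi)
    simp [this]) (fun l _ => by
    by_cases hl : l = i
    · subst hl; simp
    · simp [hl])
  exact ⟨f, D.RR_anti σ τ h _ f hf, hf'⟩

/-- The empty set is good (`red_surj`). -/
theorem good_empty : D.Good ∅ := by
  intro u hu _
  obtain ⟨f, hf, hf'⟩ := D.red_surj u hu
  exact ⟨f, D.mem_RR.2 ⟨hf, by simp⟩, hf'⟩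

/-- Every polynomial with the right supports lifts (finite sum of monomials; coefficients lift by `base.surj`). -/
theorem good_lift (τ : Finset ι) (hτ : τ ⊆ E) (hg : D.Good τ) (γ : Γ) (g : KZ K ι)
    (hs : ∀ u, g.coeff u ≠ 0 → SupIn V u ∧ deg u = γ ∧ ∀ l ∈ τ, 0 ≤ u l) :
    ∃ f ∈ D.RR τ γ, D.red γ f = g := by
  classical
  have h1 : ∀ u : ι → ℤ, ∃ f : 𝔽, g.coeff u ≠ 0 → f ∈ D.RR τ γ ∧ D.red γ f = mono K u := by
    intro u
    by_cases hu : g.coeff u ≠ 0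
    · obtain ⟨hV, hdeg, hpos⟩ := hs u hu
      obtain ⟨f, hf, hf'⟩ := hg u hV hpos
      rw [hdeg] at hf hf'
      exact ⟨f, fun _ => ⟨hf, hf'⟩⟩
    · exact ⟨0, fun h => absurd h hu⟩
  choose F hF using h1
  choose r hr using D.base.surj
  refine ⟨∑ u ∈ g.coeff.support, r (g.coeff u) • F u, ?_, ?_⟩
  · exact Submodule.sum_mem _ fun u hu => (D.RR τ γ).smul_mem _ (hF u (Finsupp.mem_support_iff.1 hu)).1
  · rw [D.red_sum γ _ _ fun u hu => (D.T γ).smul_mem _ (D.mem_RR.1 (hF u (Finsupp.mem_support_iff.1 hu)).1).1]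
    conv_rhs => rw [← AddMonoidAlgebra.sum_coeff_single g, Finsupp.sum]
    refine Finset.sum_congr rfl fun u hu => ?_
    have h2 := hF u (Finsupp.mem_support_iff.1 hu)
    rw [D.red_smul γ _ _ (D.mem_RR.1 h2.1).1, h2.2, hr, AddMonoidAlgebra.smul_single, smul_eq_mul, mul_one]

end Dat

end Pool.Agent.TOR
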