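import Pool.Agent.TOR.B2

namespace Pool.Agent.TOR

open Set

universe u

variable {R K 𝔽 : Type u} [CommRing R] [Field K] [Algebra R K] [Field 𝔽] [Algebra R 𝔽] {t : R}
  {ι Γ : Type} [Fintype ι] [DecidableEq ι] [AddCommGroup Γ] {deg : (ι → ℤ) →+ Γ} {V E : Finset ι} (D : Dat R K 𝔽 t deg V E)

namespace Dat

/-- (B2) GOODNESS CRITERION. For `u` supported in `V`, nonnegative on `τ`: `u = ∑_{i ∈ V} u i • e_i`; take the product over `i ∈ V` of `f_i ^ (u i)` (`f_i` the lift of `e_i`); a negative power occurs only for `i ∉ τ`, and then `(e_i) l = 0` for all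
`l ∈ τ`, so `f_i⁻¹ ∈ RR τ` by `inv_mem`. (Suggestion: first the statement for `u = n • e_i`, `n : ℤ`, `0 ≤ n` if `i ∈ τ`; then induction over subsets `S ⊆ V` for vectors supported in `S`.) -/
theorem good_of_e (τ : Finset ι) (hτ : τ ⊆ E)
    (h : ∀ i ∈ V, ∃ f ∈ D.RR τ (deg (Pi.single i 1)), D.red (deg (Pi.single i 1)) f = mono K (Pi.single i 1)) :
    D.Good τ := by
  let P : AddSubmonoid (ι → ℤ) :=
    { carrier := {u | ∃ f ∈ D.RR τ (deg u), D.red (deg u) f = mono K u}
      zero_mem' := by
        refine ⟨1, ?_, ?_⟩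
        · rw [map_zero]; exact D.RR_one τ hτ
        · rw [map_zero, D.red_one]; rfl
      add_mem' := by
        rintro u v ⟨f, hf, hf'⟩ ⟨g, hg, hg'⟩
        refine ⟨f * g, ?_, ?_⟩
        · rw [map_add]; exact D.RR_mul τ hτ _ _ _ _ hf hg
        · rw [map_add, D.red_mul _ _ _ _ (D.mem_RR.1 hf).1 (D.mem_RR.1 hg).1, hf', hg',
            AddMonoidAlgebra.single_mul_single, one_mul] }
  intro u hu hpos
  suffices hP : u ∈ P from hP
  rw [← Finset.univ_sum_single u]
  refine sum_mem fun i _ => ?_
  by_cases hi : i ∈ V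
  · have h1 : (Pi.single i 1 : ι → ℤ) ∈ P := h i hi
    rcases Int.eq_nat_or_neg (u i) with ⟨m, hm | hm⟩
    · have : (Pi.single i (u i) : ι → ℤ) = m • Pi.single i 1 := by
        rw [← Pi.single_smul, hm, nsmul_eq_mul, mul_one]
      rw [this]
      exact P.nsmul_mem h1 m
    · by_cases hm0 : m = 0
      · rw [hm, hm0]
        simp only [Nat.cast_zero, neg_zero, Pi.single_zero]
        exact P.zero_mem
      · have hiτ : i ∉ τ := fun hiτ => by
          have := hpos i hiτ
          omega
        obtain ⟨f, hf, hf'⟩ := h i hi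
        have h2 := D.inv_mem τ hτ (deg (Pi.single i 1)) (Pi.single i 1) (fun j hj => by
            have : j ≠ i := fun h => hj (h ▸ hi)
            simp [this]) rfl (fun l hl => by
            have : l ≠ i := fun h => hiτ (h ▸ hl)
            simp [this]) f hf hf'
        have h3 : (Pi.single i (-1) : ι → ℤ) ∈ P := by
          have h4 : (Pi.single i (-1) : ι → ℤ) = - Pi.single i 1 := by rw [Pi.single_neg]
          rw [h4]
          refine ⟨f⁻¹, ?_, ?_⟩
          · rw [map_neg]; exact h2.2.1
          · rw [map_neg]; exact h2.2.2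
        have : (Pi.single i (u i) : ι → ℤ) = m • Pi.single i (-1) := by
          rw [← Pi.single_smul, hm, nsmul_eq_mul, mul_neg, mul_one]
        rw [this]
        exact P.nsmul_mem h3 m
  · rw [hu i hi, Pi.single_zero]
    exact P.zero_mem

end Dat

end Pool.Agent.TOR
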