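import Pool.Agent.TOR.A0

namespace Pool.Agent.TOR

open Set

/-- ČECH SPLITTING (pure linear algebra). Construct `b` pointwise: for `x` with `P x`: if some `s0 ∈ U` meets `nb x` choose one and put `b σ x = c σ s0 x`; otherwise `b σ x = c σ s1 x` with a fixed `s1 ∈ U`. If `σ ∩ nb x` is nonempty then so is `s0 ∩ nb x` for the chosen
`s0`; `Conn` gives a chain from `σ` to `s0` with consecutive members meeting inside `nb x`, where `c` vanishes at `x` (`hz`); by the cocycle condition (`c σ s0 x` = sum along the chain; induct on the chain with the statement `c σ σ' x = 0`) `b σ x = 0`. And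
`b σ x - b σ' x = c σ s0 x - c σ' s0 x = c σ σ' x`. The functions `b σ` are finitely supported: supported in the union of the supports of the `c σ σ'` (`Finsupp.onFinset`). `c σ σ = 0` by the cocycle condition. -/
theorem cech_split {ι : Type} {X K : Type*} [DecidableEq ι] [Field K] (U : Finset (Finset ι)) (hU : U.Nonempty)
    (nb : X → Finset ι) (P : X → Prop) (hconn : ∀ x, P x → Conn (↑U : Set (Finset ι)) (nb x))
    (c : Finset ι → Finset ι → X →₀ K) (hP : ∀ σ ∈ U, ∀ σ' ∈ U, ∀ x, c σ σ' x ≠ 0 → P x)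
    (hc : ∀ σ ∈ U, ∀ σ' ∈ U, ∀ σ'' ∈ U, ∀ x, c σ σ' x + c σ' σ'' x = c σ σ'' x)
    (hz : ∀ σ ∈ U, ∀ σ' ∈ U, ∀ x, (σ ∩ σ' ∩ nb x).Nonempty → c σ σ' x = 0) :
    ∃ b : Finset ι → X →₀ K, (∀ σ ∈ U, ∀ x, b σ x ≠ 0 → P x ∧ ¬ (σ ∩ nb x).Nonempty) ∧
      ∀ σ ∈ U, ∀ σ' ∈ U, ∀ x, b σ x - b σ' x = c σ σ' x := by
  classical
  obtain ⟨s1, hs1⟩ := hU
  have hs0 : ∀ x : X, ∃ s0 ∈ U, (∃ s ∈ U, (s ∩ nb x).Nonempty) → (s0 ∩ nb x).Nonempty := by
    intro x
    by_cases h : ∃ s ∈ U, (s ∩ nb x).Nonempty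
    · obtain ⟨s, hs, hs'⟩ := h
      exact ⟨s, hs, fun _ => hs'⟩
    · exact ⟨s1, hs1, fun h' => absurd h' h⟩
  choose s0 hs0U hs0' using hs0
  let b : Finset ι → X →₀ K := fun σ => if hσ : σ ∈ U then
    Finsupp.onFinset (U.biUnion fun s => (c σ s).support) (fun x => c σ (s0 x) x)
      (fun x hx => Finset.mem_biUnion.2 ⟨s0 x, hs0U x, Finsupp.mem_support_iff.2 hx⟩) else 0
  have hb : ∀ σ ∈ U, ∀ x, b σ x = c σ (s0 x) x := by
    intro σ hσ x
    simp only [b, dif_pos hσ, Finsupp.onFinset_apply]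
  have hself : ∀ σ ∈ U, ∀ x, c σ σ x = 0 := by
    intro σ hσ x
    have := hc σ hσ σ hσ σ hσ x
    simpa using this
  refine ⟨b, ?_, ?_⟩
  · intro σ hσ x hx
    rw [hb σ hσ] at hx
    have hPx := hP σ hσ (s0 x) (hs0U x) x hx
    refine ⟨hPx, fun hne => hx ?_⟩
    have hne0 := hs0' x ⟨σ, hσ, hne⟩
    have hchain := hconn x hPx σ hσ (s0 x) (hs0U x) hne hne0
    have key : ∀ σ', Relation.ReflTransGen (Lk (↑U : Set (Finset ι)) (nb x)) σ σ' → c σ σ' x = 0 := by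
      intro σ' hσ'
      induction hσ' with
      | refl => exact hself σ hσ x
      | tail _ hlk ih =>
        obtain ⟨h1, h2, h3⟩ := hlk
        rw [← hc σ hσ _ h1 _ h2 x, ih, hz _ h1 _ h2 x h3, add_zero]
    exact key _ hchain
  · intro σ hσ σ' hσ' x
    rw [hb σ hσ, hb σ' hσ', ← hc σ hσ σ' hσ' (s0 x) (hs0U x) x, add_sub_cancel_right]

/-- `Conn` depends only on the intersections of `L` with the members of `U`. -/
theorem conn_congr {ι : Type} [DecidableEq ι] (U : Set (Finset ι)) (L L' : Finset ι)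
    (h : ∀ τ ∈ U, τ ∩ L = τ ∩ L') (hc : Conn U L) : Conn U L' := by
  intro τ hτ τ' hτ' h1 h2
  rw [← h τ hτ] at h1
  rw [← h τ' hτ'] at h2
  refine Relation.ReflTransGen.mono ?_ _ _ (hc τ hτ τ' hτ' h1 h2)
  rintro σ σ' ⟨hσ, hσ', hne⟩
  refine ⟨hσ, hσ', ?_⟩
  rw [Finset.inter_assoc, h σ' hσ', ← Finset.inter_assoc] at hne
  exact hne

end Pool.Agent.TOR
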