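import Pool.Agent.TOR.B5a

namespace Pool.Agent.TOR

open Set

universe u

variable {R K 𝔽 : Type u} [CommRing R] [Field K] [Algebra R K] [Field 𝔽] [Algebra R 𝔽] {t : R}
  {ι Γ : Type} [Fintype ι] [DecidableEq ι] [AddCommGroup Γ] {deg : (ι → ℤ) →+ Γ} {V E : Finset ι} (D : Dat R K 𝔽 t deg V E)

namespace Dat

/-- (B3) LIFT. Start with lifts `f σ ∈ RR σ γ` of `g` (`good_lift`); differences reduce to zero, so they are in `t • T γ`: the invariant of `lift_step` for `N = 1`. Iterate `lift_step` for `N = 1, 2, …` (sequence of functions by recursion on a subtype, or `Nat.rec` with choice): `f_N σ = f σ + ∑_{1 ≤ n < N} t ^ n β_n σ`,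
`f_N σ - f_N σ' ∈ t ^ N • T γ`. By `RR_complete` (with `g 0 = f σ`, `g n = β_n σ`) there is `F σ ∈ RR σ γ` with `F σ - f_N σ ∈ t ^ N • RR σ γ`. So `F σ - F σ' ∈ t ^ N • T γ` for all `N`, `F σ = F σ'` (`sep`). `red (F σ) = g`. -/
theorem lift (U : Finset (Finset ι)) (hU : U.Nonempty) (hUE : ∀ σ ∈ U, σ ⊆ E) (hg : ∀ σ ∈ U, D.Good σ) (γ : Γ)
    (hconn : ∀ u, SupIn V u → deg u = γ → Conn (↑U : Set (Finset ι)) (neg u)) (g : KZ K ι)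
    (hs : ∀ u, g.coeff u ≠ 0 → SupIn V u ∧ deg u = γ ∧ ∀ σ ∈ U, ∀ l ∈ σ, 0 ≤ u l) :
    ∃ f ∈ D.T γ, (∀ σ ∈ U, f ∈ D.RR σ γ) ∧ D.red γ f = g := by
  classical
  let G : (Finset ι → 𝔽) → ℕ → Prop := fun f N => (∀ σ ∈ U, f σ ∈ D.RR σ γ) ∧
    ∀ σ ∈ U, ∀ σ' ∈ U, ∃ c ∈ D.T γ, f σ - f σ' = t ^ N • c
  have step : ∀ (N : ℕ) (f : Finset ι → 𝔽), ∃ β : Finset ι → 𝔽, G f N →
      (∀ σ ∈ U, β σ ∈ D.RR σ γ) ∧ G (fun σ => f σ + t ^ N • β σ) (N + 1) := by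
    intro N f
    by_cases hG : G f N
    · obtain ⟨β, hβ1, hβ2⟩ := D.lift_step U hU hUE hg γ hconn N f hG.1 hG.2
      exact ⟨β, fun _ => ⟨hβ1, fun σ hσ => Submodule.add_mem _ (hG.1 σ hσ) ((D.RR σ γ).smul_mem _ (hβ1 σ hσ)), hβ2⟩⟩
    · exact ⟨0, fun h => absurd h hG⟩
  choose B hB using step
  -- the first lift
  have h0 : ∀ σ : Finset ι, ∃ f : 𝔽, σ ∈ U → f ∈ D.RR σ γ ∧ D.red γ f = g := by
    intro σ
    by_cases hσ : σ ∈ U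
    · obtain ⟨f, hf, hf'⟩ := D.good_lift σ (hUE σ hσ) (hg σ hσ) γ g (fun u hu => by
        obtain ⟨h1, h2, h3⟩ := hs u hu
        exact ⟨h1, h2, h3 σ hσ⟩)
      exact ⟨f, fun _ => ⟨hf, hf'⟩⟩
    · exact ⟨0, fun h => absurd h hσ⟩
  choose f0 hf0 using h0
  have hG0 : G f0 1 := by
    refine ⟨fun σ hσ => (hf0 σ hσ).1, fun σ hσ σ' hσ' => ?_⟩
    have h1 := (D.mem_RR.1 (hf0 σ hσ).1).1
    have h2 := (D.mem_RR.1 (hf0 σ' hσ').1).1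
    obtain ⟨c, hc, hc'⟩ := D.red_zero γ (f0 σ - f0 σ') (Submodule.sub_mem _ h1 h2)
      (by rw [D.red_sub γ _ _ h1 h2, (hf0 σ hσ).2, (hf0 σ' hσ').2, sub_self])
    exact ⟨c, hc, by rw [pow_one]; exact hc'⟩
  let fs : ℕ → Finset ι → 𝔽 := fun n => Nat.rec f0 (fun n f => fun σ => f σ + t ^ (n + 1) • B (n + 1) f σ) n
  have hfs0 : fs 0 = f0 := rfl
  have hfsS : ∀ n, fs (n + 1) = fun σ => fs n σ + t ^ (n + 1) • B (n + 1) (fs n) σ := fun n => rfl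
  have hG : ∀ n, G (fs n) (n + 1) := by
    intro n
    induction n with
    | zero => exact hG0
    | succ n ih =>
      rw [hfsS]
      exact (hB (n + 1) (fs n) ih).2
  let β : ℕ → Finset ι → 𝔽 := fun n => Nat.casesOn n f0 (fun n => B (n + 1) (fs n))
  have hβ0 : β 0 = f0 := rfl
  have hβS : ∀ n, β (n + 1) = B (n + 1) (fs n) := fun n => rfl
  have hβ : ∀ n, ∀ σ ∈ U, β n σ ∈ D.RR σ γ := by
    intro n σ hσ
    cases n with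
    | zero => exact (hf0 σ hσ).1
    | succ n => exact (hB (n + 1) (fs n) (hG n)).1 σ hσ
  have hsum : ∀ n σ, fs n σ = ∑ k ∈ Finset.range (n + 1), t ^ k • β k σ := by
    intro n σ
    induction n with
    | zero => rw [Finset.sum_range_one, pow_zero, one_smul, hβ0, hfs0]
    | succ n ih => rw [Finset.sum_range_succ, ← ih, hfsS, hβS]
  have hF : ∀ σ : Finset ι, ∃ F : 𝔽, σ ∈ U → F ∈ D.RR σ γ ∧
      ∀ N : ℕ, ∃ h ∈ D.RR σ γ, F - ∑ n ∈ Finset.range N, t ^ n • β n σ = t ^ N • h := by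
    intro σ
    by_cases hσ : σ ∈ U
    · obtain ⟨F, hF, hF'⟩ := D.RR_complete σ (hUE σ hσ) γ (fun n => β n σ) fun n => hβ n σ hσ
      exact ⟨F, fun _ => ⟨hF, hF'⟩⟩
    · exact ⟨0, fun h => absurd h hσ⟩
  choose F hF using hF
  have hFT : ∀ σ ∈ U, F σ ∈ D.T γ := fun σ hσ => (D.mem_RR.1 (hF σ hσ).1).1
  have heq : ∀ σ ∈ U, ∀ σ' ∈ U, F σ = F σ' := by
    intro σ hσ σ' hσ'
    rw [← sub_eq_zero]
    refine D.sep γ _ (Submodule.sub_mem _ (hFT σ hσ) (hFT σ' hσ')) fun N => ?_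
    cases N with
    | zero => exact ⟨_, Submodule.sub_mem _ (hFT σ hσ) (hFT σ' hσ'), by rw [pow_zero, one_smul]⟩
    | succ n =>
      obtain ⟨h1, hh1, e1⟩ := (hF σ hσ).2 (n + 1)
      obtain ⟨h2, hh2, e2⟩ := (hF σ' hσ').2 (n + 1)
      rw [← hsum] at e1 e2
      obtain ⟨c, hc, hc'⟩ := (hG n).2 σ hσ σ' hσ'
      refine ⟨h1 - h2 + c, Submodule.add_mem _ (Submodule.sub_mem _ (D.mem_RR.1 hh1).1 (D.mem_RR.1 hh2).1) hc, ?_⟩
      rw [smul_add, smul_sub, ← e1, ← e2, ← hc']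
      ring
  obtain ⟨σ0, hσ0⟩ := hU
  refine ⟨F σ0, hFT σ0 hσ0, fun σ hσ => ?_, ?_⟩
  · rw [heq σ0 hσ0 σ hσ]
    exact (hF σ hσ).1
  · obtain ⟨h1, hh1, e1⟩ := (hF σ0 hσ0).2 1
    rw [Finset.sum_range_one, pow_zero, one_smul, hβ0] at e1
    have h2 : F σ0 = f0 σ0 + t ^ 1 • h1 := by rw [← e1, add_sub_cancel]
    rw [h2, D.red_add γ _ _ (D.mem_RR.1 (hf0 σ0 hσ0).1).1 ((D.T γ).smul_mem _ (D.mem_RR.1 hh1).1),
      D.red_tpow γ h1 (D.mem_RR.1 hh1).1 1 le_rfl, add_zero, (hf0 σ0 hσ0).2]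

end Dat

end Pool.Agent.TOR
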