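import Pool.Agent.TOR.B3
import Pool.Agent.TOR.B4

namespace Pool.Agent.TOR

open Set

universe u

variable {R K 𝔽 : Type u} [CommRing R] [Field K] [Algebra R K] [Field 𝔽] [Algebra R 𝔽] {t : R}
  {ι Γ : Type} [Fintype ι] [DecidableEq ι] [AddCommGroup Γ] {deg : (ι → ℤ) →+ Γ} {V E : Finset ι} (D : Dat R K 𝔽 t deg V E)

namespace Dat

/-- One step of the successive approximation. Choose `c σ σ' ∈ T γ` with `f σ - f σ' = t ^ N • c σ σ'`; exact cocycle (`tpow_inj`); for `l ∈ σ ∩ σ'` it is in `Rl l` (`RR_sat` for the set `σ ∩ σ'`), so the coefficient of its reduction at `u` vanishes if some `l ∈ σ ∩ σ'` has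
`u l < 0` (`RR_supp`). `cech_split` with `X = ι → ℤ`, `nb = neg`, `P u = SupIn V u ∧ deg u = γ`, `c = (red γ (c σ σ')).coeff` gives `b σ`; lift `-b σ` to `β σ ∈ RR σ γ` (`good_lift`). Then `c σ σ' + β σ - β σ'` reduces to zero, `red_zero`. -/
theorem lift_step (U : Finset (Finset ι)) (hU : U.Nonempty) (hUE : ∀ σ ∈ U, σ ⊆ E) (hg : ∀ σ ∈ U, D.Good σ) (γ : Γ)
    (hconn : ∀ u, SupIn V u → deg u = γ → Conn (↑U : Set (Finset ι)) (neg u)) (N : ℕ) (f : Finset ι → 𝔽)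
    (hf : ∀ σ ∈ U, f σ ∈ D.RR σ γ) (hN : ∀ σ ∈ U, ∀ σ' ∈ U, ∃ c ∈ D.T γ, f σ - f σ' = t ^ N • c) :
    ∃ β : Finset ι → 𝔽, (∀ σ ∈ U, β σ ∈ D.RR σ γ) ∧
      ∀ σ ∈ U, ∀ σ' ∈ U, ∃ c ∈ D.T γ, (f σ + t ^ N • β σ) - (f σ' + t ^ N • β σ') = t ^ (N + 1) • c := by
  classical
  have hfT : ∀ σ ∈ U, f σ ∈ D.T γ := fun σ hσ => (D.mem_RR.1 (hf σ hσ)).1
  have h1 : ∀ σ σ' : Finset ι, ∃ c : 𝔽, σ ∈ U → σ' ∈ U → c ∈ D.T γ ∧ f σ - f σ' = t ^ N • c := by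
    intro σ σ'
    by_cases h : σ ∈ U ∧ σ' ∈ U
    · obtain ⟨c, hc, hc'⟩ := hN σ h.1 σ' h.2
      exact ⟨c, fun _ _ => ⟨hc, hc'⟩⟩
    · exact ⟨0, fun h1 h2 => absurd ⟨h1, h2⟩ h⟩
  choose c hc using h1
  have hcT : ∀ σ ∈ U, ∀ σ' ∈ U, c σ σ' ∈ D.T γ := fun σ hσ σ' hσ' => (hc σ σ' hσ hσ').1
  have hcE : ∀ σ ∈ U, ∀ σ' ∈ U, f σ - f σ' = t ^ N • c σ σ' := fun σ hσ σ' hσ' => (hc σ σ' hσ hσ').2
  have hcoc : ∀ σ ∈ U, ∀ σ' ∈ U, ∀ σ'' ∈ U, c σ σ' + c σ' σ'' = c σ σ'' := by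
    intro σ hσ σ' hσ' σ'' hσ''
    apply D.tpow_inj N
    rw [smul_add, ← hcE σ hσ σ' hσ', ← hcE σ' hσ' σ'' hσ'', ← hcE σ hσ σ'' hσ'', sub_add_sub_cancel]
  obtain ⟨b, hb1, hb2⟩ := cech_split (K := K) U hU (neg : (ι → ℤ) → Finset ι) (fun u => SupIn V u ∧ deg u = γ)
    (fun u hu => hconn u hu.1 hu.2) (fun σ σ' => (D.red γ (c σ σ')).coeff)
    (fun σ hσ σ' hσ' u hu => D.red_supp γ _ (hcT σ hσ σ' hσ') u hu)
    (fun σ hσ σ' hσ' σ'' hσ'' u => by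
      rw [← hcoc σ hσ σ' hσ' σ'' hσ'', D.red_add γ _ _ (hcT σ hσ σ' hσ') (hcT σ' hσ' σ'' hσ''),
        AddMonoidAlgebra.coeff_add, Finsupp.add_apply])
    (fun σ hσ σ' hσ' u hne => by
      by_contra hcon
      obtain ⟨l, hl⟩ := hne
      rw [Finset.mem_inter, Finset.mem_inter, mem_neg] at hl
      have h2 : c σ σ' ∈ D.RR (σ ∩ σ') γ := by
        refine D.RR_sat _ (Finset.inter_subset_left.trans (hUE σ hσ)) γ _ (hcT σ hσ σ' hσ') N ?_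
        rw [← hcE σ hσ σ' hσ']
        exact Submodule.sub_mem _ (D.RR_anti _ _ Finset.inter_subset_left γ _ (hf σ hσ))
          (D.RR_anti _ _ Finset.inter_subset_right γ _ (hf σ' hσ'))
      have h3 := D.RR_supp _ (Finset.inter_subset_left.trans (hUE σ hσ)) γ _ h2 u hcon
      have h4 := h3.2.2 l (Finset.mem_inter.2 hl.1)
      omega)
  have h5 : ∀ σ : Finset ι, ∃ β : 𝔽, σ ∈ U → β ∈ D.RR σ γ ∧ D.red γ β = - AddMonoidAlgebra.ofCoeff (b σ) := by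
    intro σ
    by_cases hσ : σ ∈ U
    · obtain ⟨β, hβ, hβ'⟩ := D.good_lift σ (hUE σ hσ) (hg σ hσ) γ (- AddMonoidAlgebra.ofCoeff (b σ)) (fun u hu => by
        have hu' : b σ u ≠ 0 := by
          intro h0
          apply hu
          rw [AddMonoidAlgebra.coeff_neg, AddMonoidAlgebra.coeff_ofCoeff, Finsupp.neg_apply, h0, neg_zero]
        obtain ⟨⟨h6, h7⟩, h8⟩ := hb1 σ hσ u hu'
        refine ⟨h6, h7, fun l hl => ?_⟩
        by_contra hneg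
        exact h8 ⟨l, Finset.mem_inter.2 ⟨hl, mem_neg.2 (not_le.1 hneg)⟩⟩)
      exact ⟨β, fun _ => ⟨hβ, hβ'⟩⟩
    · exact ⟨0, fun h => absurd h hσ⟩
  choose β hβ using h5
  refine ⟨β, fun σ hσ => (hβ σ hσ).1, fun σ hσ σ' hσ' => ?_⟩
  have hβT : ∀ σ ∈ U, β σ ∈ D.T γ := fun σ hσ => (D.mem_RR.1 (hβ σ hσ).1).1
  have h6 : D.red γ (c σ σ' + (β σ - β σ')) = 0 := by
    rw [D.red_add γ _ _ (hcT σ hσ σ' hσ') (Submodule.sub_mem _ (hβT σ hσ) (hβT σ' hσ')),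
      D.red_sub γ _ _ (hβT σ hσ) (hβT σ' hσ'), (hβ σ hσ).2, (hβ σ' hσ').2]
    ext u
    have h7 := hb2 σ hσ σ' hσ' u
    simp only [AddMonoidAlgebra.coeff_add, AddMonoidAlgebra.coeff_sub, AddMonoidAlgebra.coeff_neg,
      AddMonoidAlgebra.coeff_ofCoeff, Finsupp.add_apply, Finsupp.sub_apply, Finsupp.neg_apply,
      AddMonoidAlgebra.coeff_zero, Finsupp.zero_apply]
    rw [← h7]
    ring
  obtain ⟨g, hg', he⟩ := D.red_zero γ _ (Submodule.add_mem _ (hcT σ hσ σ' hσ')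
    (Submodule.sub_mem _ (hβT σ hσ) (hβT σ' hσ'))) h6
  refine ⟨g, hg', ?_⟩
  have h8 : (f σ + t ^ N • β σ) - (f σ' + t ^ N • β σ') = (f σ - f σ') + t ^ N • (β σ - β σ') := by
    rw [smul_sub]; abel
  rw [h8, hcE σ hσ σ' hσ', ← smul_add, he, smul_smul, pow_succ]

end Dat

end Pool.Agent.TOR
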