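import Pool.Agent.TOR.B6b

namespace Pool.Agent.TOR

open Set

universe u

variable {R K 𝔽 : Type u} [CommRing R] [Field K] [Algebra R K] [Field 𝔽] [Algebra R 𝔽] {t : R}
  {ι Γ : Type} [Fintype ι] [DecidableEq ι] [AddCommGroup Γ] {deg : (ι → ℤ) →+ Γ} {V E : Finset ι} (D : Dat R K 𝔽 t deg V E)

namespace Dat

/-- All sets on the roof are good: `min_height` with the property `τ ⊆ E ∧ Good τ` (or `fun τ => τ ⊆ E → Good τ`), `good_sub`, `ext_good`. -/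
theorem roof_good (a : ι → ℝ) (hb : Bornology.IsBounded (PP (MV deg V) E a))
    (hz : ∀ l ∈ E, ∃ p ∈ PP (MV deg V) E a, p l = 0) (hT : ∀ τ ∈ TS (MV deg V) E a, D.Good τ) :
    ∀ p ∈ PP (MV deg V) E a, D.Good (amin E p) := by
  intro p hp
  exact (min_height (MV deg V) E a hb hz (fun τ => τ ⊆ E ∧ D.Good τ)
    (fun σ τ hστ hτ => ⟨hστ.trans hτ.1, D.good_sub σ τ hστ hτ.1 hτ.2⟩)
    (fun τ hτ => ⟨by
      obtain ⟨p, _, rfl⟩ := hτ
      exact fun l hl => (mem_tight.1 hl).1, hT τ hτ⟩)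
    (fun τ hτE h1 h2 => ⟨hτE, D.ext_good τ hτE (fun δ hδ hneg => (h1 δ hδ hneg).2) h2⟩) p hp).2

end Dat

end Pool.Agent.TOR
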