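import Pool.Agent.TOR.B5
import Pool.Agent.TOR.A3
import Pool.Agent.TOR.A5b
import Pool.Agent.TOR.A7

namespace Pool.Agent.TOR

open Set

universe u

variable {R K 𝔽 : Type u} [CommRing R] [Field K] [Algebra R K] [Field 𝔽] [Algebra R 𝔽] {t : R}
  {ι Γ : Type} [Fintype ι] [DecidableEq ι] [AddCommGroup Γ] {deg : (ι → ℤ) →+ Γ} {V E : Finset ι} (D : Dat R K 𝔽 t deg V E)

namespace Dat

/-- (B4) EXTENSION. Proof: `τ` empty: `good_empty`. Otherwise use `good_of_e`: let `i ∈ V`, `γ = deg e_i`, `U` = the finite set of all `amin τ δ`, `δ ∈ mR (MV deg V)` with `δ l < 0` for some `l ∈ τ` (`U ⊆ τ.powerset`, `Set.Finite.toFinset`); nonempty by `h2`. A vector `u` supported in `V` of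
degree `γ` is `m0 + e_i`, `m0 ∈ MV deg V`, and `neg u` is the set of `ext_conn`. `lift` with `g = mono e_i` (nonnegative everywhere) gives `f` in `RR σ γ` for all `σ ∈ U`; by `h2` every `l ∈ τ` is in some `σ ∈ U`, so `f ∈ RR τ γ` (`mem_RR`). -/
theorem ext_good (τ : Finset ι) (hτ : τ ⊆ E)
    (h1 : ∀ δ ∈ mR (MV deg V), (∃ l ∈ τ, δ l < 0) → D.Good (amin τ δ))
    (h2 : ∀ l ∈ τ, ∃ δ ∈ mR (MV deg V), l ∈ amin τ δ ∧ δ l < 0) : D.Good τ := by
  classical
  rcases τ.eq_empty_or_nonempty with rfl | hne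
  · exact D.good_empty
  refine D.good_of_e τ hτ fun i hi => ?_
  let US : Set (Finset ι) := {σ | ∃ δ ∈ mR (MV deg V), (∃ l ∈ τ, δ l < 0) ∧ σ = amin τ δ}
  have hfin : US.Finite := Set.toFinite _
  have hcoe : (↑hfin.toFinset : Set (Finset ι)) = US := hfin.coe_toFinset
  have hmem : ∀ σ, σ ∈ hfin.toFinset ↔ ∃ δ ∈ mR (MV deg V), (∃ l ∈ τ, δ l < 0) ∧ σ = amin τ δ := fun σ =>
    hfin.mem_toFinset
  have hsub : ∀ δ : ι → ℝ, amin τ δ ⊆ τ := fun δ l hl => (mem_amin.1 hl).1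
  have hsup : SupIn V (Pi.single i 1 : ι → ℤ) := fun j hj => by
    have : j ≠ i := fun h => hj (h ▸ hi)
    simp [this]
  obtain ⟨f, hf, hfU, hfr⟩ := D.lift hfin.toFinset (by
      obtain ⟨l, hl⟩ := hne
      obtain ⟨δ, hδ, hlδ, hneg⟩ := h2 l hl
      exact ⟨amin τ δ, (hmem _).2 ⟨δ, hδ, ⟨l, hl, hneg⟩, rfl⟩⟩)
    (by
      intro σ hσ
      obtain ⟨δ, hδ, -, rfl⟩ := (hmem σ).1 hσ
      exact (hsub δ).trans hτ)
    (by
      intro σ hσ
      obtain ⟨δ, hδ, hneg, rfl⟩ := (hmem σ).1 hσ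
      exact h1 δ hδ hneg)
    (deg (Pi.single i 1))
    (by
      intro u hu hdeg
      rw [hcoe]
      have hm0 : u - Pi.single i 1 ∈ MV deg V := by
        refine ⟨fun j hj => ?_, ?_⟩
        · rw [Pi.sub_apply, hu j hj, hsup j hj, sub_zero]
        · rw [map_sub, hdeg, sub_self]
      have h3 := ext_conn (MV deg V) τ (u - Pi.single i 1) hm0 i
      have h4 : neg u = Finset.univ.filter (fun l => (u - Pi.single i 1 : ι → ℤ) l + (if l = i then 1 else 0) < 0) := by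
        ext l
        rw [mem_neg, Finset.mem_filter]
        have h5 : (u - Pi.single i 1 : ι → ℤ) l + (if l = i then 1 else 0) = u l := by
          rw [Pi.sub_apply]
          by_cases hli : l = i
          · subst hli; simp
          · simp [hli]
        rw [h5]
        simp
      rw [h4]
      exact h3)
    (mono K (Pi.single i 1))
    (by
      intro u hu
      have h5 : u = Pi.single i 1 := by
        by_contra hne'
        apply hu
        rw [AddMonoidAlgebra.coeff_single, Finsupp.single_apply, if_neg (fun h => hne' h.symm)]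
      rw [h5]
      refine ⟨hsup, rfl, fun σ _ l _ => ?_⟩
      by_cases hli : l = i
      · subst hli; simp
      · simp [hli])
  refine ⟨f, D.mem_RR.2 ⟨hf, fun l hl => ?_⟩, hfr⟩
  obtain ⟨δ, hδ, hlδ, hneg⟩ := h2 l hl
  exact (D.mem_RR.1 (hfU (amin τ δ) ((hmem _).2 ⟨δ, hδ, ⟨l, hl, hneg⟩, rfl⟩))).2 l hlδ

end Dat

end Pool.Agent.TOR
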