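import Pool.Agent.TOR.B6a

namespace Pool.Agent.TOR

open Set

universe u

variable {R K 𝔽 : Type u} [CommRing R] [Field K] [Algebra R K] [Field 𝔽] [Algebra R 𝔽] {t : R}
  {ι Γ : Type} [Fintype ι] [DecidableEq ι] [AddCommGroup Γ] {deg : (ι → ℤ) →+ Γ} {V E : Finset ι} (D : Dat R K 𝔽 t deg V E)

namespace Dat

/-- (B5) PATH. Proof: `U` = the finite set of all `amin E p`, `p ∈ PP`; nonempty; its members are good (`hroof`); every `l ∈ E` is in a member: `p l = 0` (`hz`) is the minimum over `E`, as `p ≥ 0` on `E`. `lift` with `γ = deg u0`, `g = mono u`. Connectedness: let `w` be supported in `V`, `deg w = deg u0`;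
`q = w / c + s 1_E` satisfies `q - a ∈ mR` (`w - u0 ∈ MV`), and for `l ∈ E`: `q l < s` iff `w l < 0` (`c > 0`); `roof_conn` with `L = neg w ∩ E`, then `conn_congr` (members of `U` are subsets of `E`). -/
theorem path_lift (a : ι → ℝ) (hne : (PP (MV deg V) E a).Nonempty)
    (hz : ∀ l ∈ E, ∃ p ∈ PP (MV deg V) E a, p l = 0) (hroof : ∀ p ∈ PP (MV deg V) E a, D.Good (amin E p))
    (u0 : ι → ℤ) (hu0V : SupIn V u0) (c s : ℝ) (hc : 0 < c) (hs : 0 ≤ s)
    (hu0 : (fun l => (u0 l : ℝ) / c + (if l ∈ E then s else 0) - a l) ∈ mR (MV deg V))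
    (u : ι → ℤ) (hu : SupIn V u) (hdeg : deg u = deg u0) (hpos : ∀ l ∈ E, 0 ≤ u l) :
    ∃ f ∈ D.RR E (deg u), D.red (deg u) f = mono K u := by
  classical
  let US : Set (Finset ι) := {τ | ∃ p ∈ PP (MV deg V) E a, τ = amin E p}
  have hfin : US.Finite := Set.toFinite _
  have hcoe : (↑hfin.toFinset : Set (Finset ι)) = US := hfin.coe_toFinset
  have hmem : ∀ σ, σ ∈ hfin.toFinset ↔ ∃ p ∈ PP (MV deg V) E a, σ = amin E p := fun σ => hfin.mem_toFinset
  have hsub : ∀ p : ι → ℝ, amin E p ⊆ E := fun p l hl => (mem_amin.1 hl).1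
  obtain ⟨f, hf, hfU, hfr⟩ := D.lift hfin.toFinset (by
      obtain ⟨p, hp⟩ := hne
      exact ⟨amin E p, (hmem _).2 ⟨p, hp, rfl⟩⟩)
    (by
      intro σ hσ
      obtain ⟨p, hp, rfl⟩ := (hmem σ).1 hσ
      exact hsub p)
    (by
      intro σ hσ
      obtain ⟨p, hp, rfl⟩ := (hmem σ).1 hσ
      exact hroof p hp)
    (deg u)
    (by
      intro w hw hdw
      rw [hcoe]
      have hm0 : w - u0 ∈ MV deg V := by
        refine ⟨fun j hj => ?_, ?_⟩
        · rw [Pi.sub_apply, hw j hj, hu0V j hj, sub_zero]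
        · rw [map_sub, hdw, hdeg, sub_self]
      let q : ι → ℝ := fun l => (w l : ℝ) / c + (if l ∈ E then s else 0)
      have hq : q - a ∈ mR (MV deg V) := by
        have h3 : q - a = (fun l => (u0 l : ℝ) / c + (if l ∈ E then s else 0) - a l) +
            c⁻¹ • (fun l => (((w - u0) l : ℤ) : ℝ)) := by
          funext l
          simp only [q, Pi.sub_apply, Pi.add_apply, Pi.smul_apply, smul_eq_mul]
          push_cast
          ring
        rw [h3]
        exact Submodule.add_mem _ hu0 (Submodule.smul_mem _ _ (int_mem_mR hm0))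
      have h4 := roof_conn (MV deg V) E a q s hs hq (neg w ∩ E) (by
        intro l
        rw [Finset.mem_inter, mem_neg]
        constructor
        · rintro ⟨h5, h6⟩
          refine ⟨h6, ?_⟩
          have h7 : (w l : ℝ) / c < 0 := div_neg_of_neg_of_pos (by exact_mod_cast h5) hc
          simp only [q, if_pos h6]
          linarith
        · rintro ⟨h6, h5⟩
          refine ⟨?_, h6⟩
          simp only [q, if_pos h6] at h5
          have h7 : (w l : ℝ) / c < 0 := by linarith
          have h8 : (w l : ℝ) < 0 := by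
            by_contra h9
            exact absurd (div_nonneg (not_lt.1 h9) hc.le) (not_le.2 h7)
          exact_mod_cast h8)
      refine conn_congr _ (neg w ∩ E) (neg w) ?_ h4
      rintro τ ⟨p, hp, rfl⟩
      ext l
      simp only [Finset.mem_inter]
      constructor
      · rintro ⟨h5, h6, -⟩
        exact ⟨h5, h6⟩
      · rintro ⟨h5, h6⟩
        exact ⟨h5, h6, hsub p h5⟩)
    (mono K u)
    (by
      intro v hv
      have h5 : v = u := by
        by_contra hne'
        apply hv
        rw [AddMonoidAlgebra.coeff_single, Finsupp.single_apply, if_neg (fun h => hne' h.symm)]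
      rw [h5]
      refine ⟨hu, rfl, fun σ hσ l hl => ?_⟩
      obtain ⟨p, hp, rfl⟩ := (hmem σ).1 hσ
      exact hpos l (hsub p hl))
  refine ⟨f, D.mem_RR.2 ⟨hf, fun l hl => ?_⟩, hfr⟩
  obtain ⟨p, hp, hpl⟩ := hz l hl
  have h6 : l ∈ amin E p := mem_amin.2 ⟨hl, fun j hj => by rw [hpl]; exact hp.2 j hj⟩
  exact (D.mem_RR.1 (hfU (amin E p) ((hmem _).2 ⟨p, hp, rfl⟩))).2 l h6

end Dat

end Pool.Agent.TOR
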