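import Pool.Agent.TOR.B7a

namespace Pool.Agent.TOR

open Set

universe u

variable {R K 𝔽 : Type u} [CommRing R] [Field K] [Algebra R K] [Field 𝔽] [Algebra R 𝔽] {t : R}
  {ι Γ : Type} [AddCommGroup Γ] {deg : (ι → ℤ) →+ Γ} {V E : Finset ι} (D : Dat R K 𝔽 t deg V E)

namespace Dat

/-- NAKAYAMA. `RR τ γ` is generated over `R` by at most `#S` elements if all admissible exponents are in `S`. Proof: the set `{red γ f | f ∈ RR τ γ}` is a `K`-subspace (`base.surj`) of the span of the `mono u`, `u ∈ S` (`RR_supp`), so it has a basis `red (f 0), …, red (f (d-1))` with `d ≤ #S`.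
For `f ∈ RR τ γ`: there are `r_i` with `f - ∑ r_i f_i` reducing to zero, `= t g`, `g ∈ RR τ γ` (`RR_zero`). Iterating: `f - ∑_i (∑_{n<N} t ^ n r_{n,i}) f_i ∈ t ^ N RR`; `base.complete` gives `s_i`, and `f = ∑ s_i f_i` by `sep`. -/
theorem exists_gen (τ : Finset ι) (hτ : τ ⊆ E) (γ : Γ) (S : Finset (ι → ℤ))
    (hS : ∀ u, SupIn V u → deg u = γ → (∀ l ∈ τ, 0 ≤ u l) → u ∈ S) :
    ∃ (d : ℕ) (f : Fin d → 𝔽), d ≤ S.card ∧ ∀ g ∈ D.RR τ γ, ∃ s : Fin d → R, g = ∑ i, s i • f i := by
  classical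
  have hRT : ∀ f, f ∈ D.RR τ γ → f ∈ D.T γ := fun f hf => (D.mem_RR.1 hf).1
  let W : Submodule K (KZ K ι) :=
    { carrier := {x | ∃ f ∈ D.RR τ γ, D.red γ f = x}
      zero_mem' := ⟨0, Submodule.zero_mem _, D.red_z γ⟩
      add_mem' := by
        rintro _ _ ⟨f, hf, rfl⟩ ⟨g, hg, rfl⟩
        exact ⟨f + g, Submodule.add_mem _ hf hg, D.red_add γ f g (hRT f hf) (hRT g hg)⟩
      smul_mem' := by
        rintro c _ ⟨f, hf, rfl⟩
        obtain ⟨r, rfl⟩ := D.base.surj c
        exact ⟨r • f, Submodule.smul_mem _ _ hf, D.red_smul γ r f (hRT f hf)⟩ }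
  let Z : Submodule K (KZ K ι) := Submodule.span K ((fun u => mono K u) '' (S : Set (ι → ℤ)))
  have hWZ : W ≤ Z := by
    rintro _ ⟨f, hf, rfl⟩
    rw [← AddMonoidAlgebra.sum_coeff_single (D.red γ f), Finsupp.sum]
    refine Submodule.sum_mem _ fun u hu => ?_
    have h1 := D.RR_supp τ hτ γ f hf u (Finsupp.mem_support_iff.1 hu)
    have h2 : AddMonoidAlgebra.single u ((D.red γ f).coeff u) = ((D.red γ f).coeff u) • mono K u := by
      rw [AddMonoidAlgebra.smul_single, smul_eq_mul, mul_one]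
    rw [h2]
    exact Z.smul_mem _ (Submodule.subset_span ⟨u, hS u h1.1 h1.2.1 h1.2.2, rfl⟩)
  have hZf : ((fun u => mono K u) '' (S : Set (ι → ℤ))).Finite := S.finite_toSet.image _
  haveI : Module.Finite K Z := Module.Finite.span_of_finite K hZf
  haveI : Module.Finite K W := Submodule.finiteDimensional_of_le hWZ
  have hZc : Module.finrank K Z ≤ S.card := by
    have h1 := finrank_span_finset_le_card (R := K) (S.image fun u => mono K u)
    rw [Finset.coe_image] at h1
    exact h1.trans Finset.card_image_le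
  have hWc : Module.finrank K W ≤ S.card := (Submodule.finrank_mono hWZ).trans hZc
  let b := Module.finBasis K W
  have hb : ∀ i, ∃ f ∈ D.RR τ γ, D.red γ f = (b i : KZ K ι) := fun i => (b i).2
  choose f hf hfb using hb
  refine ⟨Module.finrank K W, f, hWc, ?_⟩
  have step : ∀ g : 𝔽, ∃ (r : Fin (Module.finrank K W) → R) (g' : 𝔽), g ∈ D.RR τ γ →
      g' ∈ D.RR τ γ ∧ g - ∑ i, r i • f i = t • g' := by
    intro g
    by_cases hg : g ∈ D.RR τ γ
    · let w : W := ⟨D.red γ g, g, hg, rfl⟩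
      choose ρ hρ using D.base.surj
      have hsum : ∑ i, ρ (b.repr w i) • f i ∈ D.RR τ γ :=
        Submodule.sum_mem _ fun i _ => Submodule.smul_mem _ _ (hf i)
      have hred : D.red γ (∑ i, ρ (b.repr w i) • f i) = D.red γ g := by
        rw [D.red_sum γ _ _ fun i _ => (D.T γ).smul_mem _ (hRT _ (hf i))]
        have h1 : (∑ i, b.repr w i • b i : W) = w := b.sum_repr w
        have h2 : ((∑ i, b.repr w i • b i : W) : KZ K ι) = D.red γ g := congrArg Subtype.val h1
        rw [← h2]
        push_cast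
        refine Finset.sum_congr rfl fun i _ => ?_
        rw [D.red_smul γ _ _ (hRT _ (hf i)), hρ, hfb]
      obtain ⟨g', hg', he⟩ := D.RR_zero τ hτ γ _ (Submodule.sub_mem _ hg hsum)
        (by rw [D.red_sub γ _ _ (hRT _ hg) (hRT _ hsum), hred, sub_self])
      exact ⟨_, g', fun _ => ⟨hg', he⟩⟩
    · exact ⟨0, 0, fun h => absurd h hg⟩
  choose r nx hnx using step
  intro g hg
  let gs : ℕ → 𝔽 := fun n => nx^[n] g
  have hgs0 : gs 0 = g := rfl
  have hgsS : ∀ n, gs (n + 1) = nx (gs n) := fun n => Function.iterate_succ_apply' nx n g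
  have hgs : ∀ n, gs n ∈ D.RR τ γ := by
    intro n
    induction n with
    | zero => exact hg
    | succ n ih => rw [hgsS]; exact (hnx _ ih).1
  have hpart : ∀ N : ℕ, g - ∑ i, (∑ n ∈ Finset.range N, t ^ n * r (gs n) i) • f i = t ^ N • gs N := by
    intro N
    induction N with
    | zero => simp [hgs0]
    | succ N ih =>
      have h1 := (hnx _ (hgs N)).2
      have h2 : ∑ i, (∑ n ∈ Finset.range (N + 1), t ^ n * r (gs n) i) • f i =
          ∑ i, (∑ n ∈ Finset.range N, t ^ n * r (gs n) i) • f i + t ^ N • ∑ i, r (gs N) i • f i := by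
        rw [Finset.smul_sum, ← Finset.sum_add_distrib]
        refine Finset.sum_congr rfl fun i _ => ?_
        rw [Finset.sum_range_succ, add_smul, smul_smul]
      rw [h2, ← sub_sub, ih, ← smul_sub, h1, smul_smul, hgsS, pow_succ]
  have hcomp : ∀ i, ∃ s : R, ∀ N : ℕ, ∃ q : R, s - ∑ n ∈ Finset.range N, t ^ n * r (gs n) i = t ^ N * q :=
    fun i => D.base.complete fun n => r (gs n) i
  choose s hs using hcomp
  refine ⟨s, ?_⟩
  rw [← sub_eq_zero]
  have hsumT : ∑ i, s i • f i ∈ D.T γ := Submodule.sum_mem _ fun i _ => (D.T γ).smul_mem _ (hRT _ (hf i))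
  refine D.sep γ _ (Submodule.sub_mem _ (hRT _ hg) hsumT) fun N => ?_
  choose q hq using fun i => hs i N
  refine ⟨gs N - ∑ i, q i • f i, Submodule.sub_mem _ (hRT _ (hgs N))
    (Submodule.sum_mem _ fun i _ => (D.T γ).smul_mem _ (hRT _ (hf i))), ?_⟩
  rw [smul_sub, ← hpart N, Finset.smul_sum, sub_sub, ← Finset.sum_add_distrib]
  congr 1
  refine Finset.sum_congr rfl fun i _ => ?_
  rw [smul_smul, ← hq i, ← add_smul, add_sub_cancel]

/-- RANK BOUND: more than `#S` elements of `RR τ γ` are dependent over `R`. Proof: `exists_gen`; the `R`-linear map `R^J → R^d` given by the coefficients is not injective since `d < #J` (strong rank condition, `card_le_of_injective`); `R` is nontrivial since it maps injectively to the field `𝔽`. -/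
theorem dep_of_card (τ : Finset ι) (hτ : τ ⊆ E) (γ : Γ) (S : Finset (ι → ℤ))
    (hS : ∀ u, SupIn V u → deg u = γ → (∀ l ∈ τ, 0 ≤ u l) → u ∈ S)
    {J : Type} [Fintype J] (x : J → 𝔽) (hx : ∀ j, x j ∈ D.RR τ γ) (hJ : S.card < Fintype.card J) :
    ∃ r : J → R, r ≠ 0 ∧ ∑ j, r j • x j = 0 := by
  classical
  haveI : Nontrivial R := ⟨t, 0, D.base.t_ne⟩
  obtain ⟨d, f, hd, hf⟩ := D.exists_gen τ hτ γ S hS
  choose s hs using fun j => hf (x j) (hx j)
  let φ : (J → R) →ₗ[R] (Fin d → R) :=
    { toFun := fun r i => ∑ j, r j * s j i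
      map_add' := by
        intro a b
        funext i
        simp only [Pi.add_apply, add_mul, Finset.sum_add_distrib]
      map_smul' := by
        intro c a
        funext i
        simp only [Pi.smul_apply, smul_eq_mul, RingHom.id_apply, Finset.mul_sum, mul_assoc] }
  have hinj : ¬ Function.Injective φ := by
    intro hinj
    have h1 := card_le_of_injective R φ hinj
    rw [Fintype.card_fin] at h1
    omega
  rw [← LinearMap.ker_eq_bot, Submodule.eq_bot_iff] at hinj
  push Not at hinj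
  obtain ⟨r, hr, hr0⟩ := hinj
  refine ⟨r, hr0, ?_⟩
  have h2 : ∀ i, ∑ j, r j * s j i = 0 := fun i => congrFun (LinearMap.mem_ker.1 hr) i
  calc ∑ j, r j • x j = ∑ j, ∑ i, (r j * s j i) • f i := by
        refine Finset.sum_congr rfl fun j _ => ?_
        conv_lhs => rw [hs j]
        rw [Finset.smul_sum]
        exact Finset.sum_congr rfl fun i _ => by rw [smul_smul]
    _ = ∑ i, (∑ j, r j * s j i) • f i := by
        rw [Finset.sum_comm]
        exact Finset.sum_congr rfl fun i _ => by rw [Finset.sum_smul]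
    _ = 0 := by simp only [h2, zero_smul, Finset.sum_const_zero]

end Dat

end Pool.Agent.TOR
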