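import Pool.Agent.TOR.B1

namespace Pool.Agent.TOR

open Set

universe u

variable {R K 𝔽 : Type u} [CommRing R] [Field K] [Algebra R K] [Field 𝔽] [Algebra R 𝔽] {t : R}
  {ι Γ : Type} [AddCommGroup Γ] {deg : (ι → ℤ) →+ Γ} {V E : Finset ι} (D : Dat R K 𝔽 t deg V E)

namespace Dat

/-- (B6) Elements with linearly independent reductions are linearly independent over `R`. Proof: if `r ≠ 0`, let `n` be the least exponent in `r j = t ^ n * s j` (`base.fact`) over the `j` with `r j ≠ 0`; then `r j = t ^ n * r' j` for all `j` with some `r' j` of nonzero image in `K`;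
`∑ r' j • x j = 0` (`tpow_inj`); reduce. -/
theorem indep_of_red {J : Type*} [Fintype J] (γ : Γ) (x : J → 𝔽) (hx : ∀ j, x j ∈ D.T γ)
    (hl : LinearIndependent K (fun j => D.red γ (x j))) (r : J → R) (h : ∑ j, r j • x j = 0) : r = 0 := by
  classical
  by_contra hr
  have hR : ∀ j, ∃ (n : ℕ) (s : R), r j ≠ 0 → r j = t ^ n * s ∧ algebraMap R K s ≠ 0 := by
    intro j
    by_cases hj : r j = 0
    · exact ⟨0, 0, fun h => absurd hj h⟩
    · obtain ⟨n, s, h1, h2⟩ := D.base.fact (r j) hj
      exact ⟨n, s, fun _ => ⟨h1, h2⟩⟩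
  choose n s hns using hR
  obtain ⟨j1, hj1⟩ := Function.ne_iff.1 hr
  have hne : (Finset.univ.filter fun j => r j ≠ 0).Nonempty := ⟨j1, Finset.mem_filter.2 ⟨Finset.mem_univ _, hj1⟩⟩
  obtain ⟨j0, hj0, hmin⟩ := Finset.exists_min_image _ n hne
  have hj0' : r j0 ≠ 0 := (Finset.mem_filter.1 hj0).2
  let r' : J → R := fun j => if r j = 0 then 0 else t ^ (n j - n j0) * s j
  have hr' : ∀ j, r j = t ^ n j0 * r' j := by
    intro j
    by_cases hj : r j = 0
    · simp only [r', if_pos hj, mul_zero, hj]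
    · simp only [r', if_neg hj]
      rw [← mul_assoc, ← pow_add, Nat.add_sub_cancel' (hmin j (Finset.mem_filter.2 ⟨Finset.mem_univ _, hj⟩))]
      exact (hns j hj).1
  have hsum : ∑ j, r' j • x j = 0 := by
    apply D.tpow_inj (n j0)
    rw [smul_zero, Finset.smul_sum, ← h]
    refine Finset.sum_congr rfl fun j _ => ?_
    rw [smul_smul, ← hr' j]
  have hred : ∑ j, algebraMap R K (r' j) • D.red γ (x j) = 0 := by
    have h1 := D.red_sum γ Finset.univ (fun j => r' j • x j) fun j _ => (D.T γ).smul_mem _ (hx j)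
    rw [hsum, D.red_z] at h1
    rw [h1]
    exact Finset.sum_congr rfl fun j _ => (D.red_smul γ _ _ (hx j)).symm
  have h0 := Fintype.linearIndependent_iff.1 hl (fun j => algebraMap R K (r' j)) hred j0
  have h2 : r' j0 = s j0 := by
    simp only [r', if_neg hj0', Nat.sub_self, pow_zero, one_mul]
  simp only [h2] at h0
  exact (hns j0 hj0').2 h0

end Dat

end Pool.Agent.TOR
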