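import Pool.Agent.TOR.B1

/-!
[TOR] block B, homogeneous fractions
-/

namespace Pool.Agent.TOR

open Set

universe u

variable {R K 𝔽 : Type u} [CommRing R] [Field K] [Algebra R K] [Field 𝔽] [Algebra R 𝔽] {t : R}
  {ι Γ : Type} [AddCommGroup Γ] {deg : (ι → ℤ) →+ Γ} {V E : Finset ι} (D : Dat R K 𝔽 t deg V E)

namespace Dat

/-- homogeneous fractions of degree `δ` -/
def Fr (τ : Finset ι) (δ : Γ) : Set 𝔽 :=
  {z | ∃ (γ : Γ) (f g : 𝔽), f ∈ D.RR τ (γ + δ) ∧ g ∈ D.RR τ γ ∧ g ≠ 0 ∧ z = f / g}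

theorem Fr_of_RR (τ : Finset ι) (hτ : τ ⊆ E) (δ : Γ) (f : 𝔽) (hf : f ∈ D.RR τ δ) : f ∈ D.Fr τ δ := by
  refine ⟨0, f, 1, by rwa [zero_add], D.RR_one τ hτ, one_ne_zero, by simp⟩

theorem Fr_zero_mem (τ : Finset ι) (hτ : τ ⊆ E) (δ : Γ) : (0 : 𝔽) ∈ D.Fr τ δ :=
  D.Fr_of_RR τ hτ δ 0 (Submodule.zero_mem _)

theorem Fr_mul (τ : Finset ι) (hτ : τ ⊆ E) (δ δ' : Γ) (z z' : 𝔽) (hz : z ∈ D.Fr τ δ) (hz' : z' ∈ D.Fr τ δ') :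
    z * z' ∈ D.Fr τ (δ + δ') := by
  obtain ⟨γ, f, g, hf, hg, hg0, rfl⟩ := hz
  obtain ⟨γ', f', g', hf', hg', hg0', rfl⟩ := hz'
  refine ⟨γ + γ', f * f', g * g', ?_, D.RR_mul τ hτ _ _ _ _ hg hg', mul_ne_zero hg0 hg0', by
    rw [div_mul_div_comm]⟩
  have := D.RR_mul τ hτ _ _ _ _ hf hf'
  rwa [show γ + δ + (γ' + δ') = γ + γ' + (δ + δ') by abel] at this

theorem Fr_add (τ : Finset ι) (hτ : τ ⊆ E) (δ : Γ) (z z' : 𝔽) (hz : z ∈ D.Fr τ δ) (hz' : z' ∈ D.Fr τ δ) :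
    z + z' ∈ D.Fr τ δ := by
  obtain ⟨γ, f, g, hf, hg, hg0, rfl⟩ := hz
  obtain ⟨γ', f', g', hf', hg', hg0', rfl⟩ := hz'
  refine ⟨γ + γ', f * g' + g * f', g * g', ?_, D.RR_mul τ hτ _ _ _ _ hg hg', mul_ne_zero hg0 hg0', by
    rw [div_add_div _ _ hg0 hg0']⟩
  refine Submodule.add_mem _ ?_ ?_
  · have := D.RR_mul τ hτ _ _ _ _ hf hg'
    rwa [show γ + δ + γ' = γ + γ' + δ by abel] at this
  · have := D.RR_mul τ hτ _ _ _ _ hg hf'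
    rwa [show γ + (γ' + δ) = γ + γ' + δ by abel] at this

theorem Fr_inv (τ : Finset ι) (hτ : τ ⊆ E) (δ : Γ) (z : 𝔽) (hz : z ∈ D.Fr τ δ) : z⁻¹ ∈ D.Fr τ (-δ) := by
  obtain ⟨γ, f, g, hf, hg, hg0, rfl⟩ := hz
  by_cases h : f = 0
  · subst h
    simp only [zero_div, inv_zero]
    exact D.Fr_zero_mem τ hτ _
  · refine ⟨γ + δ, g, f, by rwa [add_neg_cancel_right], hf, h, by rw [inv_div]⟩

theorem Fr_neg (τ : Finset ι) (hτ : τ ⊆ E) (δ : Γ) (z : 𝔽) (hz : z ∈ D.Fr τ δ) : -z ∈ D.Fr τ δ := by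
  obtain ⟨γ, f, g, hf, hg, hg0, rfl⟩ := hz
  exact ⟨γ, -f, g, Submodule.neg_mem _ hf, hg, hg0, by rw [neg_div]⟩

theorem Fr_sum (τ : Finset ι) (hτ : τ ⊆ E) (δ : Γ) {J : Type*} (s : Finset J) (z : J → 𝔽) (hz : ∀ j ∈ s, z j ∈ D.Fr τ δ) :
    ∑ j ∈ s, z j ∈ D.Fr τ δ := by
  classical
  induction s using Finset.induction_on with
  | empty => simpa using D.Fr_zero_mem τ hτ δ
  | insert a s ha ih =>
    rw [Finset.sum_insert ha]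
    exact D.Fr_add τ hτ δ _ _ (hz a (by simp)) (ih fun j hj => hz j (by simp [hj]))

/-- the field of quotients `f / g`, `f, g ∈ RR τ γ` (`γ` arbitrary) -/
def QS (τ : Finset ι) (hτ : τ ⊆ E) : Subfield 𝔽 where
  carrier := D.Fr τ 0
  zero_mem' := D.Fr_zero_mem τ hτ 0
  one_mem' := D.Fr_of_RR τ hτ 0 1 (D.RR_one τ hτ)
  mul_mem' := by
    intro a b ha hb
    have := D.Fr_mul τ hτ _ _ _ _ ha hb
    rwa [add_zero] at this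
  add_mem' := by
    intro a b ha hb
    exact D.Fr_add τ hτ _ _ _ ha hb
  neg_mem' := by
    intro a ha
    exact D.Fr_neg τ hτ _ _ ha
  inv_mem' := by
    intro a ha
    have := D.Fr_inv τ hτ _ _ ha
    rwa [neg_zero] at this

theorem mem_QS (τ : Finset ι) (hτ : τ ⊆ E) (z : 𝔽) : z ∈ D.QS τ hτ ↔
    ∃ (γ : Γ) (f g : 𝔽), f ∈ D.RR τ γ ∧ g ∈ D.RR τ γ ∧ g ≠ 0 ∧ z = f / g := by
  constructor
  · rintro ⟨γ, f, g, hf, hg, hg0, h⟩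
    exact ⟨γ, f, g, by rwa [add_zero] at hf, hg, hg0, h⟩
  · rintro ⟨γ, f, g, hf, hg, hg0, h⟩
    exact ⟨γ, f, g, by rwa [add_zero], hg, hg0, h⟩

theorem QS_iff (τ : Finset ι) (hτ : τ ⊆ E) (z : 𝔽) : z ∈ D.QS τ hτ ↔ z ∈ D.Fr τ 0 := Iff.rfl

/-- the image of `R` is in `QS` -/
theorem algebraMap_mem_QS (τ : Finset ι) (hτ : τ ⊆ E) (r : R) : algebraMap R 𝔽 r ∈ D.QS τ hτ := by
  rw [QS_iff]
  apply D.Fr_of_RR τ hτ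
  rw [Algebra.algebraMap_eq_smul_one]
  exact Submodule.smul_mem _ _ (D.RR_one τ hτ)

/-- `QS` is monotone: fewer conditions, more fractions -/
theorem QS_anti (σ τ : Finset ι) (h : σ ⊆ τ) (hτ : τ ⊆ E) : D.QS τ hτ ≤ D.QS σ (h.trans hτ) := by
  rintro z ⟨γ, f, g, hf, hg, hg0, rfl⟩
  exact ⟨γ, f, g, D.RR_anti σ τ h _ _ hf, D.RR_anti σ τ h _ _ hg, hg0, rfl⟩

end Dat

end Pool.Agent.TOR
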