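import Pool.Agent.TOR.B0

/-!
[TOR] block C, definitions: graded toric data `FD` in a field `κ`, completed toric chart `D0`.
-/

namespace Pool.Agent.TOR

open Set

universe u

/-- real version of an integral vector -/
def zv {ι : Type} (a : ι → ℤ) : ι → ℝ := fun l => (a l : ℝ)

/-- Graded toric data in a field `κ` (all indices `ι` are divisors). -/
structure FD (R K κ : Type u) [CommRing R] [Field K] [Algebra R K] [Field κ] [Algebra R κ] (t : R)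
    {ι : Type} [Fintype ι] (M : AddSubgroup (ι → ℤ)) (a : ι → ℤ) where
  H : ℕ → Submodule R κ
  th : ℕ → κ → KZ K ι
  base : BaseR R K t
  inj : Function.Injective (algebraMap R κ)
  one_mem : (1 : κ) ∈ H 0
  mul_mem : ∀ m m' f g, f ∈ H m → g ∈ H m' → f * g ∈ H (m + m')
  sep : ∀ m f, f ∈ H m → (∀ N : ℕ, ∃ g ∈ H m, f = t ^ N • g) → f = 0
  frac : ∀ x : κ, ∃ m, ∃ f ∈ H m, ∃ g ∈ H m, g ≠ 0 ∧ x = f / g
  th_one : th 0 1 = 1
  th_add : ∀ m f g, f ∈ H m → g ∈ H m → th m (f + g) = th m f + th m g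
  th_smul : ∀ m (r : R) f, f ∈ H m → th m (r • f) = algebraMap R K r • th m f
  th_mul : ∀ m m' f g, f ∈ H m → g ∈ H m' → th (m + m') (f * g) = th m f * th m' g
  th_zero : ∀ m f, f ∈ H m → th m f = 0 → ∃ g ∈ H m, f = t • g
  th_supp : ∀ m f, f ∈ H m → ∀ u, (th m f).coeff u ≠ 0 → u - m • a ∈ M ∧ ∀ l, 0 ≤ u l
  th_surj : ∀ (m : ℕ) u, u - m • a ∈ M → (∀ l, 0 ≤ u l) → ∃ f ∈ H m, th m f = mono K u
  ne : (PP M Finset.univ (zv a)).Nonempty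
  bdd : Bornology.IsBounded (PP M Finset.univ (zv a))
  zero : ∀ l, ∃ p ∈ PP M Finset.univ (zv a), p l = 0
  delzant : ∀ p ∈ PP M Finset.univ (zv a), ∀ x : ι → ℤ, ∃ m ∈ M, ∀ l, p l = 0 → m l = x l

/-- Completed toric chart: `T` the completed coordinate ring of the torus, `B l` the subring of functions regular along the divisor `l`. -/
structure D0 (R K 𝔽 : Type u) [CommRing R] [Field K] [Algebra R K] [Field 𝔽] [Algebra R 𝔽] (t : R)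
    {ι : Type} (M : AddSubgroup (ι → ℤ)) where
  T : Submodule R 𝔽
  B : ι → Submodule R 𝔽
  red : 𝔽 → KZ K ι
  base : BaseR R K t
  inj : Function.Injective (algebraMap R 𝔽)
  one_mem : (1 : 𝔽) ∈ T
  mul_mem : ∀ f g, f ∈ T → g ∈ T → f * g ∈ T
  red_one : red 1 = 1
  red_add : ∀ f g, f ∈ T → g ∈ T → red (f + g) = red f + red g
  red_smul : ∀ (r : R) f, f ∈ T → red (r • f) = algebraMap R K r • red f
  red_mul : ∀ f g, f ∈ T → g ∈ T → red (f * g) = red f * red g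
  red_supp : ∀ f, f ∈ T → ∀ u, (red f).coeff u ≠ 0 → u ∈ M
  red_surj : ∀ u ∈ M, ∃ f ∈ T, red f = mono K u
  red_zero : ∀ f, f ∈ T → red f = 0 → ∃ g ∈ T, f = t • g
  complete : ∀ g : ℕ → 𝔽, (∀ n, g n ∈ T) → ∃ f ∈ T, ∀ N : ℕ, ∃ h ∈ T,
    f - ∑ n ∈ Finset.range N, t ^ n • g n = t ^ N • h
  sep : ∀ f, f ∈ T → (∀ N : ℕ, ∃ g ∈ T, f = t ^ N • g) → f = 0
  B_le : ∀ l f, f ∈ B l → f ∈ T
  B_one : ∀ l, (1 : 𝔽) ∈ B l
  B_mul : ∀ l f g, f ∈ B l → g ∈ B l → f * g ∈ B l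
  B_sat : ∀ l f, f ∈ T → t • f ∈ B l → f ∈ B l
  B_closed : ∀ l f, f ∈ T → (∀ N : ℕ, ∃ g ∈ B l, ∃ h ∈ T, f - g = t ^ N • h) → f ∈ B l
  B_supp : ∀ l f, f ∈ B l → ∀ u, (red f).coeff u ≠ 0 → 0 ≤ u l

section

variable {R K 𝔽 : Type u} [CommRing R] [Field K] [Algebra R K] [Field 𝔽] [Algebra R 𝔽] {t : R}
  {ι : Type} {M : AddSubgroup (ι → ℤ)}

/-- elements regular along all divisors in `τ` -/
def D0.BB (D : D0 R K 𝔽 t M) (τ : Finset ι) : Submodule R 𝔽 := D.T ⊓ ⨅ l ∈ τ, D.B l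

theorem D0.mem_BB (D : D0 R K 𝔽 t M) {τ : Finset ι} {f : 𝔽} :
    f ∈ D.BB τ ↔ f ∈ D.T ∧ ∀ l ∈ τ, f ∈ D.B l := by
  simp [D0.BB, Submodule.mem_iInf]

/-- all monomials in `M` nonnegative on `τ` lift to `BB τ` -/
def D0.Good0 (D : D0 R K 𝔽 t M) (τ : Finset ι) : Prop :=
  ∀ m ∈ M, (∀ l ∈ τ, 0 ≤ m l) → ∃ f ∈ D.BB τ, D.red f = mono K m

end

/-- the vertices of the polytope (as sets of facets) -/
def Vert {ι : Type} [Fintype ι] (M : AddSubgroup (ι → ℤ)) (a : ι → ℝ) : Set (Finset ι) :=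
  {σ | σ ∈ TS M Finset.univ a ∧ ∀ δ ∈ mR M, (∀ l ∈ σ, δ l = 0) → δ = 0}

/-- the polytope is simple at integral level (Delzant) -/
def Delz {ι : Type} [Fintype ι] (M : AddSubgroup (ι → ℤ)) (a : ι → ℝ) : Prop :=
  ∀ p ∈ PP M Finset.univ a, ∀ x : ι → ℤ, ∃ m ∈ M, ∀ l, p l = 0 → m l = x l

end Pool.Agent.TOR
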