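import Pool.Agent.TOR.C1a

namespace Pool.Agent.TOR

open Set

universe u

variable {R K κ : Type u} [CommRing R] [Field K] [Algebra R K] [Field κ] [Algebra R κ] {t : R}
  {ι : Type} [Fintype ι] {M : AddSubgroup (ι → ℤ)} {a : ι → ℤ}

theorem c1_coeff (x : KZ K ι) (w v : ι → ℤ) : (x * mono K w).coeff v = x.coeff (v - w) := by
  have h := AddMonoidAlgebra.coeff_mul_single_eq_coeff_mul (x := x) (m := w) (m₁ := v) (r := (1 : K)) (v - w)
    (fun m' _ => eq_sub_iff_add_eq.symm)
  rw [h, mul_one]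

theorem c1_cancel (w : ι → ℤ) : mono K w * mono K (-w) = (1 : KZ K ι) := by
  rw [AddMonoidAlgebra.single_mul_single, add_neg_cancel, one_mul]
  rfl

/-- The reduction `f / g ↦ th f * mono (-w)`. Well defined: `f / g = f' / g'` gives `f * g' = f' * g` in `H (m + m')`, so `th f * mono w' = th f' * mono w`. Kernel: `th f = 0` gives `f = t • f'`. Image: for `v ∈ M` take a point `q > 0` of the polytope, integral multiple... (use the hypothesis `hint`: an interior lattice point `w0` of degree `k0`): `N w0 + v ≥ 0` for large `N`;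
`f` lifts `N w0 + v`, `g` lifts `N w0` (`th_surj` in degree `N k0`). -/
theorem FD.exists_r0 (F : FD R K κ t M a) (hint : ∃ (k0 : ℕ) (w0 : ι → ℤ), w0 - k0 • a ∈ M ∧ ∀ l, 1 ≤ w0 l)
    (A : Subalgebra R κ) (hA : (A : Set κ) = F.A0) :
    ∃ ρ : A →+* KZ K ι,
      (∀ (m : ℕ) (f g : κ) (w : ι → ℤ), f ∈ F.H m → g ∈ F.H m → F.th m g = mono K w →
        ∀ h : f / g ∈ A, ρ ⟨f / g, h⟩ = F.th m f * mono K (-w)) ∧
      (∀ (r : R) (x : A), ρ (r • x) = algebraMap R K r • ρ x) ∧
      (∀ x : A, ρ x = 0 → ∃ y : A, x = t • y) ∧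
      (∀ (x : A) u, (ρ x).coeff u ≠ 0 → u ∈ M) ∧
      (∀ v ∈ M, ∃ x : A, ρ x = mono K v) ∧
      (∀ x : A, (∀ N : ℕ, ∃ y : A, x = t ^ N • y) → x = 0) := by
  classical
  have hmem : ∀ x : A, ∃ (m : ℕ) (f g : κ) (w : ι → ℤ), f ∈ F.H m ∧ g ∈ F.H m ∧ F.th m g = mono K w ∧ (x : κ) = f / g := by
    intro x
    have h1 : (x : κ) ∈ (A : Set κ) := x.2
    rw [hA] at h1
    exact h1
  have hmem' : ∀ (m : ℕ) (f g : κ) (w : ι → ℤ), f ∈ F.H m → g ∈ F.H m → F.th m g = mono K w → f / g ∈ A := by
    intro m f g w hf hg hw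
    have h1 : f / g ∈ (A : Set κ) := by
      rw [hA]
      exact ⟨m, f, g, w, hf, hg, hw, rfl⟩
    exact h1
  have hwd : ∀ (m : ℕ) (f g : κ) (w : ι → ℤ) (m' : ℕ) (f' g' : κ) (w' : ι → ℤ), f ∈ F.H m → g ∈ F.H m →
      F.th m g = mono K w → f' ∈ F.H m' → g' ∈ F.H m' → F.th m' g' = mono K w' → f / g = f' / g' →
      F.th m f * mono K (-w) = F.th m' f' * mono K (-w') := by
    intro m f g w m' f' g' w' hf hg hw hf' hg' hw' he
    have hg0 := F.ne_of_mono m g w hg hw
    have hg0' := F.ne_of_mono m' g' w' hg' hw'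
    rw [div_eq_div_iff hg0 hg0'] at he
    have h1 := F.th_mul m m' f g' hf hg'
    have h2 := F.th_mul m' m f' g hf' hg
    rw [he, add_comm m m'] at h1
    rw [h2, hw, hw'] at h1
    calc F.th m f * mono K (-w) = F.th m f * mono K w' * mono K (-w') * mono K (-w) := by
          rw [mul_assoc (F.th m f), c1_cancel, mul_one]
      _ = F.th m' f' * mono K w * mono K (-w') * mono K (-w) := by rw [← h1]
      _ = F.th m' f' * mono K (-w') * (mono K w * mono K (-w)) := by ring
      _ = F.th m' f' * mono K (-w') := by rw [c1_cancel, mul_one]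
  choose mm ff gg ww hff hgg hww hxx using hmem
  let r : A → KZ K ι := fun x => F.th (mm x) (ff x) * mono K (-(ww x))
  have hr : ∀ (x : A) (m : ℕ) (f g : κ) (w : ι → ℤ), f ∈ F.H m → g ∈ F.H m → F.th m g = mono K w →
      (x : κ) = f / g → r x = F.th m f * mono K (-w) := by
    intro x m f g w hf hg hw hx
    exact hwd _ _ _ _ _ _ _ _ (hff x) (hgg x) (hww x) hf hg hw ((hxx x).symm.trans hx)
  have hrx : ∀ x : A, r x = F.th (mm x) (ff x) * mono K (-(ww x)) := fun x => rfl
  let ρ : A →+* KZ K ι :=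
    { toFun := r
      map_one' := by
        rw [hr 1 0 1 1 0 F.one_mem F.one_mem (by rw [F.th_one]; rfl) (by simp), F.th_one, neg_zero]
        rw [one_mul]
        rfl
      map_zero' := by
        rw [hr 0 0 0 1 0 (zero_mem _) F.one_mem (by rw [F.th_one]; rfl) (by simp)]
        have h1 := F.th_smul 0 0 0 (zero_mem _)
        rw [zero_smul, map_zero, zero_smul] at h1
        rw [h1, zero_mul]
      map_mul' := by
        intro x y
        rw [hr (x * y) (mm x + mm y) (ff x * ff y) (gg x * gg y) (ww x + ww y) (F.mul_mem _ _ _ _ (hff x) (hff y))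
          (F.mul_mem _ _ _ _ (hgg x) (hgg y)) (by rw [F.th_mul _ _ _ _ (hgg x) (hgg y), hww, hww,
            AddMonoidAlgebra.single_mul_single, one_mul]) (by
            show (x : κ) * (y : κ) = _
            rw [hxx x, hxx y, div_mul_div_comm])]
        rw [F.th_mul _ _ _ _ (hff x) (hff y), hrx, hrx]
        have h1 : mono K (-(ww x + ww y)) = (mono K (-(ww x)) * mono K (-(ww y)) : KZ K ι) := by
          rw [AddMonoidAlgebra.single_mul_single, one_mul, neg_add]
        rw [h1]
        ring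
      map_add' := by
        intro x y
        have hgx := F.ne_of_mono _ _ _ (hgg x) (hww x)
        have hgy := F.ne_of_mono _ _ _ (hgg y) (hww y)
        rw [hr (x + y) (mm x + mm y) (ff x * gg y + gg x * ff y) (gg x * gg y) (ww x + ww y)
          (Submodule.add_mem _ (F.mul_mem _ _ _ _ (hff x) (hgg y)) (F.mul_mem _ _ _ _ (hgg x) (hff y)))
          (F.mul_mem _ _ _ _ (hgg x) (hgg y)) (by rw [F.th_mul _ _ _ _ (hgg x) (hgg y), hww, hww,
            AddMonoidAlgebra.single_mul_single, one_mul]) (by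
            show (x : κ) + (y : κ) = _
            rw [hxx x, hxx y, div_add_div _ _ hgx hgy])]
        rw [F.th_add _ _ _ (F.mul_mem _ _ _ _ (hff x) (hgg y)) (F.mul_mem _ _ _ _ (hgg x) (hff y)),
          F.th_mul _ _ _ _ (hff x) (hgg y), F.th_mul _ _ _ _ (hgg x) (hff y), hww, hww, hrx, hrx]
        have h1 : mono K (-(ww x + ww y)) = (mono K (-(ww x)) * mono K (-(ww y)) : KZ K ι) := by
          rw [AddMonoidAlgebra.single_mul_single, one_mul, neg_add]
        rw [h1]
        calc (F.th (mm x) (ff x) * mono K (ww y) + mono K (ww x) * F.th (mm y) (ff y)) * (mono K (-(ww x)) * mono K (-(ww y)))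
            = F.th (mm x) (ff x) * mono K (-(ww x)) * (mono K (ww y) * mono K (-(ww y))) +
              F.th (mm y) (ff y) * mono K (-(ww y)) * (mono K (ww x) * mono K (-(ww x))) := by ring
          _ = _ := by rw [c1_cancel, c1_cancel, mul_one, mul_one] }
  have hρ : ∀ x, ρ x = r x := fun x => rfl
  have hzero : ∀ (x : A) (m : ℕ) (f g : κ) (w : ι → ℤ), f ∈ F.H m → g ∈ F.H m → F.th m g = mono K w →
      (x : κ) = f / g → ρ x = 0 → ∃ f' ∈ F.H m, f = t • f' := by
    intro x m f g w hf hg hw hx h0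
    rw [hρ, hr x m f g w hf hg hw hx] at h0
    refine F.th_zero m f hf ?_
    calc F.th m f = F.th m f * (mono K w * mono K (-w)) := by rw [c1_cancel, mul_one]
      _ = F.th m f * mono K (-w) * mono K w := by ring
      _ = 0 := by rw [h0, zero_mul]
  have hsm : ∀ (s : R) (x : A), ρ (s • x) = algebraMap R K s • ρ x := by
    intro s x
    rw [hρ, hρ, hr (s • x) (mm x) (s • ff x) (gg x) (ww x) (Submodule.smul_mem _ _ (hff x)) (hgg x) (hww x) (by
      show s • (x : κ) = _
      rw [hxx x, smul_div_assoc]), F.th_smul _ _ _ (hff x), hrx, smul_mul_assoc]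
  refine ⟨ρ, ?_, hsm, ?_, ?_, ?_, ?_⟩
  · intro m f g w hf hg hw h
    rw [hρ]
    exact hr ⟨f / g, h⟩ m f g w hf hg hw rfl
  · intro x h0
    obtain ⟨f', hf', he⟩ := hzero x _ _ _ _ (hff x) (hgg x) (hww x) (hxx x) h0
    refine ⟨⟨f' / gg x, hmem' _ _ _ _ hf' (hgg x) (hww x)⟩, Subtype.ext ?_⟩
    show (x : κ) = t • (f' / gg x)
    rw [hxx x, he, smul_div_assoc]
  · intro x u hu
    rw [hρ, hrx, c1_coeff] at hu
    have h1 := (F.th_supp _ _ (hff x) _ hu).1
    have h2 := (F.th_supp (mm x) (gg x) (hgg x) (ww x) (by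
      rw [hww, AddMonoidAlgebra.coeff_single, Finsupp.single_eq_same]
      exact one_ne_zero)).1
    have h3 := M.sub_mem h1 h2
    have h4 : u - -ww x - mm x • a - (ww x - mm x • a) = u := by abel
    rwa [h4] at h3
  · intro v hv
    obtain ⟨k0, w0, hw0, hpos⟩ := hint
    set N : ℕ := ∑ l, (v l).natAbs with hN
    have hvN : ∀ l, -(v l) ≤ N := by
      intro l
      have h1 : (v l).natAbs ≤ N := Finset.single_le_sum (f := fun l => (v l).natAbs) (fun _ _ => Nat.zero_le _)
        (Finset.mem_univ l)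
      omega
    obtain ⟨f, hf, hf'⟩ := F.th_surj (N * k0) (N • w0 + v) (by
      have h1 : N • w0 + v - (N * k0) • a = N • (w0 - k0 • a) + v := by
        rw [smul_sub, smul_smul]
        abel
      rw [h1]
      exact M.add_mem (M.nsmul_mem hw0 N) hv) (by
      intro l
      show 0 ≤ (N • w0) l + v l
      have h1 : (N • w0) l = N * w0 l := by simp
      rw [h1]
      have h2 := hpos l
      have h3 := hvN l
      have h4 : (0 : ℤ) ≤ N := Int.natCast_nonneg N
      nlinarith)
    obtain ⟨g, hg, hg'⟩ := F.th_surj (N * k0) (N • w0) (by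
      have h1 : N • w0 - (N * k0) • a = N • (w0 - k0 • a) := by
        rw [smul_sub, smul_smul]
      rw [h1]
      exact M.nsmul_mem hw0 N) (by
      intro l
      have h1 : (N • w0) l = N * w0 l := by simp
      rw [h1]
      have h2 := hpos l
      have h4 : (0 : ℤ) ≤ N := Int.natCast_nonneg N
      nlinarith)
    refine ⟨⟨f / g, hmem' _ _ _ _ hf hg hg'⟩, ?_⟩
    rw [hρ, hr ⟨f / g, _⟩ _ f g _ hf hg hg' rfl, hf', AddMonoidAlgebra.single_mul_single, one_mul]
    congr 1
    abel
  · intro x hx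
    have ht0 : algebraMap R κ t ≠ 0 := fun h0 => F.base.t_ne (F.inj (h0.trans (map_zero _).symm))
    have hρt : ∀ (n : ℕ) (y : A), ρ (t ^ (n + 1) • y) = 0 := by
      intro n y
      rw [hsm, map_pow, F.base.t_zero, zero_pow (by omega), zero_smul]
    have key : ∀ (N : ℕ) (f : κ), f ∈ F.H (mm x) → (∃ y : A, f / gg x = ((t ^ N • y : A) : κ)) →
        ∃ h ∈ F.H (mm x), f = t ^ N • h := by
      intro N
      induction N with
      | zero => intro f hf _; exact ⟨f, hf, by rw [pow_zero, one_smul]⟩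
      | succ N ih =>
        rintro f hf ⟨y, hy⟩
        obtain ⟨f1, hf1, he⟩ := hzero (t ^ (N + 1) • y) (mm x) f (gg x) (ww x) hf (hgg x) (hww x) hy.symm (hρt N y)
        obtain ⟨h, hh, hh'⟩ := ih f1 hf1 ⟨y, by
          have h1 : t • (f1 / gg x) = t • ((t ^ N • y : A) : κ) := by
            rw [← smul_div_assoc, ← he, hy]
            show t ^ (N + 1) • (y : κ) = t • (t ^ N • (y : κ))
            rw [smul_smul, pow_succ']
          rw [Algebra.smul_def, Algebra.smul_def] at h1
          exact mul_left_cancel₀ ht0 h1⟩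
        exact ⟨h, hh, by rw [he, hh', smul_smul, pow_succ']⟩
    have hf0 : ff x = 0 := F.sep (mm x) _ (hff x) fun N => by
      obtain ⟨y, hy⟩ := hx N
      exact key N (ff x) (hff x) ⟨y, by rw [← hy, hxx x]⟩
    apply Subtype.ext
    rw [hxx x, hf0, zero_div]
    rfl

end Pool.Agent.TOR
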