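import Pool.Agent.TOR.C0

namespace Pool.Agent.TOR

open Set

universe u

variable {R K κ : Type u} [CommRing R] [Field K] [Algebra R K] [Field κ] [Algebra R κ] {t : R}
  {ι : Type} [Fintype ι] {M : AddSubgroup (ι → ℤ)} {a : ι → ℤ}

/-- the functions on the torus chart: quotients of a section by a lift of a monomial -/
def FD.A0 (F : FD R K κ t M a) : Set κ :=
  {x | ∃ (m : ℕ) (f g : κ) (w : ι → ℤ), f ∈ F.H m ∧ g ∈ F.H m ∧ F.th m g = mono K w ∧ x = f / g}

/-- a lift of a monomial is nonzero (`th m 0 = 0` by `th_smul` with `r = 0`; `mono K w ≠ 0`) -/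
theorem FD.ne_of_mono (F : FD R K κ t M a) (m : ℕ) (g : κ) (w : ι → ℤ) (hg : g ∈ F.H m) (h : F.th m g = mono K w) : g ≠ 0 := by
  rintro rfl
  have h1 := F.th_smul m 0 0 (zero_mem _)
  rw [zero_smul, map_zero, zero_smul, h] at h1
  have h2 : (mono K w).coeff w = (0 : KZ K ι).coeff w := by rw [h1]
  simp at h2

/-- `f / g + f' / g' = (f g' + f' g) / (g g')`, products of lifts of monomials are lifts of monomials; `r • (f / g) = (r • f) / g`; `1 = 1 / 1` in `H 0`. -/
theorem FD.exists_A0 (F : FD R K κ t M a) : ∃ A : Subalgebra R κ, (A : Set κ) = F.A0 := by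
  refine ⟨
    { carrier := F.A0
      mul_mem' := ?_
      add_mem' := ?_
      algebraMap_mem' := ?_ }, rfl⟩
  · rintro _ _ ⟨m, f, g, w, hf, hg, hw, rfl⟩ ⟨m', f', g', w', hf', hg', hw', rfl⟩
    refine ⟨m + m', f * f', g * g', w + w', F.mul_mem _ _ _ _ hf hf', F.mul_mem _ _ _ _ hg hg', ?_, ?_⟩
    · rw [F.th_mul _ _ _ _ hg hg', hw, hw', AddMonoidAlgebra.single_mul_single, one_mul]
    · rw [div_mul_div_comm]
  · rintro _ _ ⟨m, f, g, w, hf, hg, hw, rfl⟩ ⟨m', f', g', w', hf', hg', hw', rfl⟩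
    have h1 := F.ne_of_mono m g w hg hw
    have h2 := F.ne_of_mono m' g' w' hg' hw'
    refine ⟨m + m', f * g' + g * f', g * g', w + w', ?_, F.mul_mem _ _ _ _ hg hg', ?_, ?_⟩
    · exact Submodule.add_mem _ (F.mul_mem _ _ _ _ hf hg') (F.mul_mem _ _ _ _ hg hf')
    · rw [F.th_mul _ _ _ _ hg hg', hw, hw', AddMonoidAlgebra.single_mul_single, one_mul]
    · rw [div_add_div _ _ h1 h2]
  · intro r
    refine ⟨0, algebraMap R κ r, 1, 0, ?_, F.one_mem, ?_, by rw [div_one]⟩
    · rw [Algebra.algebraMap_eq_smul_one]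
      exact Submodule.smul_mem _ _ F.one_mem
    · rw [F.th_one]
      rfl

end Pool.Agent.TOR
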