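import Mathlib

namespace Pool.Agent.TOR

open Set

universe u


section c2

variable {A : Type u} [CommRing A] (t : A)

/-- `t`-adic Cauchy sequences (with modulus) -/
def c2_S : Subring (ℕ → A) where
  carrier := {f | ∀ n, t ^ n ∣ f (n + 1) - f n}
  one_mem' := fun n => by simp
  zero_mem' := fun n => by simp
  mul_mem' := by
    intro f g hf hg n
    have h1 : (f * g) (n + 1) - (f * g) n = (f (n + 1) - f n) * g (n + 1) + f n * (g (n + 1) - g n) := by
      simp only [Pi.mul_apply]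
      ring
    rw [h1]
    exact dvd_add (Dvd.dvd.mul_right (hf n) _) (Dvd.dvd.mul_left (hg n) _)
  add_mem' := by
    intro f g hf hg n
    have h1 : (f + g) (n + 1) - (f + g) n = (f (n + 1) - f n) + (g (n + 1) - g n) := by
      simp only [Pi.add_apply]
      ring
    rw [h1]
    exact dvd_add (hf n) (hg n)
  neg_mem' := by
    intro f hf n
    have h1 : (-f) (n + 1) - (-f) n = -(f (n + 1) - f n) := by
      simp only [Pi.neg_apply]
      ring
    rw [h1]
    exact (dvd_neg).2 (hf n)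

/-- null sequences -/
def c2_I : Ideal (c2_S t) where
  carrier := {f | ∀ n, t ^ n ∣ (f : ℕ → A) n}
  zero_mem' := fun n => by simp
  add_mem' := fun {f g} hf hg n => dvd_add (hf n) (hg n)
  smul_mem' := fun c f hf n => Dvd.dvd.mul_left (hf n) _

theorem c2_mem_I (f : c2_S t) : f ∈ c2_I t ↔ ∀ n, t ^ n ∣ (f : ℕ → A) n := Iff.rfl

theorem c2_cauchy (f : c2_S t) (N M : ℕ) : t ^ N ∣ (f : ℕ → A) (N + M) - (f : ℕ → A) N := by
  induction M with
  | zero => simp
  | succ M ih =>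
    have h1 : (f : ℕ → A) (N + (M + 1)) - (f : ℕ → A) N =
        ((f : ℕ → A) (N + M + 1) - (f : ℕ → A) (N + M)) + ((f : ℕ → A) (N + M) - (f : ℕ → A) N) := by
      rw [← add_assoc]
      ring
    rw [h1]
    exact dvd_add ((pow_dvd_pow t (Nat.le_add_right N M)).trans (f.2 (N + M))) ih

/-- constant sequences -/
def c2_c : A →+* c2_S t where
  toFun b := ⟨fun _ => b, fun n => by simp⟩
  map_one' := rfl
  map_mul' _ _ := rfl
  map_zero' := rfl
  map_add' _ _ := rfl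

/-- the canonical map -/
def c2_i : A →+* (c2_S t ⧸ c2_I t) := (Ideal.Quotient.mk (c2_I t)).comp (c2_c t)

theorem c2_i_apply (b : A) : c2_i t b = Ideal.Quotient.mk (c2_I t) (c2_c t b) := rfl

theorem c2_dvd [IsDomain A] (ht : t ≠ 0) (f : c2_S t) (N : ℕ) :
    c2_i t t ^ N ∣ Ideal.Quotient.mk (c2_I t) f ↔ t ^ N ∣ (f : ℕ → A) N := by
  constructor
  · rintro ⟨y, hy⟩
    obtain ⟨g, rfl⟩ := Ideal.Quotient.mk_surjective y
    rw [c2_i_apply, ← map_pow, ← map_mul, Ideal.Quotient.eq, c2_mem_I] at hy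
    have h1 := hy N
    have h2 : ((f - c2_c t t ^ N * g : c2_S t) : ℕ → A) N = (f : ℕ → A) N - t ^ N * (g : ℕ → A) N := rfl
    rw [h2] at h1
    exact (dvd_sub_left (Dvd.intro _ rfl)).1 h1
  · intro h
    have h1 : ∀ M, t ^ N ∣ (f : ℕ → A) (M + N) := by
      intro M
      have := c2_cauchy t f N M
      rw [add_comm N M] at this
      have h2 := dvd_add this h
      rwa [sub_add_cancel] at h2
    choose y hy using h1
    have hyS : y ∈ c2_S t := by
      intro n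
      have h2 := f.2 (n + N)
      have h3 : n + N + 1 = (n + 1) + N := by omega
      rw [h3, hy (n + 1), hy n, ← mul_sub, pow_add, mul_comm (t ^ n) (t ^ N)] at h2
      exact (mul_dvd_mul_iff_left (pow_ne_zero N ht)).1 h2
    refine ⟨Ideal.Quotient.mk (c2_I t) ⟨y, hyS⟩, ?_⟩
    rw [c2_i_apply, ← map_pow, ← map_mul, Ideal.Quotient.eq, c2_mem_I]
    intro n
    have h2 : ((f - c2_c t t ^ N * ⟨y, hyS⟩ : c2_S t) : ℕ → A) n = (f : ℕ → A) n - t ^ N * y n := rfl
    rw [h2, ← hy n]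
    exact (dvd_sub_comm).1 (c2_cauchy t f n N)

theorem c2_zero [IsDomain A] (ht : t ≠ 0) (x : c2_S t ⧸ c2_I t) (h : ∀ N : ℕ, c2_i t t ^ N ∣ x) : x = 0 := by
  obtain ⟨f, rfl⟩ := Ideal.Quotient.mk_surjective x
  rw [Ideal.Quotient.eq_zero_iff_mem, c2_mem_I]
  exact fun n => (c2_dvd t ht f n).1 (h n)

theorem c2_reg [IsDomain A] (ht : t ≠ 0) (x : c2_S t ⧸ c2_I t) (h : c2_i t t * x = 0) : x = 0 := by
  obtain ⟨f, rfl⟩ := Ideal.Quotient.mk_surjective x
  rw [c2_i_apply, ← map_mul, Ideal.Quotient.eq_zero_iff_mem, c2_mem_I] at h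
  rw [Ideal.Quotient.eq_zero_iff_mem, c2_mem_I]
  intro n
  have h1 := h (n + 1)
  have h2 : ((c2_c t t * f : c2_S t) : ℕ → A) (n + 1) = t * (f : ℕ → A) (n + 1) := rfl
  rw [h2, pow_succ'] at h1
  have h3 := (mul_dvd_mul_iff_left ht).1 h1
  have h4 := dvd_sub h3 (f.2 n)
  rwa [sub_sub_cancel] at h4

theorem c2_reg_pow [IsDomain A] (ht : t ≠ 0) (k : ℕ) (x : c2_S t ⧸ c2_I t) (h : c2_i t t ^ k * x = 0) : x = 0 := by
  induction k with
  | zero => simpa using h
  | succ k ih =>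
    rw [pow_succ', mul_assoc] at h
    exact ih (c2_reg t ht _ h)

theorem c2_factor [IsDomain A] (ht : t ≠ 0) (x : c2_S t ⧸ c2_I t) (hx : x ≠ 0) :
    ∃ (k : ℕ) (x' : c2_S t ⧸ c2_I t), x = c2_i t t ^ k * x' ∧ ¬ c2_i t t ∣ x' := by
  classical
  have h1 : ∃ N : ℕ, ¬ c2_i t t ^ N ∣ x := by
    by_contra h
    push Not at h
    exact hx (c2_zero t ht x h)
  have h2 := Nat.find_spec h1
  obtain ⟨k, hk⟩ : ∃ k, Nat.find h1 = k + 1 := by
    rcases Nat.eq_zero_or_pos (Nat.find h1) with h0 | h0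
    · rw [h0, pow_zero] at h2
      exact absurd (one_dvd x) h2
    · exact ⟨Nat.find h1 - 1, by omega⟩
  have h3 : c2_i t t ^ k ∣ x := by
    by_contra h4
    have := Nat.find_min' h1 h4
    omega
  obtain ⟨x', hx'⟩ := h3
  refine ⟨k, x', hx', ?_⟩
  rintro ⟨z, hz⟩
  apply h2
  rw [hk, hx', hz, pow_succ, ← mul_assoc]
  exact Dvd.intro _ rfl

theorem c2_prime [IsDomain A] (ht : Prime t) (x y : c2_S t ⧸ c2_I t) (h : x * y = 0) :
    c2_i t t ∣ x ∨ c2_i t t ∣ y := by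
  obtain ⟨f, rfl⟩ := Ideal.Quotient.mk_surjective x
  obtain ⟨g, rfl⟩ := Ideal.Quotient.mk_surjective y
  rw [← map_mul, Ideal.Quotient.eq_zero_iff_mem, c2_mem_I] at h
  have h1 := h 1
  have h2 : ((f * g : c2_S t) : ℕ → A) 1 = (f : ℕ → A) 1 * (g : ℕ → A) 1 := rfl
  rw [h2, pow_one] at h1
  rcases ht.dvd_or_dvd h1 with h3 | h3
  · left
    have := (c2_dvd t ht.ne_zero f 1).2 (by rwa [pow_one])
    rwa [pow_one] at this
  · right
    have := (c2_dvd t ht.ne_zero g 1).2 (by rwa [pow_one])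
    rwa [pow_one] at this

theorem c2_domain [IsDomain A] (ht : Prime t) : IsDomain (c2_S t ⧸ c2_I t) := by
  have hnt : Nontrivial (c2_S t ⧸ c2_I t) := by
    apply Ideal.Quotient.nontrivial_iff.2
    intro h
    have h1 : (1 : c2_S t) ∈ c2_I t := by rw [h]; trivial
    have h2 := h1 1
    have h3 : ((1 : c2_S t) : ℕ → A) 1 = 1 := rfl
    rw [h3, pow_one] at h2
    exact ht.not_isUnit (isUnit_of_dvd_one h2)
  have hnz : NoZeroDivisors (c2_S t ⧸ c2_I t) := ⟨by
    intro x y hxy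
    by_contra hcon
    push Not at hcon
    obtain ⟨k, x', hx, hx'⟩ := c2_factor t ht.ne_zero x hcon.1
    obtain ⟨l, y', hy, hy'⟩ := c2_factor t ht.ne_zero y hcon.2
    rw [hx, hy] at hxy
    have h1 : c2_i t t ^ (k + l) * (x' * y') = 0 := by
      rw [← hxy, pow_add]
      ring
    rcases c2_prime t ht x' y' (c2_reg_pow t ht.ne_zero _ _ h1) with h2 | h2
    · exact hx' h2
    · exact hy' h2⟩
  exact NoZeroDivisors.to_isDomain _

end c2

/-- COMPLETION (pure commutative algebra). `C` = the `t`-adic completion of the domain `A` (`AdicCompletion (Ideal.span {t}) A`, or Cauchy sequences modulo null sequences, or the subring of compatible sequences in `∏ A / t ^ n`). `C` is a domain: `t` is a nonzerodivisor on `C` (compatible sequences; `t` is a nonzerodivisor on `A`), every nonzero `x ∈ C` is `t ^ k x'` with `x'` not divisible by `t`,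
and `C / t = A / t` is a domain. -/
theorem exists_completion (A : Type u) [CommRing A] [IsDomain A] (t : A) (ht : Prime t)
    (hsep : ∀ x : A, (∀ N : ℕ, t ^ N ∣ x) → x = 0) :
    ∃ (C : Type u) (_ : CommRing C) (_ : IsDomain C) (i : A →+* C), Function.Injective i ∧
      (∀ x : C, ∃ (b : A) (y : C), x = i b + i t * y) ∧
      (∀ (b : A) (y : C), i b = i t * y → t ∣ b) ∧
      (∀ x : C, (∀ N : ℕ, i t ^ N ∣ x) → x = 0) ∧
      (∀ g : ℕ → C, ∃ x : C, ∀ N : ℕ, i t ^ N ∣ x - ∑ n ∈ Finset.range N, i t ^ n * g n) := by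
  classical
  refine ⟨c2_S t ⧸ c2_I t, inferInstance, c2_domain t ht, c2_i t, ?_, ?_, ?_, ?_, ?_⟩
  · rw [injective_iff_map_eq_zero]
    intro b hb
    rw [c2_i_apply, Ideal.Quotient.eq_zero_iff_mem, c2_mem_I] at hb
    exact hsep b hb
  · intro x
    obtain ⟨f, rfl⟩ := Ideal.Quotient.mk_surjective x
    have h1 : c2_i t t ^ 1 ∣ Ideal.Quotient.mk (c2_I t) (f - c2_c t ((f : ℕ → A) 1)) := by
      rw [c2_dvd t ht.ne_zero]
      have h2 : ((f - c2_c t ((f : ℕ → A) 1) : c2_S t) : ℕ → A) 1 = (f : ℕ → A) 1 - (f : ℕ → A) 1 := rfl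
      rw [h2, sub_self]
      exact dvd_zero _
    obtain ⟨y, hy⟩ := h1
    refine ⟨(f : ℕ → A) 1, y, ?_⟩
    rw [pow_one, map_sub] at hy
    rw [← hy, c2_i_apply]
    ring
  · intro b y hy
    have h1 : c2_i t t ^ 1 ∣ Ideal.Quotient.mk (c2_I t) (c2_c t b) := ⟨y, by rw [pow_one, ← hy]; rfl⟩
    have h2 := (c2_dvd t ht.ne_zero _ 1).1 h1
    rwa [pow_one] at h2
  · exact fun x h => c2_zero t ht.ne_zero x h
  · intro g
    choose G hG using fun n => Ideal.Quotient.mk_surjective (g n)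
    have hS : (fun N => ∑ n ∈ Finset.range N, t ^ n * (G n : ℕ → A) N) ∈ c2_S t := by
      intro N
      have h1 : (∑ n ∈ Finset.range (N + 1), t ^ n * (G n : ℕ → A) (N + 1)) - ∑ n ∈ Finset.range N, t ^ n * (G n : ℕ → A) N =
          (∑ n ∈ Finset.range N, t ^ n * ((G n : ℕ → A) (N + 1) - (G n : ℕ → A) N)) + t ^ N * (G N : ℕ → A) (N + 1) := by
        rw [Finset.sum_range_succ]
        simp only [mul_sub, Finset.sum_sub_distrib]
        ring
      show t ^ N ∣ (∑ n ∈ Finset.range (N + 1), t ^ n * (G n : ℕ → A) (N + 1)) - ∑ n ∈ Finset.range N, t ^ n * (G n : ℕ → A) N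
      rw [h1]
      exact dvd_add (Finset.dvd_sum fun n _ => Dvd.dvd.mul_left ((G n).2 N) _) (Dvd.intro _ rfl)
    refine ⟨Ideal.Quotient.mk (c2_I t) ⟨_, hS⟩, fun N => ?_⟩
    have h2 : Ideal.Quotient.mk (c2_I t) ⟨_, hS⟩ - ∑ n ∈ Finset.range N, c2_i t t ^ n * g n =
        Ideal.Quotient.mk (c2_I t) (⟨_, hS⟩ - ∑ n ∈ Finset.range N, c2_c t t ^ n * G n) := by
      rw [map_sub, map_sum]
      congr 1
      exact Finset.sum_congr rfl fun n _ => by rw [map_mul, map_pow, hG]; rfl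
    rw [h2, c2_dvd t ht.ne_zero]
    have h3 : ((⟨_, hS⟩ - ∑ n ∈ Finset.range N, c2_c t t ^ n * G n : c2_S t) : ℕ → A) N =
        (∑ n ∈ Finset.range N, t ^ n * (G n : ℕ → A) N) - ∑ n ∈ Finset.range N, t ^ n * (G n : ℕ → A) N := by
      rw [AddSubgroupClass.coe_sub, AddSubmonoidClass.coe_finsetSum, Pi.sub_apply, Finset.sum_apply]
      rfl
    rw [h3, sub_self]
    exact dvd_zero _

end Pool.Agent.TOR
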