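import Pool.Agent.TOR.C3a

namespace Pool.Agent.TOR

open Set

universe u

variable {R K κ : Type u} [CommRing R] [Field K] [Algebra R K] [Field κ] [Algebra R κ] {t : R}
  {ι : Type} [Fintype ι] {M : AddSubgroup (ι → ℤ)} {a : ι → ℤ}


/-- quotients by lifts of monomials without zero or pole along `l` -/
def c3_B0 (F : FD R K κ t M a) (𝔽 : Type u) [Field 𝔽] [Algebra R 𝔽] (j : κ →ₐ[R] 𝔽) (l : ι) : Set 𝔽 :=
  {x | ∃ (m : ℕ) (f g : κ) (w : ι → ℤ), f ∈ F.H m ∧ g ∈ F.H m ∧ F.th m g = mono K w ∧ w l = 0 ∧ x = j (f / g)}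

theorem c3_one (F : FD R K κ t M a) : F.th 0 1 = mono K (0 : ι → ℤ) := by
  rw [F.th_one]
  rfl

theorem c3_B0_zero (F : FD R K κ t M a) (𝔽 : Type u) [Field 𝔽] [Algebra R 𝔽] (j : κ →ₐ[R] 𝔽) (l : ι) :
    (0 : 𝔽) ∈ c3_B0 F 𝔽 j l :=
  ⟨0, 0, 1, 0, Submodule.zero_mem _, F.one_mem, c3_one F, rfl, by simp⟩

theorem c3_B0_one (F : FD R K κ t M a) (𝔽 : Type u) [Field 𝔽] [Algebra R 𝔽] (j : κ →ₐ[R] 𝔽) (l : ι) :
    (1 : 𝔽) ∈ c3_B0 F 𝔽 j l :=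
  ⟨0, 1, 1, 0, F.one_mem, F.one_mem, c3_one F, rfl, by simp⟩

theorem c3_B0_smul (F : FD R K κ t M a) (𝔽 : Type u) [Field 𝔽] [Algebra R 𝔽] (j : κ →ₐ[R] 𝔽) (l : ι) (r : R) (x : 𝔽)
    (hx : x ∈ c3_B0 F 𝔽 j l) : r • x ∈ c3_B0 F 𝔽 j l := by
  obtain ⟨m, f, g, w, hf, hg, hth, hw, rfl⟩ := hx
  refine ⟨m, r • f, g, w, Submodule.smul_mem _ _ hf, hg, hth, hw, ?_⟩
  rw [← map_smul]
  congr 1
  rw [Algebra.smul_def, Algebra.smul_def, mul_div_assoc]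

theorem c3_mono_mul (w w' : ι → ℤ) : mono K w * mono K w' = mono K (w + w') := by
  rw [AddMonoidAlgebra.single_mul_single, mul_one]

theorem c3_B0_add (F : FD R K κ t M a) (𝔽 : Type u) [Field 𝔽] [Algebra R 𝔽] (j : κ →ₐ[R] 𝔽) (l : ι) (x x' : 𝔽)
    (hx : x ∈ c3_B0 F 𝔽 j l) (hx' : x' ∈ c3_B0 F 𝔽 j l) : x + x' ∈ c3_B0 F 𝔽 j l := by
  obtain ⟨m, f, g, w, hf, hg, hth, hw, rfl⟩ := hx
  obtain ⟨m', f', g', w', hf', hg', hth', hw', rfl⟩ := hx'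
  have h0 := F.ne_of_mono m g w hg hth
  have h0' := F.ne_of_mono m' g' w' hg' hth'
  refine ⟨m + m', f * g' + g * f', g * g', w + w', Submodule.add_mem _ (F.mul_mem _ _ _ _ hf hg') (F.mul_mem _ _ _ _ hg hf'),
    F.mul_mem _ _ _ _ hg hg', ?_, by simp [hw, hw'], ?_⟩
  · rw [F.th_mul _ _ _ _ hg hg', hth, hth', c3_mono_mul]
  · rw [← map_add, div_add_div _ _ h0 h0']

theorem c3_B0_mul (F : FD R K κ t M a) (𝔽 : Type u) [Field 𝔽] [Algebra R 𝔽] (j : κ →ₐ[R] 𝔽) (l : ι) (x x' : 𝔽)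
    (hx : x ∈ c3_B0 F 𝔽 j l) (hx' : x' ∈ c3_B0 F 𝔽 j l) : x * x' ∈ c3_B0 F 𝔽 j l := by
  obtain ⟨m, f, g, w, hf, hg, hth, hw, rfl⟩ := hx
  obtain ⟨m', f', g', w', hf', hg', hth', hw', rfl⟩ := hx'
  refine ⟨m + m', f * f', g * g', w + w', F.mul_mem _ _ _ _ hf hf', F.mul_mem _ _ _ _ hg hg', ?_, by simp [hw, hw'], ?_⟩
  · rw [F.th_mul _ _ _ _ hg hg', hth, hth', c3_mono_mul]
  · rw [← map_mul, div_mul_div_comm]

theorem c3_B0_T (F : FD R K κ t M a) (𝔽 : Type u) [Field 𝔽] [Algebra R 𝔽] (j : κ →ₐ[R] 𝔽) (C : CT F 𝔽 j) (l : ι) (x : 𝔽)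
    (hx : x ∈ c3_B0 F 𝔽 j l) : x ∈ C.T := by
  obtain ⟨m, f, g, w, hf, hg, hth, hw, rfl⟩ := hx
  exact (C.chart m f g w hf hg hth).1

/-- the subring `B l` -/
def c3_B (F : FD R K κ t M a) (𝔽 : Type u) [Field 𝔽] [Algebra R 𝔽] (j : κ →ₐ[R] 𝔽) (C : CT F 𝔽 j) (l : ι) : Submodule R 𝔽 where
  carrier := {y | y ∈ C.T ∧ ∀ N : ℕ, ∃ x ∈ c3_B0 F 𝔽 j l, ∃ h ∈ C.T, y - x = t ^ N • h}
  zero_mem' := ⟨Submodule.zero_mem _, fun N => ⟨0, c3_B0_zero F 𝔽 j l, 0, Submodule.zero_mem _, by simp⟩⟩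
  add_mem' := by
    rintro y y' ⟨hy, h⟩ ⟨hy', h'⟩
    refine ⟨Submodule.add_mem _ hy hy', fun N => ?_⟩
    obtain ⟨x, hx, z, hz, hxz⟩ := h N
    obtain ⟨x', hx', z', hz', hxz'⟩ := h' N
    refine ⟨x + x', c3_B0_add F 𝔽 j l _ _ hx hx', z + z', Submodule.add_mem _ hz hz', ?_⟩
    rw [smul_add, ← hxz, ← hxz']
    ring
  smul_mem' := by
    rintro r y ⟨hy, h⟩
    refine ⟨Submodule.smul_mem _ _ hy, fun N => ?_⟩
    obtain ⟨x, hx, z, hz, hxz⟩ := h N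
    refine ⟨r • x, c3_B0_smul F 𝔽 j l r _ hx, r • z, Submodule.smul_mem _ _ hz, ?_⟩
    rw [← smul_sub, hxz, smul_comm]

theorem c3_mem_B (F : FD R K κ t M a) (𝔽 : Type u) [Field 𝔽] [Algebra R 𝔽] (j : κ →ₐ[R] 𝔽) (C : CT F 𝔽 j) (l : ι) (y : 𝔽) :
    y ∈ c3_B F 𝔽 j C l ↔ y ∈ C.T ∧ ∀ N : ℕ, ∃ x ∈ c3_B0 F 𝔽 j l, ∃ h ∈ C.T, y - x = t ^ N • h := Iff.rfl

theorem c3_of_B0 (F : FD R K κ t M a) (𝔽 : Type u) [Field 𝔽] [Algebra R 𝔽] (j : κ →ₐ[R] 𝔽) (C : CT F 𝔽 j) (l : ι) (x : 𝔽)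
    (hx : x ∈ c3_B0 F 𝔽 j l) : x ∈ c3_B F 𝔽 j C l :=
  ⟨c3_B0_T F 𝔽 j C l x hx, fun N => ⟨x, hx, 0, Submodule.zero_mem _, by simp⟩⟩

/-- reduction of a decomposition `y = x + t ^ (N + 1) • h` -/
theorem c3_red (F : FD R K κ t M a) (𝔽 : Type u) [Field 𝔽] [Algebra R 𝔽] (j : κ →ₐ[R] 𝔽) (C : CT F 𝔽 j) (x y h : 𝔽)
    (hx : x ∈ C.T) (hh : h ∈ C.T) (N : ℕ) (e : y - x = t ^ (N + 1) • h) : C.red y = C.red x := by
  have h1 : y = x + t ^ (N + 1) • h := by rw [← e]; ring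
  rw [h1, C.red_add _ _ hx (Submodule.smul_mem _ _ hh), C.red_smul _ _ hh, map_pow, F.base.t_zero]
  simp

/-- The subrings. `B l` = the closure of the set `B⁰ l` of all `j (f / g)`, `f, g ∈ H m`, `th g = mono w` with `w l = 0`: `B l = {y ∈ T | ∀ N, ∃ x ∈ B⁰ l, ∃ h ∈ T, y - x = t ^ N • h}`. Saturation: if `y ∈ T`, `t • y ∈ B l`, then for every `N`: `t • y = j (f / g) + t ^ (N + 1) • h`; reducing, `th f * mono (-w) = 0`, so `th f = 0`, `f = t • f'`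
(`th_zero`) and `y = j (f' / g) + t ^ N • h`. Support: for `y ∈ B l` take `N = 1`: `red y = th f * mono (-w)`, exponents `u - w` with `u l ≥ 0`, `w l = 0`. Sums and products as in `exists_A0`. -/
theorem exists_D0 (F : FD R K κ t M a) (𝔽 : Type u) [Field 𝔽] [Algebra R 𝔽] (j : κ →ₐ[R] 𝔽) (C : CT F 𝔽 j) :
    ∃ D : D0 R K 𝔽 t M, D.T = C.T ∧ D.red = C.red ∧
      ∀ (l : ι) (m : ℕ) (f g : κ) (w : ι → ℤ), f ∈ F.H m → g ∈ F.H m → F.th m g = mono K w → w l = 0 →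
        j (f / g) ∈ D.B l := by
  have hinj : Function.Injective (algebraMap R 𝔽) := by
    intro r r' h
    rw [← j.commutes, ← j.commutes] at h
    exact F.inj (j.toRingHom.injective h)
  have ht : algebraMap R 𝔽 t ≠ 0 := fun h0 => F.base.t_ne (hinj (by rw [h0, map_zero]))
  refine ⟨{
    T := C.T
    B := c3_B F 𝔽 j C
    red := C.red
    base := F.base
    inj := hinj
    one_mem := C.one_mem
    mul_mem := C.mul_mem
    red_one := C.red_one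
    red_add := C.red_add
    red_smul := C.red_smul
    red_mul := C.red_mul
    red_supp := C.red_supp
    red_surj := C.red_surj
    red_zero := C.red_zero
    complete := C.complete
    sep := C.sep
    B_le := fun l f hf => hf.1
    B_one := fun l => c3_of_B0 F 𝔽 j C l 1 (c3_B0_one F 𝔽 j l)
    B_mul := ?_
    B_sat := ?_
    B_closed := ?_
    B_supp := ?_ }, rfl, rfl, ?_⟩
  · rintro l y y' ⟨hy, h⟩ ⟨hy', h'⟩
    refine ⟨C.mul_mem _ _ hy hy', fun N => ?_⟩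
    obtain ⟨x, hx, z, hz, hxz⟩ := h N
    obtain ⟨x', hx', z', hz', hxz'⟩ := h' N
    refine ⟨x * x', c3_B0_mul F 𝔽 j l _ _ hx hx', z * y' + x * z', Submodule.add_mem _ (C.mul_mem _ _ hz hy')
      (C.mul_mem _ _ (c3_B0_T F 𝔽 j C l x hx) hz'), ?_⟩
    rw [Algebra.smul_def] at hxz hxz' ⊢
    linear_combination y' * hxz + x * hxz'
  · rintro l y hy ⟨-, h⟩
    refine ⟨hy, fun N => ?_⟩
    obtain ⟨x, hx, z, hz, hxz⟩ := h (N + 1)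
    have hxT := c3_B0_T F 𝔽 j C l x hx
    have h1 := c3_red F 𝔽 j C x (t • y) z hxT hz N hxz
    rw [C.red_smul _ _ hy, F.base.t_zero, zero_smul] at h1
    obtain ⟨m, f, g, w, hf, hg, hth, hw, rfl⟩ := hx
    rw [(C.chart m f g w hf hg hth).2] at h1
    have h2 : F.th m f = 0 := by
      have h3 := congrArg (fun z => z * mono K w) h1
      simp only [zero_mul, mul_assoc, c3_mono_mul, neg_add_cancel] at h3
      have h4 : mono K (0 : ι → ℤ) = 1 := rfl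
      rw [h4, mul_one] at h3
      exact h3.symm
    obtain ⟨f', hf', rfl⟩ := F.th_zero m f hf h2
    refine ⟨j (f' / g), ⟨m, f', g, w, hf', hg, hth, hw, rfl⟩, z, hz, ?_⟩
    have h5 : j (t • f' / g) = t • j (f' / g) := by
      rw [← map_smul]
      congr 1
      rw [Algebra.smul_def, Algebra.smul_def, mul_div_assoc]
    rw [h5, ← smul_sub, pow_succ', mul_smul, Algebra.smul_def, Algebra.smul_def t] at hxz
    exact mul_left_cancel₀ ht hxz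
  · rintro l f hf h
    refine ⟨hf, fun N => ?_⟩
    obtain ⟨g, hg, z, hz, hgz⟩ := h N
    obtain ⟨x, hx, z', hz', hxz'⟩ := hg.2 N
    refine ⟨x, hx, z + z', Submodule.add_mem _ hz hz', ?_⟩
    rw [smul_add, ← hgz, ← hxz']
    ring
  · rintro l y ⟨hy, h⟩ u hu
    obtain ⟨x, hx, z, hz, hxz⟩ := h 1
    rw [c3_red F 𝔽 j C x y z (c3_B0_T F 𝔽 j C l x hx) hz 0 hxz] at hu
    obtain ⟨m, f, g, w, hf, hg, hth, hw, rfl⟩ := hx
    rw [(C.chart m f g w hf hg hth).2, AddMonoidAlgebra.coeff_mul_single_apply, mul_one, neg_neg] at hu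
    have h1 := (F.th_supp m f hf _ hu).2 l
    simpa [hw] using h1
  · intro l m f g w hf hg hth hw
    exact c3_of_B0 F 𝔽 j C l _ ⟨m, f, g, w, hf, hg, hth, hw, rfl⟩

end Pool.Agent.TOR
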