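import Pool.Agent.TOR.C1
import Pool.Agent.TOR.C2

namespace Pool.Agent.TOR

open Set

universe u

variable {R K κ : Type u} [CommRing R] [Field K] [Algebra R K] [Field κ] [Algebra R κ] {t : R}
  {ι : Type} [Fintype ι] {M : AddSubgroup (ι → ℤ)} {a : ι → ℤ}

/-- the completed torus chart of `F` inside a field `𝔽` containing `κ` -/
structure CT (F : FD R K κ t M a) (𝔽 : Type u) [Field 𝔽] [Algebra R 𝔽] (j : κ →ₐ[R] 𝔽) where
  T : Submodule R 𝔽
  red : 𝔽 → KZ K ι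
  one_mem : (1 : 𝔽) ∈ T
  mul_mem : ∀ f g, f ∈ T → g ∈ T → f * g ∈ T
  red_one : red 1 = 1
  red_add : ∀ f g, f ∈ T → g ∈ T → red (f + g) = red f + red g
  red_smul : ∀ (r : R) f, f ∈ T → red (r • f) = algebraMap R K r • red f
  red_mul : ∀ f g, f ∈ T → g ∈ T → red (f * g) = red f * red g
  red_supp : ∀ f, f ∈ T → ∀ u, (red f).coeff u ≠ 0 → u ∈ M
  red_surj : ∀ u ∈ M, ∃ f ∈ T, red f = mono K u
  red_zero : ∀ f, f ∈ T → red f = 0 → ∃ g ∈ T, f = t • g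
  complete : ∀ g : ℕ → 𝔽, (∀ n, g n ∈ T) → ∃ f ∈ T, ∀ N : ℕ, ∃ h ∈ T,
    f - ∑ n ∈ Finset.range N, t ^ n • g n = t ^ N • h
  sep : ∀ f, f ∈ T → (∀ N : ℕ, ∃ g ∈ T, f = t ^ N • g) → f = 0
  chart : ∀ (m : ℕ) (f g : κ) (w : ι → ℤ), f ∈ F.H m → g ∈ F.H m → F.th m g = mono K w →
    j (f / g) ∈ T ∧ red (j (f / g)) = F.th m f * mono K (-w)
  dense : ∀ y ∈ T, ∃ x ∈ F.A0, ∃ h ∈ T, y - j x = t • h


theorem c3a_frac (F : FD R K κ t M a) (hmon : ∀ m : ℕ, ∃ w : ι → ℤ, w - m • a ∈ M ∧ ∀ l, 0 ≤ w l)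
    (A : Subalgebra R κ) (hA : (A : Set κ) = F.A0) : IsFractionRing A κ := by
  have hmem : ∀ x, x ∈ F.A0 → x ∈ A := fun x hx => by rw [← hA] at hx; exact hx
  refine IsFractionRing.of_field A κ fun x => ?_
  obtain ⟨m, f, hf, g, hg, hg0, rfl⟩ := F.frac x
  obtain ⟨w, hw, hw0⟩ := hmon m
  obtain ⟨h, hh, hth⟩ := F.th_surj m w hw hw0
  have hh0 : h ≠ 0 := F.ne_of_mono m h w hh hth
  refine ⟨⟨f / h, hmem _ ⟨m, f, h, w, hf, hh, hth, rfl⟩⟩, ⟨g / h, hmem _ ⟨m, g, h, w, hg, hh, hth, rfl⟩⟩, ?_⟩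
  show f / g = (f / h) / (g / h)
  rw [div_div_div_cancel_right₀ hh0]

theorem c3a_main (F : FD R K κ t M a) (hmon : ∀ m : ℕ, ∃ w : ι → ℤ, w - m • a ∈ M ∧ ∀ l, 0 ≤ w l)
    (A : Subalgebra R κ) (hA : (A : Set κ) = F.A0) (ρ : A →+* KZ K ι)
    (hρ1 : ∀ (m : ℕ) (f g : κ) (w : ι → ℤ), f ∈ F.H m → g ∈ F.H m → F.th m g = mono K w →
        ∀ h : f / g ∈ A, ρ ⟨f / g, h⟩ = F.th m f * mono K (-w))
    (hρ2 : ∀ (r : R) (x : A), ρ (r • x) = algebraMap R K r • ρ x)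
    (hρ3 : ∀ x : A, ρ x = 0 → ∃ y : A, x = t • y)
    (hρ4 : ∀ (x : A) u, (ρ x).coeff u ≠ 0 → u ∈ M)
    (hρ5 : ∀ v ∈ M, ∃ x : A, ρ x = mono K v)
    (C : Type u) [CommRing C] [IsDomain C] (i : A →+* C) (hi0 : Function.Injective i)
    (hi1 : ∀ x : C, ∃ (b : A) (y : C), x = i b + i (algebraMap R A t) * y)
    (hi2 : ∀ (b : A) (y : C), i b = i (algebraMap R A t) * y → algebraMap R A t ∣ b)
    (hi3 : ∀ x : C, (∀ N : ℕ, i (algebraMap R A t) ^ N ∣ x) → x = 0)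
    (hi4 : ∀ g : ℕ → C, ∃ x : C, ∀ N : ℕ, i (algebraMap R A t) ^ N ∣ x - ∑ n ∈ Finset.range N, i (algebraMap R A t) ^ n * g n)
    (𝔽 : Type u) [Field 𝔽] [Algebra R 𝔽] (φ : C →+* 𝔽) (hφ : Function.Injective φ)
    (hR : ∀ r, algebraMap R 𝔽 r = φ (i (algebraMap R A r))) :
    ∃ j : κ →ₐ[R] 𝔽, Nonempty (CT F 𝔽 j) := by
  classical
  have hmem : ∀ x, x ∈ F.A0 → x ∈ A := fun x hx => by rw [← hA] at hx; exact hx
  haveI := c3a_frac F hmon A hA
  have hinj : Function.Injective (φ.comp i) := hφ.comp hi0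
  have hj : ∀ x : A, IsFractionRing.lift (K := κ) hinj (x : κ) = φ (i x) := fun x =>
    IsFractionRing.lift_algebraMap (K := κ) hinj x
  -- the map
  let j : κ →ₐ[R] 𝔽 :=
    { IsFractionRing.lift (K := κ) hinj with
      commutes' := fun r => by
        show IsFractionRing.lift (K := κ) hinj (algebraMap R κ r) = algebraMap R 𝔽 r
        rw [hR, ← hj]
        rfl }
  have hjA : ∀ x : A, j (x : κ) = φ (i x) := hj
  -- the reduction on `C`
  choose b y hby using hi1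
  have hρt : ∀ z : A, algebraMap R A t ∣ z → ρ z = 0 := by
    rintro z ⟨z', rfl⟩
    rw [← Algebra.smul_def, hρ2, F.base.t_zero, zero_smul]
  have hkey : ∀ (c : C) (b' : A) (y' : C), c = i b' + i (algebraMap R A t) * y' → ρ (b c) = ρ b' := by
    intro c b' y' h
    have h1 : i (b c - b') = i (algebraMap R A t) * (y' - y c) := by
      have h2 := hby c
      rw [map_sub]
      linear_combination h - h2
    have h3 := hρt _ (hi2 _ _ h1)
    rw [map_sub] at h3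
    exact sub_eq_zero.1 h3
  have hb0 : ∀ x : A, ρ (b (i x)) = ρ x := fun x => hkey _ x 0 (by rw [mul_zero, add_zero])
  have hbadd : ∀ c d, ρ (b (c + d)) = ρ (b c) + ρ (b d) := by
    intro c d
    rw [← map_add]
    refine hkey _ _ (y c + y d) ?_
    have h1 := hby c
    have h2 := hby d
    rw [map_add]
    linear_combination h1 + h2
  have hbmul : ∀ c d, ρ (b (c * d)) = ρ (b c) * ρ (b d) := by
    intro c d
    rw [← map_mul]
    refine hkey _ _ (y c * d + i (b c) * y d) ?_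
    have h1 := hby c
    have h2 := hby d
    rw [map_mul]
    linear_combination d * h1 + i (b c) * h2
  let red : 𝔽 → KZ K ι := fun z => if h : ∃ c, φ c = z then ρ (b h.choose) else 0
  have hred : ∀ c, red (φ c) = ρ (b c) := by
    intro c
    have h : ∃ c', φ c' = φ c := ⟨c, rfl⟩
    have h1 : red (φ c) = ρ (b h.choose) := dif_pos h
    rw [h1, hφ h.choose_spec]
  let T : Submodule R 𝔽 :=
    { carrier := range φ
      add_mem' := by
        rintro _ _ ⟨c, rfl⟩ ⟨d, rfl⟩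
        exact ⟨c + d, map_add φ c d⟩
      zero_mem' := ⟨0, map_zero φ⟩
      smul_mem' := by
        rintro r _ ⟨c, rfl⟩
        exact ⟨i (algebraMap R A r) * c, by rw [map_mul, ← hR, Algebra.smul_def]⟩ }
  have hT : ∀ z, z ∈ T ↔ ∃ c, φ c = z := fun z => Iff.rfl
  have hsm : ∀ (r : R) (c : C), r • φ c = φ (i (algebraMap R A r) * c) := fun r c => by
    rw [map_mul, ← hR, Algebra.smul_def]
  have hsmt : ∀ (n : ℕ) (c : C), t ^ n • φ c = φ (i (algebraMap R A t) ^ n * c) := fun n c => by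
    rw [hsm, map_pow, map_pow]
  refine ⟨j, ⟨{
    T := T
    red := red
    one_mem := ⟨1, map_one φ⟩
    mul_mem := ?_
    red_one := ?_
    red_add := ?_
    red_smul := ?_
    red_mul := ?_
    red_supp := ?_
    red_surj := ?_
    red_zero := ?_
    complete := ?_
    sep := ?_
    chart := ?_
    dense := ?_ }⟩⟩
  · rintro _ _ ⟨c, rfl⟩ ⟨d, rfl⟩
    exact ⟨c * d, map_mul φ c d⟩
  · rw [← map_one φ, hred, ← map_one i, hb0, map_one]
  · rintro _ _ ⟨c, rfl⟩ ⟨d, rfl⟩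
    rw [← map_add, hred, hred, hred, hbadd]
  · rintro r _ ⟨c, rfl⟩
    rw [hsm, hred, hred, hbmul, hb0, Algebra.algebraMap_eq_smul_one, hρ2, map_one, smul_one_mul]
  · rintro _ _ ⟨c, rfl⟩ ⟨d, rfl⟩
    rw [← map_mul, hred, hred, hred, hbmul]
  · rintro _ ⟨c, rfl⟩ u hu
    rw [hred] at hu
    exact hρ4 _ u hu
  · intro u hu
    obtain ⟨x, hx⟩ := hρ5 u hu
    exact ⟨φ (i x), ⟨i x, rfl⟩, by rw [hred, hb0, hx]⟩
  · rintro _ ⟨c, rfl⟩ h
    rw [hred] at h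
    obtain ⟨b', hb'⟩ := hρ3 _ h
    refine ⟨φ (i b' + y c), ⟨_, rfl⟩, ?_⟩
    rw [hsm]
    congr 1
    have h1 := hby c
    rw [hb', Algebra.smul_def, map_mul] at h1
    rw [mul_add]
    exact h1
  · intro g hg
    choose c hc using hg
    obtain ⟨x, hx⟩ := hi4 c
    refine ⟨φ x, ⟨x, rfl⟩, fun N => ?_⟩
    obtain ⟨z, hz⟩ := hx N
    refine ⟨φ z, ⟨z, rfl⟩, ?_⟩
    rw [hsmt, ← hz, map_sub, map_sum]
    congr 1
    exact Finset.sum_congr rfl fun n _ => by rw [← hc n, hsmt]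
  · rintro _ ⟨c, rfl⟩ h
    have h1 : c = 0 := by
      refine hi3 c fun N => ?_
      obtain ⟨_, ⟨d, rfl⟩, hd⟩ := h N
      rw [hsmt] at hd
      exact ⟨d, hφ hd⟩
    rw [h1, map_zero]
  · intro m f g w hf hg hth
    have h1 : f / g ∈ A := hmem _ ⟨m, f, g, w, hf, hg, hth, rfl⟩
    have h2 : j (f / g) = φ (i ⟨f / g, h1⟩) := hjA ⟨f / g, h1⟩
    rw [h2]
    refine ⟨⟨_, rfl⟩, ?_⟩
    rw [hred, hb0, hρ1 m f g w hf hg hth h1]
  · rintro _ ⟨c, rfl⟩
    refine ⟨(b c : κ), ?_, φ (y c), ⟨_, rfl⟩, ?_⟩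
    · rw [← hA]
      exact (b c).2
    · rw [hjA, hsm, sub_eq_iff_eq_add, ← map_add, add_comm]
      exact congrArg φ (hby c)

/-- Proof. `A` the subalgebra of `exists_A0`, `ρ` its reduction (`exists_r0`). `t` is prime in `A`: the kernel of `ρ` is `t A` and `KZ K ι` is a domain (`AddMonoidAlgebra` over `ι → ℤ`, unique sums), `t` is not a unit since `ρ t = 0` (`base.t_zero`), nonzero by `inj`. `exists_completion` gives `C`, `i`; `𝔽 = FractionRing C` with the `R`-algebra structure through `i`.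
`κ` is the field of fractions of `A`: every `x ∈ κ` is `f / g`, `f, g ∈ H m` (`frac`), and `f / g = (f / h) / (g / h)` with `h ∈ H m` a lift of a monomial (`hmon`); so `j` = the extension of `A → C → 𝔽` (`IsFractionRing.lift`). `T` = the image of `C`, `red c = ρ b` if `c = i b + i t * y`. -/
theorem exists_CT (F : FD R K κ t M a) (hint : ∃ (k0 : ℕ) (w0 : ι → ℤ), w0 - k0 • a ∈ M ∧ ∀ l, 1 ≤ w0 l)
    (hmon : ∀ m : ℕ, ∃ w : ι → ℤ, w - m • a ∈ M ∧ ∀ l, 0 ≤ w l) :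
    ∃ (𝔽 : Type u) (_ : Field 𝔽) (_ : Algebra R 𝔽) (j : κ →ₐ[R] 𝔽), Nonempty (CT F 𝔽 j) := by
  classical
  obtain ⟨A, hA⟩ := F.exists_A0
  obtain ⟨ρ, hρ1, hρ2, hρ3, hρ4, hρ5, hρ6⟩ := F.exists_r0 hint A hA
  have hinj : Function.Injective (algebraMap R A) := by
    intro r r' h
    exact F.inj (congrArg (fun x : A => (x : κ)) h)
  have hρt : ρ (algebraMap R A t) = 0 := by
    rw [Algebra.algebraMap_eq_smul_one, hρ2, F.base.t_zero, zero_smul]
  have ht : Prime (algebraMap R A t) := by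
    refine ⟨fun h => F.base.t_ne (hinj (by rw [h, map_zero])), fun h => ?_, fun x y hxy => ?_⟩
    · have := h.map ρ
      rw [hρt] at this
      exact not_isUnit_zero this
    · obtain ⟨z, hz⟩ := hxy
      have h1 : ρ x * ρ y = 0 := by
        rw [← map_mul, hz, map_mul, hρt, zero_mul]
      rcases mul_eq_zero.1 h1 with h2 | h2
      · obtain ⟨z, hz⟩ := hρ3 x h2
        exact Or.inl ⟨z, by rw [hz, Algebra.smul_def]⟩
      · obtain ⟨z, hz⟩ := hρ3 y h2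
        exact Or.inr ⟨z, by rw [hz, Algebra.smul_def]⟩
  obtain ⟨C, _, _, i, hi0, hi1, hi2, hi3, hi4⟩ := exists_completion A (algebraMap R A t) ht (fun x hx => hρ6 x fun N => by
    obtain ⟨z, hz⟩ := hx N
    exact ⟨z, by rw [hz, Algebra.smul_def, map_pow]⟩)
  let alg : Algebra R (FractionRing C) := ((algebraMap C (FractionRing C)).comp (i.comp (algebraMap R A))).toAlgebra
  obtain ⟨j, hj⟩ := c3a_main F hmon A hA ρ hρ1 hρ2 hρ3 hρ4 hρ5 C i hi0 hi1 hi2 hi3 hi4 (FractionRing C)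
    (algebraMap C (FractionRing C)) (IsFractionRing.injective C (FractionRing C)) (fun r => rfl)
  exact ⟨FractionRing C, inferInstance, alg, j, hj⟩

end Pool.Agent.TOR
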