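import Pool.Agent.TOR.C4a

namespace Pool.Agent.TOR

open Set

variable {ι : Type} [Fintype ι] {M : AddSubgroup (ι → ℤ)}

/-- Lattice points in the relative interior of the face `τ`, in some multiple. Proof: `τ = tight p`; `rat_approx` with `I = τ` and small `ε` gives a rational `q ∈ a + mR M`, zero on `τ`, positive elsewhere; `rat_mem` applied to `q - a` and a common denominator: `w = k q`, `w - k a ∈ M`. -/
theorem face_point (a : ι → ℤ) (τ : Finset ι) (hτ : τ ∈ TS M Finset.univ (zv a)) :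
    ∃ (k : ℕ) (w : ι → ℤ), 0 < k ∧ w - k • a ∈ M ∧ (∀ l ∈ τ, w l = 0) ∧ ∀ l, l ∉ τ → 1 ≤ w l := by
  classical
  obtain ⟨p, hp, rfl⟩ := hτ
  have hpos : ∀ l, l ∉ tight Finset.univ p → 0 < p l := fun l hl =>
    lt_of_le_of_ne (hp.2 l (Finset.mem_univ _)) fun h => hl (mem_tight.2 ⟨Finset.mem_univ _, h.symm⟩)
  have hε : ∀ B : Finset ι, (∀ l ∈ B, 0 < p l) → ∃ ε > 0, ∀ l ∈ B, ε ≤ p l := by
    intro B
    induction B using Finset.induction_on with
    | empty => intro _; exact ⟨1, one_pos, by simp⟩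
    | insert j B hj ih =>
      intro h
      obtain ⟨ε, hε, hε'⟩ := ih fun l hl => h l (Finset.mem_insert_of_mem hl)
      refine ⟨min ε (p j), lt_min hε (h j (Finset.mem_insert_self _ _)), fun l hl => ?_⟩
      rcases Finset.mem_insert.1 hl with rfl | hl
      · exact min_le_right _ _
      · exact (min_le_left _ _).trans (hε' l hl)
  obtain ⟨ε, hε0, hε1⟩ := hε (Finset.univ \ tight Finset.univ p) fun l hl => hpos l (Finset.mem_sdiff.1 hl).2
  have hpm : (fun l => p l - (((a l : ℚ)) : ℝ)) ∈ mR M := by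
    have h1 := hp.1
    have h2 : p - zv a = (fun l => p l - (((a l : ℚ)) : ℝ)) := by
      funext l
      simp [zv]
    rwa [h2] at h1
  obtain ⟨q, hq1, hq2, hq3⟩ := rat_approx M (fun l => (a l : ℚ)) (tight Finset.univ p) p hpm
    (fun i hi => ⟨0, by rw [(mem_tight.1 hi).2]; simp⟩) ε hε0
  have hq1' : (fun l => ((q l - (a l : ℚ) : ℚ) : ℝ)) ∈ mR M := by
    have h2 : (fun l => ((q l - (a l : ℚ) : ℚ) : ℝ)) = (fun l => (q l : ℝ) - (((a l : ℚ)) : ℝ)) := by
      funext l
      push_cast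
      rfl
    rw [h2]
    exact hq1
  obtain ⟨N, hN, m, hm, hm'⟩ := rat_mem M (fun l => q l - (a l : ℚ)) hq1'
  have hw : ∀ l, ((m l + N * a l : ℤ) : ℚ) = N * q l := by
    intro l
    push_cast
    rw [hm' l]
    ring
  refine ⟨N, m + N • a, hN, by rwa [add_sub_cancel_right], fun l hl => ?_, fun l hl => ?_⟩
  · have h1 : (q l : ℝ) = 0 := by rw [hq2 l hl, (mem_tight.1 hl).2]
    have h2 : q l = 0 := by exact_mod_cast h1
    have h3 := hw l
    rw [h2, mul_zero] at h3
    have h4 : m l + N * a l = 0 := by exact_mod_cast h3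
    show m l + (N • a) l = 0
    simpa using h4
  · have h1 := hε1 l (Finset.mem_sdiff.2 ⟨Finset.mem_univ _, hl⟩)
    have h2 := (abs_lt.1 (hq3 l)).1
    have h3 : (0 : ℝ) < q l := by linarith
    have h4 : 0 < q l := by exact_mod_cast h3
    have h5 : (0 : ℚ) < ((m l + N * a l : ℤ) : ℚ) := by
      rw [hw]
      have : (0 : ℚ) < N := by exact_mod_cast hN
      positivity
    have h6 : 0 < m l + N * a l := by exact_mod_cast h5
    show 1 ≤ m l + (N • a) l
    have h7 : (N • a) l = N * a l := by simp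
    rw [h7]
    omega

end Pool.Agent.TOR
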