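import Pool.Agent.TOR.C0
import Pool.Agent.TOR.A8
import Pool.Agent.TOR.A16b

namespace Pool.Agent.TOR

open Set

variable {ι : Type} [Fintype ι] {M : AddSubgroup (ι → ℤ)}

/-- Delzant implies simple: for `l0 ∈ τ = tight p` take `m ∈ M` with `m l0 = 1` and `m l = 0` for the other `l ∈ τ`: the relation gives `c l0 = 0`. -/
theorem delz_simp (a : ι → ℝ) (hD : Delz M a) : Simp M Finset.univ a := by
  classical
  rintro τ ⟨p, hp, rfl⟩ c hc hrel
  funext l0
  show c l0 = 0
  by_cases hl0 : l0 ∈ tight Finset.univ p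
  · obtain ⟨m, hm, hm'⟩ := hD p hp (Pi.single l0 1)
    have h1 := hrel m hm
    rw [Finset.sum_eq_single l0] at h1
    · have h2 : m l0 = 1 := by
        rw [hm' l0 (mem_tight.1 hl0).2, Pi.single_eq_same]
      rw [h2] at h1
      simpa using h1
    · intro l _ hl
      by_cases hlt : l ∈ tight Finset.univ p
      · rw [hm' l (mem_tight.1 hlt).2, Pi.single_eq_of_ne hl]
        simp
      · rw [hc l hlt, zero_mul]
    · intro h
      exact absurd (Finset.mem_univ _) h
  · exact hc l0 hl0

/-- Every tight set is contained in a vertex. Proof: among the tight sets containing `τ` take one, `σ = tight p`, with the most elements. If `δ ∈ mR M`, `δ ≠ 0`, vanishes on `σ`: replacing `δ` by `-δ` we may assume `δ l < 0` for some `l` (nonzero vector); the polytope is bounded... moving from `p` in direction `δ` until the first coordinate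
outside `σ` with `δ l < 0` becomes zero gives a point of `PP` whose tight set strictly contains `σ`. -/
theorem vert_above (a : ι → ℝ) (τ : Finset ι) (hτ : τ ∈ TS M Finset.univ a) : ∃ σ ∈ Vert M a, τ ⊆ σ := by
  classical
  let F : Finset (Finset ι) := Finset.univ.filter fun σ => σ ∈ TS M Finset.univ a ∧ τ ⊆ σ
  have hF : F.Nonempty := ⟨τ, Finset.mem_filter.2 ⟨Finset.mem_univ _, hτ, subset_rfl⟩⟩
  obtain ⟨σ, hσ, hmax⟩ := F.exists_max_image Finset.card hF
  obtain ⟨-, hσT, hτσ⟩ := Finset.mem_filter.1 hσ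
  refine ⟨σ, ⟨hσT, ?_⟩, hτσ⟩
  obtain ⟨p, hp, rfl⟩ := hσT
  -- no nonzero direction with a negative coordinate
  have key : ∀ δ ∈ mR M, (∀ l ∈ tight Finset.univ p, δ l = 0) → ∀ l, 0 ≤ δ l := by
    intro δ hδ h0
    by_contra hcon
    push Not at hcon
    obtain ⟨l1, hl1⟩ := hcon
    let N : Finset ι := Finset.univ.filter fun l => δ l < 0
    have hN : N.Nonempty := ⟨l1, Finset.mem_filter.2 ⟨Finset.mem_univ _, hl1⟩⟩
    obtain ⟨l0, hl0, hmin⟩ := N.exists_min_image (fun l => p l / (- δ l)) hN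
    have hpos : ∀ l ∈ N, 0 < p l := by
      intro l hl
      have h1 : δ l < 0 := (Finset.mem_filter.1 hl).2
      refine lt_of_le_of_ne (hp.2 l (Finset.mem_univ _)) fun h => ?_
      have := h0 l (mem_tight.2 ⟨Finset.mem_univ _, h.symm⟩)
      linarith
    have hδ0 : δ l0 < 0 := (Finset.mem_filter.1 hl0).2
    set c : ℝ := p l0 / (- δ l0) with hc
    have hc0 : 0 < c := div_pos (hpos l0 hl0) (by linarith)
    have hcl0 : c * δ l0 = - p l0 := by
      rw [hc, div_mul_eq_mul_div, div_eq_iff (by linarith)]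
      ring
    have hq : p + c • δ ∈ PP M Finset.univ a := by
      refine ⟨?_, fun l _ => ?_⟩
      · have h1 : p + c • δ - a = (p - a) + c • δ := by abel
        rw [h1]
        exact Submodule.add_mem _ hp.1 (Submodule.smul_mem _ _ hδ)
      · show 0 ≤ p l + c * δ l
        by_cases hl : δ l < 0
        · have h1 : c ≤ p l / (- δ l) := hmin l (Finset.mem_filter.2 ⟨Finset.mem_univ _, hl⟩)
          rw [le_div_iff₀ (by linarith)] at h1
          linarith
        · have h1 := hp.2 l (Finset.mem_univ _)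
          have h2 := mul_nonneg hc0.le (not_lt.1 hl)
          linarith
    have hsub : insert l0 (tight Finset.univ p) ⊆ tight Finset.univ (p + c • δ) := by
      intro l hl
      rw [mem_tight]
      refine ⟨Finset.mem_univ _, ?_⟩
      show p l + c * δ l = 0
      rcases Finset.mem_insert.1 hl with rfl | hl
      · rw [hcl0, add_neg_cancel]
      · rw [h0 l hl, (mem_tight.1 hl).2, mul_zero, add_zero]
    have hnot : l0 ∉ tight Finset.univ p := fun h => by
      have := h0 l0 h
      linarith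
    have h1 := Finset.card_le_card hsub
    rw [Finset.card_insert_of_notMem hnot] at h1
    have h2 := hmax (tight Finset.univ (p + c • δ)) (Finset.mem_filter.2 ⟨Finset.mem_univ _, ⟨_, hq, rfl⟩,
      hτσ.trans ((Finset.subset_insert _ _).trans hsub)⟩)
    omega
  intro δ hδ h0
  funext l
  have h1 := key δ hδ h0 l
  have h2 := key (-δ) (Submodule.neg_mem _ hδ) (fun l hl => by rw [Pi.neg_apply, h0 l hl, neg_zero]) l
  rw [Pi.neg_apply] at h2
  show δ l = 0
  linarith

/-- Vertices of a Delzant polytope are integral: `σ = tight q`; `m ∈ M` with `m l = - a l` on `σ` (`Delz`); `q - a - m ∈ mR M` vanishes on `σ`, so it is zero. -/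
theorem vert_point (a : ι → ℤ) (hD : Delz M (zv a)) (σ : Finset ι) (hσ : σ ∈ Vert M (zv a)) :
    ∃ p : ι → ℤ, p - a ∈ M ∧ (∀ l ∈ σ, p l = 0) ∧ ∀ l, l ∉ σ → 1 ≤ p l := by
  obtain ⟨⟨q, hq, rfl⟩, hV⟩ := hσ
  obtain ⟨m, hm, hm'⟩ := hD q hq (-a)
  have h1 : q - zv a - (fun l => (m l : ℝ)) = 0 := by
    refine hV _ (Submodule.sub_mem _ hq.1 (int_mem_mR hm)) fun l hl => ?_
    have h2 := (mem_tight.1 hl).2
    show q l - (a l : ℝ) - (m l : ℝ) = 0
    rw [hm' l h2, h2, Pi.neg_apply]
    push_cast
    ring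
  have h3 : ∀ l, q l = ((a l + m l : ℤ) : ℝ) := by
    intro l
    have h4 : q l - (a l : ℝ) - (m l : ℝ) = 0 := congrFun h1 l
    push_cast
    linarith
  refine ⟨a + m, by rwa [add_sub_cancel_left], fun l hl => ?_, fun l hl => ?_⟩
  · have h4 := (mem_tight.1 hl).2
    rw [h3] at h4
    exact_mod_cast h4
  · have h4 : q l ≠ 0 := fun h => hl (mem_tight.2 ⟨Finset.mem_univ _, h⟩)
    have h5 : 0 < q l := lt_of_le_of_ne (hq.2 l (Finset.mem_univ _)) (Ne.symm h4)
    rw [h3] at h5
    have h6 : 0 < a l + m l := by exact_mod_cast h5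
    show 1 ≤ a l + m l
    omega

end Pool.Agent.TOR
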