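import Mathlib

namespace Pool.Agent.TOR

open Set

/-- Combinatorial core of the shelling argument. `Ea` = the earlier vertices, `σp` = the elements `l ∈ σ` whose edge goes down; `hrep`: its other endpoint is earlier and contains `σ \ {l}`; `hmeet`: every earlier vertex misses some `l ∈ σp`. Two earlier vertices `x, y` both meeting `σ ∩ L` are joined by a chain of earlier vertices with consecutive members
`z, z'` satisfying `(σ ∩ z ∩ z' ∩ L).Nonempty`, unless `σp = σ ∩ L` has exactly two elements (`hbad`). Proof: let `ρ l` be the vertex of `hrep`, `σ ∩ ρ l = σ.erase l`. For `x` take `l ∈ σp`, `l ∉ x`: `σ ∩ x ⊆ σ.erase l = σ ∩ ρ l`, so `σ ∩ x ∩ ρ l ∩ L = σ ∩ x ∩ L` is nonempty: `x` is linked to `ρ l` and `ρ l` meets `σ ∩ L`.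
It remains to join `ρ l` and `ρ l'`, `l ≠ l'` in `σp`, both meeting `σ ∩ L`: directly linked if `(σ \ {l, l'}) ∩ L` is nonempty. Otherwise `σ ∩ L ⊆ {l, l'}`, and as `σ.erase l` and `σ.erase l'` both meet `L`, `σ ∩ L = {l, l'}`; by `hbad` there is a third `l'' ∈ σp`, and `ρ l`, `ρ l''`, `ρ l'` is a chain. -/
theorem link_conn {ι : Type} [DecidableEq ι] (σ L σp : Finset ι) (Ea : Set (Finset ι)) (hσp : σp ⊆ σ)
    (hrep : ∀ l ∈ σp, ∃ ρ ∈ Ea, σ ∩ ρ = σ.erase l) (hmeet : ∀ ρ ∈ Ea, ∃ l ∈ σp, l ∉ ρ)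
    (hbad : ¬ (σp = σ ∩ L ∧ σp.card = 2)) (x y : Finset ι) (hx : x ∈ Ea) (hy : y ∈ Ea)
    (hxL : (σ ∩ x ∩ L).Nonempty) (hyL : (σ ∩ y ∩ L).Nonempty) :
    Relation.ReflTransGen (fun z z' => z ∈ Ea ∧ z' ∈ Ea ∧ (σ ∩ z ∩ z' ∩ L).Nonempty) x y := by
  have hsym : ∀ z z', (z ∈ Ea ∧ z' ∈ Ea ∧ (σ ∩ z ∩ z' ∩ L).Nonempty) →
      (z' ∈ Ea ∧ z ∈ Ea ∧ (σ ∩ z' ∩ z ∩ L).Nonempty) := by
    rintro z z' ⟨h1, h2, e, he⟩
    refine ⟨h2, h1, e, ?_⟩
    simp only [Finset.mem_inter] at he ⊢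
    tauto
  have hmem : ∀ {l : ι} {ρ : Finset ι}, σ ∩ ρ = σ.erase l → ∀ e, e ∈ σ → e ≠ l → e ∈ ρ := by
    intro l ρ h e he hel
    have : e ∈ σ ∩ ρ := by
      rw [h]
      exact Finset.mem_erase.2 ⟨hel, he⟩
    exact (Finset.mem_inter.1 this).2
  -- step 1
  have h1 : ∀ z ∈ Ea, (σ ∩ z ∩ L).Nonempty → ∃ l ∈ σp, ∃ ρ ∈ Ea, σ ∩ ρ = σ.erase l ∧
      (z ∈ Ea ∧ ρ ∈ Ea ∧ (σ ∩ z ∩ ρ ∩ L).Nonempty) ∧ ∃ e ∈ σ, e ∈ L ∧ e ≠ l := by
    rintro z hz ⟨e, he⟩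
    simp only [Finset.mem_inter] at he
    obtain ⟨l, hl, hlz⟩ := hmeet z hz
    obtain ⟨ρ, hρ, hρ'⟩ := hrep l hl
    have hel : e ≠ l := by
      rintro rfl
      exact hlz he.1.2
    refine ⟨l, hl, ρ, hρ, hρ', ⟨hz, hρ, e, ?_⟩, e, he.1.1, he.2, hel⟩
    simp only [Finset.mem_inter]
    exact ⟨⟨⟨he.1.1, he.1.2⟩, hmem hρ' e he.1.1 hel⟩, he.2⟩
  obtain ⟨l, hl, ρ, hρ, hρl, hxρ, e, heσ, heL, hel⟩ := h1 x hx hxL
  obtain ⟨l', hl', ρ', hρ', hρl', hyρ, e', heσ', heL', hel'⟩ := h1 y hy hyL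
  refine Relation.ReflTransGen.head hxρ (Relation.ReflTransGen.tail ?_ (hsym _ _ hyρ))
  -- step 2
  by_cases hc : ∃ g ∈ σ, g ∈ L ∧ g ≠ l ∧ g ≠ l'
  · obtain ⟨g, hgσ, hgL, hgl, hgl'⟩ := hc
    refine Relation.ReflTransGen.single ⟨hρ, hρ', g, ?_⟩
    simp only [Finset.mem_inter]
    exact ⟨⟨⟨hgσ, hmem hρl g hgσ hgl⟩, hmem hρl' g hgσ hgl'⟩, hgL⟩
  · push Not at hc
    have he1 : e = l' := by
      by_contra h
      exact h (hc e heσ heL hel)
    have he2 : e' = l := by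
      by_contra h
      exact hel' (hc e' heσ' heL' h)
    subst he1 he2
    have hσL : σ ∩ L = {e', e} := by
      ext g
      simp only [Finset.mem_inter, Finset.mem_insert, Finset.mem_singleton]
      constructor
      · rintro ⟨h1, h2⟩
        by_cases h : g = e'
        · exact Or.inl h
        · exact Or.inr (hc g h1 h2 h)
      · rintro (rfl | rfl)
        · exact ⟨heσ', heL'⟩
        · exact ⟨heσ, heL⟩
    have hne : σp ≠ {e', e} := by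
      intro h
      refine hbad ⟨by rw [h, hσL], ?_⟩
      rw [h, Finset.card_pair hel']
    obtain ⟨g, hg, hg1, hg2⟩ : ∃ g ∈ σp, g ≠ e' ∧ g ≠ e := by
      by_contra h
      push Not at h
      apply hne
      ext g
      simp only [Finset.mem_insert, Finset.mem_singleton]
      constructor
      · intro hg
        by_cases h' : g = e'
        · exact Or.inl h'
        · exact Or.inr (h g hg h')
      · rintro (rfl | rfl)
        · exact hl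
        · exact hl'
    obtain ⟨r, hr, hrg⟩ := hrep g hg
    refine Relation.ReflTransGen.head (b := r) ⟨hρ, hr, e, ?_⟩
      (Relation.ReflTransGen.single ⟨hr, hρ', e', ?_⟩)
    · simp only [Finset.mem_inter]
      exact ⟨⟨⟨heσ, hmem hρl e heσ hel⟩, hmem hrg e heσ (Ne.symm hg2)⟩, heL⟩
    · simp only [Finset.mem_inter]
      exact ⟨⟨⟨heσ', hmem hrg e' heσ' (Ne.symm hg1)⟩, hmem hρl' e' heσ' hel'⟩, heL'⟩

end Pool.Agent.TOR
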