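import Pool.Agent.TOR.C5a
import Pool.Agent.TOR.C5b

namespace Pool.Agent.TOR

open Set

variable {ι : Type} [Fintype ι] [DecidableEq ι] {M : AddSubgroup (ι → ℤ)}

theorem c5_combo (a : ι → ℝ) (σ : Finset ι) (hσ : σ ∈ Vert M a) (δ : ι → ι → ℝ)
    (hδ : ∀ l ∈ σ, δ l ∈ mR M) (h1 : ∀ l ∈ σ, δ l l = 1) (h0 : ∀ l ∈ σ, ∀ l' ∈ σ, l' ≠ l → δ l l' = 0)
    (x : ι → ℝ) (hx : x ∈ mR M) : x = ∑ l ∈ σ, x l • δ l := by
  have h2 : x - ∑ l ∈ σ, x l • δ l ∈ mR M :=
    (mR M).sub_mem hx (Submodule.sum_mem _ fun l hl => (mR M).smul_mem _ (hδ l hl))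
  have h3 : ∀ l' ∈ σ, (x - ∑ l ∈ σ, x l • δ l) l' = 0 := by
    intro l' hl'
    rw [Pi.sub_apply, Finset.sum_apply, Finset.sum_eq_single l']
    · simp [h1 l' hl']
    · intro l hl hne
      simp [h0 l hl l' hl' (Ne.symm hne)]
    · intro h
      exact absurd hl' h
  exact sub_eq_zero.1 (hσ.2 _ h2 h3)

theorem c5_lin (ξ : ι → ℝ) (σ : Finset ι) (y : ι → ℝ) (δ : ι → ι → ℝ) :
    ∑ l, ξ l * (∑ j ∈ σ, y j • δ j) l = ∑ j ∈ σ, y j * ∑ l, ξ l * δ j l := by
  simp only [Finset.sum_apply, Pi.smul_apply, smul_eq_mul, Finset.mul_sum]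
  rw [Finset.sum_comm]
  refine Finset.sum_congr rfl fun j _ => Finset.sum_congr rfl fun l _ => by ring

/-- SHELLING (vanishing of the second cohomology of the structure sheaf in degree `m`). `m = 0`: `neg m = ∅`, nothing to prove. Let `m ≠ 0`, `L = neg m`, `ξ` from `exists_xi` for the (finitely many: `vert_unique`) vertices. Order the vertices by the value of `ξ` and construct `d` by induction along this order (induction on the number of vertices already treated, or on a lower set of
vertices): suppose `d` is constructed on the vertices `Ea` with smaller value, satisfying the equation on `Ea`; let `p` be the next vertex, `σ = tight p`. For `l ∈ σ` let `δ_l` be the edge direction (`exists_edge`), `σp = {l ∈ σ | ξ δ_l < 0}`. `hrep`: the endpoint `p + c δ_l` has smaller value. `hmeet`: for `q ∈ Ea` (a vertex point of smaller value)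
`q - p = ∑_{l ∈ σ} (q l) δ_l` (both sides in `mR M`, equal on `σ`), `q l ≥ 0` and `ξ (q - p) < 0`, so some `l ∈ σ` has `q l > 0`, `ξ δ_l < 0`. `hbad`: `m = ∑_{l ∈ σ} m l δ_l`; if `σp = σ ∩ L` then all terms `m l * ξ δ_l` are `≥ 0` (for `l ∈ σ ∩ L` both factors negative, for the others both `≥ 0`), so `ξ m ≥ 0`, contradiction. By `link_conn` and the cocycle condition
(for linked `z, z'`: `c σ z - ...`: `c σ z + c z z' = c σ z'`, `c z z' = d z - d z'`, so `c σ z + d z = c σ z' + d z'`) the value `c σ z + d z` is the same for all `z ∈ Ea` with `(σ ∩ z ∩ L).Nonempty`; let `d σ` be this value (zero if there is no such `z`). Symmetry: `c z σ = - c σ z` and `c σ σ = 0` if `σ ∩ L` is nonempty, from the cocycle condition. -/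
theorem shelling {K : Type*} [AddCommGroup K] (a : ι → ℝ) (hb : Bornology.IsBounded (PP M Finset.univ a))
    (hS : Simp M Finset.univ a) (m : ι → ℤ) (hm : m ∈ M) (c : Finset ι → Finset ι → K)
    (hc : ∀ σ ∈ Vert M a, ∀ σ' ∈ Vert M a, ∀ σ'' ∈ Vert M a, (σ ∩ σ' ∩ σ'' ∩ neg m).Nonempty →
      c σ σ' + c σ' σ'' = c σ σ'') :
    ∃ d : Finset ι → K, ∀ σ ∈ Vert M a, ∀ σ' ∈ Vert M a, (σ ∩ σ' ∩ neg m).Nonempty → c σ σ' = d σ - d σ' := by
  classical
  by_cases hm0 : m = 0
  · refine ⟨0, fun σ _ σ' _ h => ?_⟩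
    obtain ⟨e, he⟩ := h
    rw [Finset.mem_inter, mem_neg, hm0] at he
    exact absurd he.2 (lt_irrefl _)
  set L := neg m with hL
  have hP : ∀ σ : Finset ι, ∃ p : ι → ℝ, σ ∈ Vert M a → p ∈ PP M Finset.univ a ∧
      tight Finset.univ p = σ := by
    intro σ
    by_cases h : σ ∈ Vert M a
    · obtain ⟨p, hp, hp'⟩ := h.1
      exact ⟨p, fun _ => ⟨hp, hp'⟩⟩
    · exact ⟨0, fun h' => absurd h' h⟩
  choose P hP using hP
  let mr : ι → ℝ := fun l => (m l : ℝ)
  have hmr : mr ≠ 0 := by
    intro h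
    apply hm0
    ext l
    have := congrFun h l
    simpa [mr] using this
  let S : Finset (ι → ℝ) := (Finset.univ.filter fun σ => σ ∈ Vert M a).image P
  have hS' : ∀ σ ∈ Vert M a, P σ ∈ S := fun σ hσ =>
    Finset.mem_image_of_mem _ (Finset.mem_filter.2 ⟨Finset.mem_univ _, hσ⟩)
  obtain ⟨ξ, hξm, hξ⟩ := exists_xi S mr hmr
  let val : Finset ι → ℝ := fun σ => ∑ l, ξ l * P σ l
  have hval : ∀ σ ∈ Vert M a, ∀ σ' ∈ Vert M a, σ ≠ σ' → val σ ≠ val σ' := by
    intro σ hσ σ' hσ' hne
    refine hξ _ (hS' σ hσ) _ (hS' σ' hσ') fun h => hne ?_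
    rw [← (hP σ hσ).2, ← (hP σ' hσ').2, h]
  have hcc : ∀ σ ∈ Vert M a, (σ ∩ L).Nonempty → c σ σ = 0 := by
    rintro σ hσ ⟨e, he⟩
    have := hc σ hσ σ hσ σ hσ ⟨e, by simpa using he⟩
    simpa using this
  have hcs : ∀ σ ∈ Vert M a, ∀ σ' ∈ Vert M a, (σ ∩ σ' ∩ L).Nonempty → c σ' σ = - c σ σ' := by
    rintro σ hσ σ' hσ' ⟨e, he⟩
    simp only [Finset.mem_inter] at he
    have h1 := hc σ' hσ' σ hσ σ' hσ' ⟨e, by simp only [Finset.mem_inter]; tauto⟩
    rw [hcc σ' hσ' ⟨e, by simp only [Finset.mem_inter]; tauto⟩] at h1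
    exact eq_neg_of_add_eq_zero_left h1
  -- the induction
  have key : ∀ s : Finset (Finset ι), (∀ σ ∈ s, σ ∈ Vert M a) →
      (∀ σ ∈ s, ∀ σ' ∈ Vert M a, val σ' < val σ → σ' ∈ s) →
      ∃ d : Finset ι → K, ∀ σ ∈ s, ∀ σ' ∈ s, (σ ∩ σ' ∩ L).Nonempty → c σ σ' = d σ - d σ' := by
    intro s
    induction s using Finset.induction_on_max_value val with
    | empty => exact fun _ _ => ⟨0, fun σ hσ => absurd hσ (Finset.notMem_empty σ)⟩
    | insert σ s hσs hmax ih =>
      intro hV hlow
      have hσ : σ ∈ Vert M a := hV σ (Finset.mem_insert_self _ _)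
      have hV' : ∀ z ∈ s, z ∈ Vert M a := fun z hz => hV z (Finset.mem_insert_of_mem hz)
      have hlt : ∀ z ∈ s, val z < val σ := fun z hz =>
        lt_of_le_of_ne (hmax z hz) (hval z (hV' z hz) σ hσ fun h => hσs (h ▸ hz))
      have hins : ∀ z ∈ Vert M a, val z < val σ → z ∈ s := by
        intro z hz h
        rcases Finset.mem_insert.1 (hlow σ (Finset.mem_insert_self _ _) z hz h) with rfl | h'
        · exact absurd h (lt_irrefl _)
        · exact h'
      obtain ⟨d, hd⟩ := ih hV' fun z hz z' hz' h => hins z' hz' (h.trans (hlt z hz))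
      obtain ⟨hpP, hpt⟩ := hP σ hσ
      -- the edges
      have hedge : ∀ l : ι, ∃ (δ : ι → ℝ) (r : ℝ), l ∈ σ → δ ∈ mR M ∧ δ l = 1 ∧
          (∀ l' ∈ σ, l' ≠ l → δ l' = 0) ∧ 0 < r ∧ P σ + r • δ ∈ PP M Finset.univ a ∧
          tight Finset.univ (P σ + r • δ) ∈ Vert M a ∧
          σ ∩ tight Finset.univ (P σ + r • δ) = σ.erase l := by
        intro l
        by_cases hl : l ∈ σ
        · have hl0 : P σ l = 0 := by
            rw [← hpt, mem_tight] at hl
            exact hl.2
          obtain ⟨δ, r, h1, h2, h3, h4, h5, h6, h7⟩ := exists_edge a hb hS (P σ) hpP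
            (by rw [hpt]; exact hσ) l hl0
          refine ⟨δ, r, fun _ => ⟨h1, h2, fun l' hl' hne => h3 l' ?_ hne, h4, h5, h6, ?_⟩⟩
          · rw [← hpt, mem_tight] at hl'
            exact hl'.2
          · rw [hpt] at h7
            exact h7
        · exact ⟨0, 0, fun h => absurd h hl⟩
      choose δ r hδ using hedge
      have hcombo : ∀ x ∈ mR M, x = ∑ l ∈ σ, x l • δ l := fun x hx =>
        c5_combo a σ hσ δ (fun l hl => (hδ l hl).1) (fun l hl => (hδ l hl).2.1)
          (fun l hl l' hl' hne => (hδ l hl).2.2.1 l' hl' hne) x hx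
      let σp : Finset ι := σ.filter fun l => ∑ j, ξ j * δ l j < 0
      have hrep : ∀ l ∈ σp, ∃ ρ ∈ (↑s : Set (Finset ι)), σ ∩ ρ = σ.erase l := by
        intro l hl
        obtain ⟨hlσ, hlt⟩ := Finset.mem_filter.1 hl
        obtain ⟨h1, h2, h3, h4, h5, h6, h7⟩ := hδ l hlσ
        refine ⟨_, hins _ h6 ?_, h7⟩
        have h8 : P (tight Finset.univ (P σ + r l • δ l)) = P σ + r l • δ l := by
          obtain ⟨h9, h10⟩ := hP _ h6
          exact vert_unique a _ _ h9 h5 (by rw [h10]; exact h6) h10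
        change ∑ j, ξ j * P (tight Finset.univ (P σ + r l • δ l)) j < ∑ j, ξ j * P σ j
        rw [h8]
        have h9 : ∑ j, ξ j * (P σ + r l • δ l) j = ∑ j, ξ j * P σ j + r l * ∑ j, ξ j * δ l j := by
          rw [Finset.mul_sum, ← Finset.sum_add_distrib]
          refine Finset.sum_congr rfl fun j _ => ?_
          simp only [Pi.add_apply, Pi.smul_apply, smul_eq_mul]
          ring
        rw [h9]
        nlinarith
      have hmeet : ∀ ρ ∈ (↑s : Set (Finset ι)), ∃ l ∈ σp, l ∉ ρ := by
        intro ρ hρ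
        have hρs : ρ ∈ s := hρ
        obtain ⟨hqP, hqt⟩ := hP ρ (hV' ρ hρs)
        have h1 : P ρ - P σ ∈ mR M := by
          have := (mR M).sub_mem hqP.1 hpP.1
          simpa using this
        have h2 : P ρ - P σ = ∑ l ∈ σ, (P ρ - P σ) l • δ l := hcombo _ h1
        have h3 : ∑ j, ξ j * (P ρ - P σ) j < 0 := by
          have := hlt ρ hρs
          simp only [val] at this
          simp only [Pi.sub_apply, mul_sub, Finset.sum_sub_distrib]
          linarith
        rw [h2, c5_lin] at h3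
        obtain ⟨l, hl, hneg⟩ := Finset.exists_lt_of_sum_lt (s := σ) (f := fun l =>
          (P ρ - P σ) l * ∑ j, ξ j * δ l j) (g := fun _ => (0 : ℝ)) (by simpa using h3)
        have hl0 : P σ l = 0 := by
          rw [← hpt, mem_tight] at hl
          exact hl.2
        have hq0 : 0 ≤ P ρ l := hqP.2 l (Finset.mem_univ _)
        simp only [Pi.sub_apply, hl0, sub_zero] at hneg
        have hq1 : P ρ l ≠ 0 := by
          intro h
          rw [h, zero_mul] at hneg
          exact lt_irrefl _ hneg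
        have hq2 : 0 < P ρ l := lt_of_le_of_ne hq0 (Ne.symm hq1)
        refine ⟨l, Finset.mem_filter.2 ⟨hl, ?_⟩, ?_⟩
        · by_contra h
          push Not at h
          have := mul_nonneg hq0 h
          linarith
        · intro hlρ
          rw [← hqt, mem_tight] at hlρ
          exact hq1 hlρ.2
      have hbad : ¬ (σp = σ ∩ L ∧ σp.card = 2) := by
        rintro ⟨h1, -⟩
        have h2 : mr ∈ mR M := int_mem_mR hm
        have h3 := hξm
        rw [hcombo mr h2, c5_lin] at h3
        have h4 : 0 ≤ ∑ j ∈ σ, mr j * ∑ l, ξ l * δ j l := by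
          refine Finset.sum_nonneg fun l hl => ?_
          by_cases hlL : l ∈ L
          · have h5 : l ∈ σp := by
              rw [h1]
              exact Finset.mem_inter.2 ⟨hl, hlL⟩
            have h6 : mr l < 0 := by
              have := mem_neg.1 hlL
              change (m l : ℝ) < 0
              exact_mod_cast this
            exact (mul_pos_of_neg_of_neg h6 (Finset.mem_filter.1 h5).2).le
          · have h5 : l ∉ σp := by
              rw [h1]
              exact fun h => hlL (Finset.mem_inter.1 h).2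
            have h6 : 0 ≤ mr l := by
              rw [hL, mem_neg] at hlL
              push Not at hlL
              change 0 ≤ (m l : ℝ)
              exact_mod_cast hlL
            have h7 : 0 ≤ ∑ j, ξ j * δ l j := by
              by_contra h
              push Not at h
              exact h5 (Finset.mem_filter.2 ⟨hl, h⟩)
            exact mul_nonneg h6 h7
        linarith
      -- the value is well defined
      have hwd : ∀ z ∈ s, ∀ z' ∈ s, (σ ∩ z ∩ L).Nonempty → (σ ∩ z' ∩ L).Nonempty →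
          c σ z + d z = c σ z' + d z' := by
        intro z hz z' hz' h h'
        have hch := link_conn σ L σp (↑s) (Finset.filter_subset _ _) hrep hmeet hbad z z' hz hz' h h'
        clear h h'
        induction hch with
        | refl => rfl
        | tail _ hstep ih' =>
          obtain ⟨h1, h2, e, he⟩ := hstep
          rw [ih' h1]
          simp only [Finset.mem_inter] at he
          have h3 := hc σ hσ _ (hV' _ h1) _ (hV' _ h2) ⟨e, by
            simp only [Finset.mem_inter]
            tauto⟩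
          have h4 := hd _ h1 _ h2 ⟨e, by
            simp only [Finset.mem_inter]
            tauto⟩
          rw [← h3, h4]
          abel
      obtain ⟨v, hv⟩ : ∃ v : K, ∀ z ∈ s, (σ ∩ z ∩ L).Nonempty → c σ z + d z = v := by
        by_cases hex : ∃ z ∈ s, (σ ∩ z ∩ L).Nonempty
        · obtain ⟨z, hz, hzL⟩ := hex
          exact ⟨c σ z + d z, fun z' hz' hz'L => hwd z' hz' z hz hz'L hzL⟩
        · exact ⟨0, fun z hz hzL => absurd ⟨z, hz, hzL⟩ hex⟩
      have hne : ∀ z ∈ s, z ≠ σ := fun z hz h => hσs (h ▸ hz)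
      refine ⟨Function.update d σ v, fun z hz z' hz' h => ?_⟩
      rcases Finset.mem_insert.1 hz with rfl | hz1
      · rcases Finset.mem_insert.1 hz' with rfl | hz1'
        · rw [Function.update_self, sub_self]
          exact hcc _ hσ (by simpa using h)
        · rw [Function.update_self, Function.update_of_ne (hne z' hz1'), ← hv z' hz1' h]
          abel
      · rcases Finset.mem_insert.1 hz' with rfl | hz1'
        · rw [Function.update_self, Function.update_of_ne (hne z hz1)]
          have h1 : (z' ∩ z ∩ L).Nonempty := by rwa [Finset.inter_comm z' z]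
          rw [hcs _ hσ z (hV' z hz1) h1, ← hv z hz1 h1]
          abel
        · rw [Function.update_of_ne (hne z hz1), Function.update_of_ne (hne z' hz1')]
          exact hd z hz1 z' hz1' h
  obtain ⟨d, hd⟩ := key (Finset.univ.filter fun σ => σ ∈ Vert M a)
    (fun σ hσ => (Finset.mem_filter.1 hσ).2)
    (fun σ _ σ' hσ' _ => Finset.mem_filter.2 ⟨Finset.mem_univ _, hσ'⟩)
  exact ⟨d, fun σ hσ σ' hσ' h => hd σ (Finset.mem_filter.2 ⟨Finset.mem_univ _, hσ⟩) σ'
    (Finset.mem_filter.2 ⟨Finset.mem_univ _, hσ'⟩) h⟩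

end Pool.Agent.TOR
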