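import Pool.Agent.TOR.C5aa

namespace Pool.Agent.TOR

open Set

variable {ι : Type} [Fintype ι] [DecidableEq ι] {M : AddSubgroup (ι → ℤ)}

/-- Two vertices with the same tight set are equal (the difference is in `mR M` and vanishes on the tight set). -/
theorem vert_unique (a : ι → ℝ) (p q : ι → ℝ) (hp : p ∈ PP M Finset.univ a) (hq : q ∈ PP M Finset.univ a)
    (hV : tight Finset.univ p ∈ Vert M a) (h : tight Finset.univ p = tight Finset.univ q) : p = q := by
  rw [← sub_eq_zero]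
  refine hV.2 _ ?_ fun l hl => ?_
  · have h1 : p - q = (p - a) - (q - a) := by abel
    rw [h1]
    exact Submodule.sub_mem _ hp.1 hq.1
  · have h1 := (mem_tight.1 hl).2
    rw [h] at hl
    have h2 := (mem_tight.1 hl).2
    show p l - q l = 0
    rw [h1, h2, sub_zero]

theorem c5a_open (D : Finset (ι → ℝ)) (m : ι → ℝ) (hm : m ≠ 0) (hD : ∀ d ∈ D, d ≠ 0) :
    ∃ ξ : ι → ℝ, ∑ l, ξ l * m l < 0 ∧ ∀ d ∈ D, ∑ l, ξ l * d l ≠ 0 := by
  classical
  have hsq : ∀ d : ι → ℝ, d ≠ 0 → 0 < ∑ l, d l * d l := by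
    intro d hd
    obtain ⟨l, hl⟩ := Function.ne_iff.1 hd
    exact Finset.sum_pos' (fun i _ => mul_self_nonneg _) ⟨l, Finset.mem_univ _, mul_self_pos.2 hl⟩
  induction D using Finset.induction_on with
  | empty =>
    refine ⟨-m, ?_, by simp⟩
    have h1 := hsq m hm
    have h2 : ∑ l, (-m) l * m l = - ∑ l, m l * m l := by
      rw [← Finset.sum_neg_distrib]
      exact Finset.sum_congr rfl fun l _ => by rw [Pi.neg_apply, neg_mul]
    rw [h2]
    linarith
  | insert d0 D hd0 ih =>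
    obtain ⟨ξ, h1, h2⟩ := ih fun d hd => hD d (Finset.mem_insert_of_mem hd)
    by_cases h0 : ∑ l, ξ l * d0 l = 0
    · have hlin : ∀ (ε : ℝ) (x : ι → ℝ), ∑ l, (ξ + ε • d0) l * x l = ∑ l, ξ l * x l + ε * ∑ l, d0 l * x l := by
        intro ε x
        rw [Finset.mul_sum, ← Finset.sum_add_distrib]
        refine Finset.sum_congr rfl fun l _ => ?_
        simp only [Pi.add_apply, Pi.smul_apply, smul_eq_mul]
        ring
      have hcont : ∀ x : ι → ℝ, Filter.Tendsto (fun ε : ℝ => ∑ l, (ξ + ε • d0) l * x l) (nhdsWithin 0 (Ioi 0))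
          (nhds (∑ l, ξ l * x l)) := by
        intro x
        simp only [hlin]
        have : Filter.Tendsto (fun ε : ℝ => ∑ l, ξ l * x l + ε * ∑ l, d0 l * x l) (nhds 0)
            (nhds (∑ l, ξ l * x l + 0 * ∑ l, d0 l * x l)) := by
          exact (continuous_const.add (continuous_id.mul continuous_const)).tendsto 0
        rw [zero_mul, add_zero] at this
        exact this.mono_left nhdsWithin_le_nhds
      have e1 : ∀ᶠ ε in nhdsWithin (0 : ℝ) (Ioi 0), ∑ l, (ξ + ε • d0) l * m l < 0 :=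
        (hcont m).eventually_lt_const h1
      have e2 : ∀ᶠ ε in nhdsWithin (0 : ℝ) (Ioi 0), ∀ d ∈ D, ∑ l, (ξ + ε • d0) l * d l ≠ 0 := by
        rw [Filter.eventually_all_finset]
        intro d hd
        exact (hcont d).eventually_ne (h2 d hd)
      obtain ⟨ε, ⟨h3, h4⟩, h5⟩ := ((e1.and e2).and self_mem_nhdsWithin).exists
      refine ⟨ξ + ε • d0, h3, fun d hd => ?_⟩
      rcases Finset.mem_insert.1 hd with rfl | hd
      · rw [hlin, h0, zero_add]
        have h6 := hsq d (hD d (Finset.mem_insert_self _ _))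
        exact mul_ne_zero (ne_of_gt h5) h6.ne'
      · exact h4 d hd
    · refine ⟨ξ, h1, fun d hd => ?_⟩
      rcases Finset.mem_insert.1 hd with rfl | hd
      · exact h0
      · exact h2 d hd

/-- A functional negative on `m` and separating finitely many points. Proof: `ξ = - m + ε η` with `η l = y ^ k(l)` (`k : ι ≃ Fin _`) separating the points and `ε > 0` small: for each pair `p ≠ q` the function `ε ↦ ∑ (- m + ε η) (p - q)` is affine and not identically zero, so vanishes for at most one `ε`. -/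
theorem exists_xi (S : Finset (ι → ℝ)) (m : ι → ℝ) (hm : m ≠ 0) :
    ∃ ξ : ι → ℝ, ∑ l, ξ l * m l < 0 ∧ ∀ p ∈ S, ∀ q ∈ S, p ≠ q → ∑ l, ξ l * p l ≠ ∑ l, ξ l * q l := by
  classical
  obtain ⟨ξ, h1, h2⟩ := c5a_open (((S ×ˢ S).image fun x => x.1 - x.2).filter fun d => d ≠ 0) m hm
    fun d hd => (Finset.mem_filter.1 hd).2
  refine ⟨ξ, h1, fun p hp q hq hpq h3 => ?_⟩
  refine h2 (p - q) (Finset.mem_filter.2 ⟨Finset.mem_image.2 ⟨(p, q), Finset.mem_product.2 ⟨hp, hq⟩, rfl⟩,
    sub_ne_zero.2 hpq⟩) ?_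
  have h4 : ∑ l, ξ l * (p - q) l = ∑ l, ξ l * p l - ∑ l, ξ l * q l := by
    rw [← Finset.sum_sub_distrib]
    exact Finset.sum_congr rfl fun l _ => by rw [Pi.sub_apply, mul_sub]
  rw [h4, h3, sub_self]

end Pool.Agent.TOR
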