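import Pool.Agent.TOR.C4
import Pool.Agent.TOR.A9

namespace Pool.Agent.TOR

open Set

variable {ι : Type} [Fintype ι] [DecidableEq ι] {M : AddSubgroup (ι → ℤ)}

/-- EDGES. `p` a vertex with tight set `σ`, `l ∈ σ`. `exists_delta` (`Simp`) gives `δ ∈ mR M` with `δ l = 1`, `δ l' = 0` for the other `l' ∈ σ`. As `PP` is bounded and `δ ≠ 0`, `δ` has a negative coordinate (otherwise the ray `p + c δ` stays in `PP`); it is outside `σ`, where `p > 0`. Let `c > 0` be the largest number with `p + c δ ≥ 0`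
(minimum of `- p l' / δ l'` over the negative coordinates). The tight set `σ'` of `p' = p + c δ` contains `σ \ {l}` and some `l' ∉ σ`, not `l` (`p' l = c > 0`). It is a vertex: `δ' ∈ mR M` vanishing on `σ'` is `(δ' l) δ` (the difference vanishes on `σ`), and `δ' l' = 0` with `δ l' < 0` gives `δ' l = 0`. -/
theorem exists_edge (a : ι → ℝ) (hb : Bornology.IsBounded (PP M Finset.univ a)) (hS : Simp M Finset.univ a)
    (p : ι → ℝ) (hp : p ∈ PP M Finset.univ a) (hV : tight Finset.univ p ∈ Vert M a) (l : ι) (hl : p l = 0) :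
    ∃ (δ : ι → ℝ) (c : ℝ), δ ∈ mR M ∧ δ l = 1 ∧ (∀ l', p l' = 0 → l' ≠ l → δ l' = 0) ∧ 0 < c ∧
      p + c • δ ∈ PP M Finset.univ a ∧ tight Finset.univ (p + c • δ) ∈ Vert M a ∧
      tight Finset.univ p ∩ tight Finset.univ (p + c • δ) = (tight Finset.univ p).erase l := by
  have hmt : ∀ (p : ι → ℝ) (l : ι), l ∈ tight Finset.univ p ↔ p l = 0 := fun p l => by
    rw [mem_tight]
    exact ⟨fun h => h.2, fun h => ⟨Finset.mem_univ _, h⟩⟩
  obtain ⟨δ, hδ, hδ'⟩ := exists_delta M (tight Finset.univ p) (hS _ ⟨p, hp, rfl⟩) (Pi.single l 1)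
  have hδl : δ l = 1 := by rw [hδ' l ((hmt p l).2 hl), Pi.single_eq_same]
  have hδ0 : ∀ l', p l' = 0 → l' ≠ l → δ l' = 0 := fun l' h1 h2 => by
    rw [hδ' l' ((hmt p l').2 h1), Pi.single_eq_of_ne h2]
  have hneg : ∃ l1, δ l1 < 0 := by
    by_contra hcon
    push Not at hcon
    have h1 := recession M Finset.univ a ⟨p, hp⟩ hb δ hδ fun l _ => hcon l
    rw [h1] at hδl
    exact zero_ne_one hδl
  let N : Finset ι := Finset.univ.filter fun l => δ l < 0
  have hN : N.Nonempty := by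
    obtain ⟨l1, hl1⟩ := hneg
    exact ⟨l1, Finset.mem_filter.2 ⟨Finset.mem_univ _, hl1⟩⟩
  obtain ⟨l0, hl0, hmin⟩ := N.exists_min_image (fun l => p l / (- δ l)) hN
  have hpos : ∀ l' ∈ N, 0 < p l' := by
    intro l' hl'
    have h1 : δ l' < 0 := (Finset.mem_filter.1 hl').2
    refine lt_of_le_of_ne (hp.2 l' (Finset.mem_univ _)) fun h => ?_
    by_cases h2 : l' = l
    · rw [h2, hδl] at h1
      linarith
    · rw [hδ0 l' h.symm h2] at h1
      exact lt_irrefl _ h1
  have hδl0 : δ l0 < 0 := (Finset.mem_filter.1 hl0).2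
  set c : ℝ := p l0 / (- δ l0) with hc
  have hc0 : 0 < c := div_pos (hpos l0 hl0) (by linarith)
  have hcl0 : c * δ l0 = - p l0 := by
    rw [hc, div_mul_eq_mul_div, div_eq_iff (by linarith)]
    ring
  have hval : ∀ l', (p + c • δ) l' = p l' + c * δ l' := fun l' => rfl
  have hq : p + c • δ ∈ PP M Finset.univ a := by
    refine ⟨?_, fun l' _ => ?_⟩
    · have h1 : p + c • δ - a = (p - a) + c • δ := by abel
      rw [h1]
      exact Submodule.add_mem _ hp.1 (Submodule.smul_mem _ _ hδ)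
    · rw [hval]
      by_cases hl' : δ l' < 0
      · have h1 : c ≤ p l' / (- δ l') := hmin l' (Finset.mem_filter.2 ⟨Finset.mem_univ _, hl'⟩)
        rw [le_div_iff₀ (by linarith)] at h1
        linarith
      · have h1 := hp.2 l' (Finset.mem_univ _)
        have h2 := mul_nonneg hc0.le (not_lt.1 hl')
        linarith
  have hl0t : (p + c • δ) l0 = 0 := by rw [hval, hcl0, add_neg_cancel]
  refine ⟨δ, c, hδ, hδl, hδ0, hc0, hq, ⟨⟨_, hq, rfl⟩, ?_⟩, ?_⟩
  · intro δ' hδ' h0
    have h1 : δ' - (δ' l) • δ = 0 := by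
      refine hV.2 _ (Submodule.sub_mem _ hδ' (Submodule.smul_mem _ _ hδ)) fun l' hl' => ?_
      show δ' l' - δ' l * δ l' = 0
      by_cases h2 : l' = l
      · rw [h2, hδl, mul_one, sub_self]
      · have h3 := hδ0 l' ((hmt p l').1 hl') h2
        have h4 : (p + c • δ) l' = 0 := by rw [hval, h3, (hmt p l').1 hl', mul_zero, add_zero]
        rw [h0 l' ((hmt _ l').2 h4), h3, mul_zero, sub_zero]
    have h5 : δ' = (δ' l) • δ := sub_eq_zero.1 h1
    have h6 : δ' l0 = 0 := h0 l0 ((hmt _ l0).2 hl0t)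
    have h7 : δ' l * δ l0 = 0 := by
      have h8 : δ' l0 = δ' l * δ l0 := congrFun h5 l0
      rw [← h8, h6]
    have h9 : δ' l = 0 := (mul_eq_zero.1 h7).resolve_right hδl0.ne
    rw [h5, h9, zero_smul]
  · ext l'
    rw [Finset.mem_inter, Finset.mem_erase, hmt, hmt, hval]
    constructor
    · rintro ⟨h1, h2⟩
      refine ⟨fun h3 => ?_, h1⟩
      rw [h3, hl, hδl] at h2
      linarith
    · rintro ⟨h1, h2⟩
      exact ⟨h2, by rw [h2, hδ0 l' h2 h1, mul_zero, add_zero]⟩

end Pool.Agent.TOR
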