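import Pool.Agent.TOR.C6aa

namespace Pool.Agent.TOR

open Set

universe u

variable {R K 𝔽 : Type u} [CommRing R] [Field K] [Algebra R K] [Field 𝔽] [Algebra R 𝔽] {t : R}
  {ι : Type} {M : AddSubgroup (ι → ℤ)} (D : D0 R K 𝔽 t M)


/-! Basics, exactly as for `Dat` (file B1): reduction of zero, differences, multiples of `t`, finite sums; torsion freeness; the closure properties of `BB`. -/

namespace D0

/-- `BB τ` is complete -/
theorem c6a_complete (τ : Finset ι) (g : ℕ → 𝔽) (hg : ∀ n, g n ∈ D.BB τ) :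
    ∃ f ∈ D.BB τ, ∀ N : ℕ, ∃ h ∈ D.BB τ, f - ∑ n ∈ Finset.range N, t ^ n • g n = t ^ N • h := by
  obtain ⟨f, hf, hfN⟩ := D.complete g fun n => (D.mem_BB.1 (hg n)).1
  have hsum : ∀ N : ℕ, ∑ n ∈ Finset.range N, t ^ n • g n ∈ D.BB τ := fun N =>
    Submodule.sum_mem _ fun n _ => (D.BB τ).smul_mem _ (hg n)
  have hfR : f ∈ D.BB τ := D.BB_closed τ f hf fun N => by
    obtain ⟨k, hk, he⟩ := hfN N
    exact ⟨_, hsum N, k, hk, he⟩
  refine ⟨f, hfR, fun N => ?_⟩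
  obtain ⟨k, hk, he⟩ := hfN N
  refine ⟨k, D.BB_sat τ k hk N ?_, he⟩
  rw [← he]
  exact Submodule.sub_mem _ hfR (hsum N)

/-- geometric series -/
theorem c6a_geom (τ : Finset ι) (h : 𝔽) (hh : h ∈ D.BB τ) :
    ∃ s ∈ D.BB τ, (1 - t • h) * s = 1 ∧ D.red s = 1 := by
  have hBT : ∀ x, x ∈ D.BB τ → x ∈ D.T := fun x hx => (D.mem_BB.1 hx).1
  have hpow : ∀ n : ℕ, h ^ n ∈ D.BB τ := by
    intro n
    induction n with
    | zero => rw [pow_zero]; exact D.BB_one τ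
    | succ n ih =>
      rw [pow_succ]
      exact D.BB_mul τ _ _ ih hh
  obtain ⟨s, hs, hsN⟩ := D.c6a_complete τ (fun n => h ^ n) hpow
  have h1T : (1 - t • h) ∈ D.T := Submodule.sub_mem _ D.one_mem (D.T.smul_mem _ (hBT _ hh))
  refine ⟨s, hs, ?_, ?_⟩
  · rw [← sub_eq_zero]
    refine D.sep _ (Submodule.sub_mem _ (D.mul_mem _ _ h1T (hBT _ hs)) D.one_mem) fun N => ?_
    obtain ⟨k, hk, he⟩ := hsN N
    refine ⟨(1 - t • h) * k - h ^ N, Submodule.sub_mem _ (D.mul_mem _ _ h1T (hBT _ hk)) (hBT _ (hpow N)), ?_⟩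
    have hs' : s = ∑ n ∈ Finset.range N, t ^ n • h ^ n + t ^ N • k := by
      rw [← he, add_sub_cancel]
    have hg : (∑ n ∈ Finset.range N, t ^ n • h ^ n) = ∑ n ∈ Finset.range N, (t • h) ^ n :=
      Finset.sum_congr rfl fun n _ => (smul_pow t h n).symm
    have hgeo := mul_neg_geom_sum (t • h) N
    rw [hs', hg, mul_add, hgeo, smul_pow, smul_sub, mul_smul_comm]
    ring
  · obtain ⟨k, hk, he⟩ := hsN 1
    rw [Finset.sum_range_one, pow_zero, pow_zero, one_smul] at he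
    have hs' : s = 1 + t ^ 1 • k := by rw [← he, add_sub_cancel]
    rw [hs', D.red_add _ _ D.one_mem (D.T.smul_mem _ (hBT _ hk)), D.red_one,
      D.red_tpow k (hBT _ hk) 1 le_rfl, add_zero]

theorem c6a_core (τ : Finset ι) (u : ι → ℤ) (f : 𝔽) (hf : f ∈ D.BB τ) (hr : D.red f = mono K u)
    (g0 : 𝔽) (hg0 : g0 ∈ D.BB τ) (hr0 : D.red g0 = mono K (-u)) : f⁻¹ ∈ D.BB τ := by
  have hBT : ∀ x, x ∈ D.BB τ → x ∈ D.T := fun x hx => (D.mem_BB.1 hx).1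
  have h1 : f * g0 ∈ D.BB τ := D.BB_mul τ _ _ hf hg0
  have h2 : D.red (f * g0) = 1 := by
    rw [D.red_mul _ _ (hBT _ hf) (hBT _ hg0), hr, hr0, AddMonoidAlgebra.single_mul_single, add_neg_cancel, one_mul]
    rfl
  have h3 : D.red (1 - f * g0) = 0 := by
    rw [D.red_sub _ _ D.one_mem (hBT _ h1), D.red_one, h2, sub_self]
  obtain ⟨h, hh, he⟩ := D.red_zero _ (Submodule.sub_mem _ D.one_mem (hBT _ h1)) h3
  have hh' : h ∈ D.BB τ := by
    refine D.BB_sat τ h hh 1 ?_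
    rw [pow_one, ← he]
    exact Submodule.sub_mem _ (D.BB_one τ) h1
  obtain ⟨s, hs, hs1, -⟩ := D.c6a_geom τ h hh'
  rw [← he, sub_sub_cancel] at hs1
  have h4 : f * (g0 * s) = 1 := by rw [← mul_assoc, hs1]
  rw [← eq_inv_of_mul_eq_one_right h4]
  exact D.BB_mul τ _ _ hg0 hs

theorem c6a_empty (f : 𝔽) : f ∈ D.BB ∅ ↔ f ∈ D.T := by
  rw [D.mem_BB]
  simp

/-- INVERSE for `T` (geometric series: choose `g0 ∈ T` with reduction `mono (-u)`, `f g0 = 1 - t h`, `h ∈ T`, sum the series `∑ t ^ n h ^ n`). Compare `Dat.geom`, `Dat.inv_mem`. -/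
theorem inv_T (f : 𝔽) (hf : f ∈ D.T) (u : ι → ℤ) (hu : u ∈ M) (hr : D.red f = mono K u) :
    f ≠ 0 ∧ f⁻¹ ∈ D.T ∧ D.red f⁻¹ = mono K (-u) := by
  have hf0 : f ≠ 0 := by
    rintro rfl
    rw [D.red_z] at hr
    have h1 : (0 : KZ K ι).coeff u = (mono K u).coeff u := by rw [hr]
    simp at h1
  obtain ⟨g0, hg0, hr0⟩ := D.red_surj (-u) (M.neg_mem hu)
  have hT : f⁻¹ ∈ D.T :=
    (D.c6a_empty _).1 (D.c6a_core ∅ u f ((D.c6a_empty _).2 hf) hr g0 ((D.c6a_empty _).2 hg0) hr0)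
  refine ⟨hf0, hT, ?_⟩
  have h1 := D.red_mul f f⁻¹ hf hT
  rw [mul_inv_cancel₀ hf0, D.red_one, hr] at h1
  have h2 : mono K (-u) * mono K u = (1 : KZ K ι) := by
    rw [AddMonoidAlgebra.single_mul_single, neg_add_cancel, one_mul]
    rfl
  calc D.red f⁻¹ = (mono K (-u) * mono K u) * D.red f⁻¹ := by rw [h2, one_mul]
    _ = mono K (-u) * (mono K u * D.red f⁻¹) := by rw [mul_assoc]
    _ = mono K (-u) := by rw [← h1, mul_one]

/-- INVERSE for `BB τ`: if `τ` is good, `u ∈ M`, `u = 0` on `τ`: choose `g0 ∈ BB τ` with reduction `mono (-u)`; `1 - f g0 = t h` with `h ∈ BB τ` (`BB_sat`); the series is in `BB τ` (`BB_closed`). -/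
theorem inv_BB (τ : Finset ι) (hτ : D.Good0 τ) (f : 𝔽) (hf : f ∈ D.BB τ) (u : ι → ℤ) (hu : u ∈ M)
    (hl : ∀ l ∈ τ, u l = 0) (hr : D.red f = mono K u) : f⁻¹ ∈ D.BB τ := by
  obtain ⟨g0, hg0, hr0⟩ := hτ (-u) (M.neg_mem hu) fun l hlτ => by
    rw [Pi.neg_apply, hl l hlτ, neg_zero]
  exact D.c6a_core τ u f hf hr g0 hg0 hr0

/-- polynomials with the right supports lift -/
theorem good0_lift (τ : Finset ι) (hτ : D.Good0 τ) (g : KZ K ι) (hs : ∀ u, g.coeff u ≠ 0 → u ∈ M ∧ ∀ l ∈ τ, 0 ≤ u l) :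
    ∃ f ∈ D.BB τ, D.red f = g := by
  classical
  have h1 : ∀ u : ι → ℤ, ∃ f : 𝔽, g.coeff u ≠ 0 → f ∈ D.BB τ ∧ D.red f = mono K u := by
    intro u
    by_cases hu : g.coeff u ≠ 0
    · obtain ⟨hM, hpos⟩ := hs u hu
      obtain ⟨f, hf, hf'⟩ := hτ u hM hpos
      exact ⟨f, fun _ => ⟨hf, hf'⟩⟩
    · exact ⟨0, fun h => absurd h hu⟩
  choose F hF using h1
  choose r hr using D.base.surj
  have hBT : ∀ x, x ∈ D.BB τ → x ∈ D.T := fun x hx => (D.mem_BB.1 hx).1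
  refine ⟨∑ u ∈ g.coeff.support, r (g.coeff u) • F u, ?_, ?_⟩
  · exact Submodule.sum_mem _ fun u hu => (D.BB τ).smul_mem _ (hF u (Finsupp.mem_support_iff.1 hu)).1
  · rw [D.red_sum _ _ fun u hu => D.T.smul_mem _ (hBT _ (hF u (Finsupp.mem_support_iff.1 hu)).1)]
    conv_rhs => rw [← AddMonoidAlgebra.sum_coeff_single g, Finsupp.sum]
    refine Finset.sum_congr rfl fun u hu => ?_
    have h2 := hF u (Finsupp.mem_support_iff.1 hu)
    rw [D.red_smul _ _ (hBT _ h2.1), h2.2, hr, AddMonoidAlgebra.smul_single, smul_eq_mul, mul_one]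

end D0

end Pool.Agent.TOR
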