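import Pool.Agent.TOR.C0

namespace Pool.Agent.TOR

open Set

universe u

variable {R K 𝔽 : Type u} [CommRing R] [Field K] [Algebra R K] [Field 𝔽] [Algebra R 𝔽] {t : R}
  {ι : Type} {M : AddSubgroup (ι → ℤ)} (D : D0 R K 𝔽 t M)


/-! Basics, exactly as for `Dat` (file B1): reduction of zero, differences, multiples of `t`, finite sums; torsion freeness; the closure properties of `BB`. -/

namespace D0

theorem red_z : D.red 0 = 0 := by
  have h := D.red_smul 0 0 (zero_mem _)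
  rwa [zero_smul, map_zero, zero_smul] at h

theorem red_sub (f g : 𝔽) (hf : f ∈ D.T) (hg : g ∈ D.T) : D.red (f - g) = D.red f - D.red g := by
  have h1 : f - g = f + (-1 : R) • g := by rw [neg_smul, one_smul, sub_eq_add_neg]
  rw [h1, D.red_add f _ hf (D.T.smul_mem _ hg), D.red_smul _ g hg, map_neg, map_one, neg_smul, one_smul,
    sub_eq_add_neg]

theorem red_tpow (f : 𝔽) (hf : f ∈ D.T) (N : ℕ) (hN : 1 ≤ N) : D.red (t ^ N • f) = 0 := by
  rw [D.red_smul _ f hf, map_pow, D.base.t_zero, zero_pow (by omega), zero_smul]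

theorem red_sum {J : Type*} (s : Finset J) (f : J → 𝔽) (hf : ∀ j ∈ s, f j ∈ D.T) :
    D.red (∑ j ∈ s, f j) = ∑ j ∈ s, D.red (f j) := by
  classical
  induction s using Finset.induction_on with
  | empty => simp only [Finset.sum_empty]; exact D.red_z
  | insert j s hj ih =>
    rw [Finset.sum_insert hj, Finset.sum_insert hj, D.red_add _ _ (hf j (Finset.mem_insert_self _ _))
      (Submodule.sum_mem _ fun i hi => hf i (Finset.mem_insert_of_mem hi)),
      ih fun i hi => hf i (Finset.mem_insert_of_mem hi)]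

include D in
theorem tpow_inj (N : ℕ) (f g : 𝔽) (h : t ^ N • f = t ^ N • g) : f = g := by
  have h1 : algebraMap R 𝔽 t ≠ 0 := fun h0 => D.base.t_ne (D.inj (h0.trans (map_zero _).symm))
  rw [Algebra.smul_def, Algebra.smul_def, map_pow] at h
  exact mul_left_cancel₀ (pow_ne_zero N h1) h

theorem BB_sat (τ : Finset ι) (f : 𝔽) (hf : f ∈ D.T) (N : ℕ) (h : t ^ N • f ∈ D.BB τ) : f ∈ D.BB τ := by
  rw [D.mem_BB]
  refine ⟨hf, fun l hl => ?_⟩
  have h1 : t ^ N • f ∈ D.B l := (D.mem_BB.1 h).2 l hl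
  clear h
  induction N with
  | zero => rwa [pow_zero, one_smul] at h1
  | succ N ih =>
    rw [pow_succ', mul_smul] at h1
    exact ih (D.B_sat l _ (D.T.smul_mem _ hf) h1)

theorem BB_mul (τ : Finset ι) (f g : 𝔽) (hf : f ∈ D.BB τ) (hg : g ∈ D.BB τ) : f * g ∈ D.BB τ := by
  rw [D.mem_BB] at hf hg ⊢
  exact ⟨D.mul_mem _ _ hf.1 hg.1, fun l hl => D.B_mul l _ _ (hf.2 l hl) (hg.2 l hl)⟩

theorem BB_one (τ : Finset ι) : (1 : 𝔽) ∈ D.BB τ := by
  rw [D.mem_BB]
  exact ⟨D.one_mem, fun l _ => D.B_one l⟩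

theorem BB_anti (σ τ : Finset ι) (h : σ ⊆ τ) (f : 𝔽) (hf : f ∈ D.BB τ) : f ∈ D.BB σ := by
  rw [D.mem_BB] at hf ⊢
  exact ⟨hf.1, fun l hl => hf.2 l (h hl)⟩

theorem BB_closed (τ : Finset ι) (f : 𝔽) (hf : f ∈ D.T)
    (h : ∀ N : ℕ, ∃ g ∈ D.BB τ, ∃ h ∈ D.T, f - g = t ^ N • h) : f ∈ D.BB τ := by
  rw [D.mem_BB]
  refine ⟨hf, fun l hl => D.B_closed l f hf fun N => ?_⟩
  obtain ⟨g, hg, k, hk, he⟩ := h N
  exact ⟨g, (D.mem_BB.1 hg).2 l hl, k, hk, he⟩

/-- every element of `T` is `t ^ N` times an element with nonzero reduction -/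
theorem T_div (f : 𝔽) (hf : f ∈ D.T) (h : f ≠ 0) : ∃ (N : ℕ) (g : 𝔽), g ∈ D.T ∧ f = t ^ N • g ∧ D.red g ≠ 0 := by
  by_contra hcon
  push Not at hcon
  apply h
  have key : ∀ N : ℕ, ∃ g ∈ D.T, f = t ^ N • g := by
    intro N
    induction N with
    | zero => exact ⟨f, hf, by rw [pow_zero, one_smul]⟩
    | succ N ih =>
      obtain ⟨g, hg, hfg⟩ := ih
      obtain ⟨g', hg', hgg⟩ := D.red_zero g hg (hcon N g hg hfg)
      exact ⟨g', hg', by rw [hfg, hgg, smul_smul, pow_succ]⟩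
  exact D.sep f hf key

end D0

end Pool.Agent.TOR
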