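import Pool.Agent.TOR.C6bb

namespace Pool.Agent.TOR

open Set

universe u

variable {R K 𝔽 : Type u} [CommRing R] [Field K] [Algebra R K] [Field 𝔽] [Algebra R 𝔽] {t : R}
  {ι : Type} [Fintype ι] [DecidableEq ι] {M : AddSubgroup (ι → ℤ)} (D : D0 R K 𝔽 t M)

/-- LINE BUNDLE. Start: `φ σ ∈ T` lifting `mono (u σ - v)` (`red_surj`); `φ σ / φ σ'` (in `T`, `inv_T`) and a lift `b ∈ BB (σ ∩ σ')` of `mono (u σ - u σ')` (`Good0`) have the same reduction: `LBN` for `N = 1`. Iterate `LBN.step`; the limits `Φ σ = φ σ + ∑ t ^ n • Δ_n σ` exist in `T` (`complete`), with the same reduction; `Φ σ / Φ σ'` is, for each `N`, in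
`BB (σ ∩ σ') + t ^ N T` (inverses of elements of `T` congruent modulo `t ^ N` with monomial reduction are congruent modulo `t ^ N`), so in `BB (σ ∩ σ')` (`BB_closed`). -/
theorem exists_line (a : ι → ℝ) (hb : Bornology.IsBounded (PP M Finset.univ a)) (hS : Simp M Finset.univ a)
    (hg : ∀ τ ∈ TS M Finset.univ a, D.Good0 τ) (v : ι → ℤ) (u : Finset ι → ι → ℤ)
    (hu : ∀ σ ∈ Vert M a, u σ - v ∈ M ∧ ∀ l ∈ σ, u σ l = 0) :
    ∃ Φ : Finset ι → 𝔽, (∀ σ ∈ Vert M a, Φ σ ∈ D.T ∧ D.red (Φ σ) = mono K (u σ - v)) ∧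
      ∀ σ ∈ Vert M a, ∀ σ' ∈ Vert M a, Φ σ * (Φ σ')⁻¹ ∈ D.BB (σ ∩ σ') := by
  classical
  have hBT : ∀ τ x, x ∈ D.BB τ → x ∈ D.T := fun τ x hx => (D.mem_BB.1 hx).1
  -- start
  have h0 : ∀ σ : Finset ι, ∃ f : 𝔽, σ ∈ Vert M a → f ∈ D.T ∧ D.red f = mono K (u σ - v) := by
    intro σ
    by_cases hσ : σ ∈ Vert M a
    · obtain ⟨f, hf, hf'⟩ := D.red_surj (u σ - v) (hu σ hσ).1
      exact ⟨f, fun _ => ⟨hf, hf'⟩⟩
    · exact ⟨0, fun h => absurd h hσ⟩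
  choose φ0 hφ0 using h0
  have hL0 : LBN D a v u 1 φ0 := by
    refine ⟨fun σ hσ => (hφ0 σ hσ).1, fun σ hσ => (hφ0 σ hσ).2, fun σ hσ σ' hσ' => ?_⟩
    obtain ⟨hf0, hinv, hinvr⟩ := D.inv_T (φ0 σ') (hφ0 σ' hσ').1 _ (hu σ' hσ').1 (hφ0 σ' hσ').2
    have h1 : φ0 σ * (φ0 σ')⁻¹ ∈ D.T := D.mul_mem _ _ (hφ0 σ hσ).1 hinv
    have h2 : D.red (φ0 σ * (φ0 σ')⁻¹) = mono K (u σ - u σ') := by
      rw [D.red_mul _ _ (hφ0 σ hσ).1 hinv, (hφ0 σ hσ).2, hinvr, AddMonoidAlgebra.single_mul_single, one_mul]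
      congr 1
      abel
    have h3 : σ ∩ σ' ∈ TS M Finset.univ a := TS_sub M _ a hS _ σ Finset.inter_subset_left hσ.1
    obtain ⟨b, hb', hbr⟩ := hg _ h3 (u σ - u σ') (by
      have := M.sub_mem (hu σ hσ).1 (hu σ' hσ').1
      rwa [sub_sub_sub_cancel_right] at this) (fun l hl => by
      rw [Pi.sub_apply, (hu σ hσ).2 l (Finset.mem_inter.1 hl).1, (hu σ' hσ').2 l (Finset.mem_inter.1 hl).2, sub_zero])
    obtain ⟨c, hc, hc'⟩ := D.red_zero (φ0 σ * (φ0 σ')⁻¹ - b) (Submodule.sub_mem _ h1 (hBT _ _ hb'))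
      (by rw [D.red_sub _ _ h1 (hBT _ _ hb'), h2, hbr, sub_self])
    exact ⟨b, hb', c, hc, by rw [pow_one]; exact hc'⟩
  -- iteration
  have step : ∀ (N : ℕ) (φ : Finset ι → 𝔽), ∃ Δ : Finset ι → 𝔽, 1 ≤ N → LBN D a v u N φ →
      (∀ σ ∈ Vert M a, Δ σ ∈ D.T) ∧ LBN D a v u (N + 1) (fun σ => φ σ + t ^ N • Δ σ) := by
    intro N φ
    by_cases h : 1 ≤ N ∧ LBN D a v u N φ
    · obtain ⟨Δ, h1, h2⟩ := LBN.step D a hb hS hg v u hu N h.1 φ h.2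
      exact ⟨Δ, fun _ _ => ⟨h1, h2⟩⟩
    · exact ⟨0, fun h1 h2 => absurd ⟨h1, h2⟩ h⟩
  choose B hB using step
  let fs : ℕ → Finset ι → 𝔽 := fun n => Nat.rec φ0 (fun n f => fun σ => f σ + t ^ (n + 1) • B (n + 1) f σ) n
  have hfs0 : fs 0 = φ0 := rfl
  have hfsS : ∀ n, fs (n + 1) = fun σ => fs n σ + t ^ (n + 1) • B (n + 1) (fs n) σ := fun n => rfl
  have hG : ∀ n, LBN D a v u (n + 1) (fs n) := by
    intro n
    induction n with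
    | zero => exact hL0
    | succ n ih =>
      rw [hfsS]
      exact (hB (n + 1) (fs n) (by omega) ih).2
  let β : ℕ → Finset ι → 𝔽 := fun n => Nat.casesOn n φ0 (fun n => B (n + 1) (fs n))
  have hβ0 : β 0 = φ0 := rfl
  have hβS : ∀ n, β (n + 1) = B (n + 1) (fs n) := fun n => rfl
  have hβ : ∀ n, ∀ σ ∈ Vert M a, β n σ ∈ D.T := by
    intro n σ hσ
    cases n with
    | zero => exact (hφ0 σ hσ).1
    | succ n => exact (hB (n + 1) (fs n) (by omega) (hG n)).1 σ hσ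
  have hsum : ∀ n σ, fs n σ = ∑ k ∈ Finset.range (n + 1), t ^ k • β k σ := by
    intro n σ
    induction n with
    | zero => rw [Finset.sum_range_one, pow_zero, one_smul, hβ0, hfs0]
    | succ n ih => rw [Finset.sum_range_succ, ← ih, hfsS, hβS]
  have hF : ∀ σ : Finset ι, ∃ F : 𝔽, σ ∈ Vert M a → F ∈ D.T ∧
      ∀ N : ℕ, ∃ h ∈ D.T, F - ∑ n ∈ Finset.range N, t ^ n • β n σ = t ^ N • h := by
    intro σ
    by_cases hσ : σ ∈ Vert M a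
    · obtain ⟨F, hF, hF'⟩ := D.complete (fun n => β n σ) fun n => hβ n σ hσ
      exact ⟨F, fun _ => ⟨hF, hF'⟩⟩
    · exact ⟨0, fun h => absurd h hσ⟩
  choose F hF using hF
  have hFr : ∀ σ ∈ Vert M a, D.red (F σ) = mono K (u σ - v) := by
    intro σ hσ
    obtain ⟨h1, hh1, e1⟩ := (hF σ hσ).2 1
    rw [Finset.sum_range_one, pow_zero, one_smul, hβ0] at e1
    have h2 : F σ = φ0 σ + t ^ 1 • h1 := by rw [← e1, add_sub_cancel]
    rw [h2, D.red_add _ _ (hφ0 σ hσ).1 (D.T.smul_mem _ hh1),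
      D.red_tpow h1 hh1 1 le_rfl, add_zero, (hφ0 σ hσ).2]
  refine ⟨F, fun σ hσ => ⟨(hF σ hσ).1, hFr σ hσ⟩, fun σ hσ σ' hσ' => ?_⟩
  obtain ⟨hF0', hFinv, -⟩ := D.inv_T (F σ') (hF σ' hσ').1 _ (hu σ' hσ').1 (hFr σ' hσ')
  have hT : F σ * (F σ')⁻¹ ∈ D.T := D.mul_mem _ _ (hF σ hσ).1 hFinv
  refine D.BB_closed _ _ hT fun N => ?_
  cases N with
  | zero => exact ⟨0, Submodule.zero_mem _, _, hT, by rw [sub_zero, pow_zero, one_smul]⟩
  | succ n =>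
    obtain ⟨h1, hh1, e1⟩ := (hF σ hσ).2 (n + 1)
    obtain ⟨h2, hh2, e2⟩ := (hF σ' hσ').2 (n + 1)
    rw [← hsum] at e1 e2
    obtain ⟨b, hb', c, hc, hbc⟩ := (hG n).rat σ hσ σ' hσ'
    have hfT : fs n σ ∈ D.T := (hG n).mem σ hσ
    have hfT' : fs n σ' ∈ D.T := (hG n).mem σ' hσ'
    obtain ⟨hf0', hfinv, -⟩ := D.inv_T (fs n σ') hfT' _ (hu σ' hσ').1 ((hG n).red σ' hσ')
    have hF1 : F σ = fs n σ + t ^ (n + 1) • h1 := by rw [← e1, add_sub_cancel]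
    have hF2 : F σ' = fs n σ' + t ^ (n + 1) • h2 := by rw [← e2, add_sub_cancel]
    refine ⟨b, hb', (h1 * fs n σ' - fs n σ * h2) * ((F σ')⁻¹ * (fs n σ')⁻¹) + c, ?_, ?_⟩
    · refine Submodule.add_mem _ (D.mul_mem _ _ (Submodule.sub_mem _ (D.mul_mem _ _ hh1 hfT')
        (D.mul_mem _ _ hfT hh2)) (D.mul_mem _ _ hFinv hfinv)) hc
    · rw [smul_add, ← hbc]
      have h3 : t ^ (n + 1) • ((h1 * fs n σ' - fs n σ * h2) * ((F σ')⁻¹ * (fs n σ')⁻¹)) =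
          F σ * (F σ')⁻¹ - fs n σ * (fs n σ')⁻¹ := by
        have h4 : t ^ (n + 1) • (h1 * fs n σ' - fs n σ * h2) = F σ * fs n σ' - fs n σ * F σ' := by
          rw [hF1, hF2, smul_sub, ← smul_mul_assoc, ← mul_smul_comm]
          ring
        rw [← smul_mul_assoc, h4]
        field_simp
      rw [h3]
      ring

end Pool.Agent.TOR
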