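import Pool.Agent.TOR.C6a
import Pool.Agent.TOR.C5

namespace Pool.Agent.TOR

open Set

universe u

variable {R K 𝔽 : Type u} [CommRing R] [Field K] [Algebra R K] [Field 𝔽] [Algebra R 𝔽] {t : R}
  {ι : Type} [Fintype ι] [DecidableEq ι] {M : AddSubgroup (ι → ℤ)} (D : D0 R K 𝔽 t M)

/-- the state of the successive approximation of a line bundle: `φ σ` a unit of `T` with reduction `mono (u σ - v)`, ratios in `BB (σ ∩ σ')` modulo `t ^ N` -/
structure LBN (D : D0 R K 𝔽 t M) (a : ι → ℝ) (v : ι → ℤ) (u : Finset ι → ι → ℤ) (N : ℕ) (φ : Finset ι → 𝔽) : Prop where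
  mem : ∀ σ ∈ Vert M a, φ σ ∈ D.T
  red : ∀ σ ∈ Vert M a, D.red (φ σ) = mono K (u σ - v)
  rat : ∀ σ ∈ Vert M a, ∀ σ' ∈ Vert M a, ∃ b ∈ D.BB (σ ∩ σ'), ∃ c ∈ D.T, φ σ * (φ σ')⁻¹ - b = t ^ N • c

/-- Splitting (linear algebra): for finitely supported `γ σ σ'` with exponents in `M` which are additive at `m` whenever the triple intersection meets `neg m`, there are `d σ` with exponents in `M` such that `γ σ σ' - (d σ - d σ')` is nonnegative on `σ ∩ σ'`. Proof: `shelling` for each of the finitely many `m ∈ M` in the supports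
(`Vert M a` is finite), `d σ = ∑ m, single m (d_m σ)`. -/
theorem split_M (a : ι → ℝ) (hb : Bornology.IsBounded (PP M Finset.univ a)) (hS : Simp M Finset.univ a)
    (c : Finset ι → Finset ι → KZ K ι) (hcM : ∀ σ ∈ Vert M a, ∀ σ' ∈ Vert M a, ∀ m, (c σ σ').coeff m ≠ 0 → m ∈ M)
    (hc : ∀ σ ∈ Vert M a, ∀ σ' ∈ Vert M a, ∀ σ'' ∈ Vert M a, ∀ m ∈ M, (σ ∩ σ' ∩ σ'' ∩ neg m).Nonempty →
      (c σ σ').coeff m + (c σ' σ'').coeff m = (c σ σ'').coeff m) :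
    ∃ d : Finset ι → KZ K ι, (∀ σ ∈ Vert M a, ∀ m, (d σ).coeff m ≠ 0 → m ∈ M) ∧
      ∀ σ ∈ Vert M a, ∀ σ' ∈ Vert M a, ∀ m, (c σ σ' - (d σ - d σ')).coeff m ≠ 0 → m ∈ M ∧ ∀ l ∈ σ ∩ σ', 0 ≤ m l := by
  classical
  have hVf : (Vert M a).Finite := Set.toFinite _
  let S : Finset (ι → ℤ) := hVf.toFinset.biUnion fun σ => hVf.toFinset.biUnion fun σ' => (c σ σ').coeff.support
  have hS' : ∀ σ ∈ Vert M a, ∀ σ' ∈ Vert M a, ∀ m, (c σ σ').coeff m ≠ 0 → m ∈ S := by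
    intro σ hσ σ' hσ' m hm
    exact Finset.mem_biUnion.2 ⟨σ, hVf.mem_toFinset.2 hσ, Finset.mem_biUnion.2 ⟨σ', hVf.mem_toFinset.2 hσ',
      Finsupp.mem_support_iff.2 hm⟩⟩
  have hSM : ∀ m ∈ S, m ∈ M := by
    intro m hm
    obtain ⟨σ, hσ, h1⟩ := Finset.mem_biUnion.1 hm
    obtain ⟨σ', hσ', h2⟩ := Finset.mem_biUnion.1 h1
    exact hcM σ (hVf.mem_toFinset.1 hσ) σ' (hVf.mem_toFinset.1 hσ') m (Finsupp.mem_support_iff.1 h2)
  have hd : ∀ m : ι → ℤ, ∃ d : Finset ι → K, m ∈ M → ∀ σ ∈ Vert M a, ∀ σ' ∈ Vert M a,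
      (σ ∩ σ' ∩ neg m).Nonempty → (c σ σ').coeff m = d σ - d σ' := by
    intro m
    by_cases hm : m ∈ M
    · obtain ⟨d, hd⟩ := shelling a hb hS m hm (fun σ σ' => (c σ σ').coeff m)
        (fun σ hσ σ' hσ' σ'' hσ'' hne => hc σ hσ σ' hσ' σ'' hσ'' m hm hne)
      exact ⟨d, fun _ => hd⟩
    · exact ⟨0, fun h => absurd h hm⟩
  choose dm hdm using hd
  let d : Finset ι → KZ K ι := fun σ => AddMonoidAlgebra.ofCoeff
    (Finsupp.onFinset S (fun m => if m ∈ S then dm m σ else 0) fun m hm => by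
      by_contra h
      exact hm (if_neg h))
  have hdc : ∀ σ m, (d σ).coeff m = if m ∈ S then dm m σ else 0 := fun σ m => rfl
  refine ⟨d, fun σ _ m hm => ?_, fun σ hσ σ' hσ' m hm => ?_⟩
  · rw [hdc] at hm
    by_cases h : m ∈ S
    · exact hSM m h
    · rw [if_neg h] at hm
      exact absurd rfl hm
  · rw [AddMonoidAlgebra.coeff_sub, AddMonoidAlgebra.coeff_sub, Finsupp.sub_apply, Finsupp.sub_apply, hdc, hdc] at hm
    have h : m ∈ S := by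
      by_contra h
      rw [if_neg h, if_neg h, sub_zero, sub_zero] at hm
      exact h (hS' σ hσ σ' hσ' m hm)
    rw [if_pos h, if_pos h] at hm
    refine ⟨hSM m h, fun l hl => ?_⟩
    by_contra hneg
    refine hm (sub_eq_zero.2 (hdm m (hSM m h) σ hσ σ' hσ' ⟨l, Finset.mem_inter.2 ⟨hl, mem_neg.2 (not_le.1 hneg)⟩⟩))

end Pool.Agent.TOR
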