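import Pool.Agent.TOR.C6ba

namespace Pool.Agent.TOR

open Set

universe u

variable {R K 𝔽 : Type u} [CommRing R] [Field K] [Algebra R K] [Field 𝔽] [Algebra R 𝔽] {t : R}
  {ι : Type} [Fintype ι] [DecidableEq ι] {M : AddSubgroup (ι → ℤ)} (D : D0 R K 𝔽 t M)

omit [DecidableEq ι] [Fintype ι] in
/-- membership in `T` of a product with a power of `t` -/
theorem c6bb_tm (N : ℕ) (x : 𝔽) (hx : x ∈ D.T) : algebraMap R 𝔽 t ^ N * x ∈ D.T := by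
  rw [← map_pow, ← Algebra.smul_def]
  exact D.T.smul_mem _ hx

omit [DecidableEq ι] [Fintype ι] in
theorem c6bb_red0 (N : ℕ) (hN : 1 ≤ N) (x : 𝔽) (hx : x ∈ D.T) :
    D.red (algebraMap R 𝔽 t ^ N * x) = 0 := by
  rw [← map_pow, ← Algebra.smul_def]
  exact D.red_tpow x hx N hN

/-- STEP. `u σ - v ∈ M`, `u σ = 0` on `σ`, all tight sets are good (`Good0`), `N ≥ 1`. Let `b ∈ BB (σ ∩ σ')` be as in `rat`: `red b = mono (u σ - u σ')` (`N ≥ 1`), zero on `σ ∩ σ'`, which is a tight set (`TS_sub`), so `b⁻¹ ∈ BB (σ ∩ σ')` (`inv_BB`) and `φ σ / φ σ' = b (1 + t ^ N c')`, `c' = b⁻¹ c ∈ T`. Choose `b = b σ σ'`, `c' = c' σ σ'` for all pairs.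
For a triple with intersection `τ`: `b σ σ' * b σ' σ'' * (b σ σ'')⁻¹ ∈ BB τ` and it equals `(1 + t ^ N c' σ σ'') (1 + t ^ N c' σ σ')⁻¹ (1 + t ^ N c' σ' σ'')⁻¹`, so `c' σ σ'' - c' σ σ' - c' σ' σ'' ∈ BB τ + t T` (saturation `BB_sat`; the inverses of `1 + t ^ N x` are in `T`: `inv_T` with `u = 0`), so `γ = red (c' ..)` is additive at `m` if `τ` meets `neg m` (`B_supp`).
`split_M` gives `d`; lift `- d σ` to `Δ σ ∈ T`. `φ' σ = φ σ * (1 + t ^ N • Δ σ)` (so the `Δ` of the statement is `φ σ * Δ σ`). Then `φ' σ / φ' σ' = b (1 + t ^ N (c' + Δ σ - Δ σ') + t ^ (N + 1) (..))`, and `red (c' + Δ σ - Δ σ') = γ - (d σ - d σ')` lifts to `e ∈ BB (σ ∩ σ')` (`good0_lift`): new `b' = b (1 + t ^ N e)`. -/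
theorem LBN.step (a : ι → ℝ) (hb : Bornology.IsBounded (PP M Finset.univ a)) (hS : Simp M Finset.univ a)
    (hg : ∀ τ ∈ TS M Finset.univ a, D.Good0 τ) (v : ι → ℤ) (u : Finset ι → ι → ℤ)
    (hu : ∀ σ ∈ Vert M a, u σ - v ∈ M ∧ ∀ l ∈ σ, u σ l = 0) (N : ℕ) (hN : 1 ≤ N) (φ : Finset ι → 𝔽)
    (h : LBN D a v u N φ) :
    ∃ Δ : Finset ι → 𝔽, (∀ σ ∈ Vert M a, Δ σ ∈ D.T) ∧ LBN D a v u (N + 1) (fun σ => φ σ + t ^ N • Δ σ) := by
  classical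
  set s : 𝔽 := algebraMap R 𝔽 t with hs
  have hsm : ∀ (k : ℕ) (x : 𝔽), t ^ k • x = s ^ k * x := fun k x => by
    rw [Algebra.smul_def, map_pow]
  have hφ : ∀ σ ∈ Vert M a, φ σ ≠ 0 ∧ (φ σ)⁻¹ ∈ D.T ∧ D.red (φ σ)⁻¹ = mono K (-(u σ - v)) :=
    fun σ hσ => D.inv_T _ (h.mem σ hσ) _ (hu σ hσ).1 (h.red σ hσ)
  -- the ratios
  have hbc : ∀ σ σ' : Finset ι, ∃ b c : 𝔽, σ ∈ Vert M a → σ' ∈ Vert M a →
      b ∈ D.BB (σ ∩ σ') ∧ b⁻¹ ∈ D.BB (σ ∩ σ') ∧ b ≠ 0 ∧ c ∈ D.T ∧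
      φ σ * (φ σ')⁻¹ = b * (1 + s ^ N * c) := by
    intro σ σ'
    by_cases hσ : σ ∈ Vert M a
    · by_cases hσ' : σ' ∈ Vert M a
      · obtain ⟨b, hb1, c, hc, hbc⟩ := h.rat σ hσ σ' hσ'
        obtain ⟨-, h2, h3⟩ := hφ σ' hσ'
        have hbT : b ∈ D.T := (D.mem_BB.1 hb1).1
        have hbe : b = φ σ * (φ σ')⁻¹ - t ^ N • c := by rw [← hbc]; ring
        have hred : D.red b = mono K (u σ - u σ') := by
          rw [hbe, D.red_sub _ _ (D.mul_mem _ _ (h.mem σ hσ) h2) (D.T.smul_mem _ hc),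
            D.red_tpow c hc N hN, sub_zero, D.red_mul _ _ (h.mem σ hσ) h2, h.red σ hσ, h3,
            AddMonoidAlgebra.single_mul_single, one_mul]
          congr 1
          abel
        have huM : u σ - u σ' ∈ M := by
          have := M.sub_mem (hu σ hσ).1 (hu σ' hσ').1
          have h4 : u σ - v - (u σ' - v) = u σ - u σ' := by abel
          rwa [h4] at this
        have hu0 : ∀ l ∈ σ ∩ σ', (u σ - u σ') l = 0 := by
          intro l hl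
          rw [Finset.mem_inter] at hl
          rw [Pi.sub_apply, (hu σ hσ).2 l hl.1, (hu σ' hσ').2 l hl.2, sub_zero]
        have hTS : σ ∩ σ' ∈ TS M Finset.univ a :=
          TS_sub M _ a hS _ σ Finset.inter_subset_left hσ.1
        have hinv := D.inv_BB (σ ∩ σ') (hg _ hTS) b hb1 _ huM hu0 hred
        have hne := (D.inv_T b hbT _ huM hred).1
        refine ⟨b, b⁻¹ * c, fun _ _ => ⟨hb1, hinv, hne, D.mul_mem _ _ (D.mem_BB.1 hinv).1 hc, ?_⟩⟩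
        rw [eq_comm]
        calc b * (1 + s ^ N * (b⁻¹ * c)) = b + s ^ N * c := by field_simp
          _ = φ σ * (φ σ')⁻¹ := by rw [hbe, hsm]; ring
      · exact ⟨0, 0, fun _ h' => absurd h' hσ'⟩
    · exact ⟨0, 0, fun h' => absurd h' hσ⟩
  choose b c hbc using hbc
  -- the cocycle condition
  have hcoc : ∀ σ ∈ Vert M a, ∀ σ' ∈ Vert M a, ∀ σ'' ∈ Vert M a, ∀ m ∈ M,
      (σ ∩ σ' ∩ σ'' ∩ neg m).Nonempty →
      (D.red (c σ σ')).coeff m + (D.red (c σ' σ'')).coeff m = (D.red (c σ σ'')).coeff m := by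
    intro σ hσ σ' hσ' σ'' hσ'' m hm hne
    obtain ⟨b1, b1i, b1n, x1, e1⟩ := hbc σ σ' hσ hσ'
    obtain ⟨b2, b2i, b2n, x2, e2⟩ := hbc σ' σ'' hσ' hσ''
    obtain ⟨b3, b3i, b3n, x3, e3⟩ := hbc σ σ'' hσ hσ''
    set τ := σ ∩ σ' ∩ σ'' with hτ
    have hβ : b σ σ' * b σ' σ'' * (b σ σ'')⁻¹ ∈ D.BB τ := by
      refine D.BB_mul τ _ _ (D.BB_mul τ _ _ (D.BB_anti τ _ ?_ _ b1) (D.BB_anti τ _ ?_ _ b2))
        (D.BB_anti τ _ ?_ _ b3i)
      all_goals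
        intro l hl
        simp only [hτ, Finset.mem_inter] at hl ⊢
        tauto
    set β := b σ σ' * b σ' σ'' * (b σ σ'')⁻¹ with hβd
    have hβT := (D.mem_BB.1 hβ).1
    have e4 : b σ σ' * (1 + s ^ N * c σ σ') * (b σ' σ'' * (1 + s ^ N * c σ' σ'')) =
        b σ σ'' * (1 + s ^ N * c σ σ'') := by
      rw [← e1, ← e2, ← e3]
      have := (hφ σ' hσ').1
      field_simp
    have e5 : β * ((1 + s ^ N * c σ σ') * (1 + s ^ N * c σ' σ'')) = 1 + s ^ N * c σ σ'' := by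
      have h5 : β * b σ σ'' = b σ σ' * b σ' σ'' := by
        rw [hβd]
        field_simp
      apply mul_left_cancel₀ b3n
      rw [← e4]
      linear_combination ((1 + s ^ N * c σ σ') * (1 + s ^ N * c σ' σ'')) * h5
    set w := c σ σ'' - β * (c σ σ' + c σ' σ'') - s ^ N * (β * (c σ σ' * c σ' σ'')) with hw
    have hwT : w ∈ D.T :=
      D.T.sub_mem (D.T.sub_mem x3 (D.mul_mem _ _ hβT (D.T.add_mem x1 x2)))
        (c6bb_tm D N _ (D.mul_mem _ _ hβT (D.mul_mem _ _ x1 x2)))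
    have e6 : t ^ N • w = β - 1 := by
      rw [hsm, hw]
      linear_combination (-1 : 𝔽) * e5
    have hwB : w ∈ D.BB τ := by
      refine D.BB_sat τ w hwT N ?_
      rw [e6]
      exact (D.BB τ).sub_mem hβ (D.BB_one τ)
    have hβr : D.red β = 1 := by
      have : β = 1 + t ^ N • w := by rw [e6]; ring
      rw [this, D.red_add _ _ D.one_mem (D.T.smul_mem _ hwT), D.red_tpow w hwT N hN, D.red_one,
        add_zero]
    have hwr : D.red w = D.red (c σ σ'') - (D.red (c σ σ') + D.red (c σ' σ'')) := by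
      rw [hw, D.red_sub _ _ (D.T.sub_mem x3 (D.mul_mem _ _ hβT (D.T.add_mem x1 x2)))
        (c6bb_tm D N _ (D.mul_mem _ _ hβT (D.mul_mem _ _ x1 x2))),
        D.red_sub _ _ x3 (D.mul_mem _ _ hβT (D.T.add_mem x1 x2)),
        D.red_mul _ _ hβT (D.T.add_mem x1 x2), D.red_add _ _ x1 x2, hβr, one_mul,
        c6bb_red0 D N hN _ (D.mul_mem _ _ hβT (D.mul_mem _ _ x1 x2)), sub_zero]
    obtain ⟨l, hl⟩ := hne
    rw [Finset.mem_inter, mem_neg] at hl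
    have h7 : (D.red w).coeff m = 0 := by
      by_contra h7
      have := D.B_supp l w ((D.mem_BB.1 hwB).2 l hl.1) m h7
      exact absurd hl.2 (not_lt.2 this)
    rw [hwr] at h7
    have h8 : (D.red (c σ σ'')).coeff m - ((D.red (c σ σ')).coeff m + (D.red (c σ' σ'')).coeff m)
        = 0 := h7
    exact (sub_eq_zero.1 h8).symm
  obtain ⟨d, hdM, hd⟩ := split_M a hb hS (fun σ σ' => D.red (c σ σ'))
    (fun σ hσ σ' hσ' m hm => D.red_supp _ (hbc σ σ' hσ hσ').2.2.2.1 m hm) hcoc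
  -- lift `- d σ`
  have hΔ : ∀ σ : Finset ι, ∃ x : 𝔽, σ ∈ Vert M a → x ∈ D.T ∧ D.red x = - d σ := by
    intro σ
    by_cases hσ : σ ∈ Vert M a
    · have hTS : (∅ : Finset ι) ∈ TS M Finset.univ a :=
        TS_sub M _ a hS _ σ (Finset.empty_subset _) hσ.1
      obtain ⟨x, hx, hx'⟩ := D.good0_lift ∅ (hg _ hTS) (- d σ) fun m hm =>
        ⟨hdM σ hσ m (fun h0 => hm (by
          change - (d σ).coeff m = 0
          rw [h0, neg_zero])), fun l hl => absurd hl (Finset.notMem_empty l)⟩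
      exact ⟨x, fun _ => ⟨(D.mem_BB.1 hx).1, hx'⟩⟩
    · exact ⟨0, fun h' => absurd h' hσ⟩
  choose Δ hΔ using hΔ
  have hmem : ∀ σ ∈ Vert M a, φ σ * Δ σ ∈ D.T := fun σ hσ =>
    D.mul_mem _ _ (h.mem σ hσ) (hΔ σ hσ).1
  refine ⟨fun σ => φ σ * Δ σ, hmem, ⟨fun σ hσ => ?_, fun σ hσ => ?_, fun σ hσ σ' hσ' => ?_⟩⟩
  · exact D.T.add_mem (h.mem σ hσ) (D.T.smul_mem _ (hmem σ hσ))
  · change D.red (φ σ + t ^ N • (φ σ * Δ σ)) = _
    rw [D.red_add _ _ (h.mem σ hσ) (D.T.smul_mem _ (hmem σ hσ)), D.red_tpow _ (hmem σ hσ) N hN,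
      add_zero, h.red σ hσ]
  · obtain ⟨hb1, hbi, hbn, hcT, hrat⟩ := hbc σ σ' hσ hσ'
    obtain ⟨hΔT, hΔr⟩ := hΔ σ hσ
    obtain ⟨hΔT', hΔr'⟩ := hΔ σ' hσ'
    have hTS : σ ∩ σ' ∈ TS M Finset.univ a :=
      TS_sub M _ a hS _ σ Finset.inter_subset_left hσ.1
    obtain ⟨e, he, her⟩ := D.good0_lift (σ ∩ σ') (hg _ hTS) (D.red (c σ σ') - (d σ - d σ'))
      (hd σ hσ σ' hσ')
    have heT := (D.mem_BB.1 he).1
    -- the unit `B`
    have hBT : 1 + s ^ N * Δ σ' ∈ D.T := D.T.add_mem D.one_mem (c6bb_tm D N _ hΔT')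
    have hBr : D.red (1 + s ^ N * Δ σ') = mono K (0 : ι → ℤ) := by
      rw [D.red_add _ _ D.one_mem (c6bb_tm D N _ hΔT'), c6bb_red0 D N hN _ hΔT', add_zero, D.red_one]
      rfl
    obtain ⟨hBn, hBi, -⟩ := D.inv_T _ hBT 0 M.zero_mem hBr
    have hy : c σ σ' + Δ σ - Δ σ' - e ∈ D.T :=
      D.T.sub_mem (D.T.sub_mem (D.T.add_mem hcT hΔT) hΔT') heT
    have hyr : D.red (c σ σ' + Δ σ - Δ σ' - e) = 0 := by
      rw [D.red_sub _ _ (D.T.sub_mem (D.T.add_mem hcT hΔT) hΔT') heT,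
        D.red_sub _ _ (D.T.add_mem hcT hΔT) hΔT', D.red_add _ _ hcT hΔT, hΔr, hΔr', her]
      abel
    obtain ⟨g, hg1, hg2⟩ := D.red_zero _ hy hyr
    have hg3 : c σ σ' + Δ σ - Δ σ' - e = s * g := by
      rw [hg2, Algebra.smul_def]
    obtain ⟨k, rfl⟩ : ∃ k, N = k + 1 := ⟨N - 1, by omega⟩
    refine ⟨b σ σ' * (1 + s ^ (k + 1) * e), ?_,
      b σ σ' * (1 + s ^ (k + 1) * Δ σ')⁻¹ * (g + s ^ k * (c σ σ' * Δ σ - e * Δ σ')), ?_, ?_⟩
    · refine D.BB_mul _ _ _ hb1 ((D.BB _).add_mem (D.BB_one _) ?_)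
      rw [← hsm]
      exact (D.BB _).smul_mem _ he
    · exact D.mul_mem _ _ (D.mul_mem _ _ (D.mem_BB.1 hb1).1 hBi) (D.T.add_mem hg1
        (c6bb_tm D k _ (D.T.sub_mem (D.mul_mem _ _ hcT hΔT) (D.mul_mem _ _ heT hΔT'))))
    · have hn := (hφ σ hσ).1
      have hn' := (hφ σ' hσ').1
      have h9 : (φ σ + t ^ (k + 1) • (φ σ * Δ σ)) * (φ σ' + t ^ (k + 1) • (φ σ' * Δ σ'))⁻¹ =
          φ σ * (φ σ')⁻¹ * ((1 + s ^ (k + 1) * Δ σ) * (1 + s ^ (k + 1) * Δ σ')⁻¹) := by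
        have h10 : φ σ' + t ^ (k + 1) • (φ σ' * Δ σ') = φ σ' * (1 + s ^ (k + 1) * Δ σ') := by
          rw [hsm]; ring
        rw [h10, mul_inv, hsm]
        ring
      rw [h9, hrat, hsm]
      have h11 : (1 + s ^ (k + 1) * Δ σ') * (1 + s ^ (k + 1) * Δ σ')⁻¹ = 1 := mul_inv_cancel₀ hBn
      set I := (1 + s ^ (k + 1) * Δ σ')⁻¹ with hI
      linear_combination (b σ σ' * I * s ^ (k + 1)) * hg3 +
        b σ σ' * (1 + s ^ (k + 1) * e) * h11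

end Pool.Agent.TOR
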