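import Pool.Agent.TOR.C7c

namespace Pool.Agent.TOR

open Set

universe u

variable {R K 𝔽 : Type u} [CommRing R] [Field K] [Algebra R K] [Field 𝔽] [Algebra R 𝔽] {t : R}
  {ι : Type} [Fintype ι] [DecidableEq ι] {M : AddSubgroup (ι → ℤ)}

/-- All tight sets are good. `τ ⊆ σ`, `σ ∈ Vert` (`vert_above`); `u ≥ 0` on `τ`: `u - uu σ γ ∈ M` (`γ = deg u`; `u - s γ ∈ M`) is `≥ 0` on `τ`, lifts to `g ∈ D.BB τ`; `f = g * Φ σ γ`; for `l ∈ τ`: `f / Φ (sel l) γ = g * (Φ σ γ / Φ (sel l) γ)`, the second factor in `D.BB (σ ∩ sel l)`, `l ∈ σ ∩ sel l`. -/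
theorem Dat_good (D : D0 R K 𝔽 t M) (a : ι → ℝ) {Γ : Type} [AddCommGroup Γ] (deg : (ι → ℤ) →+ Γ) (s : Γ →+ (ι → ℤ))
    (hdeg : ∀ v, deg v = 0 ↔ v ∈ M) (hs : ∀ γ, deg (s γ) = γ) (Φ : Finset ι → Γ → 𝔽) (uu : Finset ι → Γ → ι → ℤ)
    (L : IsLB D a s Φ uu) (sel : ι → Finset ι) (hsel : ∀ l, sel l ∈ Vert M a ∧ l ∈ sel l)
    (Dt : Dat R K 𝔽 t deg Finset.univ Finset.univ) (hT : ∀ γ, Dt.T γ = D.T)
    (hr : ∀ γ f, Dt.red γ f = D.red f * mono K (s γ)) (hR : ∀ l γ f, f ∈ Dt.Rl l γ ↔ f * (Φ (sel l) γ)⁻¹ ∈ D.B l)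
    (hg : ∀ τ ∈ TS M Finset.univ a, D.Good0 τ) (τ : Finset ι) (hτ : τ ∈ TS M Finset.univ a) : Dt.Good τ := by
  intro u _ hu
  obtain ⟨σ, hσ, hτσ⟩ := vert_above a τ hτ
  have h1 : u - s (deg u) ∈ M := by
    rw [← hdeg, map_sub, hs, sub_self]
  have h2 : u - uu σ (deg u) ∈ M := by
    have := M.sub_mem h1 (L.uuM σ hσ (deg u))
    rwa [sub_sub_sub_cancel_right] at this
  obtain ⟨g, hgB, hgr⟩ := hg τ hτ (u - uu σ (deg u)) h2 fun l hl => by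
    rw [Pi.sub_apply, L.uu0 σ hσ (deg u) l (hτσ hl), sub_zero]
    exact hu l hl
  obtain ⟨hgT, hgl⟩ := D.mem_BB.1 hgB
  have hΦT := L.mem σ hσ (deg u)
  refine ⟨g * Φ σ (deg u), ?_, ?_⟩
  · rw [Dt.mem_RR]
    refine ⟨by rw [hT]; exact D.mul_mem _ _ hgT hΦT, fun l hl => ?_⟩
    rw [hR, mul_assoc]
    obtain ⟨h3, h4⟩ := hsel l
    have h5 := (D.mem_BB.1 (L.rat σ hσ (sel l) h3 (deg u))).2 l
      (Finset.mem_inter.2 ⟨hτσ hl, h4⟩)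
    exact D.B_mul l _ _ (hgl l hl) h5
  · rw [hr, D.red_mul _ _ hgT hΦT, hgr, L.red σ hσ, AddMonoidAlgebra.single_mul_single,
      AddMonoidAlgebra.single_mul_single, one_mul, one_mul]
    congr 1
    abel

end Pool.Agent.TOR
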