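import Pool.Agent.TOR.C6b
import Pool.Agent.TOR.C3

namespace Pool.Agent.TOR

open Set

universe u

/-- extension by zero from the complement of `σ0` -/
def ext {ι : Type} [DecidableEq ι] (σ0 : Finset ι) : ({j : ι // j ∉ σ0} → ℤ) →+ (ι → ℤ) where
  toFun := fun γ i => if h : i ∈ σ0 then 0 else γ ⟨i, h⟩
  map_zero' := by
    funext i
    by_cases h : i ∈ σ0 <;> simp [h]
  map_add' := by
    intro x y
    funext i
    by_cases h : i ∈ σ0 <;> simp [h]

/-- the class group of the toric variety, with the section given by a vertex. Proof: for `v` let `m(v)` be the unique element of `M` which agrees with `v` on `σ0` (existence: `Delz` at the point with tight set `σ0`; uniqueness: `Vert`, `int_mem_mR`); it is additive in `v`; `deg v` = the restriction of `v - m(v)` to the complement of `σ0`. -/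
theorem exists_deg {ι : Type} [Fintype ι] [DecidableEq ι] {M : AddSubgroup (ι → ℤ)} (a : ι → ℝ) (hD : Delz M a)
    (σ0 : Finset ι) (h0 : σ0 ∈ Vert M a) :
    ∃ deg : (ι → ℤ) →+ ({j : ι // j ∉ σ0} → ℤ), (∀ v, deg v = 0 ↔ v ∈ M) ∧ ∀ γ, deg (ext σ0 γ) = γ := by
  obtain ⟨⟨p, hp, hpt⟩, hv⟩ := h0
  -- uniqueness
  have huniq : ∀ m ∈ M, ∀ m' ∈ M, (∀ l ∈ σ0, m l = m' l) → m = m' := by
    intro m hm m' hm' h
    have h1 := hv _ (int_mem_mR (M.sub_mem hm hm')) fun l hl => by
      simp [h l hl]
    funext l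
    have h2 := congrFun h1 l
    have h3 : ((m l - m' l : ℤ) : ℝ) = 0 := by
      simpa using h2
    have h4 : m l - m' l = 0 := by exact_mod_cast h3
    omega
  have hex : ∀ v : ι → ℤ, ∃ m ∈ M, ∀ l ∈ σ0, m l = v l := by
    intro v
    obtain ⟨m, hm, h⟩ := hD p hp v
    refine ⟨m, hm, fun l hl => h l ?_⟩
    rw [← hpt, mem_tight] at hl
    exact hl.2
  choose μ hμM hμ using hex
  have hμadd : ∀ v w, μ (v + w) = μ v + μ w := fun v w =>
    huniq _ (hμM _) _ (M.add_mem (hμM _) (hμM _)) fun l hl => by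
      rw [hμ _ l hl, Pi.add_apply, Pi.add_apply, hμ _ l hl, hμ _ l hl]
  have hμ0 : μ 0 = 0 := huniq _ (hμM _) _ M.zero_mem fun l hl => by
    rw [hμ _ l hl]
  let deg : (ι → ℤ) →+ ({j : ι // j ∉ σ0} → ℤ) :=
    { toFun := fun v j => (v - μ v) j.1
      map_zero' := by
        funext j
        simp [hμ0]
      map_add' := by
        intro v w
        funext j
        simp only [hμadd, Pi.sub_apply, Pi.add_apply]
        ring }
  refine ⟨deg, fun v => ⟨fun h => ?_, fun h => ?_⟩, fun γ => ?_⟩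
  · have h1 : v = μ v := by
      funext l
      by_cases hl : l ∈ σ0
      · rw [hμ v l hl]
      · have h2 := congrFun h ⟨l, hl⟩
        have h3 : v l - μ v l = 0 := h2
        omega
    rw [h1]
    exact hμM v
  · have h1 : μ v = v := huniq _ (hμM v) _ h fun l hl => hμ v l hl
    funext j
    change (v - μ v) j.1 = 0
    rw [h1]
    simp
  · have h1 : μ (ext σ0 γ) = 0 := huniq _ (hμM _) _ M.zero_mem fun l hl => by
      rw [hμ _ l hl]
      simp [ext, hl]
    funext j
    change (ext σ0 γ - μ (ext σ0 γ)) j.1 = γ j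
    rw [h1]
    simp [ext, j.2]

end Pool.Agent.TOR
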