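import Pool.Agent.TOR.C7a

namespace Pool.Agent.TOR

open Set

universe u

variable {R K 𝔽 : Type u} [CommRing R] [Field K] [Algebra R K] [Field 𝔽] [Algebra R 𝔽] {t : R}
  {ι : Type} [Fintype ι] [DecidableEq ι] {M : AddSubgroup (ι → ℤ)}

/-- trivialisations of all line bundles at all vertices -/
structure IsLB (D : D0 R K 𝔽 t M) (a : ι → ℝ) {Γ : Type} [AddCommGroup Γ] (s : Γ →+ (ι → ℤ)) (Φ : Finset ι → Γ → 𝔽)
    (uu : Finset ι → Γ → ι → ℤ) : Prop where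
  mul : ∀ σ ∈ Vert M a, ∀ γ γ', Φ σ (γ + γ') = Φ σ γ * Φ σ γ'
  mem : ∀ σ ∈ Vert M a, ∀ γ, Φ σ γ ∈ D.T
  ne : ∀ σ ∈ Vert M a, ∀ γ, Φ σ γ ≠ 0
  red : ∀ σ ∈ Vert M a, ∀ γ, D.red (Φ σ γ) = mono K (uu σ γ - s γ)
  uuM : ∀ σ ∈ Vert M a, ∀ γ, uu σ γ - s γ ∈ M
  uu0 : ∀ σ ∈ Vert M a, ∀ γ, ∀ l ∈ σ, uu σ γ l = 0
  rat : ∀ σ ∈ Vert M a, ∀ σ' ∈ Vert M a, ∀ γ, Φ σ γ * (Φ σ' γ)⁻¹ ∈ D.BB (σ ∩ σ')

omit [Fintype ι] [DecidableEq ι] in
theorem c7b_pow (D : D0 R K 𝔽 t M) (x : 𝔽) (u : ι → ℤ) (hx : x ∈ D.T) (hr : D.red x = mono K u)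
    (k : ℕ) : x ^ k ∈ D.T ∧ D.red (x ^ k) = mono K (k • u) := by
  induction k with
  | zero =>
    rw [pow_zero, zero_smul]
    exact ⟨D.one_mem, D.red_one⟩
  | succ k ih =>
    refine ⟨by rw [pow_succ]; exact D.mul_mem _ _ ih.1 hx, ?_⟩
    rw [pow_succ, D.red_mul _ _ ih.1 hx, ih.2, hr, AddMonoidAlgebra.single_mul_single, one_mul]
    congr 1
    rw [succ_nsmul]

omit [Fintype ι] [DecidableEq ι] in
theorem c7b_zpow (D : D0 R K 𝔽 t M) (x : 𝔽) (u : ι → ℤ) (hx : x ∈ D.T) (hr : D.red x = mono K u)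
    (hx' : x⁻¹ ∈ D.T) (hr' : D.red x⁻¹ = mono K (-u)) (n : ℤ) :
    x ^ n ∈ D.T ∧ D.red (x ^ n) = mono K (n • u) := by
  obtain ⟨k, rfl | rfl⟩ := n.eq_nat_or_neg
  · rw [zpow_natCast, natCast_zsmul]
    exact c7b_pow D x u hx hr k
  · rw [zpow_neg, zpow_natCast, ← inv_pow, neg_smul, natCast_zsmul, ← smul_neg]
    exact c7b_pow D x⁻¹ (-u) hx' hr' k

omit [Fintype ι] [DecidableEq ι] in
theorem c7b_zpow_BB (D : D0 R K 𝔽 t M) (τ : Finset ι) (x : 𝔽) (hx : x ∈ D.BB τ) (hx' : x⁻¹ ∈ D.BB τ)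
    (n : ℤ) : x ^ n ∈ D.BB τ := by
  have h : ∀ y ∈ D.BB τ, ∀ k : ℕ, y ^ k ∈ D.BB τ := by
    intro y hy k
    induction k with
    | zero =>
      rw [pow_zero]
      exact D.BB_one τ
    | succ k ih =>
      rw [pow_succ]
      exact D.BB_mul τ _ _ ih hy
  obtain ⟨k, rfl | rfl⟩ := n.eq_nat_or_neg
  · rw [zpow_natCast]
    exact h x hx k
  · rw [zpow_neg, zpow_natCast, ← inv_pow]
    exact h _ hx' k

omit [Fintype ι] [DecidableEq ι] in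
theorem c7b_prod (D : D0 R K 𝔽 t M) {J : Type} [DecidableEq J] (S : Finset J) (x : J → 𝔽)
    (u : J → ι → ℤ) (h : ∀ j ∈ S, x j ∈ D.T ∧ D.red (x j) = mono K (u j)) :
    ∏ j ∈ S, x j ∈ D.T ∧ D.red (∏ j ∈ S, x j) = mono K (∑ j ∈ S, u j) := by
  induction S using Finset.induction_on with
  | empty =>
    rw [Finset.prod_empty, Finset.sum_empty]
    exact ⟨D.one_mem, D.red_one⟩
  | insert j S hj ih =>
    obtain ⟨h1, h2⟩ := h j (Finset.mem_insert_self _ _)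
    obtain ⟨h3, h4⟩ := ih fun i hi => h i (Finset.mem_insert_of_mem hi)
    rw [Finset.prod_insert hj, Finset.sum_insert hj]
    refine ⟨D.mul_mem _ _ h1 h3, ?_⟩
    rw [D.red_mul _ _ h1 h3, h2, h4, AddMonoidAlgebra.single_mul_single, one_mul]

omit [Fintype ι] [DecidableEq ι] in
theorem c7b_prod_BB (D : D0 R K 𝔽 t M) (τ : Finset ι) {J : Type} [DecidableEq J] (S : Finset J)
    (x : J → 𝔽) (h : ∀ j ∈ S, x j ∈ D.BB τ) : ∏ j ∈ S, x j ∈ D.BB τ := by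
  induction S using Finset.induction_on with
  | empty =>
    rw [Finset.prod_empty]
    exact D.BB_one τ
  | insert j S hj ih =>
    rw [Finset.prod_insert hj]
    exact D.BB_mul τ _ _ (h j (Finset.mem_insert_self _ _))
      (ih fun i hi => h i (Finset.mem_insert_of_mem hi))

/-- For `Γ = J → ℤ`, `J` finite: for each basis vector `e_j` choose `u σ` (`Delz` at the point with tight set `σ`: `m ∈ M` with `m = s e_j` on `σ`, `u σ = s e_j - m`) and `exists_line` with `v = s e_j`; `Φ σ γ = ∏ j, Φ_j σ ^ (γ j)`, `uu σ γ = ∑ j, γ j • u_j σ`; integer powers: `inv_T`, `inv_BB`, `BB_mul`. -/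
theorem exists_LB (D : D0 R K 𝔽 t M) (a : ι → ℝ) (hb : Bornology.IsBounded (PP M Finset.univ a)) (hD : Delz M a)
    (hg : ∀ τ ∈ TS M Finset.univ a, D.Good0 τ) {J : Type} [Fintype J] [DecidableEq J] (s : (J → ℤ) →+ (ι → ℤ)) :
    ∃ (Φ : Finset ι → (J → ℤ) → 𝔽) (uu : Finset ι → (J → ℤ) → ι → ℤ), IsLB D a s Φ uu := by
  classical
  let v : J → ι → ℤ := fun j => s (Pi.single j 1)
  have hu : ∀ (j : J) (σ : Finset ι), ∃ u : ι → ℤ, σ ∈ Vert M a → u - v j ∈ M ∧ ∀ l ∈ σ, u l = 0 := by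
    intro j σ
    by_cases hσ : σ ∈ Vert M a
    · obtain ⟨p, hp, hpt⟩ := hσ.1
      obtain ⟨m, hm, h⟩ := hD p hp (v j)
      refine ⟨v j - m, fun _ => ⟨?_, fun l hl => ?_⟩⟩
      · have : v j - m - v j = -m := by abel
        rw [this]
        exact M.neg_mem hm
      · rw [← hpt, mem_tight] at hl
        rw [Pi.sub_apply, h l hl.2, sub_self]
    · exact ⟨0, fun h => absurd h hσ⟩
  choose u hu using hu
  have hline := fun j => exists_line D a hb (delz_simp a hD) hg (v j) (u j) (hu j)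
  choose P hP hPr using hline
  have hinv : ∀ j, ∀ σ ∈ Vert M a, P j σ ≠ 0 ∧ (P j σ)⁻¹ ∈ D.T ∧
      D.red (P j σ)⁻¹ = mono K (-(u j σ - v j)) := fun j σ hσ =>
    D.inv_T _ (hP j σ hσ).1 _ (hu j σ hσ).1 (hP j σ hσ).2
  have hsγ : ∀ γ : J → ℤ, s γ = ∑ j, γ j • v j := by
    intro γ
    have h1 : γ = ∑ j, γ j • (Pi.single j 1 : J → ℤ) := by
      funext i
      rw [Finset.sum_apply, Finset.sum_eq_single i]
      · simp
      · intro j _ hj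
        simp [Pi.single_eq_of_ne (Ne.symm hj)]
      · intro h
        exact absurd (Finset.mem_univ i) h
    conv_lhs => rw [h1]
    rw [map_sum]
    exact Finset.sum_congr rfl fun j _ => map_zsmul s _ _
  have hsum : ∀ (σ : Finset ι) (γ : J → ℤ),
      ∑ j, γ j • u j σ - s γ = ∑ j, γ j • (u j σ - v j) := by
    intro σ γ
    rw [hsγ, ← Finset.sum_sub_distrib]
    exact Finset.sum_congr rfl fun j _ => (smul_sub _ _ _).symm
  have hprod : ∀ σ ∈ Vert M a, ∀ γ : J → ℤ, ∏ j, P j σ ^ γ j ∈ D.T ∧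
      D.red (∏ j, P j σ ^ γ j) = mono K (∑ j, γ j • (u j σ - v j)) := fun σ hσ γ =>
    c7b_prod D _ _ _ fun j _ => c7b_zpow D _ _ (hP j σ hσ).1 (hP j σ hσ).2 (hinv j σ hσ).2.1
      (hinv j σ hσ).2.2 (γ j)
  refine ⟨fun σ γ => ∏ j, P j σ ^ γ j, fun σ γ => ∑ j, γ j • u j σ, ⟨?_, ?_, ?_, ?_, ?_, ?_, ?_⟩⟩
  · intro σ hσ γ γ'
    rw [← Finset.prod_mul_distrib]
    exact Finset.prod_congr rfl fun j _ => zpow_add₀ (hinv j σ hσ).1 _ _
  · intro σ hσ γ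
    exact (hprod σ hσ γ).1
  · intro σ hσ γ
    exact Finset.prod_ne_zero_iff.2 fun j _ => zpow_ne_zero _ (hinv j σ hσ).1
  · intro σ hσ γ
    rw [hsum]
    exact (hprod σ hσ γ).2
  · intro σ hσ γ
    rw [hsum]
    exact M.sum_mem fun j _ => M.zsmul_mem (hu j σ hσ).1 _
  · intro σ hσ γ l hl
    rw [Finset.sum_apply]
    refine Finset.sum_eq_zero fun j _ => ?_
    rw [Pi.smul_apply, (hu j σ hσ).2 l hl, smul_zero]
  · intro σ hσ σ' hσ' γ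
    rw [← Finset.prod_inv_distrib, ← Finset.prod_mul_distrib]
    refine c7b_prod_BB D _ _ _ fun j _ => ?_
    rw [← inv_zpow, ← mul_zpow]
    refine c7b_zpow_BB D _ _ (hPr j σ hσ σ' hσ') ?_ _
    rw [mul_inv, inv_inv, mul_comm, Finset.inter_comm]
    exact hPr j σ' hσ' σ hσ

end Pool.Agent.TOR
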