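import Pool.Agent.TOR.C7b

namespace Pool.Agent.TOR

open Set

universe u

variable {R K 𝔽 : Type u} [CommRing R] [Field K] [Algebra R K] [Field 𝔽] [Algebra R 𝔽] {t : R}
  {ι : Type} [Fintype ι] [DecidableEq ι] {M : AddSubgroup (ι → ℤ)}

omit [Fintype ι] [DecidableEq ι] in
theorem c7c_coeff (x : KZ K ι) (v u : ι → ℤ) : (x * mono K v).coeff u = x.coeff (u - v) := by
  rw [AddMonoidAlgebra.coeff_mul_single_apply, mul_one, sub_eq_add_neg]

omit [Fintype ι] [DecidableEq ι] in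
theorem c7c_mono (v u : ι → ℤ) : mono K v * mono K u = mono K (v + u) := by
  rw [AddMonoidAlgebra.single_mul_single, one_mul]

/-- THE DATA OF THE CORE THEOREM. `T γ = D.T`, `red γ f = D.red f * mono (s γ)`, `Rl l γ = {f | f * (Φ (sel l) γ)⁻¹ ∈ D.B l}` (`sel l` a vertex containing `l`). `red_supp`: exponents `m + s γ`, `m ∈ M`, of degree `γ`. `Rl_supp`: `red (f) = red (f / Φ) * red Φ`, exponents `m + uu (sel l) γ` with `m l ≥ 0`, `uu l = 0`. `Rl_surj`: `u - uu (sel l) γ ∈ M` with nonnegative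
`l`-coordinate lifts to `B l` (`Good0 {l}`). `Rl_one`: `Φ σ 0 = 1` (`mul`, `ne`). Closedness, saturation: multiply by `Φ⁻¹ = Φ (-γ) ∈ T`. -/
theorem exists_Dat (D : D0 R K 𝔽 t M) (a : ι → ℝ) {Γ : Type} [AddCommGroup Γ] (deg : (ι → ℤ) →+ Γ) (s : Γ →+ (ι → ℤ))
    (hdeg : ∀ v, deg v = 0 ↔ v ∈ M) (hs : ∀ γ, deg (s γ) = γ) (Φ : Finset ι → Γ → 𝔽) (uu : Finset ι → Γ → ι → ℤ)
    (L : IsLB D a s Φ uu) (sel : ι → Finset ι) (hsel : ∀ l, sel l ∈ Vert M a ∧ l ∈ sel l) (hg : ∀ l, D.Good0 {l}) :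
    ∃ Dt : Dat R K 𝔽 t deg Finset.univ Finset.univ, (∀ γ, Dt.T γ = D.T) ∧
      (∀ γ f, Dt.red γ f = D.red f * mono K (s γ)) ∧ ∀ l γ f, f ∈ Dt.Rl l γ ↔ f * (Φ (sel l) γ)⁻¹ ∈ D.B l := by
  -- basic facts on `Φ`
  have hΦ0 : ∀ l, Φ (sel l) 0 = 1 := by
    intro l
    have h1 := L.mul (sel l) (hsel l).1 0 0
    rw [add_zero] at h1
    exact mul_left_cancel₀ (L.ne (sel l) (hsel l).1 0) (by rw [← h1, mul_one])
  have hΦinv : ∀ l γ, (Φ (sel l) γ)⁻¹ = Φ (sel l) (-γ) := by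
    intro l γ
    apply inv_eq_of_mul_eq_one_right
    rw [← L.mul (sel l) (hsel l).1, add_neg_cancel, hΦ0]
  have hΦT : ∀ l γ, (Φ (sel l) γ)⁻¹ ∈ D.T := by
    intro l γ
    rw [hΦinv]
    exact L.mem _ (hsel l).1 _
  have hcancel : ∀ l γ (f : 𝔽), f = f * (Φ (sel l) γ)⁻¹ * Φ (sel l) γ := by
    intro l γ f
    rw [mul_assoc, inv_mul_cancel₀ (L.ne _ (hsel l).1 γ), mul_one]
  have hM : ∀ u, u - s (deg u) ∈ M := by
    intro u
    rw [← hdeg, map_sub, hs, sub_self]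
  have hmono : ∀ l γ f, f * (Φ (sel l) γ)⁻¹ ∈ D.B l → D.red f * mono K (s γ) =
      D.red (f * (Φ (sel l) γ)⁻¹) * mono K (uu (sel l) γ) := by
    intro l γ f hf
    conv_lhs => rw [hcancel l γ f]
    rw [D.red_mul _ _ (D.B_le l _ hf) (L.mem _ (hsel l).1 γ), L.red _ (hsel l).1 γ, mul_assoc,
      c7c_mono, sub_add_cancel]
  refine ⟨{ T := fun _ => D.T
            Rl := fun l γ => (D.B l).comap (LinearMap.mulRight R ((Φ (sel l) γ)⁻¹))
            red := fun γ f => D.red f * mono K (s γ)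
            base := D.base
            inj := D.inj
            EV := subset_rfl
            one_mem := D.one_mem
            mul_mem := fun _ _ f g hf hg => D.mul_mem f g hf hg
            red_one := ?_
            red_add := ?_
            red_smul := ?_
            red_mul := ?_
            red_supp := ?_
            red_surj := ?_
            red_zero := ?_
            complete := fun _ g hg => D.complete g hg
            sep := fun _ f hf h => D.sep f hf h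
            Rl_le := ?_
            Rl_one := ?_
            Rl_mul := ?_
            Rl_sat := ?_
            Rl_closed := ?_
            Rl_supp := ?_
            Rl_surj := ?_ }, fun _ => rfl, fun _ _ => rfl, fun _ _ _ => Iff.rfl⟩
  · rw [D.red_one, map_zero, one_mul, AddMonoidAlgebra.one_def]
  · intro γ f g hf hg
    rw [D.red_add f g hf hg, add_mul]
  · intro γ r f hf
    rw [D.red_smul r f hf, smul_mul_assoc]
  · intro γ γ' f g hf hg
    rw [D.red_mul f g hf hg, map_add, ← c7c_mono]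
    ring
  · intro γ f hf u hu
    rw [c7c_coeff] at hu
    have h1 := D.red_supp f hf _ hu
    refine ⟨fun i hi => absurd (Finset.mem_univ i) hi, ?_⟩
    rw [← hdeg, map_sub, hs, sub_eq_zero] at h1
    exact h1
  · intro u _
    obtain ⟨f, hf, hf'⟩ := D.red_surj _ (hM u)
    refine ⟨f, hf, ?_⟩
    rw [hf', c7c_mono, sub_add_cancel]
  · intro γ f hf h
    apply D.red_zero f hf
    have h1 := congrArg (fun x => x * mono K (-s γ)) h
    simp only [zero_mul, mul_assoc, c7c_mono, add_neg_cancel] at h1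
    have e0 : (mono K (0 : ι → ℤ)) = 1 := AddMonoidAlgebra.one_def.symm
    rw [e0, mul_one] at h1
    exact h1
  · intro l _ γ f hf
    have hf : f * (Φ (sel l) γ)⁻¹ ∈ D.B l := hf
    rw [hcancel l γ f]
    exact D.mul_mem _ _ (D.B_le l _ hf) (L.mem _ (hsel l).1 γ)
  · intro l _
    change (1 : 𝔽) * (Φ (sel l) 0)⁻¹ ∈ D.B l
    rw [hΦ0, inv_one, mul_one]
    exact D.B_one l
  · intro l _ γ γ' f g hf hg
    have hf : f * (Φ (sel l) γ)⁻¹ ∈ D.B l := hf
    have hg : g * (Φ (sel l) γ')⁻¹ ∈ D.B l := hg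
    change f * g * (Φ (sel l) (γ + γ'))⁻¹ ∈ D.B l
    have h1 : f * g * (Φ (sel l) (γ + γ'))⁻¹ =
        f * (Φ (sel l) γ)⁻¹ * (g * (Φ (sel l) γ')⁻¹) := by
      rw [L.mul _ (hsel l).1, mul_inv]
      ring
    rw [h1]
    exact D.B_mul l _ _ hf hg
  · intro l _ γ f hf h
    have h : (t • f) * (Φ (sel l) γ)⁻¹ ∈ D.B l := h
    change f * (Φ (sel l) γ)⁻¹ ∈ D.B l
    rw [smul_mul_assoc] at h
    exact D.B_sat l _ (D.mul_mem _ _ hf (hΦT l γ)) h
  · intro l _ γ f hf h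
    change f * (Φ (sel l) γ)⁻¹ ∈ D.B l
    apply D.B_closed l _ (D.mul_mem _ _ hf (hΦT l γ))
    intro N
    obtain ⟨g, hg, h', hh', heq⟩ := h N
    have hg : g * (Φ (sel l) γ)⁻¹ ∈ D.B l := hg
    refine ⟨_, hg, h' * (Φ (sel l) γ)⁻¹, D.mul_mem _ _ hh' (hΦT l γ), ?_⟩
    rw [← sub_mul, heq, smul_mul_assoc]
  · intro l _ γ f hf u hu
    have hf : f * (Φ (sel l) γ)⁻¹ ∈ D.B l := hf
    rw [hmono l γ f hf, c7c_coeff] at hu
    have h1 := D.B_supp l _ hf _ hu
    rw [Pi.sub_apply, L.uu0 _ (hsel l).1 γ l (hsel l).2, sub_zero] at h1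
    exact h1
  · intro l _ u _ hul
    have h1 : u - uu (sel l) (deg u) ∈ M := by
      have h2 := M.sub_mem (hM u) (L.uuM _ (hsel l).1 (deg u))
      rwa [sub_sub_sub_cancel_right] at h2
    obtain ⟨g, hg, hg'⟩ := hg l _ h1 (fun k hk => by
      rw [Finset.mem_singleton] at hk
      rw [hk, Pi.sub_apply, L.uu0 _ (hsel l).1 _ l (hsel l).2, sub_zero]
      exact hul)
    have hgB : g ∈ D.B l := (D.mem_BB.mp hg).2 l (Finset.mem_singleton_self l)
    have h3 : g * Φ (sel l) (deg u) * (Φ (sel l) (deg u))⁻¹ = g := by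
      rw [mul_assoc, mul_inv_cancel₀ (L.ne _ (hsel l).1 _), mul_one]
    have h4 : g * Φ (sel l) (deg u) * (Φ (sel l) (deg u))⁻¹ ∈ D.B l := by
      rw [h3]
      exact hgB
    refine ⟨g * Φ (sel l) (deg u), h4, ?_⟩
    rw [hmono l _ _ h4, h3, hg', c7c_mono, sub_add_cancel]

end Pool.Agent.TOR
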