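import Pool.Agent.TOR.B7

namespace Pool.Agent.TOR

open Set

universe u


/-- NAKAYAMA (abstract form) -/
theorem c8a_gen {R K 𝔽 : Type u} [CommRing R] [Field K] [Algebra R K] [Field 𝔽] [Algebra R 𝔽] {t : R} (hB : BaseR R K t)
    {ι : Type} (N : Submodule R 𝔽) (ρ : 𝔽 → KZ K ι)
    (hadd : ∀ f ∈ N, ∀ g ∈ N, ρ (f + g) = ρ f + ρ g) (hsmul : ∀ (r : R), ∀ f ∈ N, ρ (r • f) = algebraMap R K r • ρ f)
    (hzero : ∀ f ∈ N, ρ f = 0 → ∃ g ∈ N, f = t • g) (hsep : ∀ f ∈ N, (∀ n : ℕ, ∃ g ∈ N, f = t ^ n • g) → f = 0)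
    (S : Finset (ι → ℤ)) (hS : ∀ f ∈ N, ∀ u, (ρ f).coeff u ≠ 0 → u ∈ S) :
    ∃ (d : ℕ) (f : Fin d → 𝔽), d ≤ S.card ∧ ∀ g ∈ N, ∃ s : Fin d → R, g = ∑ i, s i • f i := by
  classical
  have hz0 : ρ 0 = 0 := by
    have h := hsmul 0 0 N.zero_mem
    simpa using h
  let P : Submodule K (S → K) :=
    { carrier := {v | ∃ f ∈ N, ∀ u : S, v u = (ρ f).coeff (u : ι → ℤ)}
      zero_mem' := ⟨0, N.zero_mem, fun u => by rw [hz0]; rfl⟩
      add_mem' := by
        rintro v w ⟨f, hf, hv⟩ ⟨g, hg, hw⟩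
        refine ⟨f + g, N.add_mem hf hg, fun u => ?_⟩
        rw [Pi.add_apply, hv, hw, hadd f hf g hg]
        rfl
      smul_mem' := by
        rintro k v ⟨f, hf, hv⟩
        obtain ⟨r, rfl⟩ := hB.surj k
        refine ⟨r • f, N.smul_mem _ hf, fun u => ?_⟩
        rw [Pi.smul_apply, hv, hsmul r f hf]
        rfl }
  have hPmem : ∀ v, v ∈ P ↔ ∃ f ∈ N, ∀ u : S, v u = (ρ f).coeff (u : ι → ℤ) := fun v => Iff.rfl
  let b := Module.finBasis K P
  have hdim : Module.finrank K P ≤ S.card := by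
    have h1 := Submodule.finrank_le P
    rwa [Module.finrank_fintype_fun_eq_card, Fintype.card_coe] at h1
  choose f hf hfb using fun i => (hPmem (b i : S → K)).1 (b i).2
  refine ⟨Module.finrank K P, f, hdim, ?_⟩
  -- one step
  have hsumN : ∀ r : Fin (Module.finrank K P) → R, ∑ i, r i • f i ∈ N := fun r =>
    Submodule.sum_mem _ fun i _ => Submodule.smul_mem _ _ (hf i)
  have hρsum : ∀ (r : Fin (Module.finrank K P) → R) (s : Finset (Fin (Module.finrank K P))),
      (∑ i ∈ s, r i • f i) ∈ N ∧ ρ (∑ i ∈ s, r i • f i) = ∑ i ∈ s, algebraMap R K (r i) • ρ (f i) := by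
    intro r s
    induction s using Finset.induction_on with
    | empty => exact ⟨by simp, by simpa using hz0⟩
    | insert a s ha ih =>
      rw [Finset.sum_insert ha, Finset.sum_insert ha]
      exact ⟨N.add_mem (N.smul_mem _ (hf a)) ih.1, by rw [hadd _ (N.smul_mem _ (hf a)) _ ih.1, ih.2, hsmul _ _ (hf a)]⟩
  have hstep : ∀ g : N, ∃ (r : Fin (Module.finrank K P) → R) (g' : N), (g : 𝔽) = ∑ i, r i • f i + t • (g' : 𝔽) := by
    intro g
    have hv : (fun u : S => (ρ (g : 𝔽)).coeff (u : ι → ℤ)) ∈ P := ⟨g, g.2, fun u => rfl⟩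
    have h1 := b.sum_repr ⟨_, hv⟩
    choose r hr using fun i => hB.surj (b.repr ⟨_, hv⟩ i)
    have h2 : ρ ((g : 𝔽) - ∑ i, r i • f i) = 0 := by
      have h3 : (g : 𝔽) - ∑ i, r i • f i ∈ N := N.sub_mem g.2 (hsumN r)
      have h4 : ρ (g : 𝔽) = ρ ((g : 𝔽) - ∑ i, r i • f i) + ρ (∑ i, r i • f i) := by
        rw [← hadd _ h3 _ (hsumN r), sub_add_cancel]
      apply AddMonoidAlgebra.coeff_injective
      ext u
      by_cases hu : u ∈ S
      · have h5 := congrArg (fun z : P => (z : S → K) ⟨u, hu⟩) h1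
        simp only [Submodule.coe_sum, Submodule.coe_smul, Finset.sum_apply, Pi.smul_apply, hfb, smul_eq_mul] at h5
        have h6 := congrArg (fun z : KZ K ι => z.coeff u) h4
        rw [(hρsum r Finset.univ).2] at h6
        simp only [AddMonoidAlgebra.coeff_add, AddMonoidAlgebra.coeff_sum, Finsupp.add_apply, Finsupp.coe_finsetSum,
          Finset.sum_apply, AddMonoidAlgebra.coeff_smul, Finsupp.smul_apply, smul_eq_mul, hr] at h6
        rw [h5] at h6
        simpa using h6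
      · by_contra h7
        exact hu (hS _ h3 u (by simpa using h7))
    obtain ⟨g', hg', e⟩ := hzero _ (N.sub_mem g.2 (hsumN r)) h2
    exact ⟨r, ⟨g', hg'⟩, by rw [← e]; ring⟩
  choose r nx hrn using hstep
  intro g hg
  let G : ℕ → N := fun n => Nat.rec (motive := fun _ => N) ⟨g, hg⟩ (fun _ z => nx z) n
  have hG0 : (G 0 : 𝔽) = g := rfl
  have hGs : ∀ n, (G n : 𝔽) = ∑ i, r (G n) i • f i + t • (G (n + 1) : 𝔽) := fun n => hrn (G n)
  have hiter : ∀ n, g = ∑ i, (∑ k ∈ Finset.range n, t ^ k * r (G k) i) • f i + t ^ n • (G n : 𝔽) := by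
    intro n
    induction n with
    | zero => simp [hG0]
    | succ n ih =>
      have h1 : ∑ i, (∑ k ∈ Finset.range (n + 1), t ^ k * r (G k) i) • f i =
          ∑ i, (∑ k ∈ Finset.range n, t ^ k * r (G k) i) • f i + t ^ n • ∑ i, r (G n) i • f i := by
        rw [Finset.smul_sum, ← Finset.sum_add_distrib]
        refine Finset.sum_congr rfl fun i _ => ?_
        rw [Finset.sum_range_succ, add_smul, mul_smul]
      rw [h1]
      conv_lhs => rw [ih, hGs n]
      rw [smul_add, smul_smul, ← pow_succ, add_assoc]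
  choose s hs using fun i => hB.complete (fun k => r (G k) i)
  refine ⟨s, ?_⟩
  rw [← sub_eq_zero]
  refine hsep _ (N.sub_mem hg (hsumN s)) fun n => ?_
  choose q hq using fun i => hs i n
  refine ⟨(G n : 𝔽) - ∑ i, q i • f i, N.sub_mem (G n).2 (hsumN q), ?_⟩
  have h1 : ∑ i, s i • f i = ∑ i, (∑ k ∈ Finset.range n, t ^ k * r (G k) i) • f i + t ^ n • ∑ i, q i • f i := by
    rw [Finset.smul_sum, ← Finset.sum_add_distrib]
    refine Finset.sum_congr rfl fun i _ => ?_
    rw [smul_smul, ← hq i, ← add_smul]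
    congr 1
    ring
  rw [h1]
  conv_lhs => rw [hiter n]
  rw [smul_sub]
  ring

/-- RANK BOUND (abstract form; compare `Dat.exists_gen`, `Dat.dep_of_card`, whose proofs can be copied). -/
theorem abs_dep {R K 𝔽 : Type u} [CommRing R] [Field K] [Algebra R K] [Field 𝔽] [Algebra R 𝔽] {t : R} (hB : BaseR R K t)
    (hinj : Function.Injective (algebraMap R 𝔽)) {ι : Type} (N : Submodule R 𝔽) (ρ : 𝔽 → KZ K ι)
    (hadd : ∀ f ∈ N, ∀ g ∈ N, ρ (f + g) = ρ f + ρ g) (hsmul : ∀ (r : R), ∀ f ∈ N, ρ (r • f) = algebraMap R K r • ρ f)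
    (hzero : ∀ f ∈ N, ρ f = 0 → ∃ g ∈ N, f = t • g) (hsep : ∀ f ∈ N, (∀ n : ℕ, ∃ g ∈ N, f = t ^ n • g) → f = 0)
    (S : Finset (ι → ℤ)) (hS : ∀ f ∈ N, ∀ u, (ρ f).coeff u ≠ 0 → u ∈ S)
    {J : Type} [Fintype J] (x : J → 𝔽) (hx : ∀ j, x j ∈ N) (hJ : S.card < Fintype.card J) :
    ∃ r : J → R, r ≠ 0 ∧ ∑ j, r j • x j = 0 := by
  classical
  obtain ⟨d, f, hd, hf⟩ := c8a_gen hB N ρ hadd hsmul hzero hsep S hS
  haveI : Nontrivial R := ⟨t, 0, hB.t_ne⟩
  choose s hs using fun i => hf (x i) (hx i)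
  let L : (J → R) →ₗ[R] (Fin d → R) :=
    { toFun := fun r i => ∑ j, r j * s j i
      map_add' := fun r r' => by
        funext i
        simp [add_mul, Finset.sum_add_distrib]
      map_smul' := fun c r => by
        funext i
        simp [Finset.mul_sum, mul_assoc] }
  have hL : ¬ Function.Injective L := by
    intro h
    have h1 := card_le_of_injective R L h
    rw [Fintype.card_fin] at h1
    omega
  rw [injective_iff_map_eq_zero] at hL
  push Not at hL
  obtain ⟨r, hr, hr0⟩ := hL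
  refine ⟨r, hr0, ?_⟩
  have h1 : ∑ j, r j • x j = ∑ i, (L r i) • f i := by
    calc ∑ j, r j • x j = ∑ j, ∑ i, (r j * s j i) • f i := by
          refine Finset.sum_congr rfl fun j _ => ?_
          conv_lhs => rw [hs j]
          rw [Finset.smul_sum]
          exact Finset.sum_congr rfl fun i _ => by rw [smul_smul]
      _ = ∑ i, ∑ j, (r j * s j i) • f i := Finset.sum_comm
      _ = ∑ i, (L r i) • f i := by
          refine Finset.sum_congr rfl fun i _ => ?_
          rw [← Finset.sum_smul]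
          rfl
  rw [h1, hr]
  simp

end Pool.Agent.TOR
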