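import Pool.Agent.TOR.C8b
import Pool.Agent.TOR.C8a

namespace Pool.Agent.TOR

open Set

universe u

variable {R K κ 𝔽 : Type u} [CommRing R] [Field K] [Algebra R K] [Field κ] [Algebra R κ] [Field 𝔽] [Algebra R 𝔽] {t : R}
  {ι : Type} [Fintype ι] [DecidableEq ι] {M : AddSubgroup (ι → ℤ)} {a : ι → ℤ}

section

variable {F : FD R K κ t M a} {D : D0 R K 𝔽 t M} {j : κ →ₐ[R] 𝔽} {Γ : Type} [AddCommGroup Γ] {deg : (ι → ℤ) →+ Γ}
    {s : Γ →+ (ι → ℤ)} {Φ : Finset ι → Γ → 𝔽} {uu : Finset ι → Γ → ι → ℤ} {sel : ι → Finset ι} {σ0 : Finset ι}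
    {Dt : Dat R K 𝔽 t deg Finset.univ Finset.univ} {h : Finset ι → κ} {pp : Finset ι → ι → ℤ}
    (A : CAll F D j deg s Φ uu sel σ0 Dt h pp)

include A

omit A in
omit [Fintype ι] [DecidableEq ι] in
theorem c8e_coeff (x : KZ K ι) (v u : ι → ℤ) : (x * mono K v).coeff u = x.coeff (u - v) := by
  rw [AddMonoidAlgebra.coeff_mul_single_apply, mul_one, sub_eq_add_neg]

omit A in
omit [Fintype ι] [DecidableEq ι] in
theorem c8e_mono (v u : ι → ℤ) : mono K v * mono K u = mono K (v + u) := by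
  rw [AddMonoidAlgebra.single_mul_single, one_mul]

/-- powers of the vertex elements -/
theorem CAll.c8e_hpow {σ : Finset ι} (hσ : σ ∈ Vert M (zv a)) (m : ℕ) :
    h σ ^ m ∈ F.H m ∧ F.th m (h σ ^ m) = mono K (m • pp σ) := by
  induction m with
  | zero =>
    refine ⟨by rw [pow_zero]; exact F.one_mem, ?_⟩
    rw [pow_zero, F.th_one, zero_smul]
    exact AddMonoidAlgebra.one_def
  | succ m ih =>
    refine ⟨by rw [pow_succ]; exact F.mul_mem _ _ _ _ ih.1 (A.hmem σ hσ).1, ?_⟩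
    rw [pow_succ, F.th_mul _ _ _ _ ih.1 (A.hmem σ hσ).1, ih.2, (A.hmem σ hσ).2, c8e_mono, succ_nsmul]

theorem CAll.c8e_h_ne {σ : Finset ι} (hσ : σ ∈ Vert M (zv a)) : h σ ≠ 0 := by
  intro h0
  have h1 := (A.hmem σ hσ).2
  rw [h0] at h1
  have h2 := F.th_add 1 0 0 (zero_mem _) (zero_mem _)
  rw [add_zero, h1] at h2
  have h3 : mono K (pp σ) = 0 := by
    have := congrArg (fun x => x - mono K (pp σ)) h2
    simpa using this.symm
  exact one_ne_zero (AddMonoidAlgebra.single_eq_zero.mp h3)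

theorem CAll.c8e_jh_ne {σ : Finset ι} (hσ : σ ∈ Vert M (zv a)) (m : ℕ) : j (h σ) ^ m ≠ 0 :=
  pow_ne_zero _ (by
    rw [Ne, map_eq_zero_iff j (RingHom.injective (j : κ →+* 𝔽))]
    exact A.c8e_h_ne hσ)

/-- the quotients of powers of vertex elements -/
theorem CAll.c8e_hquot {σ : Finset ι} (hσ : σ ∈ Vert M (zv a)) (m : ℕ) (f : κ) (hf : f ∈ F.H m) :
    j f * (j (h σ) ^ m)⁻¹ ∈ D.T ∧ D.red (j f * (j (h σ) ^ m)⁻¹) = F.th m f * mono K (-(m • pp σ)) ∧
      ∀ l ∈ σ, j f * (j (h σ) ^ m)⁻¹ ∈ D.B l := by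
  have e : j f * (j (h σ) ^ m)⁻¹ = j (f / h σ ^ m) := by
    rw [map_div₀, map_pow, div_eq_mul_inv]
  obtain ⟨h1, h2⟩ := A.c8e_hpow hσ m
  rw [e]
  refine ⟨(A.chart m f _ _ hf h1 h2).1, (A.chart m f _ _ hf h1 h2).2, fun l hl => ?_⟩
  apply A.chartB l m f _ _ hf h1 h2
  rw [Pi.smul_apply, A.pp0 σ hσ l hl, smul_zero]

theorem CAll.c8e_Phi_zero {σ : Finset ι} (hσ : σ ∈ Vert M (zv a)) : Φ σ 0 = 1 := by
  have h1 := A.L.mul σ hσ 0 0
  rw [add_zero] at h1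
  exact mul_left_cancel₀ (A.L.ne σ hσ 0) (by rw [← h1, mul_one])

theorem CAll.c8e_Phi_inv {σ : Finset ι} (hσ : σ ∈ Vert M (zv a)) (γ : Γ) : (Φ σ γ)⁻¹ ∈ D.T := by
  have h1 : (Φ σ γ)⁻¹ = Φ σ (-γ) := by
    apply inv_eq_of_mul_eq_one_right
    rw [← A.L.mul σ hσ, add_neg_cancel, A.c8e_Phi_zero hσ]
  rw [h1]
  exact A.L.mem σ hσ _

/-- TWISTED MODULES. There are `R`-submodules `NN m γ` of `𝔽` containing the products of `j (H m)` and `W γ = Dt.RR univ γ`, with the rank bound. Definition: `NN m γ` = all `y` with `y * (j (h σ0) ^ m)⁻¹ ∈ D.T` and, for all `l`, `y * (j (h (sel l)) ^ m)⁻¹ * (Φ (sel l) γ)⁻¹ ∈ D.B l`. For `f ∈ H m`: `f / h σ ^ m` with `h σ ^ m ∈ H m` a lift of `mono (m • pp σ)`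
(`chart`, `chartB`, `pp0`). Reduction: `ρ y = D.red (y * (j (h σ0) ^ m)⁻¹) * mono (m • pp σ0 + s γ)`; supports: `y / h0 ^ m = (y / (h_l ^ m Φ_l)) * (h_l / h0) ^ m * Φ_l` with `l`-exponents `≥ 0`, `m (pp (sel l) l - pp σ0 l) = - m pp σ0 l`, `uu (sel l) γ l - s γ l = - s γ l`. `ρ y = 0` gives `y = t y'` with `y' ∈ NN m γ` (`B_sat`). Separatedness: `sep`. `abs_dep`. -/
theorem CAll.exists_NN (m : ℕ) (γ : Γ) : ∃ N : Submodule R 𝔽,
    (∀ f ∈ F.H m, ∀ w ∈ Dt.RR Finset.univ γ, j f * w ∈ N) ∧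
    ∀ S : Finset (ι → ℤ), (∀ u, deg u = m • deg a + γ → (∀ l, 0 ≤ u l) → u ∈ S) →
      ∀ {J : Type} [Fintype J] (x : J → 𝔽), (∀ i, x i ∈ N) → S.card < Fintype.card J →
        ∃ r : J → R, r ≠ 0 ∧ ∑ i, r i • x i = 0 := by
  classical
  have hv0 := A.h0
  have hvl := fun l => (A.hsel l).1
  let c0 : 𝔽 := (j (h σ0) ^ m)⁻¹
  let cl : ι → 𝔽 := fun l => (j (h (sel l)) ^ m)⁻¹ * (Φ (sel l) γ)⁻¹
  let N : Submodule R 𝔽 := D.T.comap (LinearMap.mulRight R c0) ⊓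
    ⨅ l, (D.B l).comap (LinearMap.mulRight R (cl l))
  have hN : ∀ y, y ∈ N ↔ y * c0 ∈ D.T ∧ ∀ l, y * cl l ∈ D.B l := by
    intro y
    simp [N, Submodule.mem_iInf]
  have hc0 : c0 ≠ 0 := inv_ne_zero (A.c8e_jh_ne hv0 m)
  -- comparison of `c0` and `cl`
  have hcomp : ∀ (y : 𝔽) l, y * c0 = y * cl l *
      (j (h (sel l) ^ m) * (j (h σ0) ^ m)⁻¹) * Φ (sel l) γ := by
    intro y l
    have e1 := A.c8e_jh_ne (hvl l) m
    have e2 := A.L.ne _ (hvl l) γ
    simp only [c0, cl, map_pow]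
    field_simp
  have hcomp' : ∀ (y : 𝔽) l, y * cl l = y * c0 * (j (h σ0 ^ m) * (j (h (sel l)) ^ m)⁻¹) *
      (Φ (sel l) γ)⁻¹ := by
    intro y l
    have e1 := A.c8e_jh_ne hv0 m
    simp only [c0, cl, map_pow]
    field_simp
  refine ⟨N, ?_, ?_⟩
  · intro f hf w hw
    rw [hN]
    rw [Dt.mem_RR] at hw
    obtain ⟨hw1, hw2⟩ := hw
    rw [A.hT] at hw1
    refine ⟨?_, fun l => ?_⟩
    · have e : j f * w * c0 = j f * (j (h σ0) ^ m)⁻¹ * w := by
        simp only [c0]; ring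
      rw [e]
      exact D.mul_mem _ _ (A.c8e_hquot hv0 m f hf).1 hw1
    · have e : j f * w * cl l = j f * (j (h (sel l)) ^ m)⁻¹ * (w * (Φ (sel l) γ)⁻¹) := by
        simp only [cl]; ring
      rw [e]
      exact D.B_mul l _ _ ((A.c8e_hquot (hvl l) m f hf).2.2 l (A.hsel l).2)
        ((A.hR l γ w).1 (hw2 l (Finset.mem_univ l)))
  · intro S hS J _ x hx hJ
    refine abs_dep (K := K) (t := t) D.base D.inj N (fun y => D.red (y * c0) * mono K (m • pp σ0 + s γ))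
      ?_ ?_ ?_ ?_ S ?_ x hx hJ
    · intro f hf g hg
      have h1 := ((hN f).1 hf).1
      have h2 := ((hN g).1 hg).1
      rw [add_mul f g, D.red_add _ _ h1 h2, add_mul]
    · intro r f hf
      have h1 := ((hN f).1 hf).1
      rw [smul_mul_assoc, D.red_smul _ _ h1, smul_mul_assoc]
    · intro f hf hρ
      obtain ⟨h1, h2⟩ := (hN f).1 hf
      have h3 : D.red (f * c0) = 0 := by
        have h4 := congrArg (fun x => x * mono K (-(m • pp σ0 + s γ))) hρ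
        simp only [zero_mul, mul_assoc, c8e_mono, add_neg_cancel] at h4
        have e0 : (mono K (0 : ι → ℤ)) = 1 := AddMonoidAlgebra.one_def.symm
        rw [e0, mul_one] at h4
        exact h4
      obtain ⟨g, hg, hg'⟩ := D.red_zero _ h1 h3
      have e1 : f = t • (g * c0⁻¹) := by
        rw [← smul_mul_assoc, ← hg', mul_assoc, mul_inv_cancel₀ hc0, mul_one]
      have e2 : g * c0⁻¹ * c0 = g := by
        rw [mul_assoc, inv_mul_cancel₀ hc0, mul_one]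
      refine ⟨g * c0⁻¹, ?_, e1⟩
      rw [hN]
      refine ⟨by rw [e2]; exact hg, fun l => ?_⟩
      apply D.B_sat l
      · rw [hcomp', e2]
        exact D.mul_mem _ _ (D.mul_mem _ _ hg (A.c8e_hquot (hvl l) m _ (A.c8e_hpow hv0 m).1).1)
          (A.c8e_Phi_inv (hvl l) γ)
      · rw [← smul_mul_assoc, ← e1]
        exact h2 l
    · intro f hf hn
      have h1 : f * c0 = 0 := by
        apply D.sep _ ((hN f).1 hf).1
        intro n
        obtain ⟨g, hg, hg'⟩ := hn n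
        exact ⟨g * c0, ((hN g).1 hg).1, by rw [← smul_mul_assoc, ← hg']⟩
      rcases mul_eq_zero.1 h1 with h2 | h2
      · exact h2
      · exact absurd h2 hc0
    · intro f hf u hu
      obtain ⟨h1, h2⟩ := (hN f).1 hf
      apply hS
      · rw [c8e_coeff] at hu
        have h3 := D.red_supp _ h1 _ hu
        rw [← A.hdeg, map_sub, map_add, map_nsmul, A.hs, sub_eq_zero] at h3
        have h4 := A.ppM σ0 hv0
        rw [← A.hdeg, map_sub, sub_eq_zero] at h4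
        rw [h3, h4]
      · intro l
        have h3 := D.B_le l _ (h2 l)
        have h4 := A.c8e_hquot hv0 m _ (A.c8e_hpow (hvl l) m).1
        rw [hcomp f l, D.red_mul _ _ (D.mul_mem _ _ h3 h4.1) (A.L.mem _ (hvl l) γ),
          D.red_mul _ _ h3 h4.1, h4.2.1, A.L.red _ (hvl l) γ, (A.c8e_hpow (hvl l) m).2] at hu
        simp only [mul_assoc, c8e_mono] at hu
        rw [c8e_coeff] at hu
        have h5 := D.B_supp l _ (h2 l) _ hu
        have h6 := A.pp0 _ (hvl l) l (A.hsel l).2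
        have h7 := A.L.uu0 _ (hvl l) γ l (A.hsel l).2
        simp only [Pi.sub_apply, Pi.add_apply, Pi.neg_apply, Pi.smul_apply, h6, h7, smul_zero] at h5
        linarith

end

end Pool.Agent.TOR
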