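import Pool.Agent.TOR.C8d
import Pool.Agent.TOR.C8e

namespace Pool.Agent.TOR

open Set

universe u

variable {R K κ 𝔽 : Type u} [CommRing R] [Field K] [Algebra R K] [Field κ] [Algebra R κ] [Field 𝔽] [Algebra R 𝔽] {t : R}
  {ι : Type} [Fintype ι] [DecidableEq ι] {M : AddSubgroup (ι → ℤ)} {a : ι → ℤ}

section

variable {F : FD R K κ t M a} {D : D0 R K 𝔽 t M} {j : κ →ₐ[R] 𝔽} {Γ : Type} [AddCommGroup Γ] {deg : (ι → ℤ) →+ Γ}
    {s : Γ →+ (ι → ℤ)} {Φ : Finset ι → Γ → 𝔽} {uu : Finset ι → Γ → ι → ℤ} {sel : ι → Finset ι} {σ0 : Finset ι}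
    {Dt : Dat R K 𝔽 t deg Finset.univ Finset.univ} {h : Finset ι → κ} {pp : Finset ι → ι → ℤ}
    (A : CAll F D j deg s Φ uu sel σ0 Dt h pp)

include A

/-- `c n = ncard (Cnt deg univ univ (n • deg a))`; finite, polynomial growth (`cnt_finite`, `cnt_poly` with `MV deg univ = M`), `1 ≤ c n` (a multiple of a vertex point). For `f, g ∈ H k` nonzero: the `2 c n` elements `j f * w_u`, `j g * w_u` (`fam_W`) lie in `NN k (n • deg a)`, rank `≤ c (n + k)`. By `growth` (`N = 1`) for some `n ≥ 1` they are dependent: `j f * P = j g * Q`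
with `P, Q ∈ W (n • deg a)` nonzero; `j (f / g) = Q / P`. -/
theorem CAll.range_le (x : κ) : j x ∈ Dt.QS Finset.univ subset_rfl := by
  classical
  obtain ⟨k, f, hf, g, hg, hg0, rfl⟩ := F.frac x
  by_cases hf0 : f = 0
  · subst hf0
    rw [zero_div, map_zero]
    exact Subfield.zero_mem _
  have hjinj : Function.Injective j := j.toRingHom.injective
  have hjf : j f ≠ 0 := fun h => hf0 (hjinj (by rw [h, map_zero]))
  have hjg : j g ≠ 0 := fun h => hg0 (hjinj (by rw [h, map_zero]))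
  have H := A.hyp
  have hfin := cnt_finite deg Finset.univ Finset.univ _ H.ne H.bdd
  obtain ⟨C, e, hCe⟩ := cnt_poly deg Finset.univ Finset.univ _ H.ne H.bdd a (fun i hi => absurd (Finset.mem_univ i) hi)
  set c : ℕ → ℕ := fun m => (Cnt deg Finset.univ Finset.univ (m • deg a)).ncard with hc
  have hpp : deg (pp σ0) = deg a := by
    have h1 := (A.hdeg _).2 (A.ppM σ0 A.h0)
    rw [map_sub] at h1
    exact sub_eq_zero.1 h1
  have hcpos : ∀ m, 1 ≤ c m := by
    intro m
    rw [hc]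
    refine (Set.ncard_pos (hfin _)).2 ⟨m • pp σ0, fun i hi => absurd (Finset.mem_univ i) hi, by rw [map_nsmul, hpp], fun l _ => ?_⟩
    have h1 := A.pp_nonneg σ0 A.h0 l
    show 0 ≤ m • pp σ0 l
    exact nsmul_nonneg h1 m
  have key : ∃ n, 1 ≤ n ∧ c (n + k) < 2 * c n := by
    by_contra hcon
    push Not at hcon
    refine growth c C e 1 k 1 le_rfl (fun m _ => hcpos m) hCe (fun m hm => ?_)
    have := hcon m hm
    simpa using this
  obtain ⟨n, hn, hlt⟩ := key
  obtain ⟨w, hw, hwi⟩ := A.fam_W n hn (hfin (n • deg a)).toFinset (fun u => (hfin _).mem_toFinset)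
  obtain ⟨N, hN1, hN2⟩ := A.exists_NN k (n • deg a)
  obtain ⟨r, hr, hr'⟩ := hN2 (hfin ((n + k) • deg a)).toFinset
    (fun u h1 h2 => (hfin _).mem_toFinset.2 ⟨fun i hi => absurd (Finset.mem_univ i) hi, by
      rw [h1, add_smul, add_comm], fun l _ => h2 l⟩)
    (J := (hfin (n • deg a)).toFinset ⊕ (hfin (n • deg a)).toFinset)
    (Sum.elim (fun u => j f * w u) (fun u => j g * w u)) (by
      rintro (u | u)
      · exact hN1 f hf _ (hw u)
      · exact hN1 g hg _ (hw u))
    (by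
      rw [Fintype.card_sum, Fintype.card_coe, ← Set.ncard_eq_toFinset_card _ (hfin _), ← Set.ncard_eq_toFinset_card _ (hfin _)]
      have h1 : c n = (Cnt deg Finset.univ Finset.univ (n • deg a)).ncard := rfl
      have h2 : c (n + k) = (Cnt deg Finset.univ Finset.univ ((n + k) • deg a)).ncard := rfl
      omega)
  rw [Fintype.sum_sum_type] at hr'
  simp only [Sum.elim_inl, Sum.elim_inr] at hr'
  set P : 𝔽 := ∑ u, r (Sum.inl u) • w u with hP
  set Q : 𝔽 := ∑ u, r (Sum.inr u) • w u with hQ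
  have hAB : j f * P + j g * Q = 0 := by
    rw [hP, hQ, Finset.mul_sum, Finset.mul_sum, ← hr']
    congr 1
    · exact Finset.sum_congr rfl fun u _ => by rw [mul_smul_comm]
    · exact Finset.sum_congr rfl fun u _ => by rw [mul_smul_comm]
  have hboth : ¬ (P = 0 ∧ Q = 0) := by
    rintro ⟨h1, h2⟩
    apply hr
    funext u
    rcases u with u | u
    · exact congrFun (hwi (fun u => r (Sum.inl u)) h1) u
    · exact congrFun (hwi (fun u => r (Sum.inr u)) h2) u
  have hP1 : P ≠ 0 := by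
    intro h
    rw [h, mul_zero, zero_add] at hAB
    exact hboth ⟨h, (mul_eq_zero.1 hAB).resolve_left hjg⟩
  rw [Dt.mem_QS]
  refine ⟨n • deg a, -Q, P, Submodule.neg_mem _ (Submodule.sum_mem _ fun u _ => Submodule.smul_mem _ _ (hw u)),
    Submodule.sum_mem _ fun u _ => Submodule.smul_mem _ _ (hw u), hP1, ?_⟩
  rw [map_div₀, div_eq_div_iff hjg hP1]
  linear_combination hAB

end

end Pool.Agent.TOR
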