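import Pool.Agent.TOR.C8d
import Pool.Agent.TOR.C8e

namespace Pool.Agent.TOR

open Set

universe u

variable {R K κ 𝔽 : Type u} [CommRing R] [Field K] [Algebra R K] [Field κ] [Algebra R κ] [Field 𝔽] [Algebra R 𝔽] {t : R}
  {ι : Type} [Fintype ι] [DecidableEq ι] {M : AddSubgroup (ι → ℤ)} {a : ι → ℤ}

section

variable {F : FD R K κ t M a} {D : D0 R K 𝔽 t M} {j : κ →ₐ[R] 𝔽} {Γ : Type} [AddCommGroup Γ] {deg : (ι → ℤ) →+ Γ}
    {s : Γ →+ (ι → ℤ)} {Φ : Finset ι → Γ → 𝔽} {uu : Finset ι → Γ → ι → ℤ} {sel : ι → Finset ι} {σ0 : Finset ι}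
    {Dt : Dat R K 𝔽 t deg Finset.univ Finset.univ} {h : Finset ι → κ} {pp : Finset ι → ι → ℤ}
    (A : CAll F D j deg s Φ uu sel σ0 Dt h pp)

include A

/-- For `w, w' ∈ W γ` nonzero: the `2 c m` elements `w * j x_u`, `w' * j x_u` (`fam_H`) lie in `NN m γ`, of rank `≤ ncard (Cnt (m • deg a + γ)) ≤ c (m + m1)` (`cnt_shift` by `N w0 - s γ ≥ 0`, `w0 ≥ 1` from `face_point` with `τ = ∅`, of degree `k0 • deg a`, `m1 = N k0`). `growth` gives a dependence `w * j f = w' * j g`, `f, g ∈ H m` nonzero; `w / w' = j (g / f)`. -/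
theorem CAll.le_range (z : 𝔽) (hz : z ∈ Dt.QS Finset.univ subset_rfl) : ∃ x : κ, j x = z := by
  classical
  obtain ⟨γ, v, v', hv, hv', hv0, rfl⟩ := (Dt.mem_QS _ _ z).1 hz
  by_cases hv00 : v = 0
  · exact ⟨0, by rw [hv00, zero_div, map_zero]⟩
  have hjinj : Function.Injective j := j.toRingHom.injective
  have H := A.hyp
  have hfin := cnt_finite deg Finset.univ Finset.univ _ H.ne H.bdd
  obtain ⟨C, e, hCe⟩ := cnt_poly deg Finset.univ Finset.univ _ H.ne H.bdd a (fun i hi => absurd (Finset.mem_univ i) hi)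
  set c : ℕ → ℕ := fun m => (Cnt deg Finset.univ Finset.univ (m • deg a)).ncard with hc
  have hpp : deg (pp σ0) = deg a := by
    have h1 := (A.hdeg _).2 (A.ppM σ0 A.h0)
    rw [map_sub] at h1
    exact sub_eq_zero.1 h1
  have hcpos : ∀ m, 1 ≤ c m := by
    intro m
    rw [hc]
    refine (Set.ncard_pos (hfin _)).2 ⟨m • pp σ0, fun i hi => absurd (Finset.mem_univ i) hi, by rw [map_nsmul, hpp], fun l _ => ?_⟩
    have h1 := A.pp_nonneg σ0 A.h0 l
    show 0 ≤ m • pp σ0 l
    exact nsmul_nonneg h1 m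
  -- an interior vector
  have hT : (∅ : Finset ι) ∈ TS M Finset.univ (zv a) :=
    TS_sub M Finset.univ (zv a) (delz_simp (zv a) F.delzant) ∅ σ0 (Finset.empty_subset _) A.h0.1
  obtain ⟨k0, w0, hk0, hw0M, -, hw0⟩ := face_point a ∅ hT
  have hw0d : deg w0 = k0 • deg a := by
    have h1 := (A.hdeg _).2 hw0M
    rw [map_sub, map_nsmul] at h1
    exact sub_eq_zero.1 h1
  set N0 : ℕ := ∑ l, (s γ l).natAbs with hN0
  set w1 : ι → ℤ := N0 • w0 - s γ with hw1
  have hw1E : ∀ l, 0 ≤ w1 l := by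
    intro l
    have h1 : (s γ l).natAbs ≤ N0 := Finset.single_le_sum (f := fun l => (s γ l).natAbs) (fun _ _ => Nat.zero_le _) (Finset.mem_univ l)
    have h2 : s γ l ≤ (s γ l).natAbs := Int.le_natAbs
    have h3 : ((s γ l).natAbs : ℤ) ≤ N0 := by exact_mod_cast h1
    have h4 := hw0 l (Finset.notMem_empty l)
    have h5 : w1 l = N0 * w0 l - s γ l := by
      rw [hw1, Pi.sub_apply, Pi.smul_apply, nsmul_eq_mul]
    rw [h5]
    nlinarith [Int.natCast_nonneg N0]
  have hw1d : ∀ m : ℕ, m • deg a + γ + deg w1 = (m + N0 * k0) • deg a := by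
    intro m
    rw [hw1, map_sub, map_nsmul, hw0d, A.hs, add_smul, mul_smul]
    abel
  have hcard : ∀ m : ℕ, (Cnt deg Finset.univ Finset.univ (m • deg a + γ)).ncard ≤ c (m + N0 * k0) := by
    intro m
    have h1 := (cnt_shift deg Finset.univ Finset.univ (m • deg a + γ) w1 (fun i hi => absurd (Finset.mem_univ i) hi)
      (fun l _ => hw1E l) (hfin _)).2
    rw [hw1d] at h1
    exact h1
  have key : ∃ m, 1 ≤ m ∧ c (m + N0 * k0) < 2 * c m := by
    by_contra hcon
    push Not at hcon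
    refine growth c C e 1 (N0 * k0) 1 le_rfl (fun m _ => hcpos m) hCe (fun m hm => ?_)
    have := hcon m hm
    simpa using this
  obtain ⟨m, hm, hlt⟩ := key
  obtain ⟨x, hx, hxi⟩ := A.fam_H m (hfin (m • deg a)).toFinset (fun u => (hfin _).mem_toFinset)
  obtain ⟨N, hN1, hN2⟩ := A.exists_NN m γ
  obtain ⟨r, hr, hr'⟩ := hN2 (hfin (m • deg a + γ)).toFinset
    (fun u h1 h2 => (hfin _).mem_toFinset.2 ⟨fun i hi => absurd (Finset.mem_univ i) hi, h1, fun l _ => h2 l⟩)
    (J := (hfin (m • deg a)).toFinset ⊕ (hfin (m • deg a)).toFinset)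
    (Sum.elim (fun u => j (x u) * v) (fun u => j (x u) * v')) (by
      rintro (u | u)
      · exact hN1 (x u) (hx u) _ hv
      · exact hN1 (x u) (hx u) _ hv')
    (by
      rw [Fintype.card_sum, Fintype.card_coe, ← Set.ncard_eq_toFinset_card _ (hfin _), ← Set.ncard_eq_toFinset_card _ (hfin _)]
      have h1 : c m = (Cnt deg Finset.univ Finset.univ (m • deg a)).ncard := rfl
      have h2 := hcard m
      omega)
  rw [Fintype.sum_sum_type] at hr'
  simp only [Sum.elim_inl, Sum.elim_inr] at hr'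
  set P : κ := ∑ u, r (Sum.inl u) • x u with hP
  set Q : κ := ∑ u, r (Sum.inr u) • x u with hQ
  have hjP : j P = ∑ u, r (Sum.inl u) • j (x u) := by
    rw [hP, map_sum]
    exact Finset.sum_congr rfl fun u _ => map_smul j _ _
  have hjQ : j Q = ∑ u, r (Sum.inr u) • j (x u) := by
    rw [hQ, map_sum]
    exact Finset.sum_congr rfl fun u _ => map_smul j _ _
  have hAB : j P * v + j Q * v' = 0 := by
    rw [hjP, hjQ, Finset.sum_mul, Finset.sum_mul, ← hr']
    congr 1
    · exact Finset.sum_congr rfl fun u _ => by rw [smul_mul_assoc]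
    · exact Finset.sum_congr rfl fun u _ => by rw [smul_mul_assoc]
  have hboth : ¬ (j P = 0 ∧ j Q = 0) := by
    rintro ⟨h1, h2⟩
    apply hr
    funext u
    rcases u with u | u
    · exact congrFun (hxi (fun u => r (Sum.inl u)) (by rw [← hjP, h1])) u
    · exact congrFun (hxi (fun u => r (Sum.inr u)) (by rw [← hjQ, h2])) u
  have hP1 : j P ≠ 0 := by
    intro h
    rw [h, zero_mul, zero_add] at hAB
    exact hboth ⟨h, (mul_eq_zero.1 hAB).resolve_right hv0⟩
  refine ⟨-Q / P, ?_⟩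
  rw [map_div₀, map_neg, div_eq_div_iff hP1 hv0]
  linear_combination -hAB

end

end Pool.Agent.TOR
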