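import Pool.Agent.TOR.K11b

namespace Pool.Agent.TOR

open Set

universe u

variable {R K 𝔽 : Type u} [CommRing R] [Field K] [Algebra R K] [Field 𝔽] [Algebra R 𝔽] {t : R}
  {ι Γ : Type} [Fintype ι] [DecidableEq ι] [AddCommGroup Γ] {deg : (ι → ℤ) →+ Γ}

/-- One step: `Dat.Hyp.generic`, `exists_top` (`MV deg V ≠ ⊥`), `exists_setup`, `exists_basis_MF`, `exists_h`, `y_algIndep`, `QS_star`, `QS_top`; `rank_lt` with `sub0_MV`. -/
theorem core_step {V E : Finset ι} (D : Dat R K 𝔽 t deg V E) (a : ι → ℚ) (H : D.Hyp a) (h : MV deg V ≠ ⊥) :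
    ∃ (V' E' : Finset ι) (D' : Dat R K 𝔽 t deg V' E') (a' : ι → ℚ) (r : ℕ) (y : Fin r → 𝔽), D'.Hyp a' ∧
      Module.finrank ℤ (MV deg V') < Module.finrank ℤ (MV deg V) ∧
      Module.finrank ℤ (MV deg V') + r = Module.finrank ℤ (MV deg V) ∧
      AlgebraicIndependent (D'.QS E' subset_rfl) y ∧
      D.QS E subset_rfl = Subfield.closure (↑(D'.QS E' subset_rfl) ∪ range y) := by
  obtain ⟨a', H', hG⟩ := H.generic
  obtain ⟨TD⟩ := exists_top (MV deg V) h E a' H'.ne H'.bdd H'.simp hG H'.zero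
  have hIE : TD.I ∪ TD.E' ⊆ E := Finset.union_subset TD.IE TD.E'E
  obtain ⟨D', u0, m0, Y, H'', S⟩ := exists_setup H' TD
  obtain ⟨r, b, hrank, hb, hb1, hb0⟩ := exists_basis_MF deg V TD.I (TD.IE.trans D.EV)
  obtain ⟨hh, hh1, hh0⟩ := exists_h S r b hb
  refine ⟨V \ TD.I, TD.E', D', _, r, fun j => Yp TD.I Y (b j) * hh j, H'', ?_, hrank,
    y_algIndep S r b hb hb0 hh hh1 hh0, ?_⟩
  · have h1 := TD.rank_lt
    rwa [sub0_MV] at h1
  · rw [QS_top H' TD hIE]
    exact QS_star S r b hb hb1 hh hh1 hh0 hIE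

/-- CORE THEOREM. Strong induction on the rank; `core_zero`, `core_step`, `tower`. -/
theorem core {V E : Finset ι} (D : Dat R K 𝔽 t deg V E) (a : ι → ℚ) (H : D.Hyp a) :
    ∃ x : Fin (Module.finrank ℤ (MV deg V)) → 𝔽, AlgebraicIndependent R x ∧
      D.QS E subset_rfl = Subfield.closure (range (algebraMap R 𝔽) ∪ range x) := by
  have key : ∀ (n : ℕ) (V E : Finset ι) (D : Dat R K 𝔽 t deg V E) (a : ι → ℚ), D.Hyp a →
      Module.finrank ℤ (MV deg V) = n → ∃ x : Fin n → 𝔽, AlgebraicIndependent R x ∧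
      D.QS E subset_rfl = Subfield.closure (range (algebraMap R 𝔽) ∪ range x) := by
    intro n
    induction n using Nat.strong_induction_on with
    | _ n ih =>
      intro V E D a H hn
      by_cases h : MV deg V = ⊥
      · have h0 : n = 0 := by
          rw [← hn, h]
          exact Module.finrank_zero_of_subsingleton
        subst h0
        refine ⟨Fin.elim0, ?_, ?_⟩
        · rw [algebraicIndependent_empty_type_iff]
          exact D.inj
        · rw [core_zero D h]
          congr 1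
          rw [show range (Fin.elim0 : Fin 0 → 𝔽) = ∅ from range_eq_empty _, union_empty]
      · obtain ⟨V', E', D', a', r, y, H', hlt, hr, hy, hQ⟩ := core_step D a H h
        obtain ⟨x, hx, hxQ⟩ := ih _ (by rw [← hn]; exact hlt) V' E' D' a' H' rfl
        obtain ⟨z, hz, hzQ⟩ := tower D.inj _ r x y hx _ _ hxQ hy hQ
        have h1 : Module.finrank ℤ (MV deg V') + r = n := hr.trans hn
        subst h1
        exact ⟨z, hz, hzQ⟩
  exact key _ V E D a H rfl

end Pool.Agent.TOR
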