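import Pool.Agent.TOR.C8c
import Pool.Agent.TOR.C8f
import Pool.Agent.TOR.C8g
import Pool.Agent.TOR.K11

namespace Pool.Agent.TOR

open Set

universe u

variable {R K κ : Type u} [CommRing R] [Field K] [Algebra R K] [Field κ] [Algebra R κ] {t : R}
  {ι : Type} [Fintype ι] [DecidableEq ι] {M : AddSubgroup (ι → ℤ)} {a : ι → ℤ}

/-- BLOCK C. `exists_CAll`, `CAll.hyp`, `core` for `Dt`: `y : Fin n → 𝔽` algebraically independent over `R` with `Dt.QS univ = closure (range (algebraMap R 𝔽) ∪ range y)`; by `range_le`, `le_range` it is the image of `κ`: `y i = j (x i)`; `x` is algebraically independent over `R` (`j` injective). The set of all quotients `aeval x P / aeval x Q` is a subfield of `κ` containing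
`algebraMap R κ` and all `x i`; its image is a subfield containing the closure. -/
theorem FD.purely_transcendental (F : FD R K κ t M a) :
    ∃ (d : ℕ) (x : Fin d → κ), AlgebraicIndependent R x ∧
      ∀ z : κ, ∃ P Q : MvPolynomial (Fin d) R, MvPolynomial.aeval x Q ≠ 0 ∧ z = MvPolynomial.aeval x P / MvPolynomial.aeval x Q := by
  classical
  obtain ⟨𝔽, _, _, j, D, σ0, deg, Φ, uu, sel, Dt, h, pp, A⟩ := exists_CAll F
  obtain ⟨y, hy, hQ⟩ := core Dt _ A.hyp
  have hjinj : Function.Injective j := j.toRingHom.injective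
  have hyQ : ∀ i, y i ∈ Dt.QS Finset.univ subset_rfl := fun i => by
    rw [hQ]
    exact Subfield.subset_closure (Or.inr ⟨i, rfl⟩)
  choose x hx using fun i => A.le_range (y i) (hyQ i)
  have hyx : y = j ∘ x := funext fun i => (hx i).symm
  have hcomp : ∀ P : MvPolynomial (Fin (Module.finrank ℤ (MV deg Finset.univ))) R,
      MvPolynomial.aeval y P = j (MvPolynomial.aeval x P) := by
    intro P
    rw [hyx]
    exact (MvPolynomial.comp_aeval_apply x j P).symm
  refine ⟨_, x, ?_, fun z => ?_⟩
  · rw [hyx] at hy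
    exact AlgebraicIndependent.of_comp j hy
  · have hz := A.range_le z
    rw [hQ, Subfield.mem_closure_iff] at hz
    obtain ⟨b, hb, c, hc, hbc⟩ := hz
    have hle : Subring.closure (range (algebraMap R 𝔽) ∪ range y) ≤ (MvPolynomial.aeval (R := R) y).toRingHom.range := by
      rw [Subring.closure_le]
      rintro w (⟨r, rfl⟩ | ⟨i, rfl⟩)
      · exact ⟨MvPolynomial.C r, MvPolynomial.aeval_C y r⟩
      · exact ⟨MvPolynomial.X i, MvPolynomial.aeval_X y i⟩
    obtain ⟨P, hP⟩ := hle hb
    obtain ⟨Q, hQ'⟩ := hle hc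
    have hP' : b = j (MvPolynomial.aeval x P) := by
      rw [← hcomp]
      exact hP.symm
    have hQ'' : c = j (MvPolynomial.aeval x Q) := by
      rw [← hcomp]
      exact hQ'.symm
    by_cases h0 : MvPolynomial.aeval x Q = 0
    · refine ⟨0, 1, by simp, ?_⟩
      rw [hQ'', h0, map_zero, div_zero] at hbc
      have h1 : z = 0 := hjinj (by rw [← hbc, map_zero])
      rw [h1]
      simp
    · refine ⟨P, Q, h0, hjinj ?_⟩
      rw [← hbc, hP', hQ'', map_div₀]

end Pool.Agent.TOR
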