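import Pool.Agent.TOR.K5a

namespace Pool.Agent.TOR

open Set

universe u

variable {R K 𝔽 : Type u} [CommRing R] [Field K] [Algebra R K] [Field 𝔽] [Algebra R 𝔽] {t : R}
  {ι Γ : Type} [Fintype ι] [DecidableEq ι] [AddCommGroup Γ] {deg : (ι → ℤ) →+ Γ} {V E : Finset ι}


omit [Fintype ι] [DecidableEq ι] in
/-- distinct monomials are linearly independent -/
theorem k5_lin (S : Finset (ι → ℤ)) (y : S → KZ K ι) (hy : ∀ u : S, y u = mono K (u : ι → ℤ)) :
    LinearIndependent K y := by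
  classical
  rw [Fintype.linearIndependent_iff]
  intro g hg i
  have h := congrArg (fun z : KZ K ι => z.coeff (i : ι → ℤ)) hg
  simp only [hy, mono, AddMonoidAlgebra.coeff_sum, AddMonoidAlgebra.coeff_smul, AddMonoidAlgebra.coeff_single,
    Finsupp.coe_finsetSum, Finset.sum_apply, Finsupp.smul_apply, AddMonoidAlgebra.coeff_zero, Finsupp.coe_zero,
    Pi.zero_apply, Finsupp.single_apply, smul_eq_mul] at h
  rw [Finset.sum_eq_single i] at h
  · simpa using h
  · intro b _ hb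
    have : (b : ι → ℤ) ≠ i := fun h => hb (Subtype.ext h)
    simp [this]
  · intro h'
    exact absurd (Finset.mem_univ _) h'

/-- A family of lifts of distinct monomials of one degree is independent over `R` (`indep_of_red`). -/
theorem lifts_indep (D : Dat R K 𝔽 t deg V E) (τ : Finset ι) (γ : Γ) (S : Finset (ι → ℤ))
    (h : ∀ u ∈ S, ∃ f ∈ D.RR τ γ, D.red γ f = mono K u) :
    ∃ w : S → 𝔽, (∀ u, w u ∈ D.RR τ γ) ∧ (∀ u, D.red γ (w u) = mono K (u : ι → ℤ)) ∧
      ∀ r : S → R, ∑ u, r u • w u = 0 → r = 0 := by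
  choose f hf hr using h
  refine ⟨fun u => f u u.2, fun u => hf u u.2, fun u => hr u u.2, fun r h => ?_⟩
  exact D.indep_of_red γ (fun u : S => f u u.2) (fun u => (D.mem_RR.1 (hf u u.2)).1) (k5_lin S _ fun u => hr u u.2) r h

/-- COMMON MULTIPLES. Let `I E'` be those of `TD`. `c m = ncard (Cnt deg V E (m • deg u1))`. For `m ≥ 1` choose (`lift_u1`, `lifts_indep`) `c m` elements `w_u ∈ RR E (m • deg u1)`, `R`-independent. The `2 c m` elements `f w_u`, `g w_u` lie in `RR (I ∪ E') (γ + m • deg u1)` (`RR_anti`, `RR_mul`). Upper bound: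
take `v` with `SupIn V v`, `deg v = γ` (from the support of the reduction of `f` divided by a power of `t`: `RR_div`, `RR_supp`) and `m1` with `w = m1 • u1 - v ≥ 0` on `E`; `cnt_shift`: `ncard (Cnt deg V (I ∪ E') (γ + m • deg u1)) ≤ ncard (Cnt deg V (I ∪ E') ((m + m1) • deg u1)) = c (m + m1)` (`cnt_eq`; finiteness of the sets
by `cnt_eq` and `cnt_finite`; for the set of degree `γ + m • deg u1` use injectivity of the shift). If no `m ≥ 1` gives a dependence then `2 c m ≤ c (m + m1)` for all `m ≥ 1` (`dep_of_card`), against `growth` with `N = 1` (`cnt_poly`; `1 ≤ c m` as `m • u1 ∈ Cnt`). A dependence `∑ r_u f w_u = ∑ s_u g w_u` gives `a = ∑ r_u w_u`, `b = ∑ s_u w_u`,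
`f a = g b`; both are nonzero since `(r, s) ≠ 0`, `f, g ≠ 0` and the `w_u` are independent. -/
theorem exists_common {D : Dat R K 𝔽 t deg V E} {a : ι → ℚ} (H : D.Hyp a) (TD : TopData (MV deg V) E a)
    (γ : Γ) (f g : 𝔽) (hf : f ∈ D.RR (TD.I ∪ TD.E') γ) (hg : g ∈ D.RR (TD.I ∪ TD.E') γ) (hf0 : f ≠ 0) (hg0 : g ≠ 0) :
    ∃ (δ : Γ) (x y : 𝔽), x ∈ D.RR E δ ∧ y ∈ D.RR E δ ∧ x ≠ 0 ∧ y ≠ 0 ∧ f * x = g * y := by
  classical
  obtain ⟨N, u1, hN, hV, hE1, hu⟩ := exists_u1 H TD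
  have hIE : TD.I ∪ TD.E' ⊆ E := Finset.union_subset TD.IE TD.E'E
  have hfin := cnt_finite deg V E (rv a) H.ne H.bdd
  -- a vector `v` of degree `γ`
  obtain ⟨v, hvV, hvd⟩ : ∃ v : ι → ℤ, SupIn V v ∧ deg v = γ := by
    obtain ⟨k, f', hf', -, hr⟩ := D.RR_div _ hIE γ f hf hf0
    have : ∃ u, (D.red γ f').coeff u ≠ 0 := by
      by_contra hcon
      push Not at hcon
      apply hr
      apply AddMonoidAlgebra.coeff_injective
      ext u
      rw [hcon u]
      simp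
    obtain ⟨u, hu'⟩ := this
    obtain ⟨a1, a2, -⟩ := D.RR_supp _ hIE γ f' hf' u hu'
    exact ⟨u, a1, a2⟩
  set m1 : ℕ := ∑ l, (v l).natAbs with hm1
  set w : ι → ℤ := m1 • u1 - v with hw
  have hwV : SupIn V w := fun i hi => by simp [hw, hV i hi, hvV i hi]
  have hwE : ∀ l ∈ E, 0 ≤ w l := by
    intro l hl
    have h1 : (v l).natAbs ≤ m1 := Finset.single_le_sum (f := fun l => (v l).natAbs) (fun _ _ => Nat.zero_le _) (Finset.mem_univ l)
    have h2 : v l ≤ (v l).natAbs := Int.le_natAbs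
    have h3 : ((v l).natAbs : ℤ) ≤ m1 := by exact_mod_cast h1
    have h4 : (m1 : ℤ) ≤ m1 * u1 l := by
      nlinarith [hE1 l hl, Int.natCast_nonneg m1]
    have h5 : w l = m1 * u1 l - v l := by simp [hw]
    rw [h5]
    linarith
  have hwd : ∀ m : ℕ, γ + m • deg u1 + deg w = (m + m1) • deg u1 := by
    intro m
    rw [hw, map_sub, map_nsmul, hvd, add_smul]
    abel
  set c : ℕ → ℕ := fun m => (Cnt deg V E (m • deg u1)).ncard with hc
  have hcpos : ∀ m, 1 ≤ m → 1 ≤ c m := by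
    intro m hm
    rw [hc]
    refine (Set.ncard_pos (hfin _)).2 ⟨m • u1, fun i hi => by simp [hV i hi], map_nsmul _ _ _, fun l hl => ?_⟩
    have := hE1 l hl
    simp only [Pi.smul_apply, smul_eq_mul, nsmul_eq_mul]
    positivity
  obtain ⟨C, n, hCn⟩ := cnt_poly deg V E (rv a) H.ne H.bdd u1 hV
  have key : ∃ m, 1 ≤ m ∧ c (m + m1) < 2 * c m := by
    by_contra hcon
    push Not at hcon
    refine growth c C n 1 m1 1 le_rfl (fun m hm => hcpos m hm) hCn (fun m hm => ?_)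
    have := hcon m hm
    simpa using this
  obtain ⟨m, hm, hlt⟩ := key
  have hlift := lift_u1 H TD N u1 hN hV hu m hm
  obtain ⟨x, hx1, hx2, hx3⟩ := lifts_indep D E (m • deg u1) (hfin (m • deg u1)).toFinset (fun u hu' => by
    have h1 : u ∈ Cnt deg V E (m • deg u1) := (hfin _).mem_toFinset.1 hu'
    obtain ⟨z, hz, hz'⟩ := hlift u h1
    have h2 : deg u = m • deg u1 := h1.2.1
    rw [h2] at hz hz'
    exact ⟨z, hz, hz'⟩)
  have hfin' : (Cnt deg V (TD.I ∪ TD.E') (γ + m • deg u1 + deg w)).Finite := by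
    rw [hwd, ← cnt_eq H TD N u1 hN hV hu (m + m1) (by omega)]
    exact hfin _
  obtain ⟨hf1, hf2⟩ := cnt_shift deg V (TD.I ∪ TD.E') (γ + m • deg u1) w hwV (fun l hl => hwE l (hIE hl)) hfin'
  have hcard : (Cnt deg V (TD.I ∪ TD.E') (γ + m • deg u1)).ncard ≤ c (m + m1) := by
    refine hf2.trans ?_
    rw [hwd, ← cnt_eq H TD N u1 hN hV hu (m + m1) (by omega)]
  obtain ⟨r, hr, hr'⟩ := D.dep_of_card (TD.I ∪ TD.E') hIE (γ + m • deg u1) hf1.toFinset
    (fun u a1 a2 a3 => hf1.mem_toFinset.2 ⟨a1, a2, a3⟩)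
    (J := (hfin (m • deg u1)).toFinset ⊕ (hfin (m • deg u1)).toFinset)
    (Sum.elim (fun u => f * x u) (fun u => g * x u)) (by
      rintro (j | j)
      · exact D.RR_mul _ hIE _ _ _ _ hf (D.RR_anti _ _ hIE _ _ (hx1 j))
      · exact D.RR_mul _ hIE _ _ _ _ hg (D.RR_anti _ _ hIE _ _ (hx1 j)))
    (by
      rw [Fintype.card_sum, Fintype.card_coe, ← Set.ncard_eq_toFinset_card _ hf1, ← Set.ncard_eq_toFinset_card _ (hfin _)]
      have : c m = (Cnt deg V E (m • deg u1)).ncard := rfl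
      omega)
  rw [Fintype.sum_sum_type] at hr'
  simp only [Sum.elim_inl, Sum.elim_inr] at hr'
  set A : 𝔽 := ∑ u, r (Sum.inl u) • x u with hA
  set B : 𝔽 := ∑ u, r (Sum.inr u) • x u with hB
  have hAB : f * A + g * B = 0 := by
    rw [hA, hB, Finset.mul_sum, Finset.mul_sum, ← hr']
    congr 1
    · exact Finset.sum_congr rfl fun u _ => by rw [mul_smul_comm]
    · exact Finset.sum_congr rfl fun u _ => by rw [mul_smul_comm]
  have hA0 : A = 0 → (fun u => r (Sum.inl u)) = 0 := fun h => hx3 _ h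
  have hB0 : B = 0 → (fun u => r (Sum.inr u)) = 0 := fun h => hx3 _ h
  have hboth : ¬ (A = 0 ∧ B = 0) := by
    rintro ⟨h1, h2⟩
    apply hr
    funext j
    rcases j with j | j
    · exact congrFun (hA0 h1) j
    · exact congrFun (hB0 h2) j
  have hA1 : A ≠ 0 := by
    intro h
    rw [h, mul_zero, zero_add] at hAB
    rcases mul_eq_zero.1 hAB with h' | h'
    · exact hg0 h'
    · exact hboth ⟨h, h'⟩
  have hB1 : B ≠ 0 := by
    intro h
    rw [h, mul_zero, add_zero] at hAB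
    rcases mul_eq_zero.1 hAB with h' | h'
    · exact hf0 h'
    · exact hboth ⟨h', h⟩
  refine ⟨m • deg u1, A, -B, ?_, ?_, hA1, neg_ne_zero.2 hB1, ?_⟩
  · exact Submodule.sum_mem _ fun u _ => Submodule.smul_mem _ _ (hx1 u)
  · exact Submodule.neg_mem _ (Submodule.sum_mem _ fun u _ => Submodule.smul_mem _ _ (hx1 u))
  · rw [mul_neg]
    exact eq_neg_of_add_eq_zero_left hAB

/-- (C1) -/
theorem QS_top {D : Dat R K 𝔽 t deg V E} {a : ι → ℚ} (H : D.Hyp a) (TD : TopData (MV deg V) E a)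
    (hIE : TD.I ∪ TD.E' ⊆ E) : D.QS E subset_rfl = D.QS (TD.I ∪ TD.E') hIE := by
  apply le_antisymm
  · exact D.QS_anti _ _ hIE subset_rfl
  · intro z hz
    obtain ⟨γ, f, g, hf, hg, hg0, rfl⟩ := (D.mem_QS _ _ z).1 hz
    by_cases hf0 : f = 0
    · subst hf0
      simp
    · obtain ⟨δ, x, y, hx, hy, hx0, hy0, h⟩ := exists_common H TD γ f g hf hg hf0 hg0
      refine (D.mem_QS _ _ _).2 ⟨δ, y, x, hy, hx, hx0, ?_⟩
      rw [div_eq_div_iff hg0 hx0, h, mul_comm]

end Pool.Agent.TOR
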