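import Pool.Agent.TOR.C7
import Pool.Agent.TOR.K5

namespace Pool.Agent.TOR

open Set

universe u

variable {R K κ 𝔽 : Type u} [CommRing R] [Field K] [Algebra R K] [Field κ] [Algebra R κ] [Field 𝔽] [Algebra R 𝔽] {t : R}
  {ι : Type} [Fintype ι] [DecidableEq ι] {M : AddSubgroup (ι → ℤ)} {a : ι → ℤ}

/-- everything constructed from `F` -/
structure CAll (F : FD R K κ t M a) (D : D0 R K 𝔽 t M) (j : κ →ₐ[R] 𝔽) {Γ : Type} [AddCommGroup Γ] (deg : (ι → ℤ) →+ Γ)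
    (s : Γ →+ (ι → ℤ)) (Φ : Finset ι → Γ → 𝔽) (uu : Finset ι → Γ → ι → ℤ) (sel : ι → Finset ι) (σ0 : Finset ι)
    (Dt : Dat R K 𝔽 t deg Finset.univ Finset.univ) (h : Finset ι → κ) (pp : Finset ι → ι → ℤ) : Prop where
  chart : ∀ (m : ℕ) (f g : κ) (w : ι → ℤ), f ∈ F.H m → g ∈ F.H m → F.th m g = mono K w →
    j (f / g) ∈ D.T ∧ D.red (j (f / g)) = F.th m f * mono K (-w)
  chartB : ∀ (l : ι) (m : ℕ) (f g : κ) (w : ι → ℤ), f ∈ F.H m → g ∈ F.H m → F.th m g = mono K w → w l = 0 →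
    j (f / g) ∈ D.B l
  hdeg : ∀ v, deg v = 0 ↔ v ∈ M
  hs : ∀ γ, deg (s γ) = γ
  L : IsLB D (zv a) s Φ uu
  hsel : ∀ l, sel l ∈ Vert M (zv a) ∧ l ∈ sel l
  h0 : σ0 ∈ Vert M (zv a)
  hT : ∀ γ, Dt.T γ = D.T
  hr : ∀ γ f, Dt.red γ f = D.red f * mono K (s γ)
  hR : ∀ l γ f, f ∈ Dt.Rl l γ ↔ f * (Φ (sel l) γ)⁻¹ ∈ D.B l
  good : ∀ τ ∈ TS M Finset.univ (zv a), Dt.Good τ
  hmem : ∀ σ ∈ Vert M (zv a), h σ ∈ F.H 1 ∧ F.th 1 (h σ) = mono K (pp σ)
  ppM : ∀ σ ∈ Vert M (zv a), pp σ - a ∈ M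
  pp0 : ∀ σ ∈ Vert M (zv a), ∀ l ∈ σ, pp σ l = 0
  pp_nonneg : ∀ σ ∈ Vert M (zv a), ∀ l, 0 ≤ pp σ l

/-- Tight sets are good in degree zero: `m ∈ M` nonnegative on `τ`; `w` from `face_point`, degree `k`; `N w + m ≥ 0` for large `N`; `f, g ∈ H (N k)` lifts of `N w + m`, `N w` (`th_surj`); `j (f / g)`. -/
theorem good0_face (F : FD R K κ t M a) (D : D0 R K 𝔽 t M) (j : κ →ₐ[R] 𝔽)
    (chart : ∀ (m : ℕ) (f g : κ) (w : ι → ℤ), f ∈ F.H m → g ∈ F.H m → F.th m g = mono K w →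
      j (f / g) ∈ D.T ∧ D.red (j (f / g)) = F.th m f * mono K (-w))
    (chartB : ∀ (l : ι) (m : ℕ) (f g : κ) (w : ι → ℤ), f ∈ F.H m → g ∈ F.H m → F.th m g = mono K w → w l = 0 →
      j (f / g) ∈ D.B l) (τ : Finset ι) (hτ : τ ∈ TS M Finset.univ (zv a)) : D.Good0 τ := by
  obtain ⟨k, w, hk, hw, hw0, hw1⟩ := face_point a τ hτ
  intro m hm hpos
  set N : ℕ := ∑ l, (m l).natAbs with hN
  have hNle : ∀ l, -(m l) ≤ (N : ℤ) := by
    intro l
    have h1 : (m l).natAbs ≤ N := Finset.single_le_sum (f := fun l => (m l).natAbs) (fun _ _ => Nat.zero_le _) (Finset.mem_univ l)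
    have h2 : -(m l) ≤ ((m l).natAbs : ℤ) := by omega
    have h3 : ((m l).natAbs : ℤ) ≤ N := by exact_mod_cast h1
    exact h2.trans h3
  have hw2 : ∀ l, 0 ≤ w l := by
    intro l
    by_cases hl : l ∈ τ
    · rw [hw0 l hl]
    · exact le_trans zero_le_one (hw1 l hl)
  have hmem1 : (N • w + m) - (N * k) • a ∈ M := by
    have h1 : (N • w + m) - (N * k) • a = N • (w - k • a) + m := by
      rw [smul_sub, mul_smul]; abel
    rw [h1]
    exact M.add_mem (M.nsmul_mem hw N) hm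
  have hmem2 : (N • w) - (N * k) • a ∈ M := by
    have h1 : (N • w) - (N * k) • a = N • (w - k • a) := by
      rw [smul_sub, mul_smul]
    rw [h1]
    exact M.nsmul_mem hw N
  have hp1 : ∀ l, 0 ≤ (N • w + m) l := by
    intro l
    show 0 ≤ N • w l + m l
    rw [nsmul_eq_mul]
    by_cases hl : l ∈ τ
    · rw [hw0 l hl, mul_zero, zero_add]
      exact hpos l hl
    · have h1 := hw1 l hl
      have h2 := hNle l
      have h3 : (N : ℤ) * 1 ≤ (N : ℤ) * w l := mul_le_mul_of_nonneg_left h1 (by positivity)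
      linarith
  have hp2 : ∀ l, 0 ≤ (N • w) l := by
    intro l
    show 0 ≤ N • w l
    rw [nsmul_eq_mul]
    exact mul_nonneg (by positivity) (hw2 l)
  obtain ⟨f, hf, hf'⟩ := F.th_surj (N * k) (N • w + m) hmem1 hp1
  obtain ⟨g, hg, hg'⟩ := F.th_surj (N * k) (N • w) hmem2 hp2
  have hc := chart (N * k) f g (N • w) hf hg hg'
  refine ⟨j (f / g), D.mem_BB.2 ⟨hc.1, fun l hl => chartB l (N * k) f g (N • w) hf hg hg' ?_⟩, ?_⟩
  · simp [hw0 l hl]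
  · rw [hc.2, hf']
    simp only [mono]
    rw [AddMonoidAlgebra.single_mul_single]
    congr 1
    · abel
    · simp

end Pool.Agent.TOR
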