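import Pool.Agent.TOR.C8b

namespace Pool.Agent.TOR

open Set

universe u

variable {R K κ 𝔽 : Type u} [CommRing R] [Field K] [Algebra R K] [Field κ] [Algebra R κ] [Field 𝔽] [Algebra R 𝔽] {t : R}
  {ι : Type} [Fintype ι] [DecidableEq ι] {M : AddSubgroup (ι → ℤ)} {a : ι → ℤ}

/-- Existence of everything: a vertex exists (`vert_above` for the tight set of a point); `face_point` for `τ = ∅` (a tight set by `TS_sub`) gives `hint`; `hmon`: `m • p` for a vertex point `p` (`vert_point`); `exists_CT`, `exists_D0`, `good0_face`, `exists_deg`, `exists_LB` (`J = {j // j ∉ σ0}`), `sel` from `zero` and `vert_above`, `exists_Dat`, `Dat_good`; `h σ` a lift of the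
vertex point (`th_surj` in degree 1). `Good0 {l}`: `{l} ∈ TS` by `TS_sub`. -/
theorem exists_CAll (F : FD R K κ t M a) :
    ∃ (𝔽 : Type u) (_ : Field 𝔽) (_ : Algebra R 𝔽) (j : κ →ₐ[R] 𝔽) (D : D0 R K 𝔽 t M) (σ0 : Finset ι)
      (deg : (ι → ℤ) →+ ({j : ι // j ∉ σ0} → ℤ)) (Φ : Finset ι → ({j : ι // j ∉ σ0} → ℤ) → 𝔽)
      (uu : Finset ι → ({j : ι // j ∉ σ0} → ℤ) → ι → ℤ) (sel : ι → Finset ι)
      (Dt : Dat R K 𝔽 t deg Finset.univ Finset.univ) (h : Finset ι → κ) (pp : Finset ι → ι → ℤ),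
      CAll F D j deg (ext σ0) Φ uu sel σ0 Dt h pp := by
  classical
  have hD : Delz M (zv a) := F.delzant
  have hS : Simp M Finset.univ (zv a) := delz_simp (zv a) hD
  obtain ⟨p0, hp0⟩ := F.ne
  obtain ⟨σ0, h0, -⟩ := vert_above (zv a) (tight Finset.univ p0) ⟨p0, hp0, rfl⟩
  have hempty : (∅ : Finset ι) ∈ TS M Finset.univ (zv a) := TS_sub M Finset.univ (zv a) hS ∅ σ0 (Finset.empty_subset _) h0.1
  have hint : ∃ (k0 : ℕ) (w0 : ι → ℤ), w0 - k0 • a ∈ M ∧ ∀ l, 1 ≤ w0 l := by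
    obtain ⟨k, w, -, hw, -, hw1⟩ := face_point a ∅ hempty
    exact ⟨k, w, hw, fun l => hw1 l (Finset.notMem_empty l)⟩
  have hmon : ∀ m : ℕ, ∃ w : ι → ℤ, w - m • a ∈ M ∧ ∀ l, 0 ≤ w l := by
    intro m
    obtain ⟨p, hp, hp0, hp1⟩ := vert_point a hD σ0 h0
    refine ⟨m • p, ?_, fun l => ?_⟩
    · rw [← smul_sub]
      exact M.nsmul_mem hp m
    · show 0 ≤ m • p l
      refine nsmul_nonneg ?_ m
      by_cases hl : l ∈ σ0
      · rw [hp0 l hl]
      · exact le_trans zero_le_one (hp1 l hl)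
  obtain ⟨𝔽, _, _, j, ⟨C⟩⟩ := exists_CT F hint hmon
  obtain ⟨D, hDT, hDred, hDB⟩ := exists_D0 F 𝔽 j C
  have chart : ∀ (m : ℕ) (f g : κ) (w : ι → ℤ), f ∈ F.H m → g ∈ F.H m → F.th m g = mono K w →
      j (f / g) ∈ D.T ∧ D.red (j (f / g)) = F.th m f * mono K (-w) := by
    rw [hDT, hDred]
    exact C.chart
  have hg : ∀ τ ∈ TS M Finset.univ (zv a), D.Good0 τ := good0_face F D j chart hDB
  obtain ⟨deg, hdeg, hs⟩ := exists_deg (zv a) hD σ0 h0
  obtain ⟨Φ, uu, L⟩ := exists_LB D (zv a) F.bdd hD hg (ext σ0)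
  have hsel : ∀ l, ∃ σ, σ ∈ Vert M (zv a) ∧ l ∈ σ := by
    intro l
    obtain ⟨p, hp, hpl⟩ := F.zero l
    obtain ⟨σ, hσ, hsub⟩ := vert_above (zv a) (tight Finset.univ p) ⟨p, hp, rfl⟩
    exact ⟨σ, hσ, hsub (mem_tight.2 ⟨Finset.mem_univ _, hpl⟩)⟩
  choose sel hsel using hsel
  have hgl : ∀ l, D.Good0 {l} := fun l =>
    hg _ (TS_sub M Finset.univ (zv a) hS {l} (sel l) (Finset.singleton_subset_iff.2 (hsel l).2) (hsel l).1.1)
  obtain ⟨Dt, hT, hr, hR⟩ := exists_Dat D (zv a) deg (ext σ0) hdeg hs Φ uu L sel hsel hgl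
  have hv : ∀ σ, ∃ (p : ι → ℤ) (h : κ), σ ∈ Vert M (zv a) → (h ∈ F.H 1 ∧ F.th 1 h = mono K p) ∧ p - a ∈ M ∧
      (∀ l ∈ σ, p l = 0) ∧ ∀ l, 0 ≤ p l := by
    intro σ
    by_cases hσ : σ ∈ Vert M (zv a)
    · obtain ⟨p, hp, hp0, hp1⟩ := vert_point a hD σ hσ
      have hpn : ∀ l, 0 ≤ p l := by
        intro l
        by_cases hl : l ∈ σ
        · rw [hp0 l hl]
        · exact le_trans zero_le_one (hp1 l hl)
      obtain ⟨h, hh, hth⟩ := F.th_surj 1 p (by rwa [one_smul]) hpn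
      exact ⟨p, h, fun _ => ⟨⟨hh, hth⟩, hp, hp0, hpn⟩⟩
    · exact ⟨0, 0, fun h => absurd h hσ⟩
  choose pp h hh using hv
  exact ⟨𝔽, inferInstance, inferInstance, j, D, σ0, deg, Φ, uu, sel, Dt, h, pp,
    { chart := chart
      chartB := hDB
      hdeg := hdeg
      hs := hs
      L := L
      hsel := hsel
      h0 := h0
      hT := hT
      hr := hr
      hR := hR
      good := Dat_good D (zv a) deg (ext σ0) hdeg hs Φ uu L sel hsel Dt hT hr hR hg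
      hmem := fun σ hσ => (hh σ hσ).1
      ppM := fun σ hσ => (hh σ hσ).2.1
      pp0 := fun σ hσ => (hh σ hσ).2.2.1
      pp_nonneg := fun σ hσ => (hh σ hσ).2.2.2 }⟩

end Pool.Agent.TOR
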