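import Pool.Agent.TOR.C8b

namespace Pool.Agent.TOR

open Set

universe u

variable {R K κ 𝔽 : Type u} [CommRing R] [Field K] [Algebra R K] [Field κ] [Algebra R κ] [Field 𝔽] [Algebra R 𝔽] {t : R}
  {ι : Type} [Fintype ι] [DecidableEq ι] {M : AddSubgroup (ι → ℤ)} {a : ι → ℤ}

section

variable {F : FD R K κ t M a} {D : D0 R K 𝔽 t M} {j : κ →ₐ[R] 𝔽} {Γ : Type} [AddCommGroup Γ] {deg : (ι → ℤ) →+ Γ}
    {s : Γ →+ (ι → ℤ)} {Φ : Finset ι → Γ → 𝔽} {uu : Finset ι → Γ → ι → ℤ} {sel : ι → Finset ι} {σ0 : Finset ι}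
    {Dt : Dat R K 𝔽 t deg Finset.univ Finset.univ} {h : Finset ι → κ} {pp : Finset ι → ι → ℤ}
    (A : CAll F D j deg s Φ uu sel σ0 Dt h pp)

include A

theorem CAll.MV_eq : MV deg Finset.univ = M := by
  ext m
  rw [mem_MV]
  exact ⟨fun h => (A.hdeg m).1 h.2, fun h => ⟨fun i hi => absurd (Finset.mem_univ i) hi, (A.hdeg m).2 h⟩⟩


omit A [Fintype ι] [DecidableEq ι] in
/-- distinct monomials are linearly independent -/
theorem c8d_lin (S : Finset (ι → ℤ)) (y : S → KZ K ι) (hy : ∀ u : S, y u = mono K (u : ι → ℤ)) :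
    LinearIndependent K y := by
  classical
  rw [Fintype.linearIndependent_iff]
  intro g hg i
  have h := congrArg (fun z : KZ K ι => z.coeff (i : ι → ℤ)) hg
  simp only [hy, mono, AddMonoidAlgebra.coeff_sum, AddMonoidAlgebra.coeff_smul, AddMonoidAlgebra.coeff_single,
    Finsupp.coe_finsetSum, Finset.sum_apply, Finsupp.smul_apply, AddMonoidAlgebra.coeff_zero, Finsupp.coe_zero,
    Pi.zero_apply, Finsupp.single_apply, smul_eq_mul] at h
  rw [Finset.sum_eq_single i] at h
  · simpa using h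
  · intro b _ hb
    have : (b : ι → ℤ) ≠ i := fun h => hb (Subtype.ext h)
    simp [this]
  · intro h'
    exact absurd (Finset.mem_univ _) h'

omit A [DecidableEq ι] in
theorem c8d_th_zero (F : FD R K κ t M a) (m : ℕ) : F.th m 0 = 0 := by
  have h := F.th_smul m 0 0 (Submodule.zero_mem _)
  simpa using h

omit A [DecidableEq ι] in
theorem c8d_th_sum (F : FD R K κ t M a) (m : ℕ) {J : Type} (s : Finset J) (f : J → κ) (hf : ∀ i, f i ∈ F.H m) :
    F.th m (∑ i ∈ s, f i) = ∑ i ∈ s, F.th m (f i) := by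
  classical
  induction s using Finset.induction_on with
  | empty => simpa using c8d_th_zero F m
  | insert b s hb ih =>
    rw [Finset.sum_insert hb, Finset.sum_insert hb, F.th_add _ _ _ (hf b) (Submodule.sum_mem _ fun i _ => hf i), ih]

omit A [DecidableEq ι] in
theorem c8d_indep (F : FD R K κ t M a) (m : ℕ) (C : Finset (ι → ℤ)) (w : C → κ) (hw : ∀ u, w u ∈ F.H m)
    (hth : ∀ u : C, F.th m (w u) = mono K (u : ι → ℤ)) (r : C → R) (h : ∑ u, r u • w u = 0) : r = 0 := by
  classical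
  by_contra hcon
  obtain ⟨u0, hu0⟩ : ∃ u, r u ≠ 0 := by
    by_contra h0
    push Not at h0
    exact hcon (funext h0)
  have hfact : ∀ u, ∃ (n : ℕ) (s : R), r u ≠ 0 → r u = t ^ n * s ∧ algebraMap R K s ≠ 0 := by
    intro u
    by_cases h1 : r u = 0
    · exact ⟨0, 0, fun h => absurd h1 h⟩
    · obtain ⟨n, s, hs⟩ := F.base.fact (r u) h1
      exact ⟨n, s, fun _ => hs⟩
  choose n s hs using hfact
  obtain ⟨u1, hu1, hmin⟩ := Finset.exists_min_image (Finset.univ.filter fun u => r u ≠ 0) n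
    ⟨u0, Finset.mem_filter.2 ⟨Finset.mem_univ _, hu0⟩⟩
  have hr1 : r u1 ≠ 0 := (Finset.mem_filter.1 hu1).2
  let r' : C → R := fun u => if r u = 0 then 0 else t ^ (n u - n u1) * s u
  have hr' : ∀ u, r u = t ^ n u1 * r' u := by
    intro u
    by_cases h1 : r u = 0
    · simp [r', h1]
    · have h2 := hmin u (Finset.mem_filter.2 ⟨Finset.mem_univ _, h1⟩)
      simp only [r', if_neg h1]
      rw [← mul_assoc, ← pow_add, show n u1 + (n u - n u1) = n u by omega]
      exact (hs u h1).1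
  have ht : algebraMap R κ t ≠ 0 := fun h0 => F.base.t_ne (F.inj (by rw [h0, map_zero]))
  have hsum : ∑ u, r' u • w u = 0 := by
    have h1 : t ^ n u1 • ∑ u, r' u • w u = 0 := by
      rw [Finset.smul_sum, ← h]
      exact Finset.sum_congr rfl fun u _ => by rw [smul_smul, ← hr' u]
    rw [Algebra.smul_def, map_pow] at h1
    exact (mul_eq_zero.1 h1).resolve_left (pow_ne_zero _ ht)
  have h2 : ∑ u, algebraMap R K (r' u) • mono K (u : ι → ℤ) = 0 := by
    rw [← c8d_th_zero F m, ← hsum, c8d_th_sum F m Finset.univ (fun u => r' u • w u) fun u => Submodule.smul_mem _ _ (hw u)]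
    exact Finset.sum_congr rfl fun u _ => by rw [F.th_smul _ _ _ (hw u), hth]
  have h3 := Fintype.linearIndependent_iff.1 (c8d_lin C (fun u => mono K (u : ι → ℤ)) fun u => rfl) _ h2 u1
  have h4 : r' u1 = s u1 := by
    simp only [r', if_neg hr1, Nat.sub_self, pow_zero, one_mul]
  rw [h4] at h3
  exact (hs u1 hr1).2 h3

/-- The hypotheses of the core theorem (`delz_simp`). -/
theorem CAll.hyp : Dt.Hyp (fun l => (a l : ℚ)) := by
  have hrv : rv (fun l => (a l : ℚ)) = zv a := by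
    funext l
    simp [rv, zv]
  have hM := A.MV_eq
  refine ⟨fun l hl => absurd (Finset.mem_univ l) hl, ?_, ?_, ?_, ?_, ?_⟩
  · rw [hrv, hM]
    exact F.ne
  · rw [hrv, hM]
    exact F.bdd
  · rw [hrv, hM]
    exact delz_simp (zv a) F.delzant
  · rw [hrv, hM]
    exact fun l _ => F.zero l
  · rw [hrv, hM]
    exact A.good

/-- Independent families in `j (H m)`: as many as monomials (lifts of monomials; `th`; argument of `indep_of_red`). -/
theorem CAll.fam_H (m : ℕ) (C : Finset (ι → ℤ)) (hC : ∀ u, u ∈ C ↔ u ∈ Cnt deg Finset.univ Finset.univ (m • deg a)) :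
    ∃ w : C → κ, (∀ u, w u ∈ F.H m) ∧ ∀ r : C → R, ∑ u, r u • j (w u) = 0 → r = 0 := by
  have h1 : ∀ u : C, ∃ f ∈ F.H m, F.th m f = mono K (u : ι → ℤ) := by
    intro u
    have h2 := (hC u).1 u.2
    refine F.th_surj m u ?_ fun l => h2.2.2 l (Finset.mem_univ l)
    rw [← A.hdeg, map_sub, map_nsmul, h2.2.1, sub_self]
  choose w hw hth using h1
  refine ⟨w, hw, fun r h => c8d_indep F m C w hw hth r ?_⟩
  have h2 : j (∑ u, r u • w u) = 0 := by
    rw [map_sum, ← h]
    exact Finset.sum_congr rfl fun u _ => map_smul j _ _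
  exact j.toRingHom.injective (by rw [map_zero]; exact h2)

/-- Independent families in `W (n • deg a)`, `n ≥ 1` (`path_lift` for `Dt` at `zv a` with `u0 = n • a`, `c = n`, `s = 0`; `(CAll.hyp A).roof`; `lifts_indep`). -/
theorem CAll.fam_W (n : ℕ) (hn : 1 ≤ n) (C : Finset (ι → ℤ)) (hC : ∀ u, u ∈ C ↔ u ∈ Cnt deg Finset.univ Finset.univ (n • deg a)) :
    ∃ w : C → 𝔽, (∀ u, w u ∈ Dt.RR Finset.univ (n • deg a)) ∧ ∀ r : C → R, ∑ u, r u • w u = 0 → r = 0 := by
  have hrv : rv (fun l => (a l : ℚ)) = zv a := by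
    funext l
    simp [rv, zv]
  have H := A.hyp
  have hroof := H.roof
  have hne := H.ne
  have hz := H.zero
  rw [hrv] at hroof hne hz
  have hn0 : (0 : ℝ) < n := by exact_mod_cast hn
  refine (lifts_indep Dt Finset.univ (n • deg a) C fun u hu => ?_).imp fun w hw => ⟨hw.1, hw.2.2⟩
  have h1 := (hC u).1 hu
  have h2 : (fun l => (((n • a) l : ℤ) : ℝ) / n + (if l ∈ (Finset.univ : Finset ι) then (0 : ℝ) else 0) - zv a l) = 0 := by
    funext l
    have h3 : (((n • a) l : ℤ) : ℝ) = n * (a l : ℝ) := by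
      rw [Pi.smul_apply, nsmul_eq_mul]
      push_cast
      ring
    simp only [h3, zv, Pi.zero_apply, ite_self]
    field_simp
    ring
  obtain ⟨f, hf, hr⟩ := Dt.path_lift (zv a) hne hz hroof (n • a) (fun i hi => absurd (Finset.mem_univ i) hi) n 0 hn0 le_rfl
    (by rw [h2]; exact Submodule.zero_mem _) u h1.1 (by rw [h1.2.1, map_nsmul]) h1.2.2
  rw [h1.2.1] at hf hr
  exact ⟨f, hf, hr⟩

end

end Pool.Agent.TOR
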