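import Pool.Agent.TOR.C8
import Pool.Agent.TD.Dat

/-!
[TOR] block C: from the output of block D to `FD`
-/

namespace Pool.Agent.TOR

open Set

universe u

/-- A complete discrete valuation ring satisfies the elementary axioms: the kernel of a surjection to a field is the maximal ideal, generated by `t`; every nonzero `r` is `t ^ n * unit`; series converge (`IsPrecomplete`/`IsAdicComplete`: the partial sums are a Cauchy sequence). -/
theorem baseR_of_dvr {R K : Type u} [CommRing R] [IsDomain R] [IsDiscreteValuationRing R]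
    [IsAdicComplete (IsLocalRing.maximalIdeal R) R] [Field K] [Algebra R K]
    (hRK : Function.Surjective (algebraMap R K)) {t : R} (ht : Irreducible t) : BaseR R K t := by
  have hker : RingHom.ker (algebraMap R K) = IsLocalRing.maximalIdeal R :=
    IsLocalRing.eq_maximalIdeal (RingHom.ker_isMaximal_of_surjective _ hRK)
  have hmax : IsLocalRing.maximalIdeal R = Ideal.span {t} :=
    (IsDiscreteValuationRing.irreducible_iff_uniformizer t).1 ht
  have hmem : ∀ r : R, algebraMap R K r = 0 ↔ ∃ s, r = t * s := by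
    intro r
    rw [← RingHom.mem_ker, hker, hmax, Ideal.mem_span_singleton]
    exact Iff.rfl
  have hpow : ∀ (N : ℕ) (r : R), r ∈ (IsLocalRing.maximalIdeal R ^ N • ⊤ : Submodule R R) ↔
      ∃ q, r = t ^ N * q := by
    intro N r
    rw [smul_eq_mul, Ideal.mul_top, hmax, Ideal.span_singleton_pow, Ideal.mem_span_singleton]
    exact Iff.rfl
  refine ⟨hRK, fun r hr => (hmem r).1 hr, (hmem t).2 ⟨1, (mul_one t).symm⟩, ht.ne_zero, ?_, ?_⟩
  · intro r hr
    obtain ⟨n, u, hu⟩ := IsDiscreteValuationRing.eq_unit_mul_pow_irreducible hr ht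
    refine ⟨n, (u : R), ?_, ?_⟩
    · rw [hu, mul_comm]
    · exact (u.isUnit.map (algebraMap R K)).ne_zero
  · intro r
    have hprec : IsPrecomplete (IsLocalRing.maximalIdeal R) R := inferInstance
    have hC : ∀ {m n : ℕ}, m ≤ n → (∑ k ∈ Finset.range m, t ^ k * r k) ≡
        (∑ k ∈ Finset.range n, t ^ k * r k)
        [SMOD (IsLocalRing.maximalIdeal R ^ m • ⊤ : Submodule R R)] := by
      intro m n hmn
      rw [SModEq.comm, SModEq.sub_mem, hpow]
      obtain ⟨d, rfl⟩ := Nat.exists_eq_add_of_le hmn
      refine ⟨∑ k ∈ Finset.range d, t ^ k * r (m + k), ?_⟩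
      rw [Finset.sum_range_add, add_sub_cancel_left, Finset.mul_sum]
      refine Finset.sum_congr rfl fun k _ => ?_
      rw [pow_add, mul_assoc]
    obtain ⟨L, hL⟩ := hprec.prec (f := fun N => ∑ k ∈ Finset.range N, t ^ k * r k) hC
    refine ⟨L, fun N => ?_⟩
    have h := hL N
    rw [SModEq.comm, SModEq.sub_mem, hpow] at h
    exact h

end Pool.Agent.TOR
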