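import Pool.Agent.TOR.A20
import Pool.Agent.TOR.B8

/-!
[TOR] core theorem: definitions
-/

namespace Pool.Agent.TOR

open Set

universe u

/-- real version of a rational vector -/
def rv {ι : Type} (a : ι → ℚ) : ι → ℝ := fun l => (a l : ℝ)

section

variable {R K 𝔽 : Type u} [CommRing R] [Field K] [Algebra R K] [Field 𝔽] [Algebra R 𝔽] {t : R}
  {ι Γ : Type} [Fintype ι] [AddCommGroup Γ] {deg : (ι → ℤ) →+ Γ} {V E : Finset ι}

/-- the hypotheses of the core theorem on the polyhedron -/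
structure Dat.Hyp (D : Dat R K 𝔽 t deg V E) (a : ι → ℚ) : Prop where
  supp : ∀ l, l ∉ V → a l = 0
  ne : (PP (MV deg V) E (rv a)).Nonempty
  bdd : Bornology.IsBounded (PP (MV deg V) E (rv a))
  simp : Simp (MV deg V) E (rv a)
  zero : ∀ l ∈ E, ∃ p ∈ PP (MV deg V) E (rv a), p l = 0
  good : ∀ τ ∈ TS (MV deg V) E (rv a), D.Good τ

variable [DecidableEq ι]

/-- `D'` is the base of the fibration of `D` with horizontal indices `I` -/
structure BaseOf (D : Dat R K 𝔽 t deg V E) (I E' : Finset ι) (D' : Dat R K 𝔽 t deg (V \ I) E') : Prop where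
  IE : I ⊆ E
  E'E : E' ⊆ E
  disj : ∀ l ∈ E', l ∉ I
  T_in : ∀ w : ι → ℤ, SupIn (V \ I) w → ∀ f, f ∈ D'.T (deg w) ↔ f ∈ D.RR I (deg w)
  T_out : ∀ γ, ¬ (∃ w : ι → ℤ, SupIn (V \ I) w ∧ deg w = γ) → ∀ f, f ∈ D'.T γ → f = 0
  Rl_iff : ∀ l ∈ E', ∀ γ f, f ∈ D'.Rl l γ ↔ f ∈ D'.T γ ∧ f ∈ D.Rl l γ
  red_eq : D'.red = D.red

end

/-- the monomials of degree `γ` with exponents supported in `V`, nonnegative on `E` -/
def Cnt {ι Γ : Type} [AddCommGroup Γ] (deg : (ι → ℤ) →+ Γ) (V E : Finset ι) (γ : Γ) : Set (ι → ℤ) :=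
  {u | SupIn V u ∧ deg u = γ ∧ ∀ l ∈ E, 0 ≤ u l}

/-- the elements of `MV deg V` vanishing on `I` -/
theorem sub0_MV {ι Γ : Type} [DecidableEq ι] [AddCommGroup Γ] (deg : (ι → ℤ) →+ Γ) (V I : Finset ι) :
    sub0 (MV deg V) I = MV deg (V \ I) := by
  ext m
  rw [mem_sub0, mem_MV, mem_MV]
  constructor
  · rintro ⟨⟨h1, h2⟩, h3⟩
    refine ⟨fun i hi => ?_, h2⟩
    by_cases hV : i ∈ V
    · by_cases hI : i ∈ I
      · exact h3 i hI
      · exact absurd (Finset.mem_sdiff.2 ⟨hV, hI⟩) hi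
    · exact h1 i hV
  · rintro ⟨h1, h2⟩
    refine ⟨⟨fun i hi => h1 i fun h => hi (Finset.mem_sdiff.1 h).1, h2⟩, fun i hi => h1 i fun h => (Finset.mem_sdiff.1 h).2 hi⟩

end Pool.Agent.TOR
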