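import Pool.Agent.TOR.K0
import Pool.Agent.TOR.A10b
import Pool.Agent.TOR.A11b
import Pool.Agent.TOR.B6

namespace Pool.Agent.TOR

open Set

universe u

variable {R K 𝔽 : Type u} [CommRing R] [Field K] [Algebra R K] [Field 𝔽] [Algebra R 𝔽] {t : R}
  {ι Γ : Type} [Fintype ι] [DecidableEq ι] [AddCommGroup Γ] {deg : (ι → ℤ) →+ Γ} {V E : Finset ι}

/-- GENERIC CHOICE. Proof: `perturb` gives `ε` with `TS a' = TS a` for `|a' - a| < ε`; `exists_generic` gives `a'` (equal to `a` off `E`, so supported in `V`). Nonempty: `TS a'` is nonempty. Bounded: `bdd_all`. `Simp` and goodness only depend on `TS`.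
Zeros: for `l ∈ E` there is `τ ∈ TS a` with `l ∈ τ` (the tight set of a point with `p l = 0`). -/
theorem Dat.Hyp.generic {D : Dat R K 𝔽 t deg V E} {a : ι → ℚ} (H : D.Hyp a) :
    ∃ a' : ι → ℚ, D.Hyp a' ∧ Gen (MV deg V) E (rv a') := by
  obtain ⟨ε, hε, hTS⟩ := perturb (MV deg V) E (rv a) H.ne H.bdd H.simp
  obtain ⟨a', ha1, ha2, hG⟩ := exists_generic (MV deg V) E a ε hε
  have hT : TS (MV deg V) E (rv a') = TS (MV deg V) E (rv a) := hTS (rv a') ha1
  refine ⟨a', ⟨?_, ?_, ?_, ?_, ?_, ?_⟩, hG⟩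
  · intro l hl
    rw [ha2 l fun h => hl (D.EV h)]
    exact H.supp l hl
  · obtain ⟨p, hp⟩ := H.ne
    have h1 : tight E p ∈ TS (MV deg V) E (rv a') := by
      rw [hT]
      exact ⟨p, hp, rfl⟩
    obtain ⟨p', hp', -⟩ := h1
    exact ⟨p', hp'⟩
  · exact bdd_all _ _ _ H.ne H.bdd _
  · intro τ hτ
    rw [hT] at hτ
    exact H.simp τ hτ
  · intro l hl
    obtain ⟨p, hp, hpl⟩ := H.zero l hl
    have h1 : tight E p ∈ TS (MV deg V) E (rv a') := by
      rw [hT]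
      exact ⟨p, hp, rfl⟩
    obtain ⟨p', hp', h2⟩ := h1
    refine ⟨p', hp', ?_⟩
    have h3 : l ∈ tight E p' := by
      rw [h2]
      exact mem_tight.2 ⟨hl, hpl⟩
    exact (mem_tight.1 h3).2
  · intro τ hτ
    rw [hT] at hτ
    exact H.good τ hτ

/-- all sets on the roof are good -/
theorem Dat.Hyp.roof {D : Dat R K 𝔽 t deg V E} {a : ι → ℚ} (H : D.Hyp a) :
    ∀ p ∈ PP (MV deg V) E (rv a), D.Good (amin E p) :=
  D.roof_good (rv a) H.bdd H.zero H.good

/-- `I` and all `I ∪ {l}`, `l ∈ E'`, and more generally all `I ∪ tight E' p'` are good: `TD.top` identifies `I ∪ tight E' p'` with `amin E (p' + s 1_E)`; for `l ∈ E'` use `TD.zero'`; for `I` use `p' = a'` (it lies in `PP` by `pt_gt`) and `good_sub`. -/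
theorem top_good {D : Dat R K 𝔽 t deg V E} {a : ι → ℚ} (H : D.Hyp a) (TD : TopData (MV deg V) E a) :
    D.Good TD.I ∧ (∀ l ∈ TD.E', D.Good (insert l TD.I)) ∧
    ∀ p' ∈ PP (sub0 (MV deg V) TD.I) TD.E' (rv TD.pt - ind E (TD.s : ℝ)), D.Good (TD.I ∪ tight TD.E' p') := by
  have h3 : ∀ p' ∈ PP (sub0 (MV deg V) TD.I) TD.E' (rv TD.pt - ind E (TD.s : ℝ)), D.Good (TD.I ∪ tight TD.E' p') := by
    intro p' hp'
    obtain ⟨h1, h2⟩ := TD.top p' hp'
    rw [← h2]
    exact H.roof _ h1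
  have hsub : ∀ p' : ι → ℝ, TD.I ∪ tight TD.E' p' ⊆ E := by
    intro p' l hl
    rcases Finset.mem_union.1 hl with h | h
    · exact TD.IE h
    · exact TD.E'E (mem_tight.1 h).1
  refine ⟨?_, ?_, h3⟩
  · have h4 : (rv TD.pt - ind E (TD.s : ℝ)) ∈ PP (sub0 (MV deg V) TD.I) TD.E' (rv TD.pt - ind E (TD.s : ℝ)) := by
      refine ⟨by rw [sub_self]; exact Submodule.zero_mem _, fun l hl => ?_⟩
      have h5 := TD.pt_gt l (TD.E'E hl) (TD.disj l hl)
      have h6 : (TD.s : ℝ) < (TD.pt l : ℝ) := by exact_mod_cast h5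
      simp only [Pi.sub_apply, rv, ind, if_pos (TD.E'E hl)]
      linarith
    exact D.good_sub _ _ Finset.subset_union_left (hsub _) (h3 _ h4)
  · intro l hl
    obtain ⟨p', hp', hl'⟩ := TD.zero' l hl
    refine D.good_sub _ _ ?_ (hsub p') (h3 p' hp')
    intro j hj
    rcases Finset.mem_insert.1 hj with rfl | h
    · exact Finset.mem_union_right _ (mem_tight.2 ⟨hl, hl'⟩)
    · exact Finset.mem_union_left _ h

end Pool.Agent.TOR
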