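import Pool.Agent.TOR.K10c

namespace Pool.Agent.TOR

open Set

universe u

variable {R K 𝔽 : Type u} [CommRing R] [Field K] [Algebra R K] [Field 𝔽] [Algebra R 𝔽] {t : R}
  {ι Γ : Type} [Fintype ι] [DecidableEq ι] [AddCommGroup Γ] {deg : (ι → ℤ) →+ Γ} {V E : Finset ι}

variable {D : Dat R K 𝔽 t deg V E} {I E' : Finset ι} {D' : Dat R K 𝔽 t deg (V \ I) E'}
    {β u0 : ι → ℤ} {m0 : ℕ} {Y : ι → 𝔽} (S : Setup D I E' D' β u0 m0 Y)

include S

/-- Existence of the `h j` (`exists_hom`: `- dY (b j) = deg (- w - (∑ b j) m0 u0)` with `deg w = deg (b j)`). -/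
theorem exists_h (r : ℕ) (b : Fin r → (ι → ℤ)) (hb : ∀ j, b j ∈ MF deg V I) :
    ∃ h : Fin r → 𝔽, (∀ j, h j ∈ D'.Fr E' (- dY deg I u0 m0 (b j))) ∧ ∀ j, h j ≠ 0 := by
  have key : ∀ j, ∃ z ∈ D'.Fr E' (- dY deg I u0 m0 (b j)), z ≠ 0 := by
    intro j
    obtain ⟨-, w, hw, hwd⟩ := hb j
    have := exists_hom S (-w - (∑ i ∈ I, b j i) • (m0 • u0)) (fun i hi => by simp [hw i hi, S.u0_supp i hi])
    rwa [show deg (-w - (∑ i ∈ I, b j i) • (m0 • u0)) = - dY deg I u0 m0 (b j) by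
      rw [dY, eY, map_sub, map_neg, map_add, hwd]; abel] at this
  choose h hh hh0 using key
  exact ⟨h, hh, hh0⟩

end Pool.Agent.TOR
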