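import Pool.Agent.TOR.K9

namespace Pool.Agent.TOR

open Set

universe u

variable {R K 𝔽 : Type u} [CommRing R] [Field K] [Algebra R K] [Field 𝔽] [Algebra R 𝔽] {t : R}
  {ι Γ : Type} [Fintype ι] [DecidableEq ι] [AddCommGroup Γ] {deg : (ι → ℤ) →+ Γ} {V E : Finset ι}

/-- the relative lattice -/
def MF (deg : (ι → ℤ) →+ Γ) (V I : Finset ι) : AddSubgroup (ι → ℤ) where
  carrier := {α | SupIn I α ∧ ∃ w : ι → ℤ, SupIn (V \ I) w ∧ deg w = deg α}
  zero_mem' := ⟨fun _ _ => rfl, 0, fun _ _ => rfl, rfl⟩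
  add_mem' := by
    rintro a b ⟨ha, w, hw, hwa⟩ ⟨hb, w', hw', hwb⟩
    exact ⟨fun i hi => by simp [ha i hi, hb i hi], w + w', fun i hi => by simp [hw i hi, hw' i hi], by rw [map_add, map_add, hwa, hwb]⟩
  neg_mem' := by
    rintro a ⟨ha, w, hw, hwa⟩
    exact ⟨fun i hi => by simp [ha i hi], -w, fun i hi => by simp [hw i hi], by rw [map_neg, map_neg, hwa]⟩

theorem mem_MF {deg : (ι → ℤ) →+ Γ} {V I : Finset ι} {α : ι → ℤ} :
    α ∈ MF deg V I ↔ SupIn I α ∧ ∃ w : ι → ℤ, SupIn (V \ I) w ∧ deg w = deg α := Iff.rfl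


omit [DecidableEq ι] in
theorem k10a_free (M : AddSubgroup (ι → ℤ)) : Module.Free ℤ M := by
  have : Module.Free ℤ (AddSubgroup.toIntSubmodule M) := inferInstance
  exact this

omit [DecidableEq ι] in
theorem k10a_finite (M : AddSubgroup (ι → ℤ)) : Module.Finite ℤ M := by
  have : Module.Finite ℤ (AddSubgroup.toIntSubmodule M) := inferInstance
  exact this

/-- restriction to `I` -/
def k10a_res (deg : (ι → ℤ) →+ Γ) (V I : Finset ι) : MV deg V →+ MF deg V I where
  toFun m := ⟨fun i => if i ∈ I then (m : ι → ℤ) i else 0, by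
    refine ⟨fun i hi => if_neg hi, fun i => if i ∈ I then 0 else -(m : ι → ℤ) i, fun i hi => ?_, ?_⟩
    · by_cases h : i ∈ I
      · exact if_pos h
      · have h1 : i ∉ V := fun hV => hi (Finset.mem_sdiff.2 ⟨hV, h⟩)
        have h2 := m.2.1 i h1
        simp [h, h2]
    · have h1 : (fun i => if i ∈ I then (m : ι → ℤ) i else 0) - (fun i => if i ∈ I then 0 else -(m : ι → ℤ) i) = (m : ι → ℤ) := by
        funext i
        by_cases h : i ∈ I <;> simp [h]
      have h2 := congrArg deg h1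
      rw [map_sub, m.2.2] at h2
      exact (sub_eq_zero.1 h2).symm⟩
  map_zero' := by
    apply Subtype.ext
    funext i
    simp
  map_add' a b := by
    apply Subtype.ext
    funext i
    by_cases h : i ∈ I <;> simp [h]

omit [Fintype ι] in
theorem k10a_res_apply (deg : (ι → ℤ) →+ Γ) (V I : Finset ι) (m : MV deg V) (i : ι) :
    ((k10a_res deg V I m : MF deg V I) : ι → ℤ) i = if i ∈ I then (m : ι → ℤ) i else 0 := rfl

omit [Fintype ι] in
theorem k10a_surj (deg : (ι → ℤ) →+ Γ) (V I : Finset ι) (hI : I ⊆ V) : Function.Surjective (k10a_res deg V I) := by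
  rintro ⟨α, hα, w, hw, hwd⟩
  refine ⟨⟨α - w, fun i hi => ?_, by rw [map_sub, hwd, sub_self]⟩, ?_⟩
  · have h1 := hα i fun h => hi (hI h)
    have h2 := hw i fun h => hi (Finset.mem_sdiff.1 h).1
    simp [h1, h2]
  · apply Subtype.ext
    funext i
    rw [k10a_res_apply]
    by_cases h : i ∈ I
    · have h2 := hw i fun h' => (Finset.mem_sdiff.1 h').2 h
      simp [h, h2]
    · simp [h, hα i h]

/-- the kernel of the restriction -/
def k10a_ker (deg : (ι → ℤ) →+ Γ) (V I : Finset ι) :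
    LinearMap.ker (k10a_res deg V I).toIntLinearMap ≃+ MV deg (V \ I) where
  toFun m := ⟨(m : MV deg V), fun i hi => by
    by_cases h : i ∈ I
    · have h1 := congrArg (fun z : MF deg V I => (z : ι → ℤ) i) (LinearMap.mem_ker.1 m.2)
      simp only [AddMonoidHom.coe_toIntLinearMap, k10a_res_apply, if_pos h] at h1
      exact h1
    · exact (m : MV deg V).2.1 i fun hV => hi (Finset.mem_sdiff.2 ⟨hV, h⟩), (m : MV deg V).2.2⟩
  invFun m := ⟨⟨m, fun i hi => m.2.1 i fun h => hi (Finset.mem_sdiff.1 h).1, m.2.2⟩, by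
    rw [LinearMap.mem_ker]
    apply Subtype.ext
    funext i
    simp only [AddMonoidHom.coe_toIntLinearMap, k10a_res_apply]
    by_cases h : i ∈ I
    · have h2 := m.2.1 i fun h' => (Finset.mem_sdiff.1 h').2 h
      simp [h2]
    · simp [h]⟩
  left_inv m := rfl
  right_inv m := rfl
  map_add' a b := rfl

/-- BASIS. `I ⊆ V`. Restriction to `I` (extended by zero) is a surjective homomorphism `MV deg V → MF deg V I` (`m ↦ m|_I`; `deg (m|_I) = deg (-m|_{V \ I})`), with kernel `MV deg (V \ I)` (inside `MV deg V`); ranks of free `ℤ`-modules of finite rank add up. A subgroup of `ι → ℤ` is free: take a basis of `MF`. -/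
theorem exists_basis_MF (deg : (ι → ℤ) →+ Γ) (V I : Finset ι) (hI : I ⊆ V) :
    ∃ (r : ℕ) (b : Fin r → (ι → ℤ)), Module.finrank ℤ (MV deg (V \ I)) + r = Module.finrank ℤ (MV deg V) ∧
      (∀ j, b j ∈ MF deg V I) ∧ (∀ α ∈ MF deg V I, ∃ n : Fin r → ℤ, α = ∑ j, n j • b j) ∧
      ∀ n : Fin r → ℤ, ∑ j, n j • b j = 0 → n = 0 := by
  classical
  have := k10a_free (MF deg V I)
  have := k10a_finite (MF deg V I)
  have := k10a_free (MV deg V)
  have := k10a_finite (MV deg V)
  set B := Module.finBasis ℤ (MF deg V I) with hB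
  refine ⟨Module.finrank ℤ (MF deg V I), fun j => (B j : ι → ℤ), ?_, fun j => (B j).2, ?_, ?_⟩
  · have h1 := Submodule.finrank_quotient_add_finrank (LinearMap.ker (k10a_res deg V I).toIntLinearMap)
    have h2 : Module.finrank ℤ (MV deg V ⧸ LinearMap.ker (k10a_res deg V I).toIntLinearMap) = Module.finrank ℤ (MF deg V I) :=
      (LinearMap.quotKerEquivOfSurjective (k10a_res deg V I).toIntLinearMap (k10a_surj deg V I hI)).finrank_eq
    have h3 : Module.finrank ℤ (LinearMap.ker (k10a_res deg V I).toIntLinearMap) = Module.finrank ℤ (MV deg (V \ I)) :=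
      (k10a_ker deg V I).toIntLinearEquiv.finrank_eq
    rw [h2, h3] at h1
    omega
  · intro α hα
    refine ⟨fun j => B.repr ⟨α, hα⟩ j, ?_⟩
    have h1 := congrArg (fun z : MF deg V I => (z : ι → ℤ)) (B.sum_repr ⟨α, hα⟩)
    simp only [AddSubgroup.val_finsetSum, AddSubgroup.coe_zsmul] at h1
    exact h1.symm
  · intro n hn
    have h1 : ∑ j, n j • B j = 0 := by
      apply Subtype.ext
      simp only [AddSubgroup.val_finsetSum, AddSubgroup.coe_zsmul, ZeroMemClass.coe_zero]
      exact hn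
    funext j
    exact Fintype.linearIndependent_iff.1 B.linearIndependent n h1 j

variable {D : Dat R K 𝔽 t deg V E} {I E' : Finset ι} {D' : Dat R K 𝔽 t deg (V \ I) E'}
    {β u0 : ι → ℤ} {m0 : ℕ} {Y : ι → 𝔽} (S : Setup D I E' D' β u0 m0 Y)

include S

end Pool.Agent.TOR
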