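import Pool.Agent.TOR.K10a

namespace Pool.Agent.TOR

open Set

universe u

variable {R K 𝔽 : Type u} [CommRing R] [Field K] [Algebra R K] [Field 𝔽] [Algebra R 𝔽] {t : R}
  {ι Γ : Type} [Fintype ι] [DecidableEq ι] [AddCommGroup Γ] {deg : (ι → ℤ) →+ Γ} {V E : Finset ι}

variable {D : Dat R K 𝔽 t deg V E} {I E' : Finset ι} {D' : Dat R K 𝔽 t deg (V \ I) E'}
    {β u0 : ι → ℤ} {m0 : ℕ} {Y : ι → 𝔽} (S : Setup D I E' D' β u0 m0 Y)

include S


omit S in
theorem k10b_Fr_pow (δ : Γ) (z : 𝔽) (hz : z ∈ D'.Fr E' δ) (n : ℕ) : z ^ n ∈ D'.Fr E' (n • δ) := by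
  induction n with
  | zero => simpa using D'.Fr_of_RR E' subset_rfl 0 1 (D'.RR_one E' subset_rfl)
  | succ k ih =>
    rw [pow_succ, succ_nsmul]
    exact D'.Fr_mul E' subset_rfl _ _ _ _ ih hz

omit S in
theorem k10b_Fr_prod (r : ℕ) (δ : Fin r → Γ) (z : Fin r → 𝔽) (hz : ∀ j, z j ∈ D'.Fr E' (δ j)) (s : Finset (Fin r)) :
    ∏ j ∈ s, z j ∈ D'.Fr E' (∑ j ∈ s, δ j) := by
  classical
  induction s using Finset.induction_on with
  | empty => simpa using D'.Fr_of_RR E' subset_rfl 0 1 (D'.RR_one E' subset_rfl)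
  | insert a s ha ih =>
    rw [Finset.prod_insert ha, Finset.sum_insert ha]
    exact D'.Fr_mul E' subset_rfl _ _ _ _ (hz a) ih

omit S in
theorem k10b_dY_zero : dY deg I u0 m0 0 = 0 := by
  simp [dY, eY]

omit S in
theorem k10b_dY_sum (r : ℕ) (b : Fin r → (ι → ℤ)) (n : Fin r → ℤ) (s : Finset (Fin r)) :
    dY deg I u0 m0 (∑ j ∈ s, n j • b j) = ∑ j ∈ s, n j • dY deg I u0 m0 (b j) := by
  classical
  induction s using Finset.induction_on with
  | empty => simpa using k10b_dY_zero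
  | insert a s ha ih => rw [Finset.sum_insert ha, Finset.sum_insert ha, dY_add, ih, dY_zsmul]

theorem k10b_Yp_sum (r : ℕ) (b : Fin r → (ι → ℤ)) (n : Fin r → ℤ) (s : Finset (Fin r)) :
    Yp I Y (∑ j ∈ s, n j • b j) = ∏ j ∈ s, Yp I Y (b j) ^ n j := by
  classical
  induction s using Finset.induction_on with
  | empty => simp [Yp]
  | insert a s ha ih => rw [Finset.sum_insert ha, Finset.prod_insert ha, Yp_add S, ih, Yp_zsmul S]

/-- Algebraic independence. `y j = Yp (b j) * h j`, `h j ∈ Fr' (- dY (b j))` nonzero. `∏ y_j ^ n_j = Yp (∑ n_j b_j) * ∏ h_j ^ n_j` (`Yp_add`, `Yp_zsmul`), with `∏ h_j ^ n_j ∈ Fr' (- dY (∑ n_j b_j))` (`Fr_mul`, `dY_add`, `dY_zsmul`). Let `aeval y P = 0`, `P` a polynomial over `Q' = D'.QS E'`: with `A` = the set of all `∑ n_j b_j`,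
`n` in the support of `P` (distinct `n` give distinct `α`), `q α = P.coeff n * ∏ h_j ^ n_j ∈ Fr' (0 - dY α)`; `Y_indep` with `δ = 0` gives `q α = 0`, so the coefficient is zero (`h j ≠ 0`). -/
theorem y_algIndep (r : ℕ) (b : Fin r → (ι → ℤ)) (hb : ∀ j, b j ∈ MF deg V I)
    (hb0 : ∀ n : Fin r → ℤ, ∑ j, n j • b j = 0 → n = 0) (h : Fin r → 𝔽)
    (hh : ∀ j, h j ∈ D'.Fr E' (- dY deg I u0 m0 (b j))) (hh0 : ∀ j, h j ≠ 0) :
    AlgebraicIndependent (D'.QS E' subset_rfl) (fun j => Yp I Y (b j) * h j) := by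
  classical
  rw [algebraicIndependent_iff]
  intro P hP
  set φ : (Fin r →₀ ℕ) → (ι → ℤ) := fun n => ∑ j, ((n j : ℕ) : ℤ) • b j with hφ
  have hinj : Function.Injective φ := by
    intro n n' h1
    have h2 : ∑ j, (((n j : ℕ) : ℤ) - ((n' j : ℕ) : ℤ)) • b j = 0 := by
      simp only [sub_smul, Finset.sum_sub_distrib]
      exact sub_eq_zero.2 h1
    have h3 := hb0 _ h2
    ext j
    have h4 := congrFun h3 j
    simp only [Pi.zero_apply] at h4
    omega
  set F : (Fin r →₀ ℕ) → 𝔽 := fun n => ((P.coeff n : D'.QS E' subset_rfl) : 𝔽) * ∏ j, h j ^ n j with hF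
  have hsum : ∑ n ∈ P.support, F n * Yp I Y (φ n) = 0 := by
    rw [← hP, MvPolynomial.aeval_def, MvPolynomial.eval₂_eq']
    refine Finset.sum_congr rfl fun n _ => ?_
    have h1 : ∏ j, (Yp I Y (b j) * h j) ^ n j = Yp I Y (φ n) * ∏ j, h j ^ n j := by
      rw [hφ, k10b_Yp_sum S, ← Finset.prod_mul_distrib]
      exact Finset.prod_congr rfl fun j _ => by rw [mul_pow, zpow_natCast]
    rw [h1, hF]
    have h2 : algebraMap (D'.QS E' subset_rfl) 𝔽 (P.coeff n) = ((P.coeff n : D'.QS E' subset_rfl) : 𝔽) := rfl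
    rw [h2]
    ring
  set q : (ι → ℤ) → 𝔽 := fun α => F (Function.invFun φ α) with hq
  have hqφ : ∀ n, q (φ n) = F n := fun n => by
    simp only [hq]
    rw [Function.leftInverse_invFun hinj n]
  have h5 := Y_indep S (P.support.image φ) (fun α hα => by
    obtain ⟨n, -, rfl⟩ := Finset.mem_image.1 hα
    intro i hi
    simp only [hφ, Finset.sum_apply, Pi.smul_apply]
    exact Finset.sum_eq_zero fun j _ => by rw [(hb j).1 i hi, smul_zero]) 0 q (fun α hα => by
    obtain ⟨n, -, rfl⟩ := Finset.mem_image.1 hα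
    rw [hqφ]
    have h6 := D'.Fr_mul E' subset_rfl _ _ _ _ ((D'.QS_iff E' subset_rfl _).1 (P.coeff n).2)
      (k10b_Fr_prod r (fun j => n j • (- dY deg I u0 m0 (b j))) (fun j => h j ^ n j)
        (fun j => k10b_Fr_pow _ _ (hh j) (n j)) Finset.univ)
    have h7 : ∑ j, n j • (- dY deg I u0 m0 (b j)) = - dY deg I u0 m0 (φ n) := by
      rw [hφ, k10b_dY_sum, ← Finset.sum_neg_distrib]
      exact Finset.sum_congr rfl fun j _ => by rw [smul_neg, natCast_zsmul]
    rw [h7, zero_add] at h6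
    rw [zero_sub]
    exact h6) (by
    rw [Finset.sum_image fun n _ n' _ h1 => hinj h1, ← hsum]
    exact Finset.sum_congr rfl fun n _ => by rw [hqφ])
  ext n
  by_contra hn
  have hn' : n ∈ P.support := by
    rw [MvPolynomial.mem_support_iff]
    intro h0
    exact hn (by rw [h0]; simp)
  have h6 := h5 (φ n) (Finset.mem_image_of_mem φ hn')
  rw [hqφ] at h6
  rcases mul_eq_zero.1 h6 with h7 | h7
  · exact (MvPolynomial.mem_support_iff.1 hn') (Subtype.ext h7)
  · exact (Finset.prod_ne_zero_iff.2 fun j _ => pow_ne_zero _ (hh0 j)) h7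

end Pool.Agent.TOR
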