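import Pool.Agent.TOR.K10b

namespace Pool.Agent.TOR

open Set

universe u

variable {R K 𝔽 : Type u} [CommRing R] [Field K] [Algebra R K] [Field 𝔽] [Algebra R 𝔽] {t : R}
  {ι Γ : Type} [Fintype ι] [DecidableEq ι] [AddCommGroup Γ] {deg : (ι → ℤ) →+ Γ} {V E : Finset ι}

variable {D : Dat R K 𝔽 t deg V E} {I E' : Finset ι} {D' : Dat R K 𝔽 t deg (V \ I) E'}
    {β u0 : ι → ℤ} {m0 : ℕ} {Y : ι → 𝔽} (S : Setup D I E' D' β u0 m0 Y)

include S


omit S in
theorem k10c_Fr_zpow (δ : Γ) (z : 𝔽) (hz : z ∈ D'.Fr E' δ) (n : ℤ) : z ^ n ∈ D'.Fr E' (n • δ) := by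
  have hnat : ∀ k : ℕ, z ^ k ∈ D'.Fr E' (k • δ) := by
    intro k
    induction k with
    | zero => simpa using D'.Fr_of_RR E' subset_rfl 0 1 (D'.RR_one E' subset_rfl)
    | succ k ih =>
      rw [pow_succ, succ_nsmul]
      exact D'.Fr_mul E' subset_rfl _ _ _ _ ih hz
  rcases n with k | k
  · simpa using hnat k
  · have := D'.Fr_inv E' subset_rfl _ _ (hnat (k + 1))
    rwa [zpow_negSucc, negSucc_zsmul]

omit S in
theorem k10c_Fr_prod (r : ℕ) (δ : Fin r → Γ) (z : Fin r → 𝔽) (hz : ∀ j, z j ∈ D'.Fr E' (δ j)) (s : Finset (Fin r)) :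
    ∏ j ∈ s, z j ∈ D'.Fr E' (∑ j ∈ s, δ j) := by
  classical
  induction s using Finset.induction_on with
  | empty => simpa using D'.Fr_of_RR E' subset_rfl 0 1 (D'.RR_one E' subset_rfl)
  | insert a s ha ih =>
    rw [Finset.prod_insert ha, Finset.sum_insert ha]
    exact D'.Fr_mul E' subset_rfl _ _ _ _ (hz a) ih

omit S in
theorem k10c_dY_zero : dY deg I u0 m0 0 = 0 := by
  simp [dY, eY]

omit S in
theorem k10c_dY_sub (α α' : ι → ℤ) : dY deg I u0 m0 (α - α') = dY deg I u0 m0 α - dY deg I u0 m0 α' := by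
  have := dY_add (deg := deg) (I := I) (u0 := u0) (m0 := m0) (α - α') α'
  rw [sub_add_cancel] at this
  exact eq_sub_of_add_eq this.symm

omit S in
theorem k10c_dY_sum (r : ℕ) (b : Fin r → (ι → ℤ)) (n : Fin r → ℤ) (s : Finset (Fin r)) :
    dY deg I u0 m0 (∑ j ∈ s, n j • b j) = ∑ j ∈ s, n j • dY deg I u0 m0 (b j) := by
  classical
  induction s using Finset.induction_on with
  | empty => simpa using k10c_dY_zero
  | insert a s ha ih => rw [Finset.sum_insert ha, Finset.sum_insert ha, dY_add, ih, dY_zsmul]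

theorem k10c_Yp_sum (r : ℕ) (b : Fin r → (ι → ℤ)) (n : Fin r → ℤ) (s : Finset (Fin r)) :
    Yp I Y (∑ j ∈ s, n j • b j) = ∏ j ∈ s, Yp I Y (b j) ^ n j := by
  classical
  induction s using Finset.induction_on with
  | empty => simp [Yp]
  | insert a s ha ih => rw [Finset.sum_insert ha, Finset.prod_insert ha, Yp_add S, ih, Yp_zsmul S]

/-- one term -/
theorem k10c_term (r : ℕ) (b : Fin r → (ι → ℤ))
    (hb1 : ∀ α ∈ MF deg V I, ∃ n : Fin r → ℤ, α = ∑ j, n j • b j) (h : Fin r → 𝔽)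
    (hh : ∀ j, h j ∈ D'.Fr E' (- dY deg I u0 m0 (b j))) (hh0 : ∀ j, h j ≠ 0)
    (γ : Γ) (α α0 : ι → ℤ) (hα : α ∈ Aset deg V I γ) (hα0 : α0 ∈ Aset deg V I γ) (q q0 : 𝔽)
    (hq : q ∈ D'.Fr E' (γ - dY deg I u0 m0 α)) (hq0 : q0 ∈ D'.Fr E' (γ - dY deg I u0 m0 α0)) :
    q * Yp I Y α / (q0 * Yp I Y α0) ∈
      Subfield.closure ((↑(D'.QS E' subset_rfl) : Set 𝔽) ∪ range (fun j => Yp I Y (b j) * h j)) := by
  obtain ⟨ha1, ha2, w, hw, hwd⟩ := hα
  obtain ⟨hb1', hb2', w', hw', hwd'⟩ := hα0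
  have hM : α - α0 ∈ MF deg V I := by
    refine ⟨fun i hi => by simp [ha1 i hi, hb1' i hi], w' - w, fun i hi => by simp [hw i hi, hw' i hi], ?_⟩
    rw [map_sub, map_sub, hwd, hwd']
    abel
  obtain ⟨n, hn⟩ := hb1 _ hM
  have h1 : Yp I Y α = Yp I Y (α - α0) * Yp I Y α0 := by rw [← Yp_add S, sub_add_cancel]
  have h2 : Yp I Y (α - α0) = ∏ j, Yp I Y (b j) ^ n j := by rw [hn, k10c_Yp_sum S]
  have hP0 : ∏ j, h j ^ n j ≠ 0 := Finset.prod_ne_zero_iff.2 fun j _ => zpow_ne_zero _ (hh0 j)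
  have h3 : q * Yp I Y α / (q0 * Yp I Y α0) =
      (q * q0⁻¹ * (∏ j, h j ^ n j)⁻¹) * ∏ j, (Yp I Y (b j) * h j) ^ n j := by
    have h4 : ∏ j, (Yp I Y (b j) * h j) ^ n j = Yp I Y (α - α0) * ∏ j, h j ^ n j := by
      rw [h2, ← Finset.prod_mul_distrib]
      exact Finset.prod_congr rfl fun j _ => mul_zpow _ _ _
    rw [h4, h1]
    have h5 := Yp_ne S α0
    rcases eq_or_ne q0 0 with h6 | h6
    · simp [h6]
    · field_simp
  rw [h3]
  refine Subfield.mul_mem _ (Subfield.subset_closure (Or.inl ?_)) ?_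
  · show _ ∈ D'.QS E' subset_rfl
    rw [Dat.QS_iff]
    have h5 := D'.Fr_mul E' subset_rfl _ _ _ _ (D'.Fr_mul E' subset_rfl _ _ _ _ hq (D'.Fr_inv E' subset_rfl _ _ hq0))
      (D'.Fr_inv E' subset_rfl _ _ (k10c_Fr_prod r (fun j => n j • (- dY deg I u0 m0 (b j))) (fun j => h j ^ n j)
        (fun j => k10c_Fr_zpow _ _ (hh j) (n j)) Finset.univ))
    have h6 : ∑ j, n j • (- dY deg I u0 m0 (b j)) = - (dY deg I u0 m0 α - dY deg I u0 m0 α0) := by
      rw [← k10c_dY_sub, hn, k10c_dY_sum, ← Finset.sum_neg_distrib]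
      exact Finset.sum_congr rfl fun j _ => smul_neg _ _
    rw [h6] at h5
    rwa [show γ - dY deg I u0 m0 α + -(γ - dY deg I u0 m0 α0) + - -(dY deg I u0 m0 α - dY deg I u0 m0 α0) = 0 by abel] at h5
  · refine prod_mem fun j _ => ?_
    have h7 : Yp I Y (b j) * h j ∈
        Subfield.closure ((↑(D'.QS E' subset_rfl) : Set 𝔽) ∪ range (fun j => Yp I Y (b j) * h j)) :=
      Subfield.subset_closure (Or.inr ⟨j, rfl⟩)
    exact zpow_mem h7 _

/-- Generation. `z = w / w'`, `w, w' ∈ D.RR (I ∪ E') γ`, `w' ≠ 0`. `span_Y`: `w = ∑ q α * Yp α`, `w' = ∑ q' α * Yp α` over `A = Aset γ` (nonempty as `w' ≠ 0`). Fix `α0 ∈ A` and a nonzero `q0 ∈ Fr' (γ - dY α0)` (`exists_hom`: `γ - dY α0 = deg (w_{α0} - (∑ α0) m0 u0)`). For `α ∈ A`: `α - α0 ∈ MF` so `α - α0 = ∑ n_j b_j`,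
`Yp α / Yp α0 = ∏ y_j ^ n_j * ∏ h_j ^ (- n_j)` and `(q α / q0) * ∏ h_j ^ (- n_j) ∈ Fr' 0 = Q'` (`dY_add`). So `w / (q0 Yp α0)` and `w' / (q0 Yp α0)` are in the closure, and so is their quotient. The other inclusion: `D'.QS E' ≤ D.QS (I ∪ E')` (`base_RR`, `base_RR_out`) and `y j`: `b j = α - α'` with `α, α' ≥ 0`
supported in `I`; `Yp (b j) = Yp α / Yp α'`, and `Yp α * f`, `Yp α' * g` are in one `D.RR (I ∪ E') δ` for `h j = f / g`. -/
theorem QS_star (r : ℕ) (b : Fin r → (ι → ℤ)) (hb : ∀ j, b j ∈ MF deg V I)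
    (hb1 : ∀ α ∈ MF deg V I, ∃ n : Fin r → ℤ, α = ∑ j, n j • b j) (h : Fin r → 𝔽)
    (hh : ∀ j, h j ∈ D'.Fr E' (- dY deg I u0 m0 (b j))) (hh0 : ∀ j, h j ≠ 0) (hIE : I ∪ E' ⊆ E) :
    D.QS (I ∪ E') hIE = Subfield.closure (↑(D'.QS E' subset_rfl) ∪ range (fun j => Yp I Y (b j) * h j)) := by
  classical
  apply le_antisymm
  · intro z hz
    obtain ⟨γ, w, w', hw, hw', hw0, rfl⟩ := (D.mem_QS _ _ z).1 hz
    obtain ⟨q, hq, hqw⟩ := span_Y S γ w hw
    obtain ⟨q', hq', hqw'⟩ := span_Y S γ w' hw'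
    have hne : (Aset_finite S γ).toFinset.Nonempty := by
      rw [Finset.nonempty_iff_ne_empty]
      intro h0
      rw [h0] at hqw'
      simp at hqw'
      exact hw0 hqw'
    obtain ⟨α0, hα0⟩ := hne
    have hα0' := (Aset_finite S γ).mem_toFinset.1 hα0
    obtain ⟨q0, hq0, hq00⟩ : ∃ z ∈ D'.Fr E' (γ - dY deg I u0 m0 α0), z ≠ 0 := by
      obtain ⟨-, -, v, hv, hvd⟩ := hα0'
      have := exists_hom S (v - (∑ i ∈ I, α0 i) • (m0 • u0)) (fun i hi => by simp [hv i hi, S.u0_supp i hi])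
      rw [map_sub, hvd] at this
      rwa [show γ - deg α0 - deg ((∑ i ∈ I, α0 i) • (m0 • u0)) = γ - dY deg I u0 m0 α0 by
        rw [dY, eY, map_add]; abel] at this
    have hden : q0 * Yp I Y α0 ≠ 0 := mul_ne_zero hq00 (Yp_ne S α0)
    have key : ∀ (p : (ι → ℤ) → 𝔽), (∀ α ∈ (Aset_finite S γ).toFinset, p α ∈ D'.Fr E' (γ - dY deg I u0 m0 α)) →
        (∑ α ∈ (Aset_finite S γ).toFinset, p α * Yp I Y α) / (q0 * Yp I Y α0) ∈
        Subfield.closure ((↑(D'.QS E' subset_rfl) : Set 𝔽) ∪ range (fun j => Yp I Y (b j) * h j)) := by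
      intro p hp
      rw [Finset.sum_div]
      exact sum_mem fun α hα => k10c_term S r b hb1 h hh hh0 γ α α0 ((Aset_finite S γ).mem_toFinset.1 hα)
        hα0' _ _ (hp α hα) hq0
    have h1 := Subfield.div_mem _ (key q hq) (key q' hq')
    rw [← hqw, ← hqw', div_div_div_cancel_right₀ hden] at h1
    exact h1
  · rw [Subfield.closure_le]
    rintro z (hz | ⟨j, rfl⟩)
    · obtain ⟨γ, f, g, hf, hg, hg0, rfl⟩ := (D'.mem_QS _ _ z).1 hz
      exact (D.mem_QS _ _ _).2 ⟨γ, f, g, k9_RR_le S _ _ hf, k9_RR_le S _ _ hg, hg0, rfl⟩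
    · obtain ⟨γ, f, g, hf, hg, hg0, hfg⟩ := hh j
      set α : ι → ℤ := fun i => max (b j i) 0 with hα
      set α' : ι → ℤ := fun i => max (-b j i) 0 with hα'
      have hsup := (hb j).1
      have hsum : b j + α' = α := by
        funext i
        simp only [Pi.add_apply, hα, hα']
        rcases le_total (b j i) 0 with h0 | h0
        · rw [max_eq_left (by omega), max_eq_right h0]
          omega
        · rw [max_eq_right (by omega), max_eq_left h0]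
          omega
      have hαs : SupIn I α := fun i hi => by simp [hα, hsup i hi]
      have hαs' : SupIn I α' := fun i hi => by simp [hα', hsup i hi]
      have h1 := Yp_mem_RR S α hαs (fun i _ => le_max_right _ _)
      have h2 := Yp_mem_RR S α' hαs' (fun i _ => le_max_right _ _)
      have h3 : Yp I Y (b j) * Yp I Y α' = Yp I Y α := by rw [← Yp_add S, hsum]
      have h4 := Yp_ne S α'
      have h5 : dY deg I u0 m0 α = dY deg I u0 m0 (b j) + dY deg I u0 m0 α' := by rw [← dY_add, hsum]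
      refine (D.mem_QS _ _ _).2 ⟨dY deg I u0 m0 α' + γ, Yp I Y α * f, Yp I Y α' * g, ?_, ?_, mul_ne_zero h4 hg0, ?_⟩
      · have := D.RR_mul _ hIE _ _ _ _ h1 (k9_RR_le S _ _ hf)
        rwa [show dY deg I u0 m0 α + (γ + -dY deg I u0 m0 (b j)) = dY deg I u0 m0 α' + γ by rw [h5]; abel] at this
      · exact D.RR_mul _ hIE _ _ _ _ h2 (k9_RR_le S _ _ hg)
      · simp only [hfg, ← h3]
        field_simp

end Pool.Agent.TOR
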