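import Pool.Agent.TOR.K10

namespace Pool.Agent.TOR

open Set

universe u

/-- Tower of purely transcendental extensions. (`AlgebraicIndependent.sumElim` or similar; `y` is independent over the subfield `Q`, hence over `Algebra.adjoin R (range x) ⊆ Q`; reindex `Fin n ⊕ Fin r ≃ Fin (n + r)`: `Fin.append x y`.) -/
theorem tower {R 𝔽 : Type u} [CommRing R] [Field 𝔽] [Algebra R 𝔽] (hinj : Function.Injective (algebraMap R 𝔽))
    (n r : ℕ) (x : Fin n → 𝔽) (y : Fin r → 𝔽) (hx : AlgebraicIndependent R x) (Q Q1 : Subfield 𝔽)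
    (hQ : Q = Subfield.closure (range (algebraMap R 𝔽) ∪ range x)) (hy : AlgebraicIndependent Q y)
    (hQ1 : Q1 = Subfield.closure (↑Q ∪ range y)) :
    ∃ z : Fin (n + r) → 𝔽, AlgebraicIndependent R z ∧ Q1 = Subfield.closure (range (algebraMap R 𝔽) ∪ range z) := by
  classical
  have hR : ∀ a : R, algebraMap R 𝔽 a ∈ Q := fun a => by
    rw [hQ]
    exact Subfield.subset_closure (Or.inl ⟨a, rfl⟩)
  have hxQ : ∀ i, x i ∈ Q := fun i => by
    rw [hQ]
    exact Subfield.subset_closure (Or.inr ⟨i, rfl⟩)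
  letI : Algebra R Q := ((algebraMap R 𝔽).codRestrict Q hR).toAlgebra
  haveI : IsScalarTower R Q 𝔽 := IsScalarTower.of_algebraMap_eq fun a => rfl
  have h1 : AlgebraicIndependent R (Sum.elim y x) :=
    hx.sumElim_of_tower (S := Q) (by rintro _ ⟨i, rfl⟩; exact ⟨⟨x i, hxQ i⟩, rfl⟩) hy
  let e : Fin (n + r) ≃ Fin r ⊕ Fin n := (finSumFinEquiv.symm).trans (Equiv.sumComm _ _)
  refine ⟨Sum.elim y x ∘ e, h1.comp e e.injective, ?_⟩
  have h2 : range (Sum.elim y x ∘ e) = range y ∪ range x := by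
    rw [range_comp, e.range_eq_univ, image_univ, Sum.elim_range]
  rw [hQ1, h2]
  apply le_antisymm
  · rw [Subfield.closure_le]
    rintro z (hz | hz)
    · have h3 : z ∈ Q := hz
      rw [hQ] at h3
      exact Subfield.closure_mono (union_subset_union_right _ subset_union_right) h3
    · exact Subfield.subset_closure (Or.inr (Or.inl hz))
  · rw [Subfield.closure_le]
    rintro z (⟨a, rfl⟩ | hz | ⟨i, rfl⟩)
    · exact Subfield.subset_closure (Or.inl (hR a))
    · exact Subfield.subset_closure (Or.inr hz)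
    · exact Subfield.subset_closure (Or.inl (hxQ i))

variable {R K 𝔽 : Type u} [CommRing R] [Field K] [Algebra R K] [Field 𝔽] [Algebra R 𝔽] {t : R}
  {ι Γ : Type} [Fintype ι] [DecidableEq ι] [AddCommGroup Γ] {deg : (ι → ℤ) →+ Γ}

end Pool.Agent.TOR
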