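import Pool.Agent.TOR.K11a

namespace Pool.Agent.TOR

open Set

universe u

variable {R K 𝔽 : Type u} [CommRing R] [Field K] [Algebra R K] [Field 𝔽] [Algebra R 𝔽] {t : R}
  {ι Γ : Type} [Fintype ι] [DecidableEq ι] [AddCommGroup Γ] {deg : (ι → ℤ) →+ Γ}

/-- Rank zero: `MV deg V = ⊥`, so there is at most one exponent in each degree, any two elements of `RR E γ` are `R`-dependent (`dep_of_card` with `#S ≤ 1`): `f / g = s / r`. -/
theorem core_zero {V E : Finset ι} (D : Dat R K 𝔽 t deg V E) (h : MV deg V = ⊥) :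
    D.QS E subset_rfl = Subfield.closure (range (algebraMap R 𝔽)) := by
  classical
  have huniq : ∀ u u' : ι → ℤ, SupIn V u → SupIn V u' → deg u = deg u' → u = u' := by
    intro u u' hu hu' hd
    have h1 : u - u' ∈ MV deg V := ⟨fun i hi => by simp [hu i hi, hu' i hi], by rw [map_sub, hd, sub_self]⟩
    rw [h, AddSubgroup.mem_bot] at h1
    exact sub_eq_zero.1 h1
  apply le_antisymm
  · intro z hz
    obtain ⟨γ, f, g, hf, hg, hg0, rfl⟩ := (D.mem_QS _ _ z).1 hz
    obtain ⟨S, hS, hcard⟩ : ∃ S : Finset (ι → ℤ), (∀ u, SupIn V u → deg u = γ → (∀ l ∈ E, 0 ≤ u l) → u ∈ S) ∧ S.card ≤ 1 := by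
      by_cases h2 : ∃ u : ι → ℤ, SupIn V u ∧ deg u = γ
      · obtain ⟨u, hu, hd⟩ := h2
        refine ⟨{u}, fun v hv hd' _ => ?_, by simp⟩
        rw [Finset.mem_singleton]
        exact huniq v u hv hu (hd'.trans hd.symm)
      · exact ⟨∅, fun v hv hd' _ => absurd ⟨v, hv, hd'⟩ h2, by simp⟩
    obtain ⟨r, hr, hr'⟩ := D.dep_of_card E subset_rfl γ S hS (J := Fin 2) ![f, g] (by
      intro j
      fin_cases j
      · exact hf
      · exact hg) (by rw [Fintype.card_fin]; omega)
    rw [Fin.sum_univ_two] at hr'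
    simp only [Matrix.cons_val_zero, Matrix.cons_val_one] at hr'
    rw [Algebra.smul_def, Algebra.smul_def] at hr'
    have hr0 : r 0 ≠ 0 := by
      intro h0
      rw [h0, map_zero, zero_mul, zero_add] at hr'
      have h1 : r 1 = 0 := by
        rcases mul_eq_zero.1 hr' with h3 | h3
        · exact D.inj (by rw [h3, map_zero])
        · exact absurd h3 hg0
      apply hr
      funext j
      fin_cases j
      · exact h0
      · exact h1
    have hr0' : algebraMap R 𝔽 (r 0) ≠ 0 := fun h3 => hr0 (D.inj (by rw [h3, map_zero]))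
    have h4 : f / g = -(algebraMap R 𝔽 (r 1)) / algebraMap R 𝔽 (r 0) := by
      rw [div_eq_div_iff hg0 hr0']
      linear_combination hr'
    rw [h4]
    exact Subfield.div_mem _ (Subfield.neg_mem _ (Subfield.subset_closure ⟨_, rfl⟩)) (Subfield.subset_closure ⟨_, rfl⟩)
  · rw [Subfield.closure_le]
    rintro _ ⟨a, rfl⟩
    exact D.algebraMap_mem_QS E subset_rfl a

end Pool.Agent.TOR
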