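import Pool.Agent.TOR.K0

namespace Pool.Agent.TOR

open Set

universe u

variable {R K 𝔽 : Type u} [CommRing R] [Field K] [Algebra R K] [Field 𝔽] [Algebra R 𝔽] {t : R}
  {ι Γ : Type} [Fintype ι] [DecidableEq ι] [AddCommGroup Γ] {deg : (ι → ℤ) →+ Γ} {V E : Finset ι}


open Classical in
/-- the degree-`γ` part of the base -/
noncomputable def k2_T (D : Dat R K 𝔽 t deg V E) (I : Finset ι) (γ : Γ) : Submodule R 𝔽 :=
  if ∃ w : ι → ℤ, SupIn (V \ I) w ∧ deg w = γ then D.RR I γ else ⊥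

theorem k2_T_pos (D : Dat R K 𝔽 t deg V E) (I : Finset ι) (γ : Γ) (h : ∃ w : ι → ℤ, SupIn (V \ I) w ∧ deg w = γ) :
    k2_T D I γ = D.RR I γ := by
  classical
  unfold k2_T
  rw [if_pos h]

theorem k2_T_neg (D : Dat R K 𝔽 t deg V E) (I : Finset ι) (γ : Γ) (h : ¬ ∃ w : ι → ℤ, SupIn (V \ I) w ∧ deg w = γ) :
    k2_T D I γ = ⊥ := by
  classical
  unfold k2_T
  rw [if_neg h]

theorem k2_T_le (D : Dat R K 𝔽 t deg V E) (I : Finset ι) (γ : Γ) : k2_T D I γ ≤ D.RR I γ := by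
  by_cases h : ∃ w : ι → ℤ, SupIn (V \ I) w ∧ deg w = γ
  · rw [k2_T_pos D I γ h]
  · rw [k2_T_neg D I γ h]
    exact bot_le

theorem k2_T_le' (D : Dat R K 𝔽 t deg V E) (I : Finset ι) (γ : Γ) (f : 𝔽) (hf : f ∈ k2_T D I γ) : f ∈ D.T γ :=
  (D.mem_RR.1 (k2_T_le D I γ hf)).1

theorem k2_T_mul (D : Dat R K 𝔽 t deg V E) (I : Finset ι) (hI : I ⊆ E) (γ γ' : Γ) (f g : 𝔽) (hf : f ∈ k2_T D I γ)
    (hg : g ∈ k2_T D I γ') : f * g ∈ k2_T D I (γ + γ') := by
  by_cases h : ∃ w : ι → ℤ, SupIn (V \ I) w ∧ deg w = γ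
  · by_cases h' : ∃ w : ι → ℤ, SupIn (V \ I) w ∧ deg w = γ'
    · have h'' : ∃ w : ι → ℤ, SupIn (V \ I) w ∧ deg w = γ + γ' := by
        obtain ⟨w, hw, hw'⟩ := h
        obtain ⟨v, hv, hv'⟩ := h'
        exact ⟨w + v, fun i hi => by simp [hw i hi, hv i hi], by rw [map_add, hw', hv']⟩
      rw [k2_T_pos D I _ h'']
      rw [k2_T_pos D I _ h] at hf
      rw [k2_T_pos D I _ h'] at hg
      exact D.RR_mul I hI _ _ _ _ hf hg
    · rw [k2_T_neg D I _ h'] at hg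
      rw [(Submodule.mem_bot R).1 hg, mul_zero]
      exact Submodule.zero_mem _
  · rw [k2_T_neg D I _ h] at hf
    rw [(Submodule.mem_bot R).1 hf, zero_mul]
    exact Submodule.zero_mem _

theorem k2_zero_of (w u : ι → ℤ) (I : Finset ι) (hw : SupIn (V \ I) w) (hu : SupIn V u) (hd : deg u = deg w)
    (β : ι → ℤ) (h1 : ∀ i ∈ I, 0 < β i) (h2 : ∀ i, i ∉ I → β i = 0) (h3 : ∀ m ∈ MV deg V, ∑ i, β i * m i = 0)
    (hp : ∀ l ∈ I, 0 ≤ u l) : SupIn (V \ I) u := by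
  have hm : u - w ∈ MV deg V := by
    refine ⟨fun i hi => ?_, by rw [map_sub, hd, sub_self]⟩
    have := hw i fun h => hi (Finset.mem_sdiff.1 h).1
    simp [hu i hi, this]
  have h4 := h3 _ hm
  have h5 : ∑ i, β i * u i = 0 := by
    rw [← h4]
    refine Finset.sum_congr rfl fun i _ => ?_
    by_cases hi : i ∈ I
    · have := hw i fun h => (Finset.mem_sdiff.1 h).2 hi
      simp [this]
    · simp [h2 i hi]
  have h6 : ∀ i ∈ (Finset.univ : Finset ι), 0 ≤ β i * u i := by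
    intro i _
    by_cases hi : i ∈ I
    · exact mul_nonneg (h1 i hi).le (hp i hi)
    · simp [h2 i hi]
  have h7 := (Finset.sum_eq_zero_iff_of_nonneg h6).1 h5
  intro i hi
  by_cases hI : i ∈ I
  · have := h7 i (Finset.mem_univ _)
    rcases mul_eq_zero.1 this with h | h
    · exact absurd h (h1 i hI).ne'
    · exact h
  · exact hu i fun h => hi (Finset.mem_sdiff.2 ⟨h, hI⟩)

/-- THE BASE. `T' γ = RR I γ` if `γ = deg w` for some `w` supported in `V \ I`, and `⊥` otherwise (these degrees form a subgroup); `Rl' l γ = T' γ ⊓ Rl l γ`; `red' = red`. The point is `red_supp`: for `f ∈ RR I γ`, `γ = deg w`, and `u` in the support of `red γ f`: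
`u` is supported in `V`, `deg u = γ`, `u i ≥ 0` on `I` (`RR_supp`); `u - w ∈ MV deg V` gives `∑ β i u i = ∑ β i w i = 0` (`w = 0` on `I`, `β = 0` off `I`), so `u i = 0` on `I`. Surjectivity: `I` good, `insert l I` good. Completeness: `RR_complete`; `red_zero`: `RR_zero`. For `γ` outside the subgroup everything is zero
(a product of homogeneous elements one of whose degrees is outside the subgroup is zero). -/
theorem exists_base (D : Dat R K 𝔽 t deg V E) (I E' : Finset ι) (hI : I ⊆ E) (hE' : E' ⊆ E) (hd : ∀ l ∈ E', l ∉ I)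
    (β : ι → ℤ) (h1 : ∀ i ∈ I, 0 < β i) (h2 : ∀ i, i ∉ I → β i = 0) (h3 : ∀ m ∈ MV deg V, ∑ i, β i * m i = 0)
    (hg : D.Good I) (hg' : ∀ l ∈ E', D.Good (insert l I)) :
    ∃ D' : Dat R K 𝔽 t deg (V \ I) E', BaseOf D I E' D' := by
  have hin : ∀ u : ι → ℤ, SupIn (V \ I) u → k2_T D I (deg u) = D.RR I (deg u) := fun u hu => k2_T_pos D I _ ⟨u, hu, rfl⟩
  have hV : ∀ u : ι → ℤ, SupIn (V \ I) u → SupIn V u := fun u hu i hi => hu i fun h => hi (Finset.mem_sdiff.1 h).1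
  have hI0 : ∀ u : ι → ℤ, SupIn (V \ I) u → ∀ i ∈ I, u i = 0 := fun u hu i hi => hu i fun h => (Finset.mem_sdiff.1 h).2 hi
  have hone : (1 : 𝔽) ∈ k2_T D I 0 := by
    rw [k2_T_pos D I 0 ⟨0, fun _ _ => rfl, map_zero deg⟩]
    exact D.RR_one I hI
  have hz : ∀ γ, (¬ ∃ w : ι → ℤ, SupIn (V \ I) w ∧ deg w = γ) → ∀ f, f ∈ k2_T D I γ → f = 0 := by
    intro γ h f hf
    rw [k2_T_neg D I _ h] at hf
    exact (Submodule.mem_bot R).1 hf
  refine ⟨{
    T := k2_T D I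
    Rl := fun l γ => k2_T D I γ ⊓ D.Rl l γ
    red := D.red
    base := D.base
    inj := D.inj
    EV := fun l hl => Finset.mem_sdiff.2 ⟨D.EV (hE' hl), hd l hl⟩
    one_mem := hone
    mul_mem := fun γ γ' f g hf hg => k2_T_mul D I hI γ γ' f g hf hg
    red_one := D.red_one
    red_add := fun γ f g hf hg => D.red_add γ f g (k2_T_le' D I γ f hf) (k2_T_le' D I γ g hg)
    red_smul := fun γ r f hf => D.red_smul γ r f (k2_T_le' D I γ f hf)
    red_mul := fun γ γ' f g hf hg => D.red_mul γ γ' f g (k2_T_le' D I γ f hf) (k2_T_le' D I γ' g hg)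
    red_supp := ?_
    red_surj := ?_
    red_zero := ?_
    complete := ?_
    sep := ?_
    Rl_le := fun l _ γ f hf => (Submodule.mem_inf.1 hf).1
    Rl_one := fun l hl => Submodule.mem_inf.2 ⟨hone, D.Rl_one l (hE' hl)⟩
    Rl_mul := fun l hl γ γ' f g hf hg => Submodule.mem_inf.2
      ⟨k2_T_mul D I hI γ γ' f g (Submodule.mem_inf.1 hf).1 (Submodule.mem_inf.1 hg).1,
        D.Rl_mul l (hE' hl) γ γ' f g (Submodule.mem_inf.1 hf).2 (Submodule.mem_inf.1 hg).2⟩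
    Rl_sat := fun l hl γ f hf h => Submodule.mem_inf.2
      ⟨hf, D.Rl_sat l (hE' hl) γ f (k2_T_le' D I γ f hf) (Submodule.mem_inf.1 h).2⟩
    Rl_closed := ?_
    Rl_supp := fun l hl γ f hf u hu => D.Rl_supp l (hE' hl) γ f (Submodule.mem_inf.1 hf).2 u hu
    Rl_surj := ?_ }, ?_⟩
  · intro γ f hf u hu
    by_cases h : ∃ w : ι → ℤ, SupIn (V \ I) w ∧ deg w = γ
    · obtain ⟨w, hw, hw'⟩ := h
      obtain ⟨a1, a2, a3⟩ := D.RR_supp I hI γ f (k2_T_le D I γ hf) u hu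
      exact ⟨k2_zero_of w u I hw a1 (a2.trans hw'.symm) β h1 h2 h3 a3, a2⟩
    · exfalso
      rw [hz γ h f hf, D.red_z] at hu
      exact hu (by simp)
  · intro u hu
    obtain ⟨f, hf, hf'⟩ := hg u (hV u hu) fun l hl => (hI0 u hu l hl).ge
    exact ⟨f, by rw [hin u hu]; exact hf, hf'⟩
  · intro γ f hf hr
    by_cases h : ∃ w : ι → ℤ, SupIn (V \ I) w ∧ deg w = γ
    · rw [k2_T_pos D I γ h] at hf ⊢
      exact D.RR_zero I hI γ f hf hr
    · exact ⟨0, Submodule.zero_mem _, by rw [hz γ h f hf, smul_zero]⟩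
  · intro γ g hg1
    by_cases h : ∃ w : ι → ℤ, SupIn (V \ I) w ∧ deg w = γ
    · simp only [k2_T_pos D I γ h] at hg1 ⊢
      exact D.RR_complete I hI γ g hg1
    · refine ⟨0, Submodule.zero_mem _, fun N => ⟨0, Submodule.zero_mem _, ?_⟩⟩
      rw [smul_zero, zero_sub, neg_eq_zero]
      exact Finset.sum_eq_zero fun n _ => by rw [hz γ h (g n) (hg1 n), smul_zero]
  · intro γ f hf h
    refine D.sep γ f (k2_T_le' D I γ f hf) fun N => ?_
    obtain ⟨g, hg1, hg2⟩ := h N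
    exact ⟨g, k2_T_le' D I γ g hg1, hg2⟩
  · intro l hl γ f hf h
    refine Submodule.mem_inf.2 ⟨hf, D.Rl_closed l (hE' hl) γ f (k2_T_le' D I γ f hf) fun N => ?_⟩
    obtain ⟨g, hg1, h1', hh1, hh2⟩ := h N
    exact ⟨g, (Submodule.mem_inf.1 hg1).2, h1', k2_T_le' D I γ _ hh1, hh2⟩
  · intro l hl u hu hul
    obtain ⟨f, hf, hf'⟩ := hg' l hl u (hV u hu) fun j hj => by
      rcases Finset.mem_insert.1 hj with rfl | hj
      · exact hul
      · exact (hI0 u hu j hj).ge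
    refine ⟨f, Submodule.mem_inf.2 ⟨?_, ?_⟩, hf'⟩
    · rw [hin u hu]
      exact D.RR_anti I (insert l I) (Finset.subset_insert _ _) _ _ hf
    · exact (D.mem_RR.1 hf).2 l (Finset.mem_insert_self _ _)
  · refine ⟨hI, hE', hd, ?_, ?_, ?_, rfl⟩
    · intro w hw f
      show f ∈ k2_T D I (deg w) ↔ _
      rw [hin w hw]
    · intro γ h f hf
      exact hz γ h f hf
    · intro l hl γ f
      exact Submodule.mem_inf

end Pool.Agent.TOR
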