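import Pool.Agent.TOR.K1
import Pool.Agent.TOR.K2

namespace Pool.Agent.TOR

open Set

universe u

variable {R K 𝔽 : Type u} [CommRing R] [Field K] [Algebra R K] [Field 𝔽] [Algebra R 𝔽] {t : R}
  {ι Γ : Type} [Fintype ι] [DecidableEq ι] [AddCommGroup Γ] {deg : (ι → ℤ) →+ Γ} {V E : Finset ι}

theorem base_RR {D : Dat R K 𝔽 t deg V E} {I E' : Finset ι} {D' : Dat R K 𝔽 t deg (V \ I) E'} (B : BaseOf D I E' D')
    (τ : Finset ι) (hτ : τ ⊆ E') (w : ι → ℤ) (hw : SupIn (V \ I) w) (f : 𝔽) :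
    f ∈ D'.RR τ (deg w) ↔ f ∈ D.RR (I ∪ τ) (deg w) := by
  rw [D'.mem_RR, D.mem_RR, B.T_in w hw f, D.mem_RR]
  constructor
  · rintro ⟨⟨h1, h2⟩, h3⟩
    refine ⟨h1, fun l hl => ?_⟩
    rcases Finset.mem_union.mp hl with h | h
    · exact h2 l h
    · exact ((B.Rl_iff l (hτ h) _ f).mp (h3 l h)).2
  · rintro ⟨h1, h2⟩
    have h3 : f ∈ D.T (deg w) ∧ ∀ l ∈ I, f ∈ D.Rl l (deg w) :=
      ⟨h1, fun l hl => h2 l (Finset.mem_union_left _ hl)⟩
    refine ⟨h3, fun l hl => ?_⟩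
    exact (B.Rl_iff l (hτ hl) _ f).mpr
      ⟨(B.T_in w hw f).mpr (D.mem_RR.mpr h3), h2 l (Finset.mem_union_right _ hl)⟩

theorem base_RR_out {D : Dat R K 𝔽 t deg V E} {I E' : Finset ι} {D' : Dat R K 𝔽 t deg (V \ I) E'} (B : BaseOf D I E' D')
    (τ : Finset ι) (γ : Γ) (h : ¬ ∃ w : ι → ℤ, SupIn (V \ I) w ∧ deg w = γ) (f : 𝔽) (hf : f ∈ D'.RR τ γ) : f = 0 :=
  B.T_out γ h f (D'.mem_RR.mp hf).1

theorem base_good {D : Dat R K 𝔽 t deg V E} {I E' : Finset ι} {D' : Dat R K 𝔽 t deg (V \ I) E'} (B : BaseOf D I E' D')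
    (τ : Finset ι) (hτ : τ ⊆ E') (h : D.Good (I ∪ τ)) : D'.Good τ := by
  intro u hu hl
  obtain ⟨f, hf, hf'⟩ := h u (fun i hi => hu i fun h' => hi (Finset.mem_sdiff.mp h').1)
    (fun l hl' => by
      rcases Finset.mem_union.mp hl' with h' | h'
      · rw [hu l fun h'' => (Finset.mem_sdiff.mp h'').2 h']
      · exact hl l h')
  refine ⟨f, (base_RR B τ hτ u hu f).mpr hf, ?_⟩
  rw [B.red_eq]
  exact hf'

omit [Fintype ι] [DecidableEq ι] in
theorem k3_mR {δ : ι → ℝ} (hδ : δ ∈ mR (MV deg V)) {l : ι} (hl : l ∉ V) : δ l = 0 := by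
  unfold mR at hδ
  induction hδ using Submodule.span_induction with
  | mem x hx =>
    obtain ⟨m, hm, rfl⟩ := hx
    have h1 := (mem_MV.mp hm).1 l hl
    change ((m l : ℤ) : ℝ) = 0
    rw [h1, Int.cast_zero]
  | zero => rfl
  | add x y _ _ hx hy => rw [Pi.add_apply, hx, hy, add_zero]
  | smul c x _ hx => rw [Pi.smul_apply, hx, smul_zero]

/-- The hypotheses pass to the base: `sub0_MV`, `TD.bdd'`, `TD.simp'`, `TD.zero'`; nonempty: `a'` itself (`pt_gt`); support: `pt - a ∈ mR (MV deg V)` is supported in `V`, `E ⊆ V` (`EV`), and on `I` the vector vanishes (`pt_I`); goodness: `top_good`, `base_good`. -/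
theorem hyp_base {D : Dat R K 𝔽 t deg V E} {a : ι → ℚ} (H : D.Hyp a) (TD : TopData (MV deg V) E a)
    (D' : Dat R K 𝔽 t deg (V \ TD.I) TD.E') (B : BaseOf D TD.I TD.E' D') :
    D'.Hyp (fun l => TD.pt l - if l ∈ E then TD.s else 0) := by
  have heq : rv (fun l => TD.pt l - if l ∈ E then TD.s else 0) = rv TD.pt - ind E (TD.s : ℝ) := by
    funext l
    simp only [rv, ind, Pi.sub_apply]
    split_ifs <;> simp
  have hne : (PP (MV deg (V \ TD.I)) TD.E' (rv TD.pt - ind E (TD.s : ℝ))).Nonempty := by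
    refine ⟨rv TD.pt - ind E (TD.s : ℝ), ?_, fun l hl => ?_⟩
    · rw [sub_self]
      exact zero_mem _
    · have h1 := TD.pt_gt l (TD.E'E hl) (TD.disj l hl)
      have h2 : (TD.s : ℝ) < TD.pt l := by exact_mod_cast h1
      simp only [rv, ind, Pi.sub_apply, if_pos (TD.E'E hl)]
      linarith
  have hb := TD.bdd'
  have hs := TD.simp'
  have hz := TD.zero'
  have hg := (top_good H TD).2.2
  rw [sub0_MV] at hb hs hz hg
  refine ⟨fun l hl => ?_, ?_, ?_, ?_, ?_, ?_⟩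
  · change TD.pt l - (if l ∈ E then TD.s else 0) = 0
    by_cases hI : l ∈ TD.I
    · rw [if_pos (TD.IE hI), TD.pt_I l hI, sub_self]
    · have hV : l ∉ V := fun h => hl (Finset.mem_sdiff.mpr ⟨h, hI⟩)
      have hE : l ∉ E := fun h => hV (D.EV h)
      have h1 := k3_mR TD.pt_mem hV
      rw [Pi.sub_apply, H.supp l hV, Rat.cast_zero, sub_zero] at h1
      have h2 : TD.pt l = 0 := by exact_mod_cast h1
      rw [if_neg hE, h2, sub_zero]
  · rw [heq]
    exact hne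
  · rw [heq]
    exact hb
  · rw [heq]
    exact hs
  · rw [heq]
    exact hz
  · rw [heq]
    rintro τ ⟨p', hp', rfl⟩
    exact base_good B _ (fun l hl => (mem_tight.mp hl).1) (hg p' hp')

end Pool.Agent.TOR
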