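import Pool.Agent.TOR.K4a

namespace Pool.Agent.TOR

open Set

variable {ι Γ : Type} [Fintype ι] [DecidableEq ι] [AddCommGroup Γ] (deg : (ι → ℤ) →+ Γ) (V E : Finset ι)

/-- Uniform bound for the monomials of degree `m • deg u0`. Proof: for `m ≥ 1` the real vector `u / m` is in `PP (MV deg V) E u0` (`u - m u0 ∈ MV`), which is bounded (`bdd_all`). For `m = 0`: `u ∈ MV`, nonnegative on `E`, so zero (`recession`). -/
theorem cnt_bound (a : ι → ℝ) (hne : (PP (MV deg V) E a).Nonempty) (hb : Bornology.IsBounded (PP (MV deg V) E a))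
    (u0 : ι → ℤ) (hu0 : SupIn V u0) :
    ∃ C : ℕ, ∀ m : ℕ, ∀ u ∈ Cnt deg V E (m • deg u0), ∀ l, |u l| ≤ C * (m + 1) := by
  obtain ⟨C0, hC0⟩ := isBounded_iff_forall_norm_le.mp
    (bdd_all (MV deg V) E a hne hb (fun l => (u0 l : ℝ)))
  refine ⟨⌈C0⌉₊, fun m u hu l => ?_⟩
  obtain ⟨hu1, hu2, hu3⟩ := hu
  rcases Nat.eq_zero_or_pos m with rfl | hm
  · have hmem : u ∈ MV deg V := by
      rw [mem_MV]
      refine ⟨hu1, ?_⟩
      rw [hu2, zero_smul]
    have h0 := recession (MV deg V) E a hne hb _ (int_mem_mR hmem) (fun l hl => by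
      have := hu3 l hl
      exact_mod_cast this)
    have h1 : (u l : ℝ) = 0 := congrFun h0 l
    have h2 : u l = 0 := by exact_mod_cast h1
    rw [h2, abs_zero]
    positivity
  · have hm0 : (0 : ℝ) < m := by exact_mod_cast hm
    have hp : (fun l => (u l : ℝ) / m) ∈ PP (MV deg V) E (fun l => (u0 l : ℝ)) := by
      constructor
      · have hmem : u - m • u0 ∈ MV deg V := by
          rw [mem_MV]
          constructor
          · intro i hi
            rw [Pi.sub_apply, Pi.smul_apply, hu1 i hi, hu0 i hi, smul_zero, sub_zero]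
          · rw [map_sub, map_nsmul, hu2, sub_self]
        have h1 := (mR (MV deg V)).smul_mem ((1 : ℝ) / m) (int_mem_mR hmem)
        convert h1 using 1
        funext l
        simp only [Pi.sub_apply, Pi.smul_apply, smul_eq_mul]
        rw [nsmul_eq_mul]
        push_cast
        field_simp
      · intro l hl
        have h1 : (0 : ℝ) ≤ u l := by exact_mod_cast hu3 l hl
        exact div_nonneg h1 hm0.le
    have h1 := hC0 _ hp
    have h2 : |(u l : ℝ) / m| ≤ C0 := by
      have h3 := norm_le_pi_norm (fun l => (u l : ℝ) / m) l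
      rw [Real.norm_eq_abs] at h3
      exact h3.trans h1
    rw [abs_div, abs_of_pos hm0, div_le_iff₀ hm0] at h2
    have h4 : C0 ≤ (⌈C0⌉₊ : ℝ) := Nat.le_ceil _
    have h5 : |(u l : ℝ)| ≤ (⌈C0⌉₊ : ℝ) * (m + 1) := by
      have h6 : (0 : ℝ) ≤ (⌈C0⌉₊ : ℝ) := Nat.cast_nonneg _
      nlinarith
    exact_mod_cast h5

/-- Finite: if `u0 ∈ Cnt γ` apply `cnt_bound` with `m = 1` (a bounded set of integer vectors is finite). -/
theorem cnt_finite (a : ι → ℝ) (hne : (PP (MV deg V) E a).Nonempty) (hb : Bornology.IsBounded (PP (MV deg V) E a))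
    (γ : Γ) : (Cnt deg V E γ).Finite := by
  rcases Set.eq_empty_or_nonempty (Cnt deg V E γ) with h0 | ⟨u0, h0⟩
  · rw [h0]
    exact Set.finite_empty
  · obtain ⟨C, hC⟩ := cnt_bound deg V E a hne hb u0 h0.1
    apply (Set.finite_Icc (fun _ => -(C * (1 + 1)) : ι → ℤ) (fun _ => C * (1 + 1))).subset
    intro u hu
    have h1 : u ∈ Cnt deg V E (1 • deg u0) := by
      rw [one_smul, h0.2.1]
      exact hu
    have h2 := hC 1 u h1
    constructor
    · intro l
      have h3 := abs_le.mp (h2 l)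
      push_cast at h3
      exact h3.1
    · intro l
      have h3 := abs_le.mp (h2 l)
      push_cast at h3
      exact h3.2

/-- Polynomial growth: `cnt_bound`, `card_box`. -/
theorem cnt_poly (a : ι → ℝ) (hne : (PP (MV deg V) E a).Nonempty) (hb : Bornology.IsBounded (PP (MV deg V) E a))
    (u0 : ι → ℤ) (hu0 : SupIn V u0) :
    ∃ C n : ℕ, ∀ m : ℕ, (Cnt deg V E (m • deg u0)).ncard ≤ C * (m + 1) ^ n := by
  obtain ⟨C, hC⟩ := cnt_bound deg V E a hne hb u0 hu0
  have hfin : ∀ m : ℕ, (Cnt deg V E (m • deg u0)).Finite :=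
    fun m => cnt_finite deg V E a hne hb _
  obtain ⟨C', n, h⟩ := card_box (fun m => (hfin m).toFinset) C
    (fun m u hu l => hC m u ((hfin m).mem_toFinset.mp hu) l)
  refine ⟨C', n, fun m => ?_⟩
  rw [Set.ncard_eq_toFinset_card _ (hfin m)]
  exact h m

end Pool.Agent.TOR
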