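import Pool.Agent.TOR.K0
import Pool.Agent.TOR.A9
import Pool.Agent.TOR.A12

namespace Pool.Agent.TOR

open Set

variable {ι Γ : Type} [Fintype ι] [DecidableEq ι] [AddCommGroup Γ] (deg : (ι → ℤ) →+ Γ) (V E : Finset ι)

/-- Scaling. -/
theorem PP_smul (M : AddSubgroup (ι → ℤ)) (a p : ι → ℝ) (c : ℝ) (hc : 0 < c) : c • p ∈ PP M E (c • a) ↔ p ∈ PP M E a := by
  have h1 : c • p - c • a = c • (p - a) := (smul_sub c p a).symm
  constructor
  · rintro ⟨h2, h3⟩
    rw [h1] at h2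
    refine ⟨(Submodule.smul_mem_iff _ hc.ne').1 h2, fun l hl => ?_⟩
    have h4 : 0 ≤ c * p l := h3 l hl
    exact (mul_nonneg_iff_of_pos_left hc).1 h4
  · rintro ⟨h2, h3⟩
    refine ⟨?_, fun l hl => ?_⟩
    · rw [h1]
      exact Submodule.smul_mem _ _ h2
    · show 0 ≤ c * p l
      exact mul_nonneg hc.le (h3 l hl)

theorem TS_smul (M : AddSubgroup (ι → ℤ)) (a : ι → ℝ) (c : ℝ) (hc : 0 < c) : TS M E (c • a) = TS M E a := by
  have ht : ∀ p : ι → ℝ, tight E (c • p) = tight E p := by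
    intro p
    ext l
    rw [mem_tight, mem_tight]
    simp only [Pi.smul_apply, smul_eq_mul, mul_eq_zero, hc.ne', false_or]
  ext τ
  constructor
  · rintro ⟨p, hp, rfl⟩
    have h1 : p = c • (c⁻¹ • p) := by rw [smul_smul, mul_inv_cancel₀ hc.ne', one_smul]
    rw [h1] at hp
    refine ⟨c⁻¹ • p, (PP_smul E M a _ c hc).1 hp, ?_⟩
    conv_rhs => rw [h1, ht]
  · rintro ⟨p, hp, rfl⟩
    exact ⟨c • p, (PP_smul E M a _ c hc).2 hp, ht p⟩

/-- Shift by a vector nonnegative on `E` (the injection `u ↦ u + w`). -/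
theorem cnt_shift (γ : Γ) (w : ι → ℤ) (hw : SupIn V w) (hpos : ∀ l ∈ E, 0 ≤ w l) (hfin : (Cnt deg V E (γ + deg w)).Finite) :
    (Cnt deg V E γ).Finite ∧ (Cnt deg V E γ).ncard ≤ (Cnt deg V E (γ + deg w)).ncard := by
  have hmap : Set.MapsTo (fun u => u + w) (Cnt deg V E γ) (Cnt deg V E (γ + deg w)) := by
    rintro u ⟨h1, h2, h3⟩
    refine ⟨fun i hi => ?_, ?_, fun l hl => ?_⟩
    · show u i + w i = 0
      rw [h1 i hi, hw i hi, add_zero]
    · rw [map_add, h2]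
    · exact add_nonneg (h3 l hl) (hpos l hl)
  have hinj : Set.InjOn (fun u => u + w) (Cnt deg V E γ) := fun u _ v _ h => add_right_cancel h
  exact ⟨Set.Finite.of_injOn hmap hinj hfin, Set.ncard_le_ncard_of_injOn _ hmap hinj hfin⟩

end Pool.Agent.TOR
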