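import Pool.Agent.TOR.K1
import Pool.Agent.TOR.K4
import Pool.Agent.TOR.B7

namespace Pool.Agent.TOR

open Set

universe u

variable {R K 𝔽 : Type u} [CommRing R] [Field K] [Algebra R K] [Field 𝔽] [Algebra R 𝔽] {t : R}
  {ι Γ : Type} [Fintype ι] [DecidableEq ι] [AddCommGroup Γ] {deg : (ι → ℤ) →+ Γ} {V E : Finset ι}

/-- elements of `mR (MV deg V)` are supported in `V` -/
theorem k5a_supp {ι Γ : Type} [AddCommGroup Γ] {deg : (ι → ℤ) →+ Γ} {V : Finset ι} {δ : ι → ℝ}
    (h : δ ∈ mR (MV deg V)) (l : ι) (hl : l ∉ V) : δ l = 0 := by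
  unfold mR at h
  induction h using Submodule.span_induction with
  | mem x hx =>
    obtain ⟨m, hm, rfl⟩ := hx
    have h1 : m l = 0 := (mem_MV.1 hm).1 l hl
    simp only [h1, Int.cast_zero]
  | zero => rfl
  | add x y _ _ hx hy => rw [Pi.add_apply, hx, hy, add_zero]
  | smul c x _ hx => rw [Pi.smul_apply, hx, smul_zero]

/-- a common denominator -/
theorem k5a_denom {ι : Type} [Fintype ι] (x : ι → ℚ) :
    ∃ (N : ℕ) (u : ι → ℤ), 0 < N ∧ ∀ l, (u l : ℚ) = N * x l := by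
  have h1 : ∀ l, (x l).den ∣ ∏ l, (x l).den := fun l => Finset.dvd_prod_of_mem _ (Finset.mem_univ l)
  choose k hk using h1
  refine ⟨∏ l, (x l).den, fun l => (x l).num * k l, Finset.prod_pos fun l _ => (x l).pos, ?_⟩
  intro l
  rw [hk l]
  push_cast
  have h2 : ((x l).den : ℚ) * x l = (x l).num := by
    rw [mul_comm]
    exact Rat.mul_den_eq_num (x l)
  rw [← h2]
  ring

theorem k5a_real {ι : Type} {E : Finset ι} [DecidableEq ι] {pt : ι → ℚ} {s1 : ℚ} {N : ℕ} {u1 : ι → ℤ}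
    (hu : ∀ l, (u1 l : ℚ) = N * (pt l - if l ∈ E then s1 else 0)) (l : ι) :
    (u1 l : ℝ) = N * ((pt l : ℝ) - (if l ∈ E then (s1 : ℝ) else 0)) := by
  have h6 := hu l
  split_ifs at h6 ⊢ with h
  · exact_mod_cast h6
  · rw [sub_zero] at h6 ⊢
    exact_mod_cast h6

theorem k5a_ptgt {ι : Type} [Fintype ι] [DecidableEq ι] {M : AddSubgroup (ι → ℤ)} {E : Finset ι} {a : ι → ℚ}
    (TD : TopData M E a) (l : ι) (hl : l ∈ E) : TD.s1 < TD.pt l := by
  by_cases h : l ∈ TD.I
  · rw [TD.pt_I l h]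
    exact TD.s1_lt
  · exact TD.s1_lt.trans (TD.pt_gt l hl h)

/-- An integral multiple of `pt - s1 1_E`. `N` = a common denominator. On `E`: `pt l ≥ s > s1` (`pt_I`, `pt_gt`, `s1_lt`), so `u1 l > 0`. Support: `pt - a ∈ mR (MV deg V)` is supported in `V`, `E ⊆ V`. -/
theorem exists_u1 {D : Dat R K 𝔽 t deg V E} {a : ι → ℚ} (H : D.Hyp a) (TD : TopData (MV deg V) E a) :
    ∃ (N : ℕ) (u1 : ι → ℤ), 0 < N ∧ SupIn V u1 ∧ (∀ l ∈ E, 1 ≤ u1 l) ∧
      ∀ l, (u1 l : ℚ) = N * (TD.pt l - if l ∈ E then TD.s1 else 0) := by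
  obtain ⟨N, u, hN, hu⟩ := k5a_denom (fun l => TD.pt l - if l ∈ E then TD.s1 else 0)
  refine ⟨N, u, hN, ?_, ?_, hu⟩
  · intro l hl
    have h1 := k5a_supp TD.pt_mem l hl
    simp only [Pi.sub_apply] at h1
    rw [H.supp l hl, Rat.cast_zero, sub_zero] at h1
    have h2 : TD.pt l = 0 := by exact_mod_cast h1
    have h3 : l ∉ E := fun h => hl (D.EV h)
    have h4 := hu l
    simp only [h2, if_neg h3, sub_zero, mul_zero] at h4
    exact_mod_cast h4
  · intro l hl
    have h4 := hu l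
    simp only [if_pos hl] at h4
    have h5 : (0 : ℚ) < u l := by
      rw [h4]
      have h6 := k5a_ptgt TD l hl
      have h7 : (0 : ℚ) < N := by exact_mod_cast hN
      exact mul_pos h7 (by linarith)
    have h8 : 0 < u l := by exact_mod_cast h5
    omega

/-- The conditions on `I ∪ E'` imply those on `E`. Proof: `u ∈ Cnt deg V (I ∪ E') (m • deg u1)`; `q = u / (m N) + s1 1_E` satisfies `q - a ∈ mR (MV deg V)` (`u - m u1 ∈ MV`, `u1 / N + s1 1_E = pt`), and `q l ≥ s1` for `l ∈ I ∪ E'`, so for all `l ∈ E` by `TD.near`. -/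
theorem cnt_eq {D : Dat R K 𝔽 t deg V E} {a : ι → ℚ} (H : D.Hyp a) (TD : TopData (MV deg V) E a)
    (N : ℕ) (u1 : ι → ℤ) (hN : 0 < N) (hV : SupIn V u1)
    (hu : ∀ l, (u1 l : ℚ) = N * (TD.pt l - if l ∈ E then TD.s1 else 0)) (m : ℕ) (hm : 1 ≤ m) :
    Cnt deg V E (m • deg u1) = Cnt deg V (TD.I ∪ TD.E') (m • deg u1) := by
  have hmR : (0 : ℝ) < m := by exact_mod_cast hm
  have hNR : (0 : ℝ) < N := by exact_mod_cast hN
  ext u
  constructor
  · rintro ⟨h1, h2, h3⟩
    refine ⟨h1, h2, fun l hl => h3 l ?_⟩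
    rcases Finset.mem_union.1 hl with h | h
    · exact TD.IE h
    · exact TD.E'E h
  · rintro ⟨h1, h2, h3⟩
    refine ⟨h1, h2, ?_⟩
    set q : ι → ℝ := fun l => (u l : ℝ) / (m * N) + (if l ∈ E then (TD.s1 : ℝ) else 0) with hq
    have hw : u - m • u1 ∈ MV deg V := by
      refine mem_MV.2 ⟨fun i hi => ?_, ?_⟩
      · rw [Pi.sub_apply, Pi.smul_apply, h1 i hi, hV i hi, smul_zero, sub_zero]
      · rw [map_sub, map_nsmul, h2, sub_self]
    have hqa : q - (fun l => (a l : ℝ)) ∈ mR (MV deg V) := by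
      have h4 : q - (fun l => (a l : ℝ)) = (1 / ((m : ℝ) * N)) • (fun i => ((u - m • u1) i : ℝ)) +
          ((fun l => (TD.pt l : ℝ)) - (fun l => (a l : ℝ))) := by
        funext l
        have h5 := k5a_real hu l
        have h6 : ((u - m • u1) l : ℤ) = u l - m * u1 l := by
          rw [Pi.sub_apply, Pi.smul_apply, nsmul_eq_mul]
        simp only [Pi.add_apply, Pi.smul_apply, smul_eq_mul]
        rw [h6]
        simp only [hq, Pi.sub_apply]
        push_cast
        rw [h5]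
        field_simp
        ring
      rw [h4]
      exact (mR (MV deg V)).add_mem ((mR (MV deg V)).smul_mem _ (int_mem_mR hw)) TD.pt_mem
    have h8 := TD.near q hqa (by
      intro l hl
      have hlU : l ∈ TD.I ∪ TD.E' := Finset.mem_union.2 hl
      have hlE : l ∈ E := by
        rcases hl with h | h
        · exact TD.IE h
        · exact TD.E'E h
      have h9 : (0 : ℝ) ≤ u l := by exact_mod_cast h3 l hlU
      have h10 : 0 ≤ (u l : ℝ) / (m * N) := div_nonneg h9 (mul_pos hmR hNR).le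
      simp only [hq, if_pos hlE]
      linarith)
    intro l hl
    have h11 := h8 l hl
    simp only [hq, if_pos hl] at h11
    have h12 : 0 ≤ (u l : ℝ) / (m * N) := by linarith
    have h13 : (0 : ℝ) ≤ u l := by
      by_contra hneg
      push Not at hneg
      have := div_neg_of_neg_of_pos hneg (mul_pos hmR hNR)
      linarith
    exact_mod_cast h13

/-- All monomials of degree `m • deg u1`, `m ≥ 1`, nonnegative on `E`, lift to `RR E`: `path_lift` with `u0 = m • u1`, `c = m N`, `s = s1`. -/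
theorem lift_u1 {D : Dat R K 𝔽 t deg V E} {a : ι → ℚ} (H : D.Hyp a) (TD : TopData (MV deg V) E a)
    (N : ℕ) (u1 : ι → ℤ) (hN : 0 < N) (hV : SupIn V u1)
    (hu : ∀ l, (u1 l : ℚ) = N * (TD.pt l - if l ∈ E then TD.s1 else 0)) (m : ℕ) (hm : 1 ≤ m)
    (u : ι → ℤ) (huC : u ∈ Cnt deg V E (m • deg u1)) :
    ∃ f ∈ D.RR E (deg u), D.red (deg u) f = mono K u := by
  have hmR : (0 : ℝ) < m := by exact_mod_cast hm
  have hNR : (0 : ℝ) < N := by exact_mod_cast hN
  obtain ⟨h1, h2, h3⟩ := huC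
  refine D.path_lift (rv a) H.ne H.zero H.roof (m • u1) ?_ ((m : ℝ) * N) (TD.s1 : ℝ) (mul_pos hmR hNR)
    (by exact_mod_cast TD.s1_pos.le) ?_ u h1 ?_ h3
  · intro i hi
    rw [Pi.smul_apply, hV i hi, smul_zero]
  · have h4 : (fun l => (((m • u1) l : ℤ) : ℝ) / ((m : ℝ) * N) + (if l ∈ E then (TD.s1 : ℝ) else 0) - rv a l) =
        (fun l => (TD.pt l : ℝ)) - (fun l => (a l : ℝ)) := by
      funext l
      have h5 := k5a_real hu l
      have h6 : ((m • u1) l : ℤ) = m * u1 l := by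
        rw [Pi.smul_apply, nsmul_eq_mul]
      rw [h6]
      simp only [rv, Pi.sub_apply]
      push_cast
      rw [h5]
      field_simp
      ring
    rw [h4]
    exact TD.pt_mem
  · rw [h2, map_nsmul]

end Pool.Agent.TOR
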