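import Pool.Agent.TOR.K6c

namespace Pool.Agent.TOR

open Set

universe u

variable {R K 𝔽 : Type u} [CommRing R] [Field K] [Algebra R K] [Field 𝔽] [Algebra R 𝔽] {t : R}
  {ι Γ : Type} [Fintype ι] [DecidableEq ι] [AddCommGroup Γ] {deg : (ι → ℤ) →+ Γ} {V E : Finset ι}

/-- (C2) SERRE. `U` = the (finite) family of `serre_conn`; nonempty; good by `top_good` (`sub0_MV`); `lift` with `γ = deg v + m • deg u0`, `g = mono (v + m • u0)`: nonnegative on `I` (`u0 = 0` there) and on `E'` for `m` large (`u0 ≥ 1` there). Every `l ∈ E'` is in some `σ` (`TD.zero'`). -/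
theorem serre_lift {D : Dat R K 𝔽 t deg V E} {a : ι → ℚ} (H : D.Hyp a) (TD : TopData (MV deg V) E a)
    (N : ℕ) (u0 : ι → ℤ) (hN : 0 < N) (hV : SupIn (V \ TD.I) u0) (h1 : ∀ l ∈ E, l ∉ TD.I → 1 ≤ u0 l)
    (hu : ∀ l, (u0 l : ℚ) = N * (TD.pt l - if l ∈ E then TD.s else 0)) (v : ι → ℤ) (hv : SupIn V v) (hv0 : ∀ i ∈ TD.I, 0 ≤ v i) :
    ∃ m0 : ℕ, ∀ m ≥ m0, ∃ f ∈ D.RR (TD.I ∪ TD.E') (deg v + m • deg u0),
      D.red (deg v + m • deg u0) f = mono K (v + m • u0) := by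
  classical
  obtain ⟨m1, hm1⟩ := serre_conn H TD N u0 hN hV hu v hv hv0
  obtain ⟨-, hg2, hg3⟩ := top_good H TD
  rw [sub0_MV] at hg3
  have hz := TD.zero'
  rw [sub0_MV] at hz
  set U' : Set (Finset ι) := {τ | ∃ σ ∈ TS (MV deg (V \ TD.I)) TD.E' (rv TD.pt - ind E (TD.s : ℝ)), τ = TD.I ∪ σ} with hU'
  have hIE : TD.I ∪ TD.E' ⊆ E := Finset.union_subset TD.IE TD.E'E
  have hU'sub : ∀ τ ∈ U', τ ⊆ TD.I ∪ TD.E' := by
    rintro τ ⟨σ, ⟨p, -, rfl⟩, rfl⟩
    exact Finset.union_subset_union_right fun l hl => (mem_tight.1 hl).1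
  have hfin : U'.Finite := Set.toFinite _
  set U := hfin.toFinset with hU
  have hmem : ∀ τ, τ ∈ U ↔ τ ∈ U' := fun τ => hfin.mem_toFinset
  have hcoe : (↑U : Set (Finset ι)) = U' := hfin.coe_toFinset
  set m2 : ℕ := ∑ l, (v l).natAbs with hm2
  refine ⟨max m1 m2, fun m hm => ?_⟩
  have h1m : m1 ≤ m := le_trans (le_max_left _ _) hm
  have h2m : m2 ≤ m := le_trans (le_max_right _ _) hm
  have hu0V : SupIn V u0 := fun i hi => hV i fun h => hi (Finset.mem_sdiff.1 h).1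
  have hnn : ∀ l ∈ TD.I ∪ TD.E', 0 ≤ (v + m • u0) l := by
    intro l hl
    rcases Finset.mem_union.1 hl with h | h
    · have h1 := hV l fun h' => (Finset.mem_sdiff.1 h').2 h
      simp only [Pi.add_apply, Pi.smul_apply, h1, smul_zero, add_zero]
      exact hv0 l h
    · have h2 := h1 l (TD.E'E h) (TD.disj l h)
      have h3 : (v l).natAbs ≤ m2 := Finset.single_le_sum (f := fun l => (v l).natAbs) (fun _ _ => Nat.zero_le _) (Finset.mem_univ l)
      have h4 : -(v l) ≤ (v l).natAbs := by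
        have := Int.le_natAbs (a := -(v l))
        rwa [Int.natAbs_neg] at this
      have h5 : ((v l).natAbs : ℤ) ≤ m := by exact_mod_cast h3.trans h2m
      show 0 ≤ v l + m • u0 l
      rw [nsmul_eq_mul]
      nlinarith [Int.natCast_nonneg m]
  have hne : U.Nonempty := by
    have h4 : (rv TD.pt - ind E (TD.s : ℝ)) ∈ PP (MV deg (V \ TD.I)) TD.E' (rv TD.pt - ind E (TD.s : ℝ)) := by
      refine ⟨by rw [sub_self]; exact Submodule.zero_mem _, fun l hl => ?_⟩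
      have h5 := TD.pt_gt l (TD.E'E hl) (TD.disj l hl)
      have h6 : (TD.s : ℝ) < (TD.pt l : ℝ) := by exact_mod_cast h5
      simp only [Pi.sub_apply, rv, ind, if_pos (TD.E'E hl)]
      linarith
    exact ⟨_, (hmem _).2 ⟨_, ⟨_, h4, rfl⟩, rfl⟩⟩
  have hgood : ∀ τ ∈ U, D.Good τ := by
    intro τ hτ
    obtain ⟨σ, ⟨p, hp, rfl⟩, rfl⟩ := (hmem τ).1 hτ
    exact hg3 p hp
  obtain ⟨f, hfT, hf, hr⟩ := D.lift U hne (fun σ hσ => (hU'sub σ ((hmem σ).1 hσ)).trans hIE) hgood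
    (deg v + m • deg u0) (fun u hu1 hu2 => by
      rw [hcoe]
      exact hm1 m h1m u hu1 hu2) (mono K (v + m • u0)) (fun u hu1 => by
      have h2 : u = v + m • u0 := by
        by_contra h3
        apply hu1
        rw [AddMonoidAlgebra.coeff_single, Finsupp.single_apply, if_neg (fun h => h3 h.symm)]
      subst h2
      refine ⟨fun i hi => by simp [hv i hi, hu0V i hi], by rw [map_add, map_nsmul], fun σ hσ l hl => ?_⟩
      exact hnn l (hU'sub σ ((hmem σ).1 hσ) hl))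
  refine ⟨f, D.mem_RR.2 ⟨hfT, fun l hl => ?_⟩, hr⟩
  rcases Finset.mem_union.1 hl with h | h
  · obtain ⟨τ, hτ⟩ := hne
    obtain ⟨σ, hσ, rfl⟩ := (hmem τ).1 hτ
    exact (D.mem_RR.1 (hf _ hτ)).2 l (Finset.mem_union_left _ h)
  · obtain ⟨p, hp, hpl⟩ := hz l h
    have h6 : TD.I ∪ tight TD.E' p ∈ U := (hmem _).2 ⟨_, ⟨p, hp, rfl⟩, rfl⟩
    exact (D.mem_RR.1 (hf _ h6)).2 l (Finset.mem_union_right _ (mem_tight.2 ⟨h, hpl⟩))

end Pool.Agent.TOR
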