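import Pool.Agent.TOR.K3
import Pool.Agent.TOR.K4
import Pool.Agent.TOR.A10b

namespace Pool.Agent.TOR

open Set

universe u

variable {R K 𝔽 : Type u} [CommRing R] [Field K] [Algebra R K] [Field 𝔽] [Algebra R 𝔽] {t : R}
  {ι Γ : Type} [Fintype ι] [DecidableEq ι] [AddCommGroup Γ] {deg : (ι → ℤ) →+ Γ} {V E : Finset ι}

omit [Fintype ι] [DecidableEq ι] in
theorem k6a_mR {δ : ι → ℝ} (hδ : δ ∈ mR (MV deg V)) {l : ι} (hl : l ∉ V) : δ l = 0 := by
  unfold mR at hδ
  induction hδ using Submodule.span_induction with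
  | mem x hx =>
    obtain ⟨m, hm, rfl⟩ := hx
    have h1 := (mem_MV.mp hm).1 l hl
    change ((m l : ℤ) : ℝ) = 0
    rw [h1, Int.cast_zero]
  | zero => rfl
  | add x y _ _ hx hy => rw [Pi.add_apply, hx, hy, add_zero]
  | smul c x _ hx => rw [Pi.smul_apply, hx, smul_zero]

/-- An integral multiple of `a' = pt - s 1_E`. (As `exists_u1`; zero on `I` by `pt_I`, positive on `E \ I` by `pt_gt`; support in `V \ I`.) -/
theorem exists_u0 {D : Dat R K 𝔽 t deg V E} {a : ι → ℚ} (H : D.Hyp a) (TD : TopData (MV deg V) E a) :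
    ∃ (N : ℕ) (u0 : ι → ℤ), 0 < N ∧ SupIn (V \ TD.I) u0 ∧ (∀ l ∈ E, l ∉ TD.I → 1 ≤ u0 l) ∧
      ∀ l, (u0 l : ℚ) = N * (TD.pt l - if l ∈ E then TD.s else 0) := by
  let q : ι → ℚ := fun l => TD.pt l - if l ∈ E then TD.s else 0
  have hdvd : ∀ l, (q l).den ∣ ∏ l, (q l).den := fun l =>
    Finset.dvd_prod_of_mem (fun l => (q l).den) (Finset.mem_univ l)
  choose k hk using hdvd
  have hN : 0 < ∏ l, (q l).den := Finset.prod_pos fun l _ => (q l).den_pos
  have hu : ∀ l, (((q l).num * (k l : ℤ) : ℤ) : ℚ) = (∏ l, (q l).den : ℕ) * q l := by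
    intro l
    have h1 : ((∏ l, (q l).den : ℕ) : ℚ) = (q l).den * k l := by
      rw [hk l]
      push_cast
      rfl
    have h2 : ((q l).num : ℚ) = q l * (q l).den := (Rat.mul_den_eq_num (q l)).symm
    rw [h1]
    push_cast
    rw [h2]
    ring
  refine ⟨∏ l, (q l).den, fun l => (q l).num * k l, hN, fun l hl => ?_, fun l hl hI => ?_, hu⟩
  · have hq : q l = 0 := by
      change TD.pt l - (if l ∈ E then TD.s else 0) = 0
      by_cases hI : l ∈ TD.I
      · rw [if_pos (TD.IE hI), TD.pt_I l hI, sub_self]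
      · have hV : l ∉ V := fun h => hl (Finset.mem_sdiff.mpr ⟨h, hI⟩)
        have hE : l ∉ E := fun h => hV (D.EV h)
        have h1 := k6a_mR TD.pt_mem hV
        rw [Pi.sub_apply, H.supp l hV, Rat.cast_zero, sub_zero] at h1
        have h2 : TD.pt l = 0 := by exact_mod_cast h1
        rw [if_neg hE, h2, sub_zero]
    change (q l).num * (k l : ℤ) = 0
    rw [hq]
    simp
  · have h1 := hu l
    have h2 : 0 < q l := by
      change 0 < TD.pt l - (if l ∈ E then TD.s else 0)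
      rw [if_pos hl]
      linarith [TD.pt_gt l hl hI]
    have h3 : (0 : ℚ) < (((q l).num * (k l : ℤ) : ℤ) : ℚ) := by
      rw [h1]
      exact mul_pos (by exact_mod_cast hN) h2
    have h4 : 0 < (q l).num * (k l : ℤ) := by exact_mod_cast h3
    exact h4

/-- If the tight sets of the base polyhedron are connected through `L ⊆ E'`, so are the sets `I ∪ σ` (`L` does not meet `I`). -/
theorem conn_union (I L : Finset ι) (U : Set (Finset ι)) (hd : ∀ l ∈ L, l ∉ I) (h : Conn U L) :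
    Conn {τ | ∃ σ ∈ U, τ = I ∪ σ} L := by
  rintro τ ⟨σ, hσ, rfl⟩ τ' ⟨σ', hσ', rfl⟩ h1 h2
  have key : ∀ σ : Finset ι, ((I ∪ σ) ∩ L).Nonempty → (σ ∩ L).Nonempty := by
    rintro σ ⟨l, hl⟩
    obtain ⟨h3, h4⟩ := Finset.mem_inter.mp hl
    rcases Finset.mem_union.mp h3 with h5 | h5
    · exact absurd h5 (hd l h4)
    · exact ⟨l, Finset.mem_inter.mpr ⟨h5, h4⟩⟩
  have h3 := h σ hσ σ' hσ' (key σ h1) (key σ' h2)
  refine Relation.ReflTransGen.lift (fun σ => I ∪ σ) (fun x y hxy => ?_) _ _ h3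
  obtain ⟨hx, hy, l, hl⟩ := hxy
  refine ⟨⟨x, hx, rfl⟩, ⟨y, hy, rfl⟩, l, ?_⟩
  simp only [Finset.mem_inter, Finset.mem_union] at hl ⊢
  exact ⟨⟨Or.inr hl.1.1, Or.inr hl.1.2⟩, hl.2⟩

/-- If all members of `U` contain a common element of `L` they are connected through `L` (one link). -/
theorem conn_common (U : Set (Finset ι)) (L : Finset ι) (i : ι) (hi : i ∈ L) (h : ∀ τ ∈ U, i ∈ τ) : Conn U L := by
  intro τ hτ τ' hτ' _ _
  apply Relation.ReflTransGen.single
  refine ⟨hτ, hτ', i, ?_⟩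
  simp only [Finset.mem_inter]
  exact ⟨⟨h τ hτ, h τ' hτ'⟩, hi⟩

end Pool.Agent.TOR
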