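import Pool.Agent.TOR.K6a

namespace Pool.Agent.TOR

open Set

universe u

variable {R K 𝔽 : Type u} [CommRing R] [Field K] [Algebra R K] [Field 𝔽] [Algebra R 𝔽] {t : R}
  {ι Γ : Type} [Fintype ι] [DecidableEq ι] [AddCommGroup Γ] {deg : (ι → ℤ) →+ Γ} {V E : Finset ι}

/-- For fixed `w` (supported in `V \ I`) and `m` large, all `u'` supported in `V \ I` of degree `deg w + m • deg u0`: the tight sets are connected through the negative entries. Proof: `perturb` for the base polyhedron at the real vector `u0` (`TS_smul`: `u0 = N a'`; `PP` nonempty, bounded (`bdd_all`), simple since `Simp`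
only depends on `TS`): for `m` large `TS (u0 + w / m) = TS u0 = TS a'`. `q = u' / m`: `q - (u0 + w / m) ∈ mR` since `u' - w - m u0 ∈ MV deg (V \ I)`; `q l < 0` iff `u' l < 0`; `tight_conn`. -/
theorem serre_conn1 {D : Dat R K 𝔽 t deg V E} {a : ι → ℚ} (H : D.Hyp a) (TD : TopData (MV deg V) E a)
    (N : ℕ) (u0 : ι → ℤ) (hN : 0 < N) (hV : SupIn (V \ TD.I) u0)
    (hu : ∀ l, (u0 l : ℚ) = N * (TD.pt l - if l ∈ E then TD.s else 0)) (w : ι → ℤ) (hw : SupIn (V \ TD.I) w) :
    ∃ m0 : ℕ, ∀ m ≥ m0, ∀ u' : ι → ℤ, SupIn (V \ TD.I) u' → deg u' = deg w + m • deg u0 →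
      Conn (TS (MV deg (V \ TD.I)) TD.E' (rv TD.pt - ind E (TD.s : ℝ))) (neg u' ∩ TD.E') := by
  classical
  set A : ι → ℝ := rv TD.pt - ind E (TD.s : ℝ) with hA
  have hNR : (0 : ℝ) < N := by exact_mod_cast hN
  have hN1 : (1 : ℝ) ≤ N := by exact_mod_cast hN
  have huA : ∀ l, (u0 l : ℝ) = N * A l := by
    intro l
    have h4 : ((u0 l : ℚ) : ℝ) = ((N * (TD.pt l - if l ∈ E then TD.s else 0) : ℚ) : ℝ) := by
      rw [hu l]
    rw [Rat.cast_intCast, Rat.cast_mul, Rat.cast_natCast, Rat.cast_sub] at h4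
    rw [h4, hA]
    simp only [rv, ind, Pi.sub_apply]
    split_ifs <;> simp
  have hs := TD.simp'
  have hb := TD.bdd'
  rw [sub0_MV] at hs hb
  have hne : (PP (MV deg (V \ TD.I)) TD.E' A).Nonempty := by
    refine ⟨A, ?_, fun l hl => ?_⟩
    · rw [sub_self]
      exact zero_mem _
    · have h1 := TD.pt_gt l (TD.E'E hl) (TD.disj l hl)
      have h2 : (TD.s : ℝ) < TD.pt l := by exact_mod_cast h1
      rw [hA]
      simp only [rv, ind, Pi.sub_apply, if_pos (TD.E'E hl)]
      linarith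
  obtain ⟨ε, hε, hpert⟩ := perturb (MV deg (V \ TD.I)) TD.E' A hne hb hs
  set W : ℝ := ∑ l, |(w l : ℝ)| with hW
  have hWl : ∀ l, |(w l : ℝ)| ≤ W := fun l =>
    Finset.single_le_sum (f := fun l => |(w l : ℝ)|) (fun _ _ => abs_nonneg _) (Finset.mem_univ l)
  refine ⟨⌈W / ε⌉₊ + 1, fun m hm u' hu1 hu2 => ?_⟩
  have hmR : W / ε < m := by
    have h1 : W / ε ≤ (⌈W / ε⌉₊ : ℝ) := Nat.le_ceil _
    have h2 : ((⌈W / ε⌉₊ + 1 : ℕ) : ℝ) ≤ m := by exact_mod_cast hm
    push_cast at h2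
    linarith
  have hm0 : (0 : ℝ) < m := by
    have : (1 : ℕ) ≤ m := le_trans (Nat.le_add_left _ _) hm
    exact_mod_cast this
  have hWm : W < ε * m := by
    rw [div_lt_iff₀ hε] at hmR
    linarith
  let a' : ι → ℝ := fun l => A l + (w l : ℝ) / (m * N)
  have hclose : ∀ l, |a' l - A l| < ε := by
    intro l
    change |A l + (w l : ℝ) / (m * N) - A l| < ε
    rw [add_sub_cancel_left, abs_div, abs_of_pos (mul_pos hm0 hNR), div_lt_iff₀ (mul_pos hm0 hNR)]
    have h1 := hWl l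
    have h2 : ε * m ≤ ε * (m * N) := by
      have h3 : 0 ≤ ε * m := (mul_pos hε hm0).le
      nlinarith
    linarith
  rw [← hpert a' hclose]
  apply tight_conn (MV deg (V \ TD.I)) TD.E' a' (fun l => (u' l : ℝ) / (m * N))
  · have hmem : u' - w - m • u0 ∈ MV deg (V \ TD.I) := by
      rw [mem_MV]
      constructor
      · intro i hi
        rw [Pi.sub_apply, Pi.sub_apply, Pi.smul_apply, hu1 i hi, hw i hi, hV i hi, smul_zero]
        simp
      · rw [map_sub, map_sub, map_nsmul, hu2]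
        abel
    have h1 := (mR (MV deg (V \ TD.I))).smul_mem ((1 : ℝ) / (m * N)) (int_mem_mR hmem)
    convert h1 using 1
    funext l
    simp only [Pi.sub_apply, Pi.smul_apply, smul_eq_mul, a']
    rw [nsmul_eq_mul]
    push_cast
    rw [huA l]
    field_simp
    ring
  · intro l
    rw [Finset.mem_inter, mem_neg]
    constructor
    · rintro ⟨h1, h2⟩
      refine ⟨h2, div_neg_of_neg_of_pos ?_ (mul_pos hm0 hNR)⟩
      exact_mod_cast h1
    · rintro ⟨h1, h2⟩
      refine ⟨?_, h1⟩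
      by_contra hcon
      push Not at hcon
      have h3 : (0 : ℝ) ≤ u' l := by exact_mod_cast hcon
      have h4 : (0 : ℝ) ≤ (u' l : ℝ) / (m * N) := div_nonneg h3 (mul_pos hm0 hNR).le
      exact absurd h2 (not_lt.mpr h4)

end Pool.Agent.TOR
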