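import Pool.Agent.TOR.K6b

namespace Pool.Agent.TOR

open Set

universe u

variable {R K 𝔽 : Type u} [CommRing R] [Field K] [Algebra R K] [Field 𝔽] [Algebra R 𝔽] {t : R}
  {ι Γ : Type} [Fintype ι] [DecidableEq ι] [AddCommGroup Γ] {deg : (ι → ℤ) →+ Γ} {V E : Finset ι}

/-- Let `v` be supported in `V`, nonnegative on `I`. For `m` large and every `u` supported in `V` of degree `deg v + m • deg u0`: connectedness of the family `I ∪ σ`. Proof: if `u i < 0` for some `i ∈ I`: `conn_common`. Otherwise `∑ β i u i = ∑ β i v i` (`β_rel` for `u - v - m u0 ∈ MV deg V`; `u0 = 0` on `I`, `β_zero`), so the restriction `α` of `u` to `I`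
(extended by zero) takes only finitely many values (`0 ≤ β i u i ≤ ∑ β v`, `β_pos`). For each value `α` for which some `w` supported in `V \ I` has `deg w = deg v - deg α` choose one and apply `serre_conn1` to it and to `u' = u - α`; take `m0` the maximum. `neg u ∩ (I ∪ E') = neg u' ∩ E'`; `conn_union`, `conn_congr`. -/
theorem serre_conn {D : Dat R K 𝔽 t deg V E} {a : ι → ℚ} (H : D.Hyp a) (TD : TopData (MV deg V) E a)
    (N : ℕ) (u0 : ι → ℤ) (hN : 0 < N) (hV : SupIn (V \ TD.I) u0)
    (hu : ∀ l, (u0 l : ℚ) = N * (TD.pt l - if l ∈ E then TD.s else 0)) (v : ι → ℤ) (hv : SupIn V v) (hv0 : ∀ i ∈ TD.I, 0 ≤ v i) :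
    ∃ m0 : ℕ, ∀ m ≥ m0, ∀ u : ι → ℤ, SupIn V u → deg u = deg v + m • deg u0 →
      Conn {τ | ∃ σ ∈ TS (MV deg (V \ TD.I)) TD.E' (rv TD.pt - ind E (TD.s : ℝ)), τ = TD.I ∪ σ} (neg u) := by
  classical
  have hIV : TD.I ⊆ V := TD.IE.trans D.EV
  set U0 := TS (MV deg (V \ TD.I)) TD.E' (rv TD.pt - ind E (TD.s : ℝ)) with hU0
  set b := ∑ i, TD.β i * v i with hb
  have hex : ∀ α : ι → ℤ, ∃ mα : ℕ, ∀ m ≥ mα, ∀ u' : ι → ℤ, SupIn (V \ TD.I) u' →
      deg u' = deg v - deg α + m • deg u0 → Conn U0 (neg u' ∩ TD.E') := by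
    intro α
    by_cases hw : ∃ w : ι → ℤ, SupIn (V \ TD.I) w ∧ deg w = deg v - deg α
    · obtain ⟨w, hw1, hw2⟩ := hw
      obtain ⟨m0, hm0⟩ := serre_conn1 H TD N u0 hN hV hu w hw1
      refine ⟨m0, fun m hm u' hu' hd => hm0 m hm u' hu' ?_⟩
      rw [hd, hw2]
    · refine ⟨0, fun m _ u' hu' hd => absurd ⟨u' - m • u0, fun i hi => ?_, ?_⟩ hw⟩
      · rw [Pi.sub_apply, Pi.smul_apply, hu' i hi, hV i hi, smul_zero, sub_zero]
      · rw [map_sub, map_nsmul, hd, add_sub_cancel_right]
  choose M hM using hex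
  have hfin : (Set.Icc (0 : ι → ℤ) (fun _ => b)).Finite := Set.finite_Icc _ _
  refine ⟨∑ α ∈ hfin.toFinset, M α, fun m hm u hu1 hu2 => ?_⟩
  by_cases hneg : ∃ i ∈ TD.I, u i < 0
  · obtain ⟨i, hi, hi'⟩ := hneg
    apply conn_common _ _ i (mem_neg.mpr hi')
    rintro τ ⟨σ, _, rfl⟩
    exact Finset.mem_union_left _ hi
  · push Not at hneg
    let α : ι → ℤ := fun i => if i ∈ TD.I then u i else 0
    have hrel : ∑ i, TD.β i * u i = b := by
      have hmem : u - v - m • u0 ∈ MV deg V := by
        rw [mem_MV]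
        constructor
        · intro i hi
          rw [Pi.sub_apply, Pi.sub_apply, Pi.smul_apply, hu1 i hi, hv i hi,
            hV i (fun h => hi (Finset.mem_sdiff.mp h).1), smul_zero]
          simp
        · rw [map_sub, map_sub, map_nsmul, hu2]
          abel
      have h1 := TD.β_rel _ hmem
      have h2 : ∀ i, TD.β i * (u - v - m • u0) i = TD.β i * u i - TD.β i * v i := by
        intro i
        rw [Pi.sub_apply, Pi.sub_apply, Pi.smul_apply]
        by_cases hi : i ∈ TD.I
        · rw [hV i (fun h => (Finset.mem_sdiff.mp h).2 hi), smul_zero]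
          ring
        · rw [TD.β_zero i hi]
          ring
      rw [Finset.sum_congr rfl (fun i _ => h2 i), Finset.sum_sub_distrib] at h1
      exact sub_eq_zero.mp h1
    have hnn : ∀ i, 0 ≤ TD.β i * u i := by
      intro i
      by_cases hi : i ∈ TD.I
      · exact mul_nonneg (TD.β_pos i hi).le (hneg i hi)
      · rw [TD.β_zero i hi, zero_mul]
    have hle : ∀ i, TD.β i * u i ≤ b := by
      intro i
      rw [← hrel]
      exact Finset.single_le_sum (f := fun i => TD.β i * u i) (fun i _ => hnn i)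
        (Finset.mem_univ i)
    have hα : α ∈ Set.Icc (0 : ι → ℤ) (fun _ => b) := by
      constructor
      · intro i
        change (0 : ℤ) ≤ if i ∈ TD.I then u i else 0
        split_ifs with h
        · exact hneg i h
        · exact le_rfl
      · intro i
        change (if i ∈ TD.I then u i else 0) ≤ b
        split_ifs with h
        · have h1 := TD.β_pos i h
          have h2 := hneg i h
          have h3 := hle i
          nlinarith
        · exact (hnn i).trans (hle i)
    have hmα : M α ≤ m := le_trans (Finset.single_le_sum (f := M) (fun _ _ => Nat.zero_le _)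
      (hfin.mem_toFinset.mpr hα)) hm
    have hsup : SupIn (V \ TD.I) (u - α) := by
      intro i hi
      change u i - (if i ∈ TD.I then u i else 0) = 0
      split_ifs with h
      · exact sub_self _
      · rw [hu1 i fun hV' => hi (Finset.mem_sdiff.mpr ⟨hV', h⟩), sub_zero]
    have h1 := hM α m hmα (u - α) hsup (by rw [map_sub, hu2]; abel)
    have h2 := conn_union TD.I (neg (u - α) ∩ TD.E') U0
      (fun l hl => TD.disj l (Finset.mem_inter.mp hl).2) h1
    refine conn_congr _ _ _ ?_ h2
    rintro τ ⟨σ, ⟨q, _, rfl⟩, rfl⟩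
    ext l
    simp only [Finset.mem_inter, Finset.mem_union, mem_neg]
    have hval : (u - α) l = u l - (if l ∈ TD.I then u l else 0) := rfl
    constructor
    · rintro ⟨h3, h4, h5⟩
      refine ⟨h3, ?_⟩
      rw [hval, if_neg (TD.disj l h5), sub_zero] at h4
      exact h4
    · rintro ⟨h3, h4⟩
      have h5 : l ∉ TD.I := fun h => absurd h4 (not_lt.mpr (hneg l h))
      have h6 : l ∈ TD.E' := by
        rcases h3 with h3 | h3
        · exact absurd h3 h5
        · exact (mem_tight.mp h3).1
      refine ⟨h3, ?_, h6⟩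
      rw [hval, if_neg h5, sub_zero]
      exact h4

end Pool.Agent.TOR
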