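import Pool.Agent.TOR.K7a

namespace Pool.Agent.TOR

open Set

universe u

variable {R K 𝔽 : Type u} [CommRing R] [Field K] [Algebra R K] [Field 𝔽] [Algebra R 𝔽] {t : R}
  {ι Γ : Type} [Fintype ι] [DecidableEq ι] [AddCommGroup Γ] {deg : (ι → ℤ) →+ Γ} {V E : Finset ι}

/-- `f` is a lift of the monomial `w` in `RR τ` (auxiliary) -/
def k7_M (D : Dat R K 𝔽 t deg V E) (τ : Finset ι) (w : ι → ℤ) (f : 𝔽) : Prop :=
  SupIn V w ∧ f ∈ D.RR τ (deg w) ∧ D.red (deg w) f = mono K w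

section

omit [Fintype ι] [DecidableEq ι]

theorem k7_one (D : Dat R K 𝔽 t deg V E) {τ : Finset ι} (hτ : τ ⊆ E) : k7_M D τ 0 1 := by
  refine ⟨fun _ _ => rfl, ?_, ?_⟩
  · rw [map_zero]
    exact D.RR_one τ hτ
  · rw [map_zero, D.red_one, AddMonoidAlgebra.one_def]

theorem k7_mul {D : Dat R K 𝔽 t deg V E} {τ : Finset ι} (hτ : τ ⊆ E) {w w' : ι → ℤ} {f f' : 𝔽}
    (h : k7_M D τ w f) (h' : k7_M D τ w' f') : k7_M D τ (w + w') (f * f') := by
  obtain ⟨h1, h2, h3⟩ := h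
  obtain ⟨h1', h2', h3'⟩ := h'
  refine ⟨fun i hi => ?_, ?_, ?_⟩
  · rw [Pi.add_apply, h1 i hi, h1' i hi, add_zero]
  · rw [map_add]
    exact D.RR_mul τ hτ _ _ _ _ h2 h2'
  · rw [map_add, D.red_mul _ _ _ _ (D.mem_RR.mp h2).1 (D.mem_RR.mp h2').1, h3, h3',
      AddMonoidAlgebra.single_mul_single, one_mul]

theorem k7_pow {D : Dat R K 𝔽 t deg V E} {τ : Finset ι} (hτ : τ ⊆ E) {w : ι → ℤ} {f : 𝔽}
    (h : k7_M D τ w f) (n : ℕ) : k7_M D τ (n • w) (f ^ n) := by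
  induction n with
  | zero =>
    rw [zero_smul, pow_zero]
    exact k7_one D hτ
  | succ n ih =>
    rw [succ_nsmul, pow_succ]
    exact k7_mul hτ ih h

theorem k7_prod {D : Dat R K 𝔽 t deg V E} {τ : Finset ι} (hτ : τ ⊆ E) {J : Type}
    (A : Finset J) (w : J → ι → ℤ) (f : J → 𝔽)
    (h : ∀ j ∈ A, k7_M D τ (w j) (f j)) : k7_M D τ (∑ j ∈ A, w j) (∏ j ∈ A, f j) := by
  classical
  induction A using Finset.induction_on with
  | empty =>
    rw [Finset.sum_empty, Finset.prod_empty]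
    exact k7_one D hτ
  | insert a A ha ih =>
    rw [Finset.sum_insert ha, Finset.prod_insert ha]
    exact k7_mul hτ (h a (Finset.mem_insert_self _ _))
      (ih fun j hj => h j (Finset.mem_insert_of_mem hj))

theorem k7_inv {D : Dat R K 𝔽 t deg V E} {w : ι → ℤ} {f : 𝔽}
    (h : k7_M D ∅ w f) : k7_M D ∅ (-w) f⁻¹ := by
  obtain ⟨h1, h2, h3⟩ := h
  obtain ⟨-, h5, h6⟩ := D.inv_mem ∅ (Finset.empty_subset _) (deg w) w h1 rfl
    (fun l hl => absurd hl (Finset.notMem_empty l)) f h2 h3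
  refine ⟨fun i hi => ?_, ?_, ?_⟩
  · rw [Pi.neg_apply, h1 i hi, neg_zero]
  · rw [map_neg]
    exact h5
  · rw [map_neg]
    exact h6

theorem k7_zpow {D : Dat R K 𝔽 t deg V E} {w : ι → ℤ} {f : 𝔽}
    (h : k7_M D ∅ w f) (n : ℤ) : k7_M D ∅ (n • w) (f ^ n) := by
  rcases Int.eq_nat_or_neg n with ⟨m, rfl | rfl⟩
  · rw [natCast_zsmul, zpow_natCast]
    exact k7_pow (Finset.empty_subset _) h m
  · rw [neg_smul, natCast_zsmul, zpow_neg, zpow_natCast]
    exact k7_inv (k7_pow (Finset.empty_subset _) h m)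

theorem k7_anti {D : Dat R K 𝔽 t deg V E} {τ σ : Finset ι} (hσ : σ ⊆ τ) {w : ι → ℤ} {f : 𝔽}
    (h : k7_M D τ w f) : k7_M D σ w f :=
  ⟨h.1, D.RR_anti σ τ hσ _ _ h.2.1, h.2.2⟩

end

/-- monomials in the `Y i`, `i ∈ I`, integer exponents -/
noncomputable def Yp (I : Finset ι) (Y : ι → 𝔽) (α : ι → ℤ) : 𝔽 := ∏ i ∈ I, Y i ^ (α i)

/-- the exponent of `Yp α` -/
def eY (I : Finset ι) (u0 : ι → ℤ) (m0 : ℕ) (α : ι → ℤ) : ι → ℤ := α + (∑ i ∈ I, α i) • (m0 • u0)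

/-- the degree of `Yp α` -/
def dY (deg : (ι → ℤ) →+ Γ) (I : Finset ι) (u0 : ι → ℤ) (m0 : ℕ) (α : ι → ℤ) : Γ := deg (eY I u0 m0 α)

section

variable {D : Dat R K 𝔽 t deg V E} {I E' : Finset ι} {D' : Dat R K 𝔽 t deg (V \ I) E'}
    {β u0 : ι → ℤ} {m0 : ℕ} {Y : ι → 𝔽} (S : Setup D I E' D' β u0 m0 Y)

theorem dY_add (α α' : ι → ℤ) : dY deg I u0 m0 (α + α') = dY deg I u0 m0 α + dY deg I u0 m0 α' := by
  have h : eY I u0 m0 (α + α') = eY I u0 m0 α + eY I u0 m0 α' := by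
    simp only [eY, Pi.add_apply, Finset.sum_add_distrib, add_smul]
    abel
  simp only [dY, h, map_add]

theorem dY_zsmul (n : ℤ) (α : ι → ℤ) : dY deg I u0 m0 (n • α) = n • dY deg I u0 m0 α := by
  have h : eY I u0 m0 (n • α) = n • eY I u0 m0 α := by
    simp only [eY, Pi.smul_apply, smul_eq_mul, ← Finset.mul_sum, smul_add, mul_smul]
  simp only [dY, h, map_zsmul]

include S

theorem Y_ne (i : ι) (hi : i ∈ I) : Y i ≠ 0 := by
  intro h
  have h1 := S.Y_red i hi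
  rw [h, D.red_z] at h1
  have h2 := congrArg (fun f => AddMonoidAlgebra.coeff f (Pi.single i 1 + m0 • u0)) h1
  simp [mono] at h2

theorem Yp_ne (α : ι → ℤ) : Yp I Y α ≠ 0 := by
  unfold Yp
  exact Finset.prod_ne_zero_iff.mpr fun i hi => zpow_ne_zero _ (Y_ne S i hi)

theorem Yp_add (α α' : ι → ℤ) : Yp I Y (α + α') = Yp I Y α * Yp I Y α' := by
  unfold Yp
  rw [← Finset.prod_mul_distrib]
  exact Finset.prod_congr rfl fun i hi => zpow_add₀ (Y_ne S i hi) _ _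

theorem Yp_zsmul (n : ℤ) (α : ι → ℤ) : Yp I Y (n • α) = Yp I Y α ^ n := by
  unfold Yp
  rw [← Finset.prod_zpow]
  refine Finset.prod_congr rfl fun i _ => ?_
  rw [Pi.smul_apply, smul_eq_mul, mul_comm, zpow_mul]

theorem k7_tau : I ∪ E' ⊆ E := Finset.union_subset S.base.IE S.base.E'E

theorem k7_Y (i : ι) (hi : i ∈ I) : k7_M D (I ∪ E') (Pi.single i 1 + m0 • u0) (Y i) := by
  refine ⟨fun l hl => ?_, ?_, ?_⟩
  · have h1 : l ≠ i := by
      rintro rfl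
      exact hl (D.EV (S.base.IE hi))
    have h2 : l ∉ V \ I := fun h => hl (Finset.mem_sdiff.mp h).1
    rw [Pi.add_apply, Pi.single_eq_of_ne h1, Pi.smul_apply, S.u0_supp l h2, smul_zero, add_zero]
  · rw [map_add, map_nsmul]
    exact S.Y_mem i hi
  · rw [map_add, map_nsmul]
    exact S.Y_red i hi

omit S [Fintype ι] in
theorem k7_sum (α : ι → ℤ) (hα : SupIn I α) :
    ∑ i ∈ I, α i • (Pi.single i 1 + m0 • u0) = eY I u0 m0 α := by
  simp only [smul_add, Finset.sum_add_distrib, ← Finset.sum_smul, eY]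
  congr 1
  funext l
  rw [Finset.sum_apply]
  by_cases hl : l ∈ I
  · rw [Finset.sum_eq_single l]
    · rw [Pi.smul_apply, Pi.single_eq_same, smul_eq_mul, mul_one]
    · intro i _ hi
      rw [Pi.smul_apply, Pi.single_eq_of_ne (Ne.symm hi), smul_zero]
    · intro h
      exact absurd hl h
  · rw [hα l hl]
    apply Finset.sum_eq_zero
    intro i hi
    have h1 : l ≠ i := by
      rintro rfl
      exact hl hi
    rw [Pi.smul_apply, Pi.single_eq_of_ne h1, smul_zero]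

/-- `Yp α` is in `T`, with reduction the monomial `eY α` (`inv_mem` with `τ = ∅` for the negative powers; products over `I`). -/
theorem Yp_mem (α : ι → ℤ) (hα : SupIn I α) :
    Yp I Y α ∈ D.T (dY deg I u0 m0 α) ∧ D.red (dY deg I u0 m0 α) (Yp I Y α) = mono K (eY I u0 m0 α) := by
  have h := k7_prod (D := D) (τ := ∅) (Finset.empty_subset _) I
    (fun i => α i • (Pi.single i 1 + m0 • u0)) (fun i => Y i ^ α i)
    (fun i hi => k7_zpow (k7_anti (Finset.empty_subset _) (k7_Y S i hi)) (α i))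
  rw [k7_sum α hα] at h
  exact ⟨(D.mem_RR.mp h.2.1).1, h.2.2⟩

theorem Yp_mem_RR (α : ι → ℤ) (hα : SupIn I α) (h : ∀ i ∈ I, 0 ≤ α i) :
    Yp I Y α ∈ D.RR (I ∪ E') (dY deg I u0 m0 α) := by
  have h1 := k7_prod (D := D) (τ := I ∪ E') (k7_tau S) I
    (fun i => α i • (Pi.single i 1 + m0 • u0)) (fun i => Y i ^ α i)
    (fun i hi => by
      have h2 := k7_pow (k7_tau S) (k7_Y S i hi) (α i).toNat
      have h3 : ((α i).toNat : ℤ) = α i := Int.toNat_of_nonneg (h i hi)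
      rw [← natCast_zsmul, ← zpow_natCast, h3] at h2
      exact h2)
  rw [k7_sum α hα] at h1
  exact h1.2.1

end

end Pool.Agent.TOR
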