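import Pool.Agent.TOR.K6
import Pool.Agent.TOR.B7

/-!
[TOR] the monomials in the relative variables
-/

namespace Pool.Agent.TOR

open Set

universe u

variable {R K 𝔽 : Type u} [CommRing R] [Field K] [Algebra R K] [Field 𝔽] [Algebra R 𝔽] {t : R}
  {ι Γ : Type} [Fintype ι] [DecidableEq ι] [AddCommGroup Γ] {deg : (ι → ℤ) →+ Γ} {V E : Finset ι}

/-- a setup for the field computation: `D'` the base, `u0` an interior vector of the base, `Y i`, `i ∈ I`, lifts of `e_i + m0 u0`; all facts needed below -/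
structure Setup (D : Dat R K 𝔽 t deg V E) (I E' : Finset ι) (D' : Dat R K 𝔽 t deg (V \ I) E')
    (β u0 : ι → ℤ) (m0 : ℕ) (Y : ι → 𝔽) : Prop where
  base : BaseOf D I E' D'
  β_pos : ∀ i ∈ I, 0 < β i
  β_zero : ∀ i, i ∉ I → β i = 0
  β_rel : ∀ m ∈ MV deg V, ∑ i, β i * m i = 0
  u0_supp : SupIn (V \ I) u0
  u0_pos : ∀ l ∈ E', 1 ≤ u0 l
  /-- large multiples of `u0` lift all monomials nonnegative on `I` -/
  serre : ∀ v : ι → ℤ, SupIn V v → (∀ i ∈ I, 0 ≤ v i) → ∃ m0 : ℕ, ∀ m ≥ m0, ∃ f ∈ D.RR (I ∪ E') (deg v + m • deg u0),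
      D.red (deg v + m • deg u0) f = mono K (v + m • u0)
  /-- all monomials of degree `m • deg u0` of the base lift -/
  blift : ∀ m : ℕ, 1 ≤ m → ∀ u ∈ Cnt deg (V \ I) E' (m • deg u0), ∃ f ∈ D'.RR E' (deg u), D'.red (deg u) f = mono K u
  cfin : ∀ γ, (Cnt deg (V \ I) E' γ).Finite
  cpoly : ∃ C n : ℕ, ∀ m : ℕ, (Cnt deg (V \ I) E' (m • deg u0)).ncard ≤ C * (m + 1) ^ n
  Y_mem : ∀ i ∈ I, Y i ∈ D.RR (I ∪ E') (deg (Pi.single i 1) + m0 • deg u0)
  Y_red : ∀ i ∈ I, D.red (deg (Pi.single i 1) + m0 • deg u0) (Y i) = mono K (Pi.single i 1 + m0 • u0)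

/-- The setup exists: `D'` from `exists_base`, `top_good`, `hyp_base`; `u0` from `exists_u0`; `serre_lift`; `blift`: `path_lift` for `D'` at `a'` (`(hyp_base ..).roof`) with `c = m N`, `s = 0`; `cfin`, `cpoly`: `cnt_finite`, `cnt_poly` for the base polyhedron; `Y`: `serre_lift` for `v = e_i`, `i ∈ I ⊆ E ⊆ V`, with a common `m0`. -/
theorem exists_setup {D : Dat R K 𝔽 t deg V E} {a : ι → ℚ} (H : D.Hyp a) (TD : TopData (MV deg V) E a) :
    ∃ (D' : Dat R K 𝔽 t deg (V \ TD.I) TD.E') (u0 : ι → ℤ) (m0 : ℕ) (Y : ι → 𝔽),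
      D'.Hyp (fun l => TD.pt l - if l ∈ E then TD.s else 0) ∧ Setup D TD.I TD.E' D' TD.β u0 m0 Y := by
  have hg := top_good H TD
  obtain ⟨D', B⟩ := exists_base D TD.I TD.E' TD.IE TD.E'E TD.disj TD.β TD.β_pos TD.β_zero TD.β_rel
    hg.1 hg.2.1
  have H' := hyp_base H TD D' B
  obtain ⟨N, u0, hN, hV, h1, hu⟩ := exists_u0 H TD
  have hIV : TD.I ⊆ V := TD.IE.trans D.EV
  have serre : ∀ v : ι → ℤ, SupIn V v → (∀ i ∈ TD.I, 0 ≤ v i) → ∃ m0 : ℕ, ∀ m ≥ m0,
      ∃ f ∈ D.RR (TD.I ∪ TD.E') (deg v + m • deg u0),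
        D.red (deg v + m • deg u0) f = mono K (v + m • u0) :=
    fun v hv hv0 => serre_lift H TD N u0 hN hV h1 hu v hv hv0
  have hex : ∀ i, ∃ mi : ℕ, i ∈ TD.I → ∀ m ≥ mi,
      ∃ f ∈ D.RR (TD.I ∪ TD.E') (deg (Pi.single i 1) + m • deg u0),
        D.red (deg (Pi.single i 1) + m • deg u0) f = mono K (Pi.single i 1 + m • u0) := by
    intro i
    by_cases hi : i ∈ TD.I
    · obtain ⟨mi, hmi⟩ := serre (Pi.single i 1) (fun l hl => Pi.single_eq_of_ne (by
        rintro rfl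
        exact hl (hIV hi)) _) (fun l _ => by
          by_cases hl : l = i
          · rw [hl, Pi.single_eq_same]
            exact zero_le_one
          · rw [Pi.single_eq_of_ne hl])
      exact ⟨mi, fun _ => hmi⟩
    · exact ⟨0, fun h => absurd h hi⟩
  choose mi hmi using hex
  have hex2 : ∀ i, ∃ y : 𝔽, i ∈ TD.I →
      y ∈ D.RR (TD.I ∪ TD.E') (deg (Pi.single i 1) + (∑ i ∈ TD.I, mi i) • deg u0) ∧
        D.red (deg (Pi.single i 1) + (∑ i ∈ TD.I, mi i) • deg u0) y =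
          mono K (Pi.single i 1 + (∑ i ∈ TD.I, mi i) • u0) := by
    intro i
    by_cases hi : i ∈ TD.I
    · obtain ⟨f, hf, hf'⟩ := hmi i hi (∑ i ∈ TD.I, mi i)
        (Finset.single_le_sum (f := mi) (fun _ _ => Nat.zero_le _) hi)
      exact ⟨f, fun _ => ⟨hf, hf'⟩⟩
    · exact ⟨0, fun h => absurd h hi⟩
  choose Y hY using hex2
  refine ⟨D', u0, ∑ i ∈ TD.I, mi i, Y, H', B, TD.β_pos, TD.β_zero, TD.β_rel, hV,
    fun l hl => h1 l (TD.E'E hl) (TD.disj l hl), serre, ?_, ?_, ?_, fun i hi => (hY i hi).1,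
    fun i hi => (hY i hi).2⟩
  · intro m hm u hu'
    obtain ⟨hu1, hu2, hu3⟩ := hu'
    have hN' : (0 : ℝ) < N := by exact_mod_cast hN
    have hm' : (0 : ℝ) < m := by exact_mod_cast hm
    refine D'.path_lift (rv fun l => TD.pt l - if l ∈ E then TD.s else 0) H'.ne H'.zero H'.roof
      (m • u0) (fun i hi => ?_) (m * N) 0 (mul_pos hm' hN') le_rfl ?_ u hu1 ?_ hu3
    · rw [Pi.smul_apply, hV i hi, smul_zero]
    · have h0 : (fun l => (((m • u0) l : ℤ) : ℝ) / (m * N) + (if l ∈ TD.E' then (0 : ℝ) else 0) -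
          rv (fun l => TD.pt l - if l ∈ E then TD.s else 0) l) = 0 := by
        funext l
        have h2 : (u0 l : ℝ) = N * rv (fun l => TD.pt l - if l ∈ E then TD.s else 0) l := by
          have h3 := hu l
          have h4 : ((u0 l : ℚ) : ℝ) =
              ((N * (TD.pt l - if l ∈ E then TD.s else 0) : ℚ) : ℝ) := by rw [h3]
          rw [Rat.cast_intCast, Rat.cast_mul, Rat.cast_natCast] at h4
          exact h4
        rw [ite_self, Pi.smul_apply, nsmul_eq_mul, Int.cast_mul, Int.cast_natCast, h2, add_zero,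
          Pi.zero_apply, sub_eq_zero]
        field_simp
      rw [h0]
      exact zero_mem _
    · rw [hu2, map_nsmul]
  · exact fun γ => cnt_finite deg (V \ TD.I) TD.E' _ H'.ne H'.bdd γ
  · exact cnt_poly deg (V \ TD.I) TD.E' _ H'.ne H'.bdd u0 hV

end Pool.Agent.TOR
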