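import Pool.Agent.TOR.K8a

namespace Pool.Agent.TOR

open Set

universe u

variable {R K 𝔽 : Type u} [CommRing R] [Field K] [Algebra R K] [Field 𝔽] [Algebra R 𝔽] {t : R}
  {ι Γ : Type} [Fintype ι] [DecidableEq ι] [AddCommGroup Γ] {deg : (ι → ℤ) →+ Γ} {V E : Finset ι}
  {D : Dat R K 𝔽 t deg V E} {I E' : Finset ι} {D' : Dat R K 𝔽 t deg (V \ I) E'}
    {β u0 : ι → ℤ} {m0 : ℕ} {Y : ι → 𝔽} (S : Setup D I E' D' β u0 m0 Y)

include S


omit S in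
theorem k8_RR_prod (γ : (ι → ℤ) → Γ) (g : (ι → ℤ) → 𝔽) (s : Finset (ι → ℤ)) (hg : ∀ α ∈ s, g α ∈ D'.RR E' (γ α)) :
    ∏ α ∈ s, g α ∈ D'.RR E' (∑ α ∈ s, γ α) := by
  classical
  induction s using Finset.induction_on with
  | empty => simpa using D'.RR_one E' subset_rfl
  | insert a s ha ih =>
    rw [Finset.prod_insert ha, Finset.sum_insert ha]
    exact D'.RR_mul E' subset_rfl _ _ _ _ (hg a (by simp)) (ih fun α hα => hg α (by simp [hα]))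

/-- INDEPENDENCE. Clear denominators: `q α = f α / g α` (`Fr`), `G = ∏_{α ∈ A} g α`, `p α = q α * G = f α * ∏_{α' ≠ α} g α'`; apply `Y_indep_poly` with `δ + ` (degree of `G`). -/
theorem Y_indep (A : Finset (ι → ℤ)) (hA : ∀ α ∈ A, SupIn I α) (δ : Γ) (q : (ι → ℤ) → 𝔽)
    (hq : ∀ α ∈ A, q α ∈ D'.Fr E' (δ - dY deg I u0 m0 α)) (h : ∑ α ∈ A, q α * Yp I Y α = 0) : ∀ α ∈ A, q α = 0 := by
  classical
  have h1 : ∀ α, ∃ (γ : Γ) (f g : 𝔽), α ∈ A → f ∈ D'.RR E' (γ + (δ - dY deg I u0 m0 α)) ∧ g ∈ D'.RR E' γ ∧ g ≠ 0 ∧ q α = f / g := by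
    intro α
    by_cases h2 : α ∈ A
    · obtain ⟨γ, f, g, h3⟩ := hq α h2
      exact ⟨γ, f, g, fun _ => h3⟩
    · exact ⟨0, 0, 0, fun h => absurd h h2⟩
  choose γ f g h2 using h1
  set G : 𝔽 := ∏ α ∈ A, g α with hG
  have hG0 : G ≠ 0 := Finset.prod_ne_zero_iff.2 fun α hα => (h2 α hα).2.2.1
  have h3 : ∀ α ∈ A, q α * G ∈ D'.RR E' ((δ + ∑ β ∈ A, γ β) - dY deg I u0 m0 α) := by
    intro α hα
    have h4 : q α * G = f α * ∏ β ∈ A.erase α, g β := by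
      rw [hG, ← Finset.mul_prod_erase A g hα, (h2 α hα).2.2.2, ← mul_assoc, div_mul_cancel₀ _ (h2 α hα).2.2.1]
    have h5 := D'.RR_mul E' subset_rfl _ _ _ _ (h2 α hα).1
      (k8_RR_prod γ g (A.erase α) fun β hβ => (h2 β (Finset.mem_of_mem_erase hβ)).2.1)
    rw [h4]
    rwa [show γ α + (δ - dY deg I u0 m0 α) + ∑ β ∈ A.erase α, γ β = (δ + ∑ β ∈ A, γ β) - dY deg I u0 m0 α by
      rw [← Finset.add_sum_erase A γ hα]; abel] at h5
  have h4 : ∑ α ∈ A, (q α * G) * Yp I Y α = 0 := by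
    have h5 : ∑ α ∈ A, (q α * G) * Yp I Y α = (∑ α ∈ A, q α * Yp I Y α) * G := by
      rw [Finset.sum_mul]
      exact Finset.sum_congr rfl fun α _ => by ring
    rw [h5, h, zero_mul]
  intro α hα
  have h5 := Y_indep_poly S A hA (δ + ∑ β ∈ A, γ β) (fun α => q α * G) h3 h4 α hα
  exact (mul_eq_zero.1 h5).resolve_right hG0

/-- Nonzero elements of large degree in the base (`S.serre` with `v = w`, `base_RR`). -/
theorem base_ne (w : ι → ℤ) (hw : SupIn (V \ I) w) :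
    ∃ m1 : ℕ, ∀ m ≥ m1, ∃ f ∈ D'.RR E' (deg w + m • deg u0), f ≠ 0 := by
  obtain ⟨m1, hm1⟩ := S.serre w (fun i hi => hw i fun h => hi (Finset.mem_sdiff.1 h).1)
    (fun i hi => (hw i fun h => (Finset.mem_sdiff.1 h).2 hi).ge)
  refine ⟨m1, fun m hm => ?_⟩
  obtain ⟨f, hf, hr⟩ := hm1 m hm
  refine ⟨f, ?_, ?_⟩
  · have h1 : SupIn (V \ I) (w + m • u0) := fun i hi => by simp [hw i hi, S.u0_supp i hi]
    have h2 : deg (w + m • u0) = deg w + m • deg u0 := by rw [map_add, map_nsmul]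
    rw [← h2] at hf ⊢
    exact (base_RR S.base E' subset_rfl _ h1 f).2 hf
  · rintro rfl
    rw [D.red_z] at hr
    have h3 := congrArg (fun z : KZ K ι => z.coeff (w + m • u0)) hr
    simp at h3

/-- Nonzero homogeneous fractions: quotient of elements from `base_ne` for `w` and for `0`, same `m`. -/
theorem exists_hom (w : ι → ℤ) (hw : SupIn (V \ I) w) : ∃ z ∈ D'.Fr E' (deg w), z ≠ 0 := by
  obtain ⟨m1, hm1⟩ := base_ne S w hw
  obtain ⟨m2, hm2⟩ := base_ne S 0 (fun _ _ => rfl)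
  obtain ⟨f, hf, hf0⟩ := hm1 (max m1 m2) (le_max_left _ _)
  obtain ⟨g, hg, hg0⟩ := hm2 (max m1 m2) (le_max_right _ _)
  rw [map_zero, zero_add] at hg
  refine ⟨f / g, ⟨max m1 m2 • deg u0, f, g, ?_, hg, hg0, rfl⟩, div_ne_zero hf0 hg0⟩
  rwa [add_comm]

end Pool.Agent.TOR
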