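import Pool.Agent.TOR.K7

namespace Pool.Agent.TOR

open Set

universe u

variable {R K 𝔽 : Type u} [CommRing R] [Field K] [Algebra R K] [Field 𝔽] [Algebra R 𝔽] {t : R}
  {ι Γ : Type} [Fintype ι] [DecidableEq ι] [AddCommGroup Γ] {deg : (ι → ℤ) →+ Γ} {V E : Finset ι}
  {D : Dat R K 𝔽 t deg V E} {I E' : Finset ι} {D' : Dat R K 𝔽 t deg (V \ I) E'}
    {β u0 : ι → ℤ} {m0 : ℕ} {Y : ι → 𝔽} (S : Setup D I E' D' β u0 m0 Y)

include S


omit S in
theorem k8a_tpow_inj (D : Dat R K 𝔽 t deg V E) (N : ℕ) (f g : 𝔽) (h : t ^ N • f = t ^ N • g) : f = g := by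
  have h1 : algebraMap R 𝔽 t ≠ 0 := fun h0 => D.base.t_ne (D.inj (by rw [h0, map_zero]))
  rw [Algebra.smul_def, Algebra.smul_def, map_pow] at h
  exact mul_left_cancel₀ (pow_ne_zero N h1) h

theorem k8a_T (γ : Γ) (f : 𝔽) (hf : f ∈ D'.RR E' γ) : f ∈ D.T γ := by
  by_cases h : ∃ w : ι → ℤ, SupIn (V \ I) w ∧ deg w = γ
  · obtain ⟨w, hw, rfl⟩ := h
    exact (D.mem_RR.1 ((S.base.T_in w hw f).1 (D'.mem_RR.1 hf).1)).1
  · rw [S.base.T_out γ h f (D'.mem_RR.1 hf).1]
    exact Submodule.zero_mem _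

/-- Polynomial version of the independence. Proof: suppose some `p α ≠ 0`. By `RR_div` for `D'` each nonzero `p α` is `t ^ N_α • p' α` with nonzero reduction; with `N` the minimum of the `N_α` we get `p α = t ^ N • p'' α` for all `α ∈ A`, `p'' α ∈ D'.RR E' (δ - dY α)`, some reduction nonzero, and `∑ p'' α * Yp α = 0` (`tpow_inj`).
Every `p'' α` is in `D.T (δ - dY α)`, with the same reduction (`BaseOf`: `T_in`, `T_out`, `red_eq`). Reduce (`red_mul`, `red_sum`, `Yp_mem`): `∑ red (p'' α) * mono (eY α) = 0`. The exponents of `red (p'' α)` are supported in `V \ I` (`D'.red_supp`), so those of the `α`-th term agree with `α` on `I` (`u0 = 0` on `I`):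
the terms have disjoint supports, so each is zero. Contradiction. -/
theorem Y_indep_poly (A : Finset (ι → ℤ)) (hA : ∀ α ∈ A, SupIn I α) (δ : Γ) (p : (ι → ℤ) → 𝔽)
    (hp : ∀ α ∈ A, p α ∈ D'.RR E' (δ - dY deg I u0 m0 α)) (h : ∑ α ∈ A, p α * Yp I Y α = 0) : ∀ α ∈ A, p α = 0 := by
  classical
  by_contra hcon
  push Not at hcon
  obtain ⟨α00, hα00, hpα00⟩ := hcon
  -- divide by powers of `t`
  have hdiv : ∀ α, ∃ (N : ℕ) (g : 𝔽), α ∈ A → p α ≠ 0 → g ∈ D'.RR E' (δ - dY deg I u0 m0 α) ∧ p α = t ^ N • g ∧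
      D'.red (δ - dY deg I u0 m0 α) g ≠ 0 := by
    intro α
    by_cases h1 : α ∈ A
    · by_cases h2 : p α = 0
      · exact ⟨0, 0, fun _ h => absurd h2 h⟩
      · obtain ⟨N, g, h3⟩ := D'.RR_div E' subset_rfl _ (p α) (hp α h1) h2
        exact ⟨N, g, fun _ _ => h3⟩
    · exact ⟨0, 0, fun h => absurd h h1⟩
  choose N g hg using hdiv
  set A' := A.filter (fun α => p α ≠ 0) with hA'
  have hA'ne : A'.Nonempty := ⟨α00, Finset.mem_filter.2 ⟨hα00, hpα00⟩⟩
  obtain ⟨α1, hα1, hmin⟩ := Finset.exists_min_image A' N hA'ne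
  have hα1A := (Finset.mem_filter.1 hα1).1
  have hα1p := (Finset.mem_filter.1 hα1).2
  set p' : (ι → ℤ) → 𝔽 := fun α => if p α = 0 then 0 else t ^ (N α - N α1) • g α with hp'
  have hp1 : ∀ α ∈ A, p α = t ^ N α1 • p' α := by
    intro α hα
    by_cases h2 : p α = 0
    · simp [hp', h2]
    · have h3 := hmin α (Finset.mem_filter.2 ⟨hα, h2⟩)
      simp only [hp', if_neg h2]
      rw [smul_smul, ← pow_add, show N α1 + (N α - N α1) = N α by omega]
      exact (hg α hα h2).2.1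
  have hp2 : ∀ α ∈ A, p' α ∈ D'.RR E' (δ - dY deg I u0 m0 α) := by
    intro α hα
    by_cases h2 : p α = 0
    · simp [hp', h2]
    · simp only [hp', if_neg h2]
      exact Submodule.smul_mem _ _ (hg α hα h2).1
  have hp3 : p' α1 = g α1 := by
    simp only [hp', if_neg hα1p, Nat.sub_self, pow_zero, one_smul]
  have hsum : ∑ α ∈ A, p' α * Yp I Y α = 0 := by
    apply k8a_tpow_inj D (N α1)
    rw [smul_zero, Finset.smul_sum, ← h]
    refine Finset.sum_congr rfl fun α hα => ?_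
    rw [hp1 α hα, smul_mul_assoc]
  have hT : ∀ α ∈ A, p' α ∈ D.T (δ - dY deg I u0 m0 α) := fun α hα => k8a_T S _ _ (hp2 α hα)
  have hred : ∀ γ f, D'.red γ f = D.red γ f := fun γ f => by rw [S.base.red_eq]
  have hterm : ∀ α ∈ A, p' α * Yp I Y α ∈ D.T δ ∧
      D.red δ (p' α * Yp I Y α) = D'.red (δ - dY deg I u0 m0 α) (p' α) * mono K (eY I u0 m0 α) := by
    intro α hα
    obtain ⟨h1, h2⟩ := Yp_mem S α (hA α hα)
    have h3 := D.mul_mem _ _ _ _ (hT α hα) h1
    have h4 := D.red_mul _ _ _ _ (hT α hα) h1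
    rw [sub_add_cancel] at h3 h4
    exact ⟨h3, by rw [h4, h2, hred]⟩
  have hR : ∑ α ∈ A, D'.red (δ - dY deg I u0 m0 α) (p' α) * mono K (eY I u0 m0 α) = 0 := by
    rw [← D.red_z δ, ← hsum, D.red_sum δ A _ fun α hα => (hterm α hα).1]
    exact Finset.sum_congr rfl fun α hα => ((hterm α hα).2).symm
  obtain ⟨u, hu⟩ : ∃ u, (D'.red (δ - dY deg I u0 m0 α1) (p' α1)).coeff u ≠ 0 := by
    by_contra hcon
    push Not at hcon
    apply (hg α1 hα1A hα1p).2.2
    rw [← hp3]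
    apply AddMonoidAlgebra.coeff_injective
    ext u
    rw [hcon u]
    simp
  have hus : SupIn (V \ I) u := (D'.red_supp _ _ (D'.mem_RR.1 (hp2 α1 hα1A)).1 u hu).1
  have hc := congrArg (fun z : KZ K ι => z.coeff (u + eY I u0 m0 α1)) hR
  simp only [mono, AddMonoidAlgebra.coeff_sum, Finsupp.coe_finsetSum, Finset.sum_apply,
    AddMonoidAlgebra.coeff_zero, Finsupp.coe_zero, Pi.zero_apply] at hc
  rw [Finset.sum_eq_single α1] at hc
  · rw [AddMonoidAlgebra.coeff_mul_single_add, mul_one] at hc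
    exact hu hc
  · intro α hα hne
    rw [AddMonoidAlgebra.coeff_mul_single_apply, mul_one]
    by_contra h0
    have h1 := (D'.red_supp _ _ (D'.mem_RR.1 (hp2 α hα)).1 _ h0).1
    apply hne
    funext i
    by_cases hi : i ∈ I
    · have hi' : i ∉ V \ I := fun h => (Finset.mem_sdiff.1 h).2 hi
      have h2 := h1 i hi'
      have h3 := hus i hi'
      have h4 := S.u0_supp i hi'
      simp only [eY, Pi.add_apply, Pi.neg_apply, Pi.smul_apply, h3, h4, smul_zero, add_zero, zero_add] at h2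
      omega
    · rw [hA α hα i hi, hA α1 hα1A i hi]
  · intro h0
    exact absurd hα1A h0

end Pool.Agent.TOR
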