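import Pool.Agent.TOR.K9a

namespace Pool.Agent.TOR

open Set

universe u

variable {R K 𝔽 : Type u} [CommRing R] [Field K] [Algebra R K] [Field 𝔽] [Algebra R 𝔽] {t : R}
  {ι Γ : Type} [Fintype ι] [DecidableEq ι] [AddCommGroup Γ] {deg : (ι → ℤ) →+ Γ} {V E : Finset ι}
  {D : Dat R K 𝔽 t deg V E} {I E' : Finset ι} {D' : Dat R K 𝔽 t deg (V \ I) E'}
    {β u0 : ι → ℤ} {m0 : ℕ} {Y : ι → 𝔽} (S : Setup D I E' D' β u0 m0 Y)

include S

/-- Independent families in the base (`S.blift`, `lifts_indep` for `D'`). -/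
theorem base_fam (m : ℕ) (hm : 1 ≤ m) (C : Finset (ι → ℤ)) (hC : ∀ u, u ∈ C ↔ u ∈ Cnt deg (V \ I) E' (m • deg u0)) :
    ∃ w : C → 𝔽, (∀ u, w u ∈ D'.RR E' (m • deg u0)) ∧ ∀ r : C → R, ∑ u, r u • w u = 0 → r = 0 := by
  refine (lifts_indep D' E' (m • deg u0) C fun u hu => ?_).imp fun w hw => ⟨hw.1, hw.2.2⟩
  have h1 := (hC u).1 hu
  obtain ⟨f, hf, hr⟩ := S.blift m hm u h1
  rw [h1.2.1] at hf hr
  exact ⟨f, hf, hr⟩


/-- elements of the base are elements of `D` -/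
theorem k9_RR_le (γ : Γ) (f : 𝔽) (hf : f ∈ D'.RR E' γ) : f ∈ D.RR (I ∪ E') γ := by
  by_cases h : ∃ w : ι → ℤ, SupIn (V \ I) w ∧ deg w = γ
  · obtain ⟨w, hw, rfl⟩ := h
    exact (base_RR S.base E' subset_rfl w hw f).1 hf
  · rw [base_RR_out S.base E' γ h f hf]
    exact Submodule.zero_mem _

/-- SPAN. Let `c m = ncard (Cnt deg (V \ I) E' (m • deg u0))`, `A = Aset`, `m1` from `cnt_star`. For `α ∈ A` the degree `γ - dY α` is `deg (w_α - (∑ α) m0 u0)`, so by `base_ne` there are `m2` (common to all `α ∈ A`) and nonzero `h α ∈ D'.RR E' (γ - dY α + m2 • deg u0)`.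
For `m > m2` consider the family: `w * w_u`, `u ∈ Cnt (m • deg u0)`, and `Yp α * h α * w'_u`, `α ∈ A`, `u ∈ Cnt ((m - m2) • deg u0)` (`w_u`, `w'_u` the independent families of `base_fam`). All are in `D.RR (I ∪ E') (γ + m • deg u0)` (`base_RR`, `Yp_mem_RR`, `RR_mul`), `c m + #A c (m - m2)` elements.
If they were `R`-independent for every `m > m2` then (`dep_of_card` with `S = Cnt deg V (I ∪ E') _`, `cnt_star`) `c m + #A c (m - m2) ≤ #A c (m + m1)`; as `c (m - m2) ≤ c m` (`cnt_shift` by `m2 • u0`), `(#A + 1) c m' ≤ #A c (m' + (m1 + m2))` for `m' = m - m2 ≥ 1`; against `growth` (`S.cpoly`, `1 ≤ c m'` since `m' • u0 ∈ Cnt`; `N = #A`, if `#A = 0` directly).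
A nontrivial relation gives `w * P + ∑ α, Yp α * (h α * P α) = 0` with `P ∈ D'.RR E' (m • deg u0)`, `P α ∈ D'.RR E' ((m - m2) • deg u0)`. If `P = 0` then `h α * P α = 0` by `Y_indep_poly`, so all coefficients vanish. So `P ≠ 0` and `q α = - h α * P α / P`. -/
theorem span_Y (γ : Γ) (w : 𝔽) (hw : w ∈ D.RR (I ∪ E') γ) :
    ∃ q : (ι → ℤ) → 𝔽, (∀ α ∈ (Aset_finite S γ).toFinset, q α ∈ D'.Fr E' (γ - dY deg I u0 m0 α)) ∧
      w = ∑ α ∈ (Aset_finite S γ).toFinset, q α * Yp I Y α := by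
  classical
  have hIE : I ∪ E' ⊆ E := Finset.union_subset S.base.IE S.base.E'E
  set A := (Aset_finite S γ).toFinset with hA
  have hAm : ∀ α, α ∈ A ↔ α ∈ Aset deg V I γ := fun α => (Aset_finite S γ).mem_toFinset
  set c : ℕ → ℕ := fun m => (Cnt deg (V \ I) E' (m • deg u0)).ncard with hc
  -- the degrees `γ - dY α`
  have hdeg : ∀ α ∈ A, ∃ w' : ι → ℤ, SupIn (V \ I) w' ∧ deg w' = γ - dY deg I u0 m0 α := by
    intro α hα
    obtain ⟨-, -, w', hw', hd⟩ := (hAm α).1 hα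
    refine ⟨w' - (∑ i ∈ I, α i) • (m0 • u0), fun i hi => ?_, ?_⟩
    · simp [hw' i hi, S.u0_supp i hi]
    · rw [map_sub, hd, dY, eY, map_add]
      abel
  have hne : ∀ α ∈ A, ∃ m1 : ℕ, ∀ m ≥ m1, ∃ f ∈ D'.RR E' (γ - dY deg I u0 m0 α + m • deg u0), f ≠ 0 := by
    intro α hα
    obtain ⟨w', hw', hd⟩ := hdeg α hα
    rw [← hd]
    exact base_ne S w' hw'
  choose! M hM using hne
  set m2 : ℕ := A.sup M with hm2
  have hne2 : ∀ α ∈ A, ∃ f ∈ D'.RR E' (γ - dY deg I u0 m0 α + m2 • deg u0), f ≠ 0 :=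
    fun α hα => hM α hα m2 (Finset.le_sup hα)
  choose! h hh hh0 using hne2
  obtain ⟨m1, hm1⟩ := cnt_star S γ
  obtain ⟨C, n, hCn⟩ := S.cpoly
  have hAn : (Aset deg V I γ).ncard = A.card := Set.ncard_eq_toFinset_card _ (Aset_finite S γ)
  have hcpos : ∀ m, 1 ≤ m → 1 ≤ c m := by
    intro m hm
    rw [hc]
    refine (Set.ncard_pos (S.cfin _)).2 ⟨m • u0, fun i hi => by simp [S.u0_supp i hi], map_nsmul _ _ _, fun l hl => ?_⟩
    have := S.u0_pos l hl
    simp only [Pi.smul_apply, nsmul_eq_mul]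
    positivity
  have hcm : ∀ m, c m ≤ c (m + m2) := by
    intro m
    have h1 : m • deg u0 + deg (m2 • u0) = (m + m2) • deg u0 := by rw [map_nsmul, add_smul]
    have h2 := (cnt_shift deg (V \ I) E' (m • deg u0) (m2 • u0) (fun i hi => by simp [S.u0_supp i hi])
      (fun l hl => by
        have := S.u0_pos l hl
        simp only [Pi.smul_apply, nsmul_eq_mul]
        positivity) (S.cfin _)).2
    rw [h1] at h2
    exact h2
  have key : ∃ m', 1 ≤ m' ∧ (Cnt deg V (I ∪ E') (γ + (m' + m2) • deg u0)).ncard < c (m' + m2) + A.card * c m' := by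
    by_contra hcon
    push Not at hcon
    have h3 : ∀ m', 1 ≤ m' → (A.card + 1) * c m' ≤ A.card * c (m' + (m1 + m2)) := by
      intro m' hm'
      have h4 := hcon m' hm'
      have h5 := (hm1 (m' + m2)).2
      rw [hAn] at h5
      have h6 : c (m' + m2 + m1) = c (m' + (m1 + m2)) := by congr 1; omega
      have h7 : (Cnt deg (V \ I) E' ((m' + m2 + m1) • deg u0)).ncard = c (m' + m2 + m1) := rfl
      rw [h7, h6] at h5
      have h8 := hcm m'
      nlinarith
    rcases Nat.eq_zero_or_pos A.card with h0 | h0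
    · have h4 := h3 1 le_rfl
      rw [h0] at h4
      have h5 := hcpos 1 le_rfl
      omega
    · exact growth c C n A.card (m1 + m2) 1 h0 (fun m hm => hcpos m hm) hCn h3
  obtain ⟨m', hm', hlt⟩ := key
  obtain ⟨y, hy1, hy2⟩ := base_fam S (m' + m2) (by omega) (S.cfin ((m' + m2) • deg u0)).toFinset
    (fun u => (S.cfin _).mem_toFinset)
  obtain ⟨y', hy1', hy2'⟩ := base_fam S m' hm' (S.cfin (m' • deg u0)).toFinset
    (fun u => (S.cfin _).mem_toFinset)
  have hfin := (hm1 (m' + m2)).1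
  have hmem : ∀ α ∈ A, ∀ z ∈ D'.RR E' (m' • deg u0), h α * z ∈ D'.RR E' (γ + (m' + m2) • deg u0 - dY deg I u0 m0 α) := by
    intro α hα z hz
    have := D'.RR_mul E' subset_rfl _ _ _ _ (hh α hα) hz
    rwa [show γ - dY deg I u0 m0 α + m2 • deg u0 + m' • deg u0 = γ + (m' + m2) • deg u0 - dY deg I u0 m0 α by
      rw [add_smul]; abel] at this
  obtain ⟨r, hr, hr'⟩ := D.dep_of_card (I ∪ E') hIE (γ + (m' + m2) • deg u0) hfin.toFinset
    (fun u a1 a2 a3 => hfin.mem_toFinset.2 ⟨a1, a2, a3⟩)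
    (J := (S.cfin ((m' + m2) • deg u0)).toFinset ⊕ (A × (S.cfin (m' • deg u0)).toFinset))
    (Sum.elim (fun u => w * y u) (fun u => h u.1 * y' u.2 * Yp I Y u.1)) (by
      rintro (j | j)
      · exact D.RR_mul _ hIE _ _ _ _ hw (k9_RR_le S _ _ (hy1 j))
      · have h1 := k9_RR_le S _ _ (hmem j.1 j.1.2 _ (hy1' j.2))
        have hα := (hAm _).1 j.1.2
        have h2 := Yp_mem_RR S (j.1 : ι → ℤ) hα.1 hα.2.1
        have := D.RR_mul _ hIE _ _ _ _ h1 h2
        rwa [sub_add_cancel] at this)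
    (by
      rw [Fintype.card_sum, Fintype.card_prod, Fintype.card_coe, Fintype.card_coe, Fintype.card_coe,
        ← Set.ncard_eq_toFinset_card _ hfin, ← Set.ncard_eq_toFinset_card _ (S.cfin _),
        ← Set.ncard_eq_toFinset_card _ (S.cfin _)]
      exact hlt)
  rw [Fintype.sum_sum_type, Fintype.sum_prod_type] at hr'
  simp only [Sum.elim_inl, Sum.elim_inr] at hr'
  set P : 𝔽 := ∑ u, r (Sum.inl u) • y u with hP
  set PP' : A → 𝔽 := fun α => ∑ u, r (Sum.inr (α, u)) • y' u with hPP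
  have hrel : w * P + ∑ α : A, h α * PP' α * Yp I Y α = 0 := by
    rw [hP, Finset.mul_sum, ← hr']
    congr 1
    · exact Finset.sum_congr rfl fun u _ => by rw [mul_smul_comm]
    · refine Finset.sum_congr rfl fun α _ => ?_
      rw [hPP, Finset.mul_sum, Finset.sum_mul]
      refine Finset.sum_congr rfl fun u _ => ?_
      rw [mul_smul_comm, smul_mul_assoc]
  have hPm : P ∈ D'.RR E' ((m' + m2) • deg u0) := Submodule.sum_mem _ fun u _ => Submodule.smul_mem _ _ (hy1 u)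
  have hPm' : ∀ α, PP' α ∈ D'.RR E' (m' • deg u0) := fun α => Submodule.sum_mem _ fun u _ => Submodule.smul_mem _ _ (hy1' u)
  -- the coefficient functions on all exponents
  set F : (ι → ℤ) → 𝔽 := fun α => if hα : α ∈ A then h α * PP' ⟨α, hα⟩ else 0 with hF
  have hF1 : ∀ α : A, F α = h α * PP' α := fun α => by rw [hF]; simp
  have hF2 : ∀ α ∈ A, F α ∈ D'.RR E' (γ + (m' + m2) • deg u0 - dY deg I u0 m0 α) := fun α hα => by
    rw [hF1 ⟨α, hα⟩]
    exact hmem α hα _ (hPm' _)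
  have hrel2 : w * P + ∑ α ∈ A, F α * Yp I Y α = 0 := by
    rw [← hrel, ← Finset.sum_coe_sort A]
    congr 1
    exact Finset.sum_congr rfl fun α _ => by rw [hF1]
  have hP0 : P ≠ 0 := by
    intro h0
    have h1 : (fun u => r (Sum.inl u)) = 0 := hy2 _ h0
    rw [h0, mul_zero, zero_add] at hrel2
    have h2 := Y_indep_poly S A (fun α hα => ((hAm α).1 hα).1) _ F hF2 hrel2
    apply hr
    funext j
    rcases j with j | ⟨α, j⟩
    · exact congrFun h1 j
    · have h3 := h2 α α.2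
      rw [hF1] at h3
      rcases mul_eq_zero.1 h3 with h4 | h4
      · exact absurd h4 (hh0 α α.2)
      · exact congrFun (hy2' (fun u => r (Sum.inr (α, u))) h4) j
  refine ⟨fun α => -F α / P, fun α hα => ?_, ?_⟩
  · refine ⟨(m' + m2) • deg u0, -F α, P, Submodule.neg_mem _ ?_, hPm, hP0, rfl⟩
    have := hF2 α hα
    rwa [show γ + (m' + m2) • deg u0 - dY deg I u0 m0 α = (m' + m2) • deg u0 + (γ - dY deg I u0 m0 α) by abel] at this
  · have h1 : ∑ α ∈ A, -F α / P * Yp I Y α = -(∑ α ∈ A, F α * Yp I Y α) / P := by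
      rw [← Finset.sum_neg_distrib, Finset.sum_div]
      exact Finset.sum_congr rfl fun α _ => by ring
    rw [h1, eq_div_iff hP0]
    exact eq_neg_of_add_eq_zero_left hrel2

end Pool.Agent.TOR
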