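import Pool.Agent.TOR.K8
import Pool.Agent.TOR.K5

namespace Pool.Agent.TOR

open Set

universe u

variable {R K 𝔽 : Type u} [CommRing R] [Field K] [Algebra R K] [Field 𝔽] [Algebra R 𝔽] {t : R}
  {ι Γ : Type} [Fintype ι] [DecidableEq ι] [AddCommGroup Γ] {deg : (ι → ℤ) →+ Γ} {V E : Finset ι}
  {D : Dat R K 𝔽 t deg V E} {I E' : Finset ι} {D' : Dat R K 𝔽 t deg (V \ I) E'}
    {β u0 : ι → ℤ} {m0 : ℕ} {Y : ι → 𝔽} (S : Setup D I E' D' β u0 m0 Y)

/-- the possible exponents on `I` in degree `γ` -/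
def Aset (deg : (ι → ℤ) →+ Γ) (V I : Finset ι) (γ : Γ) : Set (ι → ℤ) :=
  {α | SupIn I α ∧ (∀ i ∈ I, 0 ≤ α i) ∧ ∃ w : ι → ℤ, SupIn (V \ I) w ∧ deg w = γ - deg α}

include S

/-- Finitely many. For `α, α' ∈ Aset`: `α + w - α' - w' ∈ MV deg V` (`I ⊆ E ⊆ V`), so `∑ β i α i = ∑ β i α' i =: b` (`w = w' = 0` on `I`, `β = 0` off `I`); `0 ≤ α i ≤ b` as `β i ≥ 1` on `I`. -/
theorem Aset_finite (γ : Γ) : (Aset deg V I γ).Finite := by
  classical
  rcases Set.eq_empty_or_nonempty (Aset deg V I γ) with h0 | ⟨α0, h0⟩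
  · rw [h0]
    exact Set.finite_empty
  · obtain ⟨h1, h2, w0, hw0, hd0⟩ := h0
    have hIV : I ⊆ V := S.base.IE.trans D.EV
    have key : ∀ α ∈ Aset deg V I γ, ∑ i, β i * α i = ∑ i, β i * α0 i := by
      rintro α ⟨ha1, ha2, w, hw, hd⟩
      have hm : α + w - α0 - w0 ∈ MV deg V := by
        rw [mem_MV]
        constructor
        · intro i hi
          have hi1 : i ∉ I := fun h => hi (hIV h)
          have hi2 : i ∉ V \ I := fun h => hi (Finset.mem_sdiff.mp h).1
          simp only [Pi.sub_apply, Pi.add_apply]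
          rw [ha1 i hi1, hw i hi2, h1 i hi1, hw0 i hi2]
          simp
        · rw [map_sub, map_sub, map_add, hd, hd0]
          abel
      have h3 := S.β_rel _ hm
      have h4 : ∀ i, β i * (α + w - α0 - w0) i = β i * α i - β i * α0 i := by
        intro i
        simp only [Pi.sub_apply, Pi.add_apply]
        by_cases hi : i ∈ I
        · have hi2 : i ∉ V \ I := fun h => (Finset.mem_sdiff.mp h).2 hi
          rw [hw i hi2, hw0 i hi2]
          ring
        · rw [S.β_zero i hi]
          ring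
      rw [Finset.sum_congr rfl (fun i _ => h4 i), Finset.sum_sub_distrib] at h3
      exact sub_eq_zero.mp h3
    apply (Set.finite_Icc (0 : ι → ℤ) (fun _ => ∑ i, β i * α0 i)).subset
    intro α hα
    have h3 := key α hα
    obtain ⟨ha1, ha2, -⟩ := hα
    have hnn : ∀ i, 0 ≤ β i * α i := by
      intro i
      by_cases hi : i ∈ I
      · exact mul_nonneg (S.β_pos i hi).le (ha2 i hi)
      · rw [S.β_zero i hi, zero_mul]
    have hle : ∀ i, β i * α i ≤ ∑ i, β i * α0 i := by
      intro i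
      rw [← h3]
      exact Finset.single_le_sum (f := fun i => β i * α i) (fun i _ => hnn i) (Finset.mem_univ i)
    constructor
    · intro i
      by_cases hi : i ∈ I
      · exact ha2 i hi
      · rw [ha1 i hi]
        rfl
    · intro i
      by_cases hi : i ∈ I
      · have h5 := S.β_pos i hi
        have h6 := ha2 i hi
        have h7 := hle i
        change α i ≤ ∑ i, β i * α0 i
        nlinarith
      · rw [ha1 i hi]
        exact (hnn i).trans (hle i)

/-- Counting. For `α ∈ Aset` choose `w_α`; `m1` with `m1 • u0 - w_α ≥ 0` on `E'` for all `α` (`u0 ≥ 1` there). The map `u ↦ (α, u|_{V \ I} - w_α + m1 • u0)`, `α = u|_I` (restrictions extended by zero), is injective from `Cnt deg V (I ∪ E') (γ + m • deg u0)` to `Aset × Cnt deg (V \ I) E' ((m + m1) • deg u0)`: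
`α ∈ Aset` because `u - α - m • u0` is supported in `V \ I` and has degree `γ - deg α`. -/
theorem cnt_star (γ : Γ) : ∃ m1 : ℕ, ∀ m : ℕ, (Cnt deg V (I ∪ E') (γ + m • deg u0)).Finite ∧
    (Cnt deg V (I ∪ E') (γ + m • deg u0)).ncard ≤ (Aset deg V I γ).ncard * (Cnt deg (V \ I) E' ((m + m1) • deg u0)).ncard := by
  classical
  have hA := Aset_finite S γ
  have hIV : I ⊆ V := S.base.IE.trans D.EV
  have hex : ∀ α : ι → ℤ, ∃ w : ι → ℤ, α ∈ Aset deg V I γ → SupIn (V \ I) w ∧ deg w = γ - deg α := by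
    intro α
    by_cases hα : α ∈ Aset deg V I γ
    · obtain ⟨w, hw⟩ := hα.2.2
      exact ⟨w, fun _ => hw⟩
    · exact ⟨0, fun h => absurd h hα⟩
  choose w hw using hex
  refine ⟨∑ α ∈ hA.toFinset, ∑ l, (w α l).natAbs, fun m => ?_⟩
  set m1 := ∑ α ∈ hA.toFinset, ∑ l, (w α l).natAbs with hm1
  have hwle : ∀ α ∈ Aset deg V I γ, ∀ l, w α l ≤ m1 := by
    intro α hα l
    have h1 : (w α l).natAbs ≤ ∑ l, (w α l).natAbs :=
      Finset.single_le_sum (f := fun l => (w α l).natAbs) (fun _ _ => Nat.zero_le _)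
        (Finset.mem_univ l)
    have h2 : ∑ l, (w α l).natAbs ≤ m1 :=
      Finset.single_le_sum (f := fun α => ∑ l, (w α l).natAbs) (fun _ _ => Nat.zero_le _)
        (hA.mem_toFinset.mpr hα)
    have h3 : w α l ≤ ((w α l).natAbs : ℤ) := Int.le_natAbs
    omega
  let al : (ι → ℤ) → (ι → ℤ) := fun u i => if i ∈ I then u i else 0
  let ρ : (ι → ℤ) → (ι → ℤ) := fun u i => if i ∈ I then 0 else u i
  have hsum : ∀ u, al u + ρ u = u := by
    intro u
    funext i
    simp only [al, ρ, Pi.add_apply]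
    split_ifs <;> simp
  let ψ : (ι → ℤ) → (ι → ℤ) × (ι → ℤ) := fun u => (al u, ρ u - w (al u) + m1 • u0)
  have hmaps : ∀ u ∈ Cnt deg V (I ∪ E') (γ + m • deg u0),
      ψ u ∈ Aset deg V I γ ×ˢ Cnt deg (V \ I) E' ((m + m1) • deg u0) := by
    rintro u ⟨hu1, hu2, hu3⟩
    have hal : al u ∈ Aset deg V I γ := by
      refine ⟨fun i hi => ?_, fun i hi => ?_, ρ u - m • u0, fun i hi => ?_, ?_⟩
      · simp only [al, if_neg hi]
      · simp only [al, if_pos hi]
        exact hu3 i (Finset.mem_union_left _ hi)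
      · simp only [ρ, Pi.sub_apply, Pi.smul_apply, S.u0_supp i hi, smul_zero, sub_zero]
        split_ifs with h
        · rfl
        · exact hu1 i fun hV => hi (Finset.mem_sdiff.mpr ⟨hV, h⟩)
      · rw [map_sub, map_nsmul]
        have h1 := congrArg deg (hsum u)
        rw [map_add, hu2] at h1
        rw [sub_eq_iff_eq_add, eq_sub_of_add_eq' h1]
        abel
    obtain ⟨hw1, hw2⟩ := hw (al u) hal
    refine Set.mem_prod.mpr ⟨hal, fun i hi => ?_, ?_, fun l hl => ?_⟩
    · simp only [ψ, ρ, Pi.add_apply, Pi.sub_apply, Pi.smul_apply, S.u0_supp i hi, hw1 i hi,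
        smul_zero, sub_zero, add_zero]
      split_ifs with h
      · rfl
      · exact hu1 i fun hV => hi (Finset.mem_sdiff.mpr ⟨hV, h⟩)
    · change deg (ρ u - w (al u) + m1 • u0) = _
      have h1 := congrArg deg (hsum u)
      rw [map_add, hu2] at h1
      rw [map_add, map_sub, map_nsmul, hw2, eq_sub_of_add_eq' h1, add_smul]
      abel
    · have h1 : l ∉ I := S.base.disj l hl
      have h2 := hu3 l (Finset.mem_union_right _ hl)
      have h3 := S.u0_pos l hl
      have h4 := hwle (al u) hal l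
      have e1 : (m1 • u0) l = m1 * u0 l := by rw [Pi.smul_apply, nsmul_eq_mul]
      have e2 : ρ u l = u l := by simp only [ρ, if_neg h1]
      change 0 ≤ ρ u l - w (al u) l + (m1 • u0) l
      rw [e1, e2]
      have h5 : (m1 : ℤ) ≤ m1 * u0 l := by
        have : (0 : ℤ) ≤ m1 := Int.natCast_nonneg _
        nlinarith
      linarith
  have hinj : Set.InjOn ψ (Cnt deg V (I ∪ E') (γ + m • deg u0)) := by
    intro u _ v _ huv
    have h1 : al u = al v := congrArg Prod.fst huv
    have h2 : ρ u - w (al u) + m1 • u0 = ρ v - w (al v) + m1 • u0 := congrArg Prod.snd huv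
    rw [h1] at h2
    have h3 : ρ u = ρ v := by
      have := add_right_cancel h2
      exact sub_left_injective this
    rw [← hsum u, ← hsum v, h1, h3]
  have hfin : (Aset deg V I γ ×ˢ Cnt deg (V \ I) E' ((m + m1) • deg u0)).Finite :=
    hA.prod (S.cfin _)
  refine ⟨Set.Finite.of_injOn hmaps hinj hfin, ?_⟩
  rw [← Set.ncard_prod]
  exact Set.ncard_le_ncard_of_injOn ψ hmaps hinj hfin

end Pool.Agent.TOR
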